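import Mathlib
set_option autoImplicit false
namespace Pool.Agent.Helper495_SP

section
variable {p : ℕ} [Fact p.Prime]
    {V : Type*} [AddCommGroup V] [Module (ZMod p) V]

theorem kerD_aux (D : Module.End (ZMod p) V) (s : ℕ)
    (hker1 : ∀ v, D v = 0 → ∃ w, v = (D ^ (s - 1)) w) :
    ∀ i, i ≤ s → ∀ z, (D ^ i) z = 0 → ∃ l, z = (D ^ (s - i)) l := by
  intro i
  induction i with
  | zero => intro _ z hz; exact ⟨0, by simpa using hz⟩
  | succ i ih =>
    intro hi z hz
    have h1 : (D ^ i) (D z) = 0 := by
      rw [← Module.End.mul_apply, ← pow_succ]; exact hz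
    obtain ⟨l, hl⟩ := ih (by omega) (D z) h1
    have h2 : D (z - (D ^ (s - (i + 1))) l) = 0 := by
      rw [map_sub, ← Module.End.mul_apply D, ← pow_succ', show s - (i + 1) + 1 = s - i by omega,
        hl, sub_self]
    obtain ⟨w, hw⟩ := hker1 _ h2
    refine ⟨l + (D ^ i) w, ?_⟩
    rw [map_add, ← Module.End.mul_apply (D ^ (s - (i + 1))), ← pow_add,
      show s - (i + 1) + i = s - 1 by omega, ← hw]
    abel

/-- the family `dbar ^ i b_j` is a basis of `V` -/
theorem exists_family [Module.Finite (ZMod p) V] (s : ℕ) (hs : 2 ≤ s)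
    (dbar : Module.End (ZMod p) V) (hnil : (dbar - 1) ^ s = 0)
    (hfree : ∀ v, dbar v = v → ∃ w, v = ((dbar - 1) ^ (s - 1)) w) :
    ∃ (n : ℕ) (b : Fin n → V),
      LinearIndependent (ZMod p) (fun k : Fin s × Fin n => (dbar ^ (k.1 : ℕ)) (b k.2)) ∧
      ⊤ ≤ Submodule.span (ZMod p) (Set.range fun k : Fin s × Fin n =>
        (dbar ^ (k.1 : ℕ)) (b k.2)) := by
  classical
  set D : Module.End (ZMod p) V := dbar - 1 with hD
  have hker1 : ∀ v, D v = 0 → ∃ w, v = (D ^ (s - 1)) w := by
    intro v hv
    apply hfree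
    have : dbar v - v = 0 := by simpa [hD] using hv
    exact sub_eq_zero.1 this
  have hk := kerD_aux D s hker1 (s - 1) (by omega)
  rw [show s - (s - 1) = 1 by omega] at hk
  let Q := V ⧸ LinearMap.range D
  let B : Module.Basis (Fin (Module.finrank (ZMod p) Q)) (ZMod p) Q := Module.finBasis (ZMod p) Q
  choose b hb using fun j => Submodule.mkQ_surjective (LinearMap.range D) (B j)
  -- span of the `D ^ i b_j`
  set W : Submodule (ZMod p) V := Submodule.span (ZMod p)
    (Set.range fun k : Fin s × Fin (Module.finrank (ZMod p) Q) => (D ^ (k.1 : ℕ)) (b k.2)) with hW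
  have hWD : ∀ x ∈ W, D x ∈ W := by
    intro x hx
    induction hx using Submodule.span_induction with
    | mem x hx =>
      obtain ⟨⟨i, j⟩, rfl⟩ := hx
      simp only
      rw [← Module.End.mul_apply, ← pow_succ']
      by_cases hi : (i : ℕ) + 1 < s
      · exact Submodule.subset_span ⟨(⟨i + 1, hi⟩, j), rfl⟩
      · have : (i : ℕ) + 1 = s := by have := i.2; omega
        rw [this, hnil]
        exact zero_mem _
    | zero => rw [map_zero]; exact zero_mem _
    | add x y _ _ hx hy => rw [map_add]; exact add_mem hx hy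
    | smul c x _ hx => rw [map_smul]; exact W.smul_mem c hx
  have hbW : ∀ j, b j ∈ W := fun j =>
    Submodule.subset_span ⟨(⟨0, by omega⟩, j), by simp⟩
  have hsum : ∀ v, ∃ w ∈ W, ∃ u, v = w + D u := by
    intro v
    have h1 := B.sum_repr (Submodule.mkQ (LinearMap.range D) v)
    have h2 : Submodule.mkQ (LinearMap.range D)
        (∑ j, B.repr (Submodule.mkQ (LinearMap.range D) v) j • b j) =
        Submodule.mkQ (LinearMap.range D) v := by
      rw [map_sum]
      simp only [map_smul, hb]
      exact h1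
    have h3 : v - ∑ j, B.repr (Submodule.mkQ (LinearMap.range D) v) j • b j ∈
        LinearMap.range D := by
      refine (Submodule.Quotient.mk_eq_zero (LinearMap.range D)).1 ?_
      have h4 : Submodule.mkQ (LinearMap.range D)
          (v - ∑ j, B.repr (Submodule.mkQ (LinearMap.range D) v) j • b j) = 0 := by
        rw [map_sub, h2, sub_self]
      exact h4
    obtain ⟨u, hu⟩ := h3
    refine ⟨∑ j, B.repr (Submodule.mkQ (LinearMap.range D) v) j • b j,
      Submodule.sum_mem W fun j _ => W.smul_mem _ (hbW j), u, ?_⟩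
    rw [hu]; abel
  have hsum' : ∀ n v, ∃ w ∈ W, ∃ u, v = w + (D ^ n) u := by
    intro n
    induction n with
    | zero => intro v; exact ⟨0, zero_mem _, v, by simp⟩
    | succ n ih =>
      intro v
      obtain ⟨w, hw, u, rfl⟩ := ih v
      obtain ⟨w', hw', u', rfl⟩ := hsum u
      refine ⟨w + (D ^ n) w', add_mem hw ?_, u', ?_⟩
      · clear * - hw' hWD
        induction n with
        | zero => simpa using hw'
        | succ n ih =>
          rw [pow_succ', Module.End.mul_apply]
          exact hWD _ ih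
      · rw [map_add, pow_succ, Module.End.mul_apply]; abel
  have hWtop : W = ⊤ := by
    rw [eq_top_iff]
    intro v _
    obtain ⟨w, hw, u, rfl⟩ := hsum' s v
    rw [hnil]
    simpa using hw
  -- independence
  have hli : LinearIndependent (ZMod p)
      (fun k : Fin s × Fin (Module.finrank (ZMod p) Q) => (D ^ (k.1 : ℕ)) (b k.2)) := by
    rw [Fintype.linearIndependent_iff]
    intro a ha
    have key : ∀ i : ℕ, ∀ hi : i < s, ∀ j, a (⟨i, hi⟩, j) = 0 := by
      intro i
      induction i using Nat.strong_induction_on with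
      | _ i ih =>
        intro hi
        have h1 : (D ^ (s - 1)) (∑ j, a (⟨i, hi⟩, j) • b j) = 0 := by
          have h2 : (D ^ (s - 1 - i)) (∑ k : Fin s × Fin (Module.finrank (ZMod p) Q),
              a k • (D ^ (k.1 : ℕ)) (b k.2)) = 0 := by rw [ha, map_zero]
          rw [map_sum, Fintype.sum_prod_type] at h2
          rw [Finset.sum_eq_single (⟨i, hi⟩ : Fin s)] at h2
          · rw [map_sum]
            rw [← h2]
            refine Finset.sum_congr rfl fun j _ => ?_
            rw [map_smul, map_smul, ← Module.End.mul_apply, ← pow_add]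
            simp only
            rw [show s - 1 - i + i = s - 1 by omega]
          · intro i' _ hne
            refine Finset.sum_eq_zero fun j _ => ?_
            rcases lt_or_gt_of_ne (fun h : (i' : ℕ) = i => hne (Fin.ext h)) with h | h
            · have := ih i' h i'.2 j
              rw [show a (i', j) = 0 from this, zero_smul, map_zero]
            · rw [map_smul, ← Module.End.mul_apply, ← pow_add,
                show s - 1 - i + (i' : ℕ) = s + ((i' : ℕ) - i - 1) by omega, pow_add, hnil,
                zero_mul]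
              simp
          · intro h; exact absurd (Finset.mem_univ _) h
        obtain ⟨l, hl⟩ := hk _ h1
        rw [pow_one] at hl
        have h3 : Submodule.mkQ (LinearMap.range D) (∑ j, a (⟨i, hi⟩, j) • b j) = 0 := by
          rw [hl]
          exact (Submodule.Quotient.mk_eq_zero (LinearMap.range D)).2 ⟨l, rfl⟩
        rw [map_sum] at h3
        simp only [map_smul, hb] at h3
        exact Fintype.linearIndependent_iff.1 B.linearIndependent _ h3
    rintro ⟨i, j⟩
    exact key i i.2 j
  have hcard : Fintype.card (Fin s × Fin (Module.finrank (ZMod p) Q)) =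
      Module.finrank (ZMod p) V := by
    have h1 := finrank_span_eq_card hli
    rw [← hW, hWtop, finrank_top] at h1
    exact h1.symm
  have hspan : ⊤ ≤ Submodule.span (ZMod p) (Set.range fun k : Fin s ×
      Fin (Module.finrank (ZMod p) Q) => (dbar ^ (k.1 : ℕ)) (b k.2)) := by
    rw [← hWtop, hW, Submodule.span_le]
    rintro _ ⟨⟨i, j⟩, rfl⟩
    simp only
    have h1 : D ^ (i : ℕ) = ∑ m ∈ Finset.range ((i : ℕ) + 1),
        (dbar ^ m * (-1) ^ ((i : ℕ) - m) * ((i : ℕ).choose m : ℕ) : Module.End (ZMod p) V) := by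
      have h2 : D = dbar + (-1) := by rw [hD]; abel
      rw [h2]
      exact (Commute.neg_one_right dbar).add_pow i
    rw [h1, LinearMap.sum_apply]
    refine Submodule.sum_mem _ fun m hm => ?_
    have hm' : m < s := by have := Finset.mem_range.1 hm; have := i.2; omega
    have h3 : (dbar ^ m * (-1) ^ ((i : ℕ) - m) * ((i : ℕ).choose m : ℕ) :
        Module.End (ZMod p) V) (b j) =
        ((-1 : ZMod p) ^ ((i : ℕ) - m) * ((i : ℕ).choose m : ℕ)) • (dbar ^ m) (b j) := by
      rw [mul_assoc, Module.End.mul_apply]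
      have h4 : ((-1 : Module.End (ZMod p) V) ^ ((i : ℕ) - m) * ((i : ℕ).choose m : ℕ)) (b j) =
          ((-1 : ZMod p) ^ ((i : ℕ) - m) * ((i : ℕ).choose m : ℕ)) • b j := by
        rw [Module.End.mul_apply, mul_smul]
        have h5 : (((i : ℕ).choose m : ℕ) : Module.End (ZMod p) V) (b j) =
            (((i : ℕ).choose m : ℕ) : ZMod p) • b j := by
          rw [Module.End.natCast_apply, Nat.cast_smul_eq_nsmul]
        rw [h5]
        rcases Nat.even_or_odd ((i : ℕ) - m) with h | h
        · rw [h.neg_one_pow, h.neg_one_pow, one_smul]; rfl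
        · rw [h.neg_one_pow, h.neg_one_pow, neg_one_smul]; rfl
      rw [h4, map_smul]
    rw [h3]
    exact Submodule.smul_mem _ _ (Submodule.subset_span ⟨(⟨m, hm'⟩, j), rfl⟩)
  exact ⟨_, b, linearIndependent_of_top_le_span_of_card_eq_finrank hspan hcard, hspan⟩

end

theorem trace_zero {p : ℕ} [Fact p.Prime] {M : Type*} [AddCommGroup M] [Module ℤ_[p] M]
    [Module.Finite ℤ_[p] M] [Module.Free ℤ_[p] M]
    {V : Type*} [AddCommGroup V] [Module (ZMod p) V] (ρ : M →+ V)
    (hρ : Function.Surjective ρ)
    (hsemi : ∀ (c : ℤ_[p]) (m : M), ρ (c • m) = (PadicInt.toZMod c) • ρ m)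
    (hker : ∀ m, ρ m = 0 → ∃ m', m = (p : ℤ_[p]) • m')
    (s : ℕ) (hs : 2 ≤ s) (d : Module.End ℤ_[p] M) (dbar : Module.End (ZMod p) V)
    (hd : d ^ s = 1) (hdd : ∀ m, ρ (d m) = dbar (ρ m)) (hnil : (dbar - 1) ^ s = 0)
    (hfree : ∀ v, dbar v = v → ∃ w, v = ((dbar - 1) ^ (s - 1)) w) :
    LinearMap.trace ℤ_[p] M d = 0 := by
  classical
  have hfin : Module.Finite (ZMod p) V := by
    obtain ⟨S, hS⟩ := (Module.Finite.fg_top : (⊤ : Submodule ℤ_[p] M).FG)
    refine ⟨⟨S.image ρ, ?_⟩⟩
    rw [eq_top_iff]
    rintro v -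
    obtain ⟨m, rfl⟩ := hρ v
    have hm : m ∈ Submodule.span ℤ_[p] (S : Set M) := by rw [hS]; trivial
    induction hm using Submodule.span_induction with
    | mem x hx => exact Submodule.subset_span (by simpa using ⟨x, hx, rfl⟩)
    | zero => rw [map_zero]; exact zero_mem _
    | add x y _ _ hx hy => rw [map_add]; exact add_mem hx hy
    | smul c x _ hx => rw [hsemi]; exact Submodule.smul_mem _ _ hx
  obtain ⟨n, b, hli, hspan⟩ := exists_family s hs dbar hnil hfree
  choose c hc using fun j => hρ (b j)
  have hddn : ∀ (i : ℕ) m, ρ ((d ^ i) m) = (dbar ^ i) (ρ m) := by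
    intro i
    induction i with
    | zero => intro m; simp
    | succ i ih =>
      intro m
      rw [pow_succ', pow_succ', Module.End.mul_apply, Module.End.mul_apply, hdd, ih]
  let f : Fin s × Fin n → M := fun k => (d ^ (k.1 : ℕ)) (c k.2)
  have hρf : ∀ k, ρ (f k) = (dbar ^ (k.1 : ℕ)) (b k.2) := fun k => by
    rw [hddn, hc]
  -- the ideal
  let I : Ideal ℤ_[p] := Ideal.span {(p : ℤ_[p])}
  have hI : I ≤ Ideal.jacobson ⊥ := by
    rw [show I = IsLocalRing.maximalIdeal ℤ_[p] from PadicInt.maximalIdeal_eq_span_p.symm]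
    exact IsLocalRing.maximalIdeal_le_jacobson _
  have hmem : ∀ m, ρ m = 0 → m ∈ I • (⊤ : Submodule ℤ_[p] M) := by
    intro m hm
    obtain ⟨m', rfl⟩ := hker m hm
    exact Submodule.smul_mem_smul (Ideal.subset_span rfl) trivial
  have hsurjZ : Function.Surjective (PadicInt.toZMod : ℤ_[p] →+* ZMod p) :=
    ZMod.ringHom_surjective _
  -- spanning
  have hspanM : ⊤ ≤ Submodule.span ℤ_[p] (Set.range f) := by
    refine Submodule.le_of_le_smul_of_le_jacobson_bot Module.Finite.fg_top hI ?_
    rintro m -
    have h1 : ρ m ∈ Submodule.span (ZMod p) (Set.range fun k : Fin s × Fin n =>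
        (dbar ^ (k.1 : ℕ)) (b k.2)) := hspan trivial
    obtain ⟨a, ha⟩ := (Submodule.mem_span_range_iff_exists_fun (ZMod p)).1 h1
    choose a' ha' using fun k => hsurjZ (a k)
    have h2 : ρ (m - ∑ k, a' k • f k) = 0 := by
      rw [map_sub, map_sum]
      simp only [hsemi, ha', hρf]
      rw [ha, sub_self]
    have h3 : m = (∑ k, a' k • f k) + (m - ∑ k, a' k • f k) := by abel
    rw [h3]
    refine Submodule.add_mem_sup ?_ (hmem _ h2)
    exact Submodule.sum_mem _ fun k _ => Submodule.smul_mem _ _ (Submodule.subset_span ⟨k, rfl⟩)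
  -- independence
  have hliM : LinearIndependent ℤ_[p] f := by
    rw [Fintype.linearIndependent_iff]
    let Φ : (Fin s × Fin n → ℤ_[p]) →ₗ[ℤ_[p]] M := Fintype.linearCombination ℤ_[p] f
    have hΦ : ∀ x, Φ x = ∑ k, x k • f k := fun x => Fintype.linearCombination_apply _ _ _
    have hbot : LinearMap.ker Φ = ⊥ := by
      apply Submodule.eq_bot_of_le_smul_of_le_jacobson_bot I _ (IsNoetherian.noetherian _) _ hI
      intro x hx
      rw [LinearMap.mem_ker, hΦ] at hx
      have h1 : ∀ k, PadicInt.toZMod (x k) = 0 := by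
        have h2 : ∑ k, PadicInt.toZMod (x k) • (dbar ^ (k.1 : ℕ)) (b k.2) = 0 := by
          rw [← map_zero ρ, ← hx, map_sum]
          simp only [hsemi, hρf]
        exact Fintype.linearIndependent_iff.1 hli _ h2
      have h3 : ∀ k, ∃ y : ℤ_[p], x k = (p : ℤ_[p]) * y := by
        intro k
        have h4 : x k ∈ RingHom.ker (PadicInt.toZMod : ℤ_[p] →+* ZMod p) := h1 k
        rw [PadicInt.ker_toZMod, PadicInt.maximalIdeal_eq_span_p, Ideal.mem_span_singleton'] at h4
        obtain ⟨y, hy⟩ := h4
        exact ⟨y, by rw [← hy, mul_comm]⟩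
      choose y hy using h3
      have h5 : x = (p : ℤ_[p]) • y := by
        funext k
        rw [hy k]; rfl
      have h6 : y ∈ LinearMap.ker Φ := by
        rw [LinearMap.mem_ker]
        have h7 : (p : ℤ_[p]) • Φ y = 0 := by
          rw [← map_smul, ← h5, hΦ]; exact hx
        rcases smul_eq_zero.1 h7 with h8 | h8
        · exfalso
          have : (p : ℤ_[p]) ≠ 0 := by
            exact_mod_cast (Fact.out : p.Prime).ne_zero
          exact this h8
        · exact h8
      rw [h5]
      exact Submodule.smul_mem_smul (Ideal.subset_span rfl) h6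
    intro g hg
    have h1 : g ∈ LinearMap.ker Φ := by rw [LinearMap.mem_ker, hΦ]; exact hg
    rw [hbot, Submodule.mem_bot] at h1
    intro i
    rw [h1]; rfl
  let B : Module.Basis (Fin s × Fin n) ℤ_[p] M := Module.Basis.mk hliM hspanM
  have hB : ∀ k, B k = f k := fun k => by simp [B]
  rw [LinearMap.trace_eq_matrix_trace ℤ_[p] B, Matrix.trace]
  refine Finset.sum_eq_zero fun k _ => ?_
  rw [Matrix.diag_apply, LinearMap.toMatrix_apply, hB]
  obtain ⟨i, j⟩ := k
  have hnext : ∃ i' : Fin s, i' ≠ i ∧ d (f (i, j)) = f (i', j) := by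
    by_cases hi : (i : ℕ) + 1 < s
    · refine ⟨⟨i + 1, hi⟩, ?_, ?_⟩
      · intro h
        have := congrArg Fin.val h
        simp only at this
        omega
      · simp only [f]
        rw [pow_succ', Module.End.mul_apply]
    · have hi' : (i : ℕ) + 1 = s := by have := i.2; omega
      refine ⟨⟨0, by omega⟩, ?_, ?_⟩
      · intro h
        have := congrArg Fin.val h
        simp only at this
        omega
      · simp only [f]
        rw [← Module.End.mul_apply, ← pow_succ', hi', hd]
        simp
  obtain ⟨i', hne, hd'⟩ := hnext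
  rw [hd', ← hB, Module.Basis.repr_self, Finsupp.single_apply, if_neg]
  intro h
  exact hne (Prod.ext_iff.1 h).1

end Pool.Agent.Helper495_SP
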