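import Mathlib
set_option autoImplicit false
namespace Pool.Agent.Helper495_SP
variable {k : Type*} [Field k] {V : Type*} [AddCommGroup V] [Module k V] [FiniteDimensional k V]

omit [FiniteDimensional k V] in
lemma ker_pow_aux (r : ℕ) (E : Module.End k V)
    (h : ∀ v, E v = 0 → ∃ w, v = (E ^ (r - 1)) w) :
    ∀ i : ℕ, 1 ≤ i → i ≤ r → ∀ z, (E ^ i) z = 0 → ∃ l, z = (E ^ (r - i)) l := by
  intro i hi
  induction i, hi using Nat.le_induction with
  | base =>
    intro _ z hz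
    rw [pow_one] at hz
    exact h z hz
  | succ i hi ih =>
    intro hir z hz
    have hz' : (E ^ i) (E z) = 0 := by
      rw [← Module.End.mul_apply, ← pow_succ]; exact hz
    obtain ⟨l, hl⟩ := ih (by omega) (E z) hz'
    have hsplit : E (z - (E ^ (r - (i + 1))) l) = 0 := by
      rw [map_sub, hl, ← Module.End.mul_apply, ← pow_succ']
      have : r - (i + 1) + 1 = r - i := by omega
      rw [this, sub_self]
    obtain ⟨w, hw⟩ := h _ hsplit
    refine ⟨l + (E ^ i) w, ?_⟩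
    rw [map_add, ← Module.End.mul_apply (E ^ (r - (i + 1))) (E ^ i), ← pow_add]
    have : r - (i + 1) + i = r - 1 := by omega
    rw [this, ← hw]
    abel

theorem ker_le_of_pow (c r : ℕ) (hc : 1 ≤ c) (hr : 2 ≤ r) (D : Module.End k V)
    (hD : D ^ (c * r) = 0)
    (h : ∀ v, (D ^ c) v = 0 → ∃ w, v = (D ^ (c * (r - 1))) w) :
    ∀ v, D v = 0 → ∃ w, v = (D ^ (c * r - 1)) w := by
  intro v hv
  have hkill : ∀ (n : ℕ), 1 ≤ n → ∀ u : V, D u = 0 → (D ^ n) u = 0 := by
    intro n hn u hu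
    obtain ⟨m, rfl⟩ : ∃ m, n = m + 1 := ⟨n - 1, by omega⟩
    rw [pow_succ, Module.End.mul_apply, hu, map_zero]
  have hE : ∀ v, (D ^ c) v = 0 → ∃ w, v = ((D ^ c) ^ (r - 1)) w := by
    intro v hv
    obtain ⟨w, hw⟩ := h v hv
    exact ⟨w, by rw [← pow_mul]; exact hw⟩
  have haux := ker_pow_aux r (D ^ c) hE (r - 1) (by omega) (by omega)
  obtain ⟨l, hl⟩ := h v (hkill c hc v hv)
  have h1 : ((D ^ c) ^ (r - 1)) (D l) = 0 := by
    rw [← pow_mul, ← Module.End.mul_apply, ← pow_succ, pow_succ', Module.End.mul_apply, ← hl, hv]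
  obtain ⟨l', hl'⟩ := haux (D l) h1
  have e1 : r - (r - 1) = 1 := by omega
  rw [e1, pow_one] at hl'
  have h2 : D (l - (D ^ (c - 1)) l') = 0 := by
    rw [map_sub, hl', ← Module.End.mul_apply, ← pow_succ']
    have : c - 1 + 1 = c := by omega
    rw [this, sub_self]
  have hpos : 1 ≤ c * (r - 1) := Nat.one_le_iff_ne_zero.mpr (Nat.mul_ne_zero (by omega) (by omega))
  have h3 := hkill (c * (r - 1)) hpos _ h2
  rw [map_sub, ← hl, ← Module.End.mul_apply, ← pow_add, sub_eq_zero] at h3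
  refine ⟨l', ?_⟩
  rw [h3]
  have : c * (r - 1) + (c - 1) = c * r - 1 := by
    obtain ⟨s, rfl⟩ : ∃ s, r = s + 1 := ⟨r - 1, by omega⟩
    rw [Nat.add_sub_cancel, Nat.mul_succ]
    omega
  rw [this]

end Pool.Agent.Helper495_SP
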