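import Mathlib
set_option autoImplicit false
namespace Pool.Agent.Helper495_SP

theorem trace_formula {R G : Type*} [CommRing R] [Group G] [Fintype G]
    (g : G) (z : MonoidAlgebra R G) :
    LinearMap.trace R (MonoidAlgebra R G)
      (LinearMap.mulLeft R (MonoidAlgebra.single g⁻¹ (1 : R)) ∘ₗ LinearMap.mulRight R z) =
      ∑ m : G, z.coeff (m⁻¹ * g * m) := by
  classical
  rw [LinearMap.trace_eq_matrix_trace R (MonoidAlgebra.basis G R), Matrix.trace]
  refine Finset.sum_congr rfl fun m _ => ?_
  rw [Matrix.diag_apply, LinearMap.toMatrix_apply]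
  have h1 : (MonoidAlgebra.basis G R) m = MonoidAlgebra.single m (1 : R) := by
    apply (MonoidAlgebra.basis G R).repr.injective
    rw [Module.Basis.repr_self]
    rfl
  rw [h1]
  change (MonoidAlgebra.single g⁻¹ (1 : R) * (MonoidAlgebra.single m (1 : R) * z)).coeff m = _
  rw [← mul_assoc, MonoidAlgebra.single_mul_single, one_mul]
  rw [MonoidAlgebra.coeff_single_mul_eq_mul_coeff (m⁻¹ * g * m), one_mul]
  intro m' _
  constructor
  · intro h
    rw [← mul_right_inj (g⁻¹ * m), h]
    group
  · rintro rfl
    group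

end Pool.Agent.Helper495_SP
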