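import Mathlib
set_option autoImplicit false

/-!
Definitions for the proofs about torsion units of integral group rings.
-/

namespace Pool.Agent.Helper495_SP

/-- the sum of the coefficients at the elements whose order has `p`-part `p ^ a` -/
noncomputable def fv {G : Type*} [Group G] [Fintype G] (p a : ℕ) (x : MonoidAlgebra ℤ G) : ℤ :=
  ∑ g : G, x.coeff g * (if (orderOf g).factorization p = a then 1 else 0)

/-- the operators in the expansion of a homomorphism from the additive group of a finite field to
operators, in powers of the argument -/
noncomputable def DD {F : Type*} [Field F] [Fintype F] {V : Type*} [AddCommGroup V] [Module F V]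
    (A : F → Module.End F V) (i : ℕ) : Module.End F V :=
  if i = 0 then 1 else - ∑ a : F, a ^ (Fintype.card F - 1 - i) • A a

/-- the vectors killed by the operators with indices `p ^ j`, `s ≤ j < r` -/
def SS {F : Type*} [Field F] [Fintype F] {V : Type*} [AddCommGroup V] [Module F V]
    (p r : ℕ) (A : F → Module.End F V) (s : ℕ) : Submodule F V where
  carrier := {v | ∀ j, s ≤ j → j < r → DD A (p ^ j) v = 0}
  add_mem' := by
    intro a b ha hb j h1 h2
    rw [map_add, ha j h1 h2, hb j h1 h2, add_zero]
  zero_mem' := fun j _ _ => map_zero _
  smul_mem' := by
    intro c x hx j h1 h2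
    rw [map_smul, hx j h1 h2, smul_zero]

end Pool.Agent.Helper495_SP
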