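import Mathlib
import Pool.Agent.H71R2.Idem.Frob
set_option autoImplicit false
namespace Pool.Agent.Helper495_SP

/-- The additive functional `x ↦ ∑ x_g φ(g)` reduced modulo `r`. -/
noncomputable def pcT {G : Type*} [Group G] [Fintype G] (r : ℕ) (φ : G → ℤ) :
    MonoidAlgebra ℤ G →+ ZMod r where
  toFun x := ((∑ g, x.coeff g * φ g : ℤ) : ZMod r)
  map_zero' := by simp
  map_add' x y := by
    rw [← Int.cast_add, ← Finset.sum_add_distrib]
    congr 1
    refine Finset.sum_congr rfl fun g _ => ?_
    rw [MonoidAlgebra.coeff_add, Finsupp.add_apply, add_mul]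

theorem pcT_apply {G : Type*} [Group G] [Fintype G] (r : ℕ) (φ : G → ℤ) (x : MonoidAlgebra ℤ G) :
    pcT r φ x = ((∑ g, x.coeff g * φ g : ℤ) : ZMod r) := rfl

theorem pcT_single {G : Type*} [Group G] [Fintype G] (r : ℕ) (φ : G → ℤ) (g : G) (c : ℤ) :
    pcT r φ (MonoidAlgebra.single g c) = ((c * φ g : ℤ) : ZMod r) := by
  classical
  rw [pcT_apply, Finset.sum_eq_single g]
  · rw [MonoidAlgebra.coeff_single, Finsupp.single_eq_same]
  · intro h _ hne
    rw [MonoidAlgebra.coeff_single, Finsupp.single_eq_of_ne hne, zero_mul]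
  · intro h
    exact absurd (Finset.mem_univ g) h

theorem pcT_comm {G : Type*} [Group G] [Fintype G] (r : ℕ) (φ : G → ℤ)
    (hφ : ∀ a b : G, φ (a * b) = φ (b * a)) (x y : MonoidAlgebra ℤ G) :
    pcT r φ (x * y) = pcT r φ (y * x) := by
  induction x using MonoidAlgebra.induction_linear with
  | zero => simp
  | add a b ha hb => rw [add_mul, mul_add, map_add, map_add, ha, hb]
  | single g r' =>
    induction y using MonoidAlgebra.induction_linear with
    | zero => simp
    | add a b ha hb => rw [add_mul, mul_add, map_add, map_add, ha, hb]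
    | single h s =>
      rw [MonoidAlgebra.single_mul_single, MonoidAlgebra.single_mul_single, pcT_single,
        pcT_single, hφ, mul_comm r' s]

theorem power_congr {G : Type*} [Group G] [Fintype G] (r : ℕ) (hr : r.Prime) (φ : G → ℤ)
    (hφ : ∀ a b : G, φ (a * b) = φ (b * a)) (b : MonoidAlgebra ℤ G) :
    (r : ℤ) ∣ (∑ g, (b ^ r).coeff g * φ g) - ∑ g, b.coeff g * φ (g ^ r) := by
  have : Fact r.Prime := ⟨hr⟩
  have key : pcT r φ (b ^ r) = pcT r (fun g => φ (g ^ r)) b := by
    induction b using MonoidAlgebra.induction_linear with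
    | zero => rw [zero_pow hr.ne_zero, map_zero, map_zero]
    | add x y hx hy =>
      rw [Pool.Agent.H71R2.Idem.trace_add_pow r (pcT r φ) (pcT_comm r φ hφ) x y, hx, hy, map_add]
    | single g c =>
      rw [MonoidAlgebra.single_pow, pcT_single, pcT_single]
      push_cast
      rw [ZMod.pow_card]
  rw [pcT_apply, pcT_apply] at key
  rw [← ZMod.intCast_zmod_eq_zero_iff_dvd, Int.cast_sub, key, sub_self]

end Pool.Agent.Helper495_SP
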