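import Mathlib
import Pool.Agent.Helper495_SP.Defs
import Pool.Agent.Helper495_SP.J01
set_option autoImplicit false
namespace Pool.Agent.Helper495_SP

theorem fv_const_exists_prime (p q a : ℕ) (hp : p.Prime) (hq : q.Prime) (hpq : p ≠ q) (j : ℕ)
    (hj : ¬ q ∣ j) (N : ℕ) : ∃ r > N, r.Prime ∧ r ≡ 1 [MOD p ^ a] ∧ r ≡ j [MOD q] := by
  have hco : (p ^ a).Coprime q := Nat.Coprime.pow_left a ((Nat.coprime_primes hp hq).2 hpq)
  obtain ⟨k, hk1, hk2⟩ := Nat.chineseRemainder hco 1 j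
  have hk3 : k.Coprime (p ^ a * q) := by
    refine Nat.Coprime.mul_right ?_ ?_
    · unfold Nat.Coprime
      rw [hk1.gcd_eq]
      exact Nat.gcd_one_left _
    · unfold Nat.Coprime
      rw [hk2.gcd_eq, Nat.gcd_comm]
      exact (Nat.Prime.coprime_iff_not_dvd hq).2 hj
  obtain ⟨r, hr, hrp, hrk⟩ := Nat.forall_exists_prime_gt_and_modEq N (q := p ^ a * q) (a := k)
    (Nat.mul_ne_zero (pow_ne_zero _ hp.ne_zero) hq.ne_zero) hk3
  exact ⟨r, hr, hrp, (hrk.of_mul_right q).trans hk1, (hrk.of_mul_left (p ^ a)).trans hk2⟩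

theorem fv_const {G : Type*} [Group G] [Fintype G] (p q a : ℕ) (hp : p.Prime) (hq : q.Prime)
    (hpq : p ≠ q) (v w : (MonoidAlgebra ℤ G)ˣ) (hvw : Commute v w)
    (hv : orderOf v = p ^ a) (hw : orderOf w = q) (j : ℕ) (hj : ¬ q ∣ j) :
    fv p a ((v * w ^ j : (MonoidAlgebra ℤ G)ˣ) : MonoidAlgebra ℤ G) =
      fv p a ((v * w : (MonoidAlgebra ℤ G)ˣ) : MonoidAlgebra ℤ G) := by
  obtain ⟨x, hx⟩ : ∃ x, x = fv p a ((v * w ^ j : (MonoidAlgebra ℤ G)ˣ) : MonoidAlgebra ℤ G) :=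
    ⟨_, rfl⟩
  obtain ⟨y, hy⟩ : ∃ y, y = fv p a ((v * w : (MonoidAlgebra ℤ G)ˣ) : MonoidAlgebra ℤ G) :=
    ⟨_, rfl⟩
  obtain ⟨r, hrN, hrp, hr1, hr2⟩ := fv_const_exists_prime p q a hp hq hpq j hj
    (Fintype.card G + (x - y).natAbs)
  have hpow : (v * w) ^ r = v * w ^ j := by
    rw [hvw.mul_pow]
    have h1 : v ^ r = v ^ 1 := pow_eq_pow_iff_modEq.2 (by rw [hv]; exact hr1)
    have h2 : w ^ r = w ^ j := pow_eq_pow_iff_modEq.2 (by rw [hw]; exact hr2)
    rw [h1, h2, pow_one]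
  have hord : ∀ g : G, orderOf (g ^ r) = orderOf g := by
    intro g
    refine Nat.Coprime.orderOf_pow ?_
    rw [Nat.coprime_comm, Nat.Prime.coprime_iff_not_dvd hrp]
    intro hd
    have h1 := Nat.le_of_dvd (orderOf_pos g) hd
    have h2 := orderOf_le_card_univ (x := g)
    omega
  have key := power_congr r hrp
    (fun g : G => (if (orderOf g).factorization p = a then 1 else 0 : ℤ)) (by
      intro a b
      have : orderOf (a * b) = orderOf (b * a) :=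
        SemiconjBy.orderOf_eq b (show b * (a * b) = (b * a) * b by rw [mul_assoc])
      simp only [this])
    ((v * w : (MonoidAlgebra ℤ G)ˣ) : MonoidAlgebra ℤ G)
  simp only [hord] at key
  rw [← Units.val_pow_eq_pow_val, hpow] at key
  have key' : (r : ℤ) ∣ x - y := by
    rw [hx, hy]
    exact key
  have hlt : |x - y| < (r : ℤ) := by
    rw [Int.abs_eq_natAbs]
    exact_mod_cast lt_of_le_of_lt (Nat.le_add_left _ _) hrN
  have h0 := Int.eq_zero_of_abs_lt_dvd key' hlt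
  rw [← hx, ← hy]
  exact sub_eq_zero.1 h0

end Pool.Agent.Helper495_SP
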