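import Mathlib
import Pool.Agent.TH189.Aut2
set_option autoImplicit false
namespace Pool.Agent.Helper495_SP

open Pool.Agent.TH189.Aut in
/-- Finite-order endomorphism with integral trace `n * c`: `c` is `0`, or the map is `1` or `-1`. -/
theorem finOrder_trace_aux (n : ℕ) (hn : 0 < n) (T : Module.End ℂ (Fin n → ℂ)) (m : ℕ)
    (hm : 0 < m) (hT : T ^ m = 1) (c : ℤ) (htr : LinearMap.trace ℂ (Fin n → ℂ) T = n * (c : ℂ)) :
    c = 0 ∨ T = 1 ∨ T = -1 := by
  have hfr : Module.finrank ℂ (Fin n → ℂ) = n := by simp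
  have hT' : T ^ m = (1 : ℂ) • 1 := by rw [hT, one_smul]
  have hroot : ∀ μ ∈ T.charpoly.roots, ‖μ‖ = 1 := by
    intro μ hμ
    exact Complex.norm_eq_one_of_pow_eq_one (root_pow T m 1 hT' μ hμ) hm.ne'
  have hb : ‖LinearMap.trace ℂ (Fin n → ℂ) T‖ ≤ n := by
    rw [trace_eq]
    have h1 := norm_multiset_sum_le T.charpoly.roots
    refine h1.trans ?_
    have h2 : (T.charpoly.roots.map fun x : ℂ => ‖x‖) =
        T.charpoly.roots.map (fun _ => (1 : ℝ)) := Multiset.map_congr rfl hroot
    rw [h2, Multiset.map_const', Multiset.sum_replicate, card_roots, hfr]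
    simp
  rw [htr, norm_mul, Complex.norm_natCast, Complex.norm_intCast] at hb
  have hn' : (0 : ℝ) < n := by exact_mod_cast hn
  have hc1 : |(c : ℝ)| ≤ 1 := by
    by_contra hcon
    rw [not_le] at hcon
    nlinarith
  have hc2 : |c| ≤ 1 := by exact_mod_cast hc1
  rw [abs_le] at hc2
  have hc3 : c = 0 ∨ c = 1 ∨ c = -1 := by omega
  rcases hc3 with h | h | h
  · exact Or.inl h
  · right; left
    refine eq_one_of_trace T m hm hT ?_
    rw [htr, h, hfr]; simp
  · right; right
    have h1 : (-T) = 1 := by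
      refine eq_one_of_trace (-T) (2 * m) (by omega) ?_ ?_
      · have h2 : (-T) ^ 2 = T ^ 2 := by
          rw [pow_two, pow_two]
          refine LinearMap.ext fun v => ?_
          change -(T (-(T v))) = T (T v)
          rw [map_neg, neg_neg]
        rw [pow_mul, h2, ← pow_mul, mul_comm 2 m, pow_mul, hT, one_pow]
      · rw [map_neg, htr, h, hfr]; simp
    rw [← h1, neg_neg]

/-- the left regular representation by matrices -/
noncomputable def regMat (G : Type*) [Group G] [Fintype G] [DecidableEq G] :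
    G →* Matrix G G ℂ where
  toFun g := Matrix.of fun i j => if i = g * j then 1 else 0
  map_one' := by
    ext i j
    simp [Matrix.one_apply]
  map_mul' g h := by
    ext i j
    rw [Matrix.mul_apply]
    simp only [Matrix.of_apply]
    rw [Finset.sum_eq_single (h * j)]
    · simp [mul_assoc]
    · intro b _ hb
      simp [hb]
    · simp

theorem regMat_apply {G : Type*} [Group G] [Fintype G] [DecidableEq G] (g i j : G) :
    regMat G g i j = if i = g * j then 1 else 0 := rfl

theorem lift_regMat_apply {G : Type*} [Group G] [Fintype G] [DecidableEq G]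
    (u : MonoidAlgebra ℤ G) (i j : G) :
    MonoidAlgebra.lift ℤ (Matrix G G ℂ) G (regMat G) u i j = ((u.coeff (i * j⁻¹) : ℤ) : ℂ) := by
  rw [MonoidAlgebra.lift_apply, Finsupp.sum_fintype _ _ (by simp), Matrix.sum_apply]
  rw [Finset.sum_eq_single (i * j⁻¹)]
  · rw [Matrix.smul_apply, regMat_apply]
    simp
  · intro b _ hb
    rw [Matrix.smul_apply, regMat_apply, if_neg, smul_zero]
    rintro rfl
    apply hb
    simp
  · simp

theorem berman_higman {G : Type*} [Group G] [Fintype G] (u : (MonoidAlgebra ℤ G)ˣ)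
    (haug : MonoidAlgebra.lift ℤ ℤ G (1 : G →* ℤ) (u : MonoidAlgebra ℤ G) = 1)
    (hu : IsOfFinOrder u) (hne : u ≠ 1) : (u : MonoidAlgebra ℤ G).coeff 1 = 0 := by
  classical
  obtain ⟨m, hm, hum⟩ := isOfFinOrder_iff_pow_eq_one.1 hu
  set n := Fintype.card G with hn
  have hnpos : 0 < n := Fintype.card_pos
  let e : G ≃ Fin n := Fintype.equivFin G
  let Φ : MonoidAlgebra ℤ G →ₐ[ℤ] Matrix G G ℂ := MonoidAlgebra.lift ℤ (Matrix G G ℂ) G (regMat G)
  have hΦ : ∀ (v : MonoidAlgebra ℤ G) (i j : G), Φ v i j = ((v.coeff (i * j⁻¹) : ℤ) : ℂ) :=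
    fun v i j => lift_regMat_apply v i j
  have hinj : Function.Injective Φ := by
    intro v w hvw
    ext g
    have h1 := congrFun (congrFun hvw g) 1
    rw [hΦ, hΦ] at h1
    simpa using h1
  let R : Matrix G G ℂ ≃ₐ[ℂ] Matrix (Fin n) (Fin n) ℂ := Matrix.reindexAlgEquiv ℂ ℂ e
  let S : Matrix (Fin n) (Fin n) ℂ ≃ₐ[ℂ] Module.End ℂ (Fin n → ℂ) := Matrix.toLinAlgEquiv'
  let T : Module.End ℂ (Fin n → ℂ) := S (R (Φ (u : MonoidAlgebra ℤ G)))
  have hTm : T ^ m = 1 := by
    have h0 : (u : MonoidAlgebra ℤ G) ^ m = 1 := by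
      rw [← Units.val_pow_eq_pow_val, hum, Units.val_one]
    rw [← map_pow, ← map_pow, ← map_pow, h0, map_one, map_one, map_one]
  have htr : LinearMap.trace ℂ (Fin n → ℂ) T =
      n * (((u : MonoidAlgebra ℤ G).coeff 1 : ℤ) : ℂ) := by
    have h1 : LinearMap.trace ℂ (Fin n → ℂ) T = Matrix.trace (R (Φ (u : MonoidAlgebra ℤ G))) :=
      Matrix.trace_toLin'_eq _
    rw [h1]
    have h2 : Matrix.trace (R (Φ (u : MonoidAlgebra ℤ G))) =
        ∑ i : Fin n, (((u : MonoidAlgebra ℤ G).coeff 1 : ℤ) : ℂ) := by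
      rw [Matrix.trace]
      refine Finset.sum_congr rfl fun i _ => ?_
      rw [Matrix.diag_apply]
      have h3 : R (Φ (u : MonoidAlgebra ℤ G)) i i = Φ (u : MonoidAlgebra ℤ G) (e.symm i) (e.symm i) :=
        rfl
      rw [h3, hΦ, mul_inv_cancel]
    rw [h2]
    simp
  rcases finOrder_trace_aux n hnpos T m hm hTm _ htr with h | h | h
  · exact h
  · exfalso
    apply hne
    ext1
    apply hinj
    apply R.injective
    apply S.injective
    change T = _
    rw [h, Units.val_one, map_one, map_one, map_one]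
  · exfalso
    have h1 : (u : MonoidAlgebra ℤ G) = -1 := by
      apply hinj
      apply R.injective
      apply S.injective
      change T = _
      rw [h, map_neg, map_neg, map_neg, map_one, map_one, map_one]
    rw [h1, map_neg, map_one] at haug
    norm_num at haug

end Pool.Agent.Helper495_SP
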