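import Mathlib
import Pool.Agent.H26R2.Bass.Main
set_option autoImplicit false

namespace Pool.Agent.Helper495_SP

open MonoidAlgebra
open Pool.Agent.H23R2.Cyc (ell ell_single ell_mul_comm ell_eq_sum tf tf_apply)
open Pool.Agent.H26R2.IdemLI (ch ch_coeff ch_injective)
open Pool.Agent.H26R2.Bass

/-- averages over the powers of an element of finite order are idempotent -/
lemma cv_idem {R A : Type*} [CommRing R] [Ring A] [Algebra R A] (a : A) (m : ℕ) (c : R)
    (hc : c * m = 1) (ha : a ^ m = 1) :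
    (c • ∑ i ∈ Finset.range m, a ^ i) * (c • ∑ i ∈ Finset.range m, a ^ i) =
      c • ∑ i ∈ Finset.range m, a ^ i := by
  obtain ⟨s, hs⟩ : ∃ s, s = ∑ i ∈ Finset.range m, a ^ i := ⟨_, rfl⟩
  have h1 : a * s = s := by
    have := mul_geom_sum a m
    rw [ha, sub_self, sub_mul, one_mul, ← hs] at this
    exact sub_eq_zero.1 this
  have h2 : ∀ i, a ^ i * s = s := by
    intro i
    induction i with
    | zero => rw [pow_zero, one_mul]
    | succ i ih => rw [pow_succ, mul_assoc, h1, ih]
  have h3 : (∑ i ∈ Finset.range m, a ^ i) * s = (m : R) • s := by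
    rw [Finset.sum_mul, Finset.sum_congr rfl (fun i _ => h2 i), Finset.sum_const,
      Finset.card_range, Nat.cast_smul_eq_nsmul]
  rw [← hs] at h3 ⊢
  rw [smul_mul_smul_comm, h3, smul_smul, mul_assoc, hc, mul_one]

/-- a domain with a primitive root of unity of order `m`, with `1 / m`, in which the prime `r`
is not a unit -/
lemma cv_ring (m r : ℕ) (hm : 0 < m) (hr : r.Prime) (hmr : ¬ r ∣ m) :
    ∃ (R : Type) (_ : CommRing R) (_ : IsDomain R) (_ : CharZero R) (c ζ : R),
      c * (m : R) = 1 ∧ IsPrimitiveRoot ζ m ∧ ¬ IsUnit (r : R) := by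
  let O := integralClosure ℤ ℂ
  have hr0 : (r : ℂ) ≠ 0 := Nat.cast_ne_zero.2 hr.ne_zero
  have hr1 : ¬ IsUnit ((r : ℕ) : O) := by
    intro h
    obtain ⟨s, hs⟩ := h.exists_right_inv
    have h1 : IsIntegral ℤ (s : ℂ) := s.2
    have h2 : (s : ℂ) = algebraMap ℚ ℂ (1 / r : ℚ) := by
      have h3 : (r : ℂ) * (s : ℂ) = 1 := by
        have := congrArg Subtype.val hs
        simpa using this
      rw [map_div₀, map_one, map_natCast, eq_div_iff hr0, mul_comm]
      exact h3
    rw [h2, isIntegral_algebraMap_iff (algebraMap ℚ ℂ).injective] at h1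
    obtain ⟨n, hn⟩ := IsIntegrallyClosed.isIntegral_iff.1 h1
    have hr0' : (r : ℚ) ≠ 0 := Nat.cast_ne_zero.2 hr.ne_zero
    have h3 : (n : ℚ) * r = 1 := by
      have : (n : ℚ) = 1 / r := hn
      rw [this]
      field_simp
    have h4 : n * r = 1 := by exact_mod_cast h3
    have h5 : (r : ℤ) ∣ 1 := ⟨n, by rw [← h4, mul_comm]⟩
    have h6 : r ∣ 1 := by exact_mod_cast h5
    exact hr.one_lt.ne' (Nat.dvd_one.1 h6)
  obtain ⟨P, hP, hrP⟩ := Ideal.exists_le_maximal (Ideal.span {((r : ℕ) : O)})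
    (by rwa [Ne, Ideal.span_singleton_eq_top])
  have hP' : P.IsPrime := hP.isPrime
  have hrP' : ((r : ℕ) : O) ∈ P := hrP (Ideal.mem_span_singleton_self _)
  have hmP : ((m : ℕ) : O) ∉ P := by
    intro h
    have hco : IsCoprime (r : ℤ) (m : ℤ) :=
      Nat.isCoprime_iff_coprime.2 ((Nat.Prime.coprime_iff_not_dvd hr).2 hmr)
    obtain ⟨a, b, hab⟩ := hco
    have h1 : (a : O) * ((r : ℕ) : O) + (b : O) * ((m : ℕ) : O) = 1 := by
      exact_mod_cast congrArg (fun t : ℤ => (t : O)) hab
    apply hP.ne_top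
    rw [Ideal.eq_top_iff_one, ← h1]
    exact P.add_mem (P.mul_mem_left _ hrP') (P.mul_mem_left _ h)
  have hinj : Function.Injective (algebraMap O (Localization.AtPrime P)) :=
    IsLocalization.injective _ P.primeCompl_le_nonZeroDivisors
  have hmu : IsUnit (algebraMap O (Localization.AtPrime P) ((m : ℕ) : O)) :=
    IsLocalization.map_units (Localization.AtPrime P) (⟨((m : ℕ) : O), hmP⟩ : P.primeCompl)
  rw [map_natCast] at hmu
  obtain ⟨c, hc⟩ := hmu.exists_left_inv
  have hz0 : IsPrimitiveRoot (Complex.exp (2 * Real.pi * Complex.I / m)) m :=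
    Complex.isPrimitiveRoot_exp m hm.ne'
  obtain ⟨z, hz⟩ : ∃ z : O, (z : ℂ) = Complex.exp (2 * Real.pi * Complex.I / m) :=
    ⟨⟨_, hz0.isIntegral hm⟩, rfl⟩
  have hz1 : IsPrimitiveRoot z m := by
    rw [← hz] at hz0
    exact hz0.of_map_of_injective (f := algebraMap O ℂ) Subtype.val_injective
  refine ⟨Localization.AtPrime P, inferInstance,
    IsLocalization.isDomain_localization P.primeCompl_le_nonZeroDivisors,
    charZero_of_injective_algebraMap hinj, c, algebraMap O _ z, hc,
    hz1.map_of_injective hinj, ?_⟩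
  intro h
  rw [← map_natCast (algebraMap O (Localization.AtPrime P)) r,
    IsLocalization.AtPrime.isUnit_to_map_iff (Localization.AtPrime P) P] at h
  exact h hrP'

lemma cv_smul {R : Type*} [CommRing R] {G : Type*} [Group G] (f : G → R) (c : R)
    (x : MonoidAlgebra R G) : ell f (c • x) = c * ell f x := by
  induction x using MonoidAlgebra.induction_linear with
  | zero => simp
  | add x y hx hy => rw [smul_add, map_add, map_add, hx, hy, mul_add]
  | single g s => rw [MonoidAlgebra.smul_single, ell_single, ell_single, smul_eq_mul, mul_assoc]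

/-- sums of powers of roots of unity -/
lemma cv_root {R : Type*} [CommRing R] [IsDomain R] {ζ : R} {m : ℕ} (hζ : IsPrimitiveRoot ζ m)
    (j : ℕ) : ∑ l ∈ Finset.range m, (ζ ^ j) ^ l = if m ∣ j then (m : R) else 0 := by
  split_ifs with h
  · rw [(hζ.pow_eq_one_iff_dvd j).2 h]
    simp
  · have h1 : ζ ^ j ≠ 1 := fun h' => h ((hζ.pow_eq_one_iff_dvd j).1 h')
    have h2 := mul_geom_sum (ζ ^ j) m
    rw [← pow_mul, mul_comm j m, pow_mul, hζ.pow_eq_one, one_pow, sub_self] at h2
    exact (mul_eq_zero.1 h2).resolve_left (sub_ne_zero.2 h1)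

theorem class_vanish {G : Type*} [Group G] [Fintype G] (u : (MonoidAlgebra ℤ G)ˣ)
    (hu : IsOfFinOrder u) (r : ℕ) (hr : r.Prime) (hru : ¬ r ∣ orderOf u) (φ : G → ℤ)
    (hφ : ∀ a b : G, φ (a * b) = φ (b * a)) (hs : ∀ g, φ g ≠ 0 → r ∣ orderOf g) :
    ∑ g, (u : MonoidAlgebra ℤ G).coeff g * φ g = 0 := by
  classical
  have hm : 0 < orderOf u := orderOf_pos_iff.2 hu
  obtain ⟨R, _, _, _, c, ζ, hc, hζ, hrR⟩ := cv_ring (orderOf u) r hm hr hru
  obtain ⟨m, hmu⟩ : ∃ m, m = orderOf u := ⟨_, rfl⟩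
  rw [← hmu] at hm hc hζ
  obtain ⟨w, hw⟩ : ∃ w : MonoidAlgebra R G, w = ch (Int.castRingHom R) G u := ⟨_, rfl⟩
  have hwm : w ^ m = 1 := by
    have h1 : (u : MonoidAlgebra ℤ G) ^ m = 1 := by
      rw [hmu, ← Units.val_pow_eq_pow_val, pow_orderOf_eq_one, Units.val_one]
    rw [hw, ← map_pow, h1, map_one]
  have key : ∀ g : G, r ∣ orderOf g → ell (ind R g) w = 0 := by
    intro g hg
    have hgR : ¬ IsUnit ((orderOf g : ℕ) : R) := fun h =>
      hrR (isUnit_of_dvd_unit (Nat.cast_dvd_cast hg) h)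
    have hg0 : orderOf g ≠ 0 := (orderOf_pos g).ne'
    -- idempotents
    have hid : ∀ e : MonoidAlgebra R G, e * e = e → ell (ind R g) e = 0 := by
      intro e he
      have h1 := tf_zero_of_finite (n := 1) (Matrix.of fun _ _ => e)
        (by ext1 i j; rw [Matrix.mul_apply]; simp [he]) g hg0 hgR
      rw [tf_apply] at h1
      simpa using h1
    obtain ⟨x, hx⟩ : ∃ x : ℕ → R, ∀ i, x i = ell (ind R g) (w ^ i) := ⟨_, fun _ => rfl⟩
    have h1 : ∀ l : ℕ, ∑ i ∈ Finset.range m, (ζ ^ l) ^ i * x i = 0 := by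
      intro l
      have ha : ((ζ ^ l) • w) ^ m = 1 := by
        rw [smul_pow, hwm, ← pow_mul, mul_comm l m, pow_mul, hζ.pow_eq_one, one_pow, one_smul]
      have h2 := hid _ (cv_idem ((ζ ^ l) • w) m c hc ha)
      rw [cv_smul, map_sum] at h2
      have h3 : ∀ i ∈ Finset.range m, ell (ind R g) (((ζ ^ l) • w) ^ i) = (ζ ^ l) ^ i * x i := by
        intro i _
        rw [smul_pow, cv_smul, hx]
      rw [Finset.sum_congr rfl h3] at h2
      have hc0 : c ≠ 0 := by rintro rfl; rw [zero_mul] at hc; exact zero_ne_one hc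
      exact (mul_eq_zero.1 h2).resolve_left hc0
    have h2 : ∑ l ∈ Finset.range m, (ζ ^ (m - 1)) ^ l * ∑ i ∈ Finset.range m, (ζ ^ l) ^ i * x i
        = 0 := Finset.sum_eq_zero fun l _ => by rw [h1, mul_zero]
    have h3 : ∑ l ∈ Finset.range m, (ζ ^ (m - 1)) ^ l * ∑ i ∈ Finset.range m, (ζ ^ l) ^ i * x i
        = (m : R) * x (1 % m) := by
      simp_rw [Finset.mul_sum]
      rw [Finset.sum_comm]
      have h4 : ∀ i ∈ Finset.range m, ∑ l ∈ Finset.range m, (ζ ^ (m - 1)) ^ l * ((ζ ^ l) ^ i * x i)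
          = if i = 1 % m then (m : R) * x i else 0 := by
        intro i hi
        have h5 : ∀ l, (ζ ^ (m - 1)) ^ l * ((ζ ^ l) ^ i * x i) = (ζ ^ (m - 1 + i)) ^ l * x i := by
          intro l
          rw [← mul_assoc, ← pow_mul, ← pow_mul, ← pow_mul, ← pow_add]
          congr 2
          ring
        simp_rw [h5]
        rw [← Finset.sum_mul, cv_root hζ]
        have h6 : m ∣ m - 1 + i ↔ i = 1 % m := by
          have him := Finset.mem_range.1 hi
          rcases Nat.lt_or_ge 1 m with h | h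
          · rw [Nat.mod_eq_of_lt h]
            constructor
            · rintro ⟨k, hk⟩
              have hk1 : k = 1 := by
                have h7 : k < 2 := by
                  by_contra hcon
                  have : m * 2 ≤ m * k := Nat.mul_le_mul_left _ (by omega)
                  omega
                have h8 : k ≠ 0 := by rintro rfl; omega
                omega
              rw [hk1] at hk
              omega
            · rintro rfl
              exact ⟨1, by omega⟩
          · have : m = 1 := by omega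
            subst this
            simp
            omega
        by_cases h7 : i = 1 % m
        · rw [if_pos (h6.2 h7), if_pos h7]
        · rw [if_neg (fun h => h7 (h6.1 h)), if_neg h7, zero_mul]
      rw [Finset.sum_congr rfl h4, Finset.sum_ite_eq', if_pos]
      exact Finset.mem_range.2 (Nat.mod_lt _ hm)
    rw [h3] at h2
    have hm0 : (m : R) ≠ 0 := Nat.cast_ne_zero.2 hm.ne'
    have h4 := (mul_eq_zero.1 h2).resolve_left hm0
    rw [hx] at h4
    have h5 : w ^ (1 % m) = w := by
      conv_rhs => rw [← pow_one w, ← Nat.mod_add_div 1 m, pow_add, pow_mul, hwm, one_pow, mul_one]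
    rwa [h5] at h4
  have hφc : ∀ a b : G, IsConj a b → ((φ a : ℤ) : R) = φ b := by
    intro a b hab
    obtain ⟨d, hd⟩ := isConj_iff.1 hab
    have h1 : φ b = φ a := by
      rw [← hd, mul_assoc, hφ]
      congr 1
      group
    rw [h1]
  have h1 : ell (fun g => ((φ g : ℤ) : R)) w = 0 := by
    refine ell_class _ hφc w fun g hg => key g (hs g ?_)
    intro h
    apply hg
    simp [h]
  rw [ell_eq_sum _ Finset.univ w (fun g _ => Finset.mem_univ g)] at h1
  have h2 : ((∑ g, (u : MonoidAlgebra ℤ G).coeff g * φ g : ℤ) : R) = 0 := by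
    rw [← h1]
    push_cast
    refine Finset.sum_congr rfl fun g _ => ?_
    rw [hw, ch_coeff]
    rfl
  exact_mod_cast h2

end Pool.Agent.Helper495_SP
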