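import Mathlib
import Pool.Agent.Helper495_SP.Defs
import Pool.Agent.Helper495_SP.J01
import Pool.Agent.Helper495_SP.J02
import Pool.Agent.Helper495_SP.J03
set_option autoImplicit false
namespace Pool.Agent.Helper495_SP

theorem fvo_orderOf_comm {G : Type*} [Group G] (a b : G) : orderOf (a * b) = orderOf (b * a) := by
  have h : SemiconjBy b (a * b) (b * a) := by
    unfold SemiconjBy
    group
  exact SemiconjBy.orderOf_eq b h

theorem fvo_fact_pow {G : Type*} [Group G] [Finite G] {p : ℕ} (hp : p.Prime) (g : G) :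
    (orderOf (g ^ p)).factorization p = (orderOf g).factorization p - 1 := by
  rw [orderOf_pow]
  by_cases h : p ∣ orderOf g
  · rw [Nat.gcd_eq_right h, Nat.factorization_div h, Finsupp.tsub_apply, hp.factorization_self]
  · have h1 : Nat.gcd (orderOf g) p = 1 := by
      have := (Nat.Prime.coprime_iff_not_dvd hp).2 h
      exact this.symm
    rw [h1, Nat.div_one, Nat.factorization_eq_zero_of_not_dvd h]

theorem fvo_step {G : Type*} [Group G] [Fintype G] {p : ℕ} (hp : p.Prime) {j : ℕ} (hj : 1 ≤ j)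
    (x : MonoidAlgebra ℤ G) : (p : ℤ) ∣ fv p j (x ^ p) - fv p (j + 1) x := by
  have h := power_congr p hp (fun g : G => if (orderOf g).factorization p = j then (1 : ℤ) else 0)
    (fun a b => by simp only [fvo_orderOf_comm a b]) x
  have e : ∑ g, x.coeff g * (fun g : G => if (orderOf g).factorization p = j then (1 : ℤ) else 0)
      (g ^ p) = fv p (j + 1) x := by
    unfold fv
    refine Finset.sum_congr rfl fun g _ => ?_
    congr 1
    simp only [fvo_fact_pow hp]
    have : ((orderOf g).factorization p - 1 = j) ↔ ((orderOf g).factorization p = j + 1) := by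
      omega
    simp only [this]
  rw [e] at h
  exact h

theorem fvo_step0 {G : Type*} [Group G] [Fintype G] {p : ℕ} (hp : p.Prime)
    (x : MonoidAlgebra ℤ G) : (p : ℤ) ∣ fv p 0 (x ^ p) - (fv p 0 x + fv p 1 x) := by
  have h := power_congr p hp (fun g : G => if (orderOf g).factorization p = 0 then (1 : ℤ) else 0)
    (fun a b => by simp only [fvo_orderOf_comm a b]) x
  have e : ∑ g, x.coeff g * (fun g : G => if (orderOf g).factorization p = 0 then (1 : ℤ) else 0)
      (g ^ p) = fv p 0 x + fv p 1 x := by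
    unfold fv
    rw [← Finset.sum_add_distrib]
    refine Finset.sum_congr rfl fun g _ => ?_
    rw [← mul_add]
    congr 1
    simp only [fvo_fact_pow hp]
    generalize (orderOf g).factorization p = m
    rcases m with _ | _ | m
    · simp
    · simp
    · simp
  rw [e] at h
  exact h

theorem fvo_iter {G : Type*} [Group G] [Fintype G] {p : ℕ} (hp : p.Prime) (k : ℕ) :
    ∀ (j : ℕ), 1 ≤ j → ∀ x : MonoidAlgebra ℤ G,
      (p : ℤ) ∣ fv p j (x ^ (p ^ k)) - fv p (j + k) x := by
  induction k with
  | zero => intro j _ x; simp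
  | succ k ih =>
    intro j hj x
    have h1 := fvo_step hp hj (x ^ (p ^ k))
    have h2 := ih (j + 1) (by omega) x
    rw [← pow_mul, ← pow_succ] at h1
    have h3 := dvd_add h1 h2
    rw [sub_add_sub_cancel] at h3
    rwa [show j + (k + 1) = j + 1 + k by ring]

theorem fvo_aug_pow {G : Type*} [Group G] [Fintype G] (v : (MonoidAlgebra ℤ G)ˣ)
    (haug : MonoidAlgebra.lift ℤ ℤ G (1 : G →* ℤ) (v : MonoidAlgebra ℤ G) = 1) (n : ℕ) :
    MonoidAlgebra.lift ℤ ℤ G (1 : G →* ℤ) ((v ^ n : (MonoidAlgebra ℤ G)ˣ) : MonoidAlgebra ℤ G) = 1 := by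
  rw [Units.val_pow_eq_pow_val, map_pow, haug, one_pow]

theorem fvo_zero {G : Type*} [Group G] [Fintype G] {p : ℕ} (hp : p.Prime)
    (v : (MonoidAlgebra ℤ G)ˣ)
    (haug : MonoidAlgebra.lift ℤ ℤ G (1 : G →* ℤ) (v : MonoidAlgebra ℤ G) = 1)
    (hv : orderOf v = p) : fv p 0 (v : MonoidAlgebra ℤ G) = 0 := by
  classical
  have hfin : IsOfFinOrder v := by
    rw [← orderOf_pos_iff, hv]; exact hp.pos
  have hne : v ≠ 1 := by
    intro h
    rw [h, orderOf_one] at hv
    exact hp.one_lt.ne hv
  have h1 := berman_higman v haug hfin hne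
  set N := Fintype.card G with hN
  let P : ℕ → G → Prop := fun r g => (orderOf g).factorization p = 0 ∧ g ≠ 1 ∧
    (orderOf g).minFac = r
  -- the decomposition of the indicator
  have hdec : ∀ g : G, (v : MonoidAlgebra ℤ G).coeff g *
      (if (orderOf g).factorization p = 0 then (1 : ℤ) else 0) =
      ∑ r ∈ Finset.range (N + 1), (v : MonoidAlgebra ℤ G).coeff g * (if P r g then 1 else 0) := by
    intro g
    by_cases hg1 : g = 1
    · subst hg1
      rw [h1]
      simp
    · by_cases hg2 : (orderOf g).factorization p = 0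
      · rw [if_pos hg2, Finset.sum_eq_single (orderOf g).minFac]
        · rw [if_pos]
          exact ⟨hg2, hg1, rfl⟩
        · intro r _ hr
          rw [if_neg, mul_zero]
          rintro ⟨-, -, h⟩
          exact hr h.symm
        · intro hmem
          exfalso
          apply hmem
          rw [Finset.mem_range]
          have h2 : (orderOf g).minFac ≤ orderOf g := Nat.minFac_le (orderOf_pos g)
          have h3 : orderOf g ≤ N := orderOf_le_card_univ
          omega
      · rw [if_neg hg2, mul_zero]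
        symm
        refine Finset.sum_eq_zero fun r _ => ?_
        rw [if_neg, mul_zero]
        rintro ⟨h, -, -⟩
        exact hg2 h
  unfold fv
  rw [Finset.sum_congr rfl fun g _ => hdec g, Finset.sum_comm]
  refine Finset.sum_eq_zero fun r _ => ?_
  by_cases hr : r.Prime ∧ r ≠ p
  · refine class_vanish v hfin r hr.1 ?_ (fun g => if P r g then 1 else 0) ?_ ?_
    · rw [hv]
      intro h
      exact hr.2 ((Nat.prime_dvd_prime_iff_eq hr.1 hp).1 h)
    · intro a b
      have e : P r (a * b) ↔ P r (b * a) := by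
        change (_ ∧ _ ∧ _) ↔ (_ ∧ _ ∧ _)
        rw [fvo_orderOf_comm a b]
        have : a * b ≠ 1 ↔ b * a ≠ 1 := by
          rw [Ne, Ne, mul_eq_one_iff_eq_inv, mul_eq_one_iff_eq_inv']
        rw [this]
      simp only [e]
    · intro g hg
      have hP : P r g := by
        by_contra h
        exact hg (if_neg h)
      rw [← hP.2.2]
      exact Nat.minFac_dvd _
  · refine Finset.sum_eq_zero fun g _ => ?_
    rw [if_neg, mul_zero]
    rintro ⟨h2, h3, h4⟩
    apply hr
    have h5 : orderOf g ≠ 1 := by rwa [Ne, orderOf_eq_one_iff]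
    have h6 : r.Prime := h4 ▸ Nat.minFac_prime h5
    refine ⟨h6, ?_⟩
    rintro rfl
    have h7 : r ∣ orderOf g := h4 ▸ Nat.minFac_dvd _
    have h8 := (h6.dvd_iff_one_le_factorization (orderOf_pos g).ne').1 h7
    omega

theorem fv_one {G : Type*} [Group G] [Fintype G] (p a : ℕ) (hp : p.Prime) (ha : 1 ≤ a)
    (v : (MonoidAlgebra ℤ G)ˣ)
    (haug : MonoidAlgebra.lift ℤ ℤ G (1 : G →* ℤ) (v : MonoidAlgebra ℤ G) = 1)
    (hv : orderOf v = p ^ a) :
    (p : ℤ) ∣ fv p a (v : MonoidAlgebra ℤ G) - 1 := by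
  classical
  set v1 : (MonoidAlgebra ℤ G)ˣ := v ^ (p ^ (a - 1)) with hv1
  have hpa : p ^ a = p ^ (a - 1) * p := by
    rw [← pow_succ, Nat.sub_add_cancel ha]
  have ho : orderOf v1 = p := by
    rw [hv1, orderOf_pow_of_dvd (pow_ne_zero _ hp.ne_zero) (by rw [hv, hpa]; exact dvd_mul_right _ _),
      hv, hpa]
    exact Nat.mul_div_cancel_left p (pow_pos hp.pos _)
  have h0 : fv p 0 (v1 : MonoidAlgebra ℤ G) = 0 := fvo_zero hp v1 (fvo_aug_pow v haug _) ho
  have h1 := fvo_step0 hp (v1 : MonoidAlgebra ℤ G)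
  have h2 : ((v1 : MonoidAlgebra ℤ G)) ^ p = 1 := by
    rw [← Units.val_pow_eq_pow_val, ← ho, pow_orderOf_eq_one, Units.val_one]
  have h3 : fv p 0 (1 : MonoidAlgebra ℤ G) = 1 := by
    unfold fv
    rw [Finset.sum_eq_single 1]
    · rw [MonoidAlgebra.one_def, MonoidAlgebra.coeff_single, Finsupp.single_eq_same]
      simp
    · intro g _ hg
      rw [MonoidAlgebra.one_def, MonoidAlgebra.coeff_single, Finsupp.single_eq_of_ne hg, zero_mul]
    · intro h
      exact absurd (Finset.mem_univ _) h
  rw [h2, h3, h0, zero_add] at h1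
  have h4 := fvo_iter hp (a - 1) 1 le_rfl (v : MonoidAlgebra ℤ G)
  rw [show 1 + (a - 1) = a by omega, ← Units.val_pow_eq_pow_val, ← hv1] at h4
  have h5 := dvd_add h1 h4
  rw [sub_add_sub_cancel] at h5
  rw [← dvd_neg, neg_sub]
  exact h5

end Pool.Agent.Helper495_SP
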