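import Mathlib
import Pool.Agent.Helper495_SP.Defs
import Pool.Agent.Helper495_SP.J01
import Pool.Agent.Helper495_SP.J02
import Pool.Agent.Helper495_SP.J03
set_option autoImplicit false
namespace Pool.Agent.Helper495_SP

/-! ### auxiliary lemmas (helper442) -/

theorem H442_orderOf_comm {G : Type*} [Group G] (a b : G) : orderOf (a * b) = orderOf (b * a) := by
  have h : a * b = MulAut.conj a (b * a) := by
    simp [MulAut.conj_apply, mul_assoc]
  rw [h]
  exact MulEquiv.orderOf_eq (MulAut.conj a) (b * a)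

/-- the function `φ_j` -/
noncomputable def H442_phi {G : Type*} [Group G] (p q j : ℕ) (g : G) : ℤ :=
  if (orderOf g).factorization p = j ∧ ¬ q ∣ orderOf g then 1 else 0

theorem H442_phi_comm {G : Type*} [Group G] (p q j : ℕ) (a b : G) :
    H442_phi p q j (a * b) = H442_phi p q j (b * a) := by
  unfold H442_phi
  rw [H442_orderOf_comm a b]

theorem H442_order_pow {G : Type*} [Group G] [Fintype G] (p q : ℕ) (hp : p.Prime) (hq : q.Prime)
    (hpq : p ≠ q) (g : G) : (orderOf (g ^ p)).factorization p = (orderOf g).factorization p - 1 ∧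
      (q ∣ orderOf (g ^ p) ↔ q ∣ orderOf g) := by
  have h0 : orderOf g ≠ 0 := (orderOf_pos g).ne'
  have h1 : orderOf (g ^ p) = orderOf g / Nat.gcd (orderOf g) p := orderOf_pow' g hp.ne_zero
  by_cases hd : p ∣ orderOf g
  · obtain ⟨m, hm⟩ := hd
    have hm0 : m ≠ 0 := by rintro rfl; rw [mul_zero] at hm; exact h0 hm
    have h2 : orderOf (g ^ p) = m := by
      rw [h1, hm, Nat.gcd_mul_right_left, Nat.mul_div_cancel_left _ hp.pos]
    rw [h2, hm, Nat.factorization_mul hp.ne_zero hm0, Finsupp.add_apply,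
      Nat.Prime.factorization_self hp]
    refine ⟨by omega, ?_⟩
    rw [hq.dvd_mul]
    constructor
    · exact fun h => Or.inr h
    · rintro (h | h)
      · exact absurd ((Nat.prime_dvd_prime_iff_eq hq hp).1 h) (Ne.symm hpq)
      · exact h
  · have hg : Nat.gcd (orderOf g) p = 1 := ((Nat.Prime.coprime_iff_not_dvd hp).2 hd).symm
    rw [h1, hg, Nat.div_one, Nat.factorization_eq_zero_of_not_dvd hd]
    simp

theorem H442_congr {G : Type*} [Group G] [Fintype G] (p q j : ℕ) (hp : p.Prime)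
    (x : MonoidAlgebra ℤ G) : (p : ℤ) ∣ (∑ g, (x ^ p).coeff g * H442_phi p q j g) -
      ∑ g, x.coeff g * H442_phi p q j (g ^ p) :=
  power_congr p hp (H442_phi p q j) (H442_phi_comm p q j) x

theorem H442_congr_succ {G : Type*} [Group G] [Fintype G] (p q j : ℕ) (hp : p.Prime) (hq : q.Prime)
    (hpq : p ≠ q) (hj : 1 ≤ j) (x : MonoidAlgebra ℤ G) :
    (p : ℤ) ∣ (∑ g, (x ^ p).coeff g * H442_phi p q j g) -
      ∑ g, x.coeff g * H442_phi p q (j + 1) g := by
  have h := H442_congr p q j hp x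
  have h2 : ∀ g : G, H442_phi p q j (g ^ p) = H442_phi p q (j + 1) g := by
    intro g
    obtain ⟨h3, h4⟩ := H442_order_pow p q hp hq hpq g
    unfold H442_phi
    simp only [h3, h4]
    congr 1
    simp only [eq_iff_iff]
    constructor
    · rintro ⟨h5, h6⟩; exact ⟨by omega, h6⟩
    · rintro ⟨h5, h6⟩; exact ⟨by omega, h6⟩
  simpa only [h2] using h

theorem H442_congr_zero {G : Type*} [Group G] [Fintype G] (p q : ℕ) (hp : p.Prime) (hq : q.Prime)
    (hpq : p ≠ q) (x : MonoidAlgebra ℤ G) :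
    (p : ℤ) ∣ (∑ g, (x ^ p).coeff g * H442_phi p q 0 g) -
      ((∑ g, x.coeff g * H442_phi p q 0 g) + ∑ g, x.coeff g * H442_phi p q 1 g) := by
  have h := H442_congr p q 0 hp x
  have h2 : ∀ g : G, H442_phi p q 0 (g ^ p) = H442_phi p q 0 g + H442_phi p q 1 g := by
    intro g
    obtain ⟨h3, h4⟩ := H442_order_pow p q hp hq hpq g
    unfold H442_phi
    simp only [h3, h4]
    by_cases h5 : q ∣ orderOf g
    · simp [h5]
    · by_cases h6 : (orderOf g).factorization p = 0
      · simp [h5, h6]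
      · by_cases h7 : (orderOf g).factorization p = 1
        · simp [h5, h7]
        · have h8 : ¬ ((orderOf g).factorization p - 1 = 0) := by omega
          simp [h5, h6, h7, h8]
  rw [← Finset.sum_add_distrib]
  simpa only [h2, mul_add] using h

theorem H442_iter {G : Type*} [Group G] [Fintype G] (p q : ℕ) (hp : p.Prime) (hq : q.Prime)
    (hpq : p ≠ q) (i : ℕ) : ∀ x : MonoidAlgebra ℤ G,
    (p : ℤ) ∣ (∑ g, (x ^ p ^ i).coeff g * H442_phi p q 1 g) -
      ∑ g, x.coeff g * H442_phi p q (i + 1) g := by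
  induction i with
  | zero => intro x; simp
  | succ i ih =>
    intro x
    have h1 := ih (x ^ p)
    have h2 := H442_congr_succ p q (i + 1) hp hq hpq (by omega) x
    rw [← pow_mul, ← pow_succ'] at h1
    have := dvd_add h1 h2
    simpa using this

theorem H442_h0 {G : Type*} [Group G] [Fintype G] (p q : ℕ) (u : (MonoidAlgebra ℤ G)ˣ)
    (haug : MonoidAlgebra.lift ℤ ℤ G (1 : G →* ℤ) (u : MonoidAlgebra ℤ G) = 1)
    (hu : IsOfFinOrder u) (hne : u ≠ 1)
    (hr : ∀ r : ℕ, r.Prime → r ≠ p → r ≠ q → ¬ r ∣ orderOf u) :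
    ∑ g, (u : MonoidAlgebra ℤ G).coeff g * H442_phi p q 0 g = 0 := by
  classical
  set N := Fintype.card G with hN
  -- the partition
  have hpart : ∀ g : G, H442_phi p q 0 g = (if g = 1 then H442_phi p q 0 g else 0) +
      ∑ r ∈ Finset.range (N + 1), (if orderOf g ≠ 1 ∧ (orderOf g).minFac = r then
        H442_phi p q 0 g else 0) := by
    intro g
    by_cases hg : g = 1
    · subst hg; simp
    · have ho : orderOf g ≠ 1 := by rwa [Ne, orderOf_eq_one_iff]
      have hle : (orderOf g).minFac < N + 1 := by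
        have h1 : (orderOf g).minFac ≤ orderOf g := Nat.minFac_le (orderOf_pos g)
        have h2 : orderOf g ≤ N := orderOf_le_card_univ
        omega
      simp only [hg, if_false, zero_add, ho, Ne, not_false_eq_true, true_and]
      rw [Finset.sum_ite_eq]
      simp only [Finset.mem_range, hle, if_true]
  have h1 : ∑ g, (u : MonoidAlgebra ℤ G).coeff g * H442_phi p q 0 g =
      (∑ g, (u : MonoidAlgebra ℤ G).coeff g * (if g = 1 then H442_phi p q 0 g else 0)) +
      ∑ r ∈ Finset.range (N + 1), ∑ g, (u : MonoidAlgebra ℤ G).coeff g *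
        (if orderOf g ≠ 1 ∧ (orderOf g).minFac = r then H442_phi p q 0 g else 0) := by
    rw [Finset.sum_comm, ← Finset.sum_add_distrib]
    refine Finset.sum_congr rfl fun g _ => ?_
    rw [← Finset.mul_sum, ← mul_add, ← hpart g]
  have h2 : ∑ g, (u : MonoidAlgebra ℤ G).coeff g * (if g = 1 then H442_phi p q 0 g else 0) = 0 := by
    refine Finset.sum_eq_zero fun g _ => ?_
    by_cases hg : g = 1
    · subst hg; rw [berman_higman u haug hu hne, zero_mul]
    · simp [hg]
  have h3 : ∀ r ∈ Finset.range (N + 1), ∑ g, (u : MonoidAlgebra ℤ G).coeff g *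
        (if orderOf g ≠ 1 ∧ (orderOf g).minFac = r then H442_phi p q 0 g else 0) = 0 := by
    intro r _
    by_cases hex : ∃ g : G, (if orderOf g ≠ 1 ∧ (orderOf g).minFac = r then
        H442_phi p q 0 g else 0) ≠ 0
    · obtain ⟨g, hg⟩ := hex
      have hg1 : orderOf g ≠ 1 ∧ (orderOf g).minFac = r := by
        by_contra hcon; rw [if_neg hcon] at hg; exact hg rfl
      rw [if_pos hg1] at hg
      have hg2 : (orderOf g).factorization p = 0 ∧ ¬ q ∣ orderOf g := by
        by_contra hcon; unfold H442_phi at hg; rw [if_neg hcon] at hg; exact hg rfl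
      have hrp : r.Prime := hg1.2 ▸ Nat.minFac_prime hg1.1
      have hrd : r ∣ orderOf g := hg1.2 ▸ Nat.minFac_dvd _
      have hrq : r ≠ q := by rintro rfl; exact hg2.2 hrd
      have hrp' : r ≠ p := by
        rintro rfl
        have := (Nat.Prime.factorization_pos_of_dvd hrp (orderOf_pos g).ne' hrd)
        omega
      refine class_vanish u hu r hrp (hr r hrp hrp' hrq) _ ?_ ?_
      · intro a b
        simp only [H442_orderOf_comm a b, H442_phi_comm p q 0 a b]
      · intro g' hg'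
        have : orderOf g' ≠ 1 ∧ (orderOf g').minFac = r := by
          by_contra hcon; rw [if_neg hcon] at hg'; exact hg' rfl
        exact this.2 ▸ Nat.minFac_dvd _
    · refine Finset.sum_eq_zero fun g _ => ?_
      by_cases h0 : (if orderOf g ≠ 1 ∧ (orderOf g).minFac = r then
        H442_phi p q 0 g else 0) = 0
      · rw [h0, mul_zero]
      · exact absurd ⟨g, h0⟩ hex
  rw [h1, h2, Finset.sum_eq_zero h3, add_zero]

theorem H442_fv_eq {G : Type*} [Group G] [Fintype G] (p q a : ℕ) (hp : p.Prime) (hq : q.Prime)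
    (hpq : p ≠ q) (x : MonoidAlgebra ℤ G) (hG : ¬ ∃ g : G, orderOf g = p ^ a * q) :
    fv p a x = ∑ g, x.coeff g * H442_phi p q a g := by
  unfold fv H442_phi
  refine Finset.sum_congr rfl fun g _ => ?_
  by_cases h1 : (orderOf g).factorization p = a
  · by_cases h2 : q ∣ orderOf g
    · exfalso
      apply hG
      have h3 : p ^ a ∣ orderOf g := h1 ▸ Nat.ordProj_dvd (orderOf g) p
      have h4 : p ^ a * q ∣ orderOf g :=
        Nat.Coprime.mul_dvd_of_dvd_of_dvd
          (Nat.Coprime.pow_left a ((Nat.coprime_primes hp hq).2 hpq)) h3 h2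
      refine ⟨g ^ (orderOf g / (p ^ a * q)), ?_⟩
      exact orderOf_pow_orderOf_div (orderOf_pos g).ne' h4
    · simp [h1, h2]
  · simp [h1]

theorem fv_zero {G : Type*} [Group G] [Fintype G] (p q a : ℕ) (hp : p.Prime) (hq : q.Prime)
    (hpq : p ≠ q) (ha : 1 ≤ a) (u : (MonoidAlgebra ℤ G)ˣ)
    (haug : MonoidAlgebra.lift ℤ ℤ G (1 : G →* ℤ) (u : MonoidAlgebra ℤ G) = 1)
    (hu : orderOf u = p ^ a * q) (hG : ¬ ∃ g : G, orderOf g = p ^ a * q) :
    (p : ℤ) ∣ fv p a (u : MonoidAlgebra ℤ G) := by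
  have hp1 : 1 < p := hp.one_lt
  have hq1 : 1 < q := hq.one_lt
  obtain ⟨b, rfl⟩ : ∃ b, a = b + 1 := ⟨a - 1, by omega⟩
  rw [H442_fv_eq p q (b + 1) hp hq hpq _ hG]
  have hfin : IsOfFinOrder u := by
    rw [← orderOf_pos_iff, hu]
    exact Nat.mul_pos (pow_pos hp.pos _) hq.pos
  set v := u ^ p ^ b with hv
  have hov : orderOf v = p * q := by
    have h1 : orderOf v = orderOf u / Nat.gcd (orderOf u) (p ^ b) :=
      orderOf_pow' u (pow_pos hp.pos b).ne'
    have h2 : orderOf u = p ^ b * (p * q) := by rw [hu, pow_succ]; ring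
    rw [h1, h2, Nat.gcd_mul_right_left, Nat.mul_div_cancel_left _ (pow_pos hp.pos b)]
  have hovp : orderOf (v ^ p) = q := by
    have h1 : orderOf (v ^ p) = orderOf v / Nat.gcd (orderOf v) p := orderOf_pow' v hp.ne_zero
    rw [h1, hov, Nat.gcd_mul_right_left, Nat.mul_div_cancel_left _ hp.pos]
  have hfv : IsOfFinOrder v := hfin.pow
  have hfvp : IsOfFinOrder (v ^ p) := hfv.pow
  have hav : MonoidAlgebra.lift ℤ ℤ G (1 : G →* ℤ) (v : MonoidAlgebra ℤ G) = 1 := by
    rw [hv, Units.val_pow_eq_pow_val, map_pow, haug, one_pow]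
  have havp : MonoidAlgebra.lift ℤ ℤ G (1 : G →* ℤ) ((v ^ p : (MonoidAlgebra ℤ G)ˣ) :
      MonoidAlgebra ℤ G) = 1 := by
    rw [Units.val_pow_eq_pow_val, map_pow, hav, one_pow]
  have hnv : v ≠ 1 := by
    intro h
    rw [h, orderOf_one] at hov
    nlinarith
  have hnvp : v ^ p ≠ 1 := by
    intro h
    rw [h, orderOf_one] at hovp
    omega
  have z1 := H442_h0 p q v hav hfv hnv (by
    intro r hr hrp hrq hd
    rw [hov] at hd
    rcases (hr.dvd_mul).1 hd with h | h
    · exact hrp ((Nat.prime_dvd_prime_iff_eq hr hp).1 h)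
    · exact hrq ((Nat.prime_dvd_prime_iff_eq hr hq).1 h))
  have z2 := H442_h0 p q (v ^ p) havp hfvp hnvp (by
    intro r hr hrp hrq hd
    rw [hovp] at hd
    exact hrq ((Nat.prime_dvd_prime_iff_eq hr hq).1 hd))
  have c1 := H442_congr_zero p q hp hq hpq (v : MonoidAlgebra ℤ G)
  rw [← Units.val_pow_eq_pow_val, z2, z1] at c1
  have c2 := H442_iter p q hp hq hpq b (u : MonoidAlgebra ℤ G)
  rw [← Units.val_pow_eq_pow_val, ← hv] at c2
  have c3 : (p : ℤ) ∣ ∑ g, (v : MonoidAlgebra ℤ G).coeff g * H442_phi p q 1 g := by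
    have := (dvd_neg (α := ℤ)).2 c1
    simpa using this
  have c4 := dvd_sub c3 c2
  simpa using c4

end Pool.Agent.Helper495_SP
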