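import Mathlib
import Pool.Agent.Helper495_SP.Defs
import Pool.Agent.Helper495_SP.J04a
import Pool.Agent.Helper495_SP.J04b
import Pool.Agent.Helper495_SP.J04c
set_option autoImplicit false
namespace Pool.Agent.Helper495_SP

theorem finish {G : Type*} [Group G] [Fintype G] (p q a : ℕ) (hp : p.Prime) (hq : q.Prime)
    (hpq : p ≠ q) (ha : 1 ≤ a)
    (key : ∀ v w : (MonoidAlgebra ℤ G)ˣ, Commute v w → orderOf v = p ^ a → orderOf w = q →
      MonoidAlgebra.lift ℤ ℤ G (1 : G →* ℤ) (v : MonoidAlgebra ℤ G) = 1 →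
      MonoidAlgebra.lift ℤ ℤ G (1 : G →* ℤ) (w : MonoidAlgebra ℤ G) = 1 →
      (q : ℤ) * fv p a (v : MonoidAlgebra ℤ G) =
        ∑ j ∈ Finset.range q, fv p a ((v * w ^ j : (MonoidAlgebra ℤ G)ˣ) : MonoidAlgebra ℤ G))
    (u : (MonoidAlgebra ℤ G)ˣ)
    (haug : MonoidAlgebra.lift ℤ ℤ G (1 : G →* ℤ) (u : MonoidAlgebra ℤ G) = 1)
    (hu : orderOf u = p ^ a * q) : ∃ g : G, orderOf g = p ^ a * q := by
  by_contra hG
  have hpa1 : 1 < p ^ a := Nat.one_lt_pow (by omega) hp.one_lt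
  have hcop : Nat.Coprime (p ^ a) q := by
    apply Nat.Coprime.pow_left
    exact (Nat.coprime_primes hp hq).mpr hpq
  obtain ⟨k, hk1, hk2⟩ := Nat.chineseRemainder hcop 1 0
  obtain ⟨l, hl1, hl2⟩ := Nat.chineseRemainder hcop 0 1
  have hqk : q ∣ k := (Nat.modEq_zero_iff_dvd).mp hk2
  have hpl : p ^ a ∣ l := (Nat.modEq_zero_iff_dvd).mp hl1
  have hck : Nat.gcd (p ^ a) k = 1 := by
    have h1 := hk1.gcd_eq
    rw [Nat.gcd_comm, h1]
    simp
  have hcl : Nat.gcd q l = 1 := by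
    have h1 := hl2.gcd_eq
    rw [Nat.gcd_comm, h1]
    simp
  have hN0 : p ^ a * q ≠ 0 := by
    have := hq.pos
    positivity
  have hk0 : k ≠ 0 := by
    intro h
    rw [h, Nat.gcd_zero_right] at hck
    omega
  have hl0 : l ≠ 0 := by
    intro h
    rw [h, Nat.gcd_zero_right] at hcl
    have := hq.one_lt
    omega
  have hgk : Nat.gcd (p ^ a * q) k = q := by
    rw [Nat.gcd_comm, Nat.Coprime.gcd_mul k hcop, Nat.gcd_comm k, hck, one_mul,
      Nat.gcd_eq_right hqk]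
  have hgl : Nat.gcd (p ^ a * q) l = p ^ a := by
    rw [Nat.gcd_comm, Nat.Coprime.gcd_mul l hcop, Nat.gcd_comm l q, hcl, mul_one,
      Nat.gcd_eq_right hpl]
  have hv : orderOf (u ^ k) = p ^ a := by
    rw [orderOf_pow' u hk0, hu, hgk, Nat.mul_div_cancel _ hq.pos]
  have hw : orderOf (u ^ l) = q := by
    rw [orderOf_pow' u hl0, hu, hgl, Nat.mul_div_cancel_left _ (by positivity)]
  have hvw : Commute (u ^ k) (u ^ l) := Commute.pow_pow_self u k l
  have huvw : u ^ k * u ^ l = u := by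
    rw [← pow_add]
    conv_rhs => rw [← pow_one u]
    rw [pow_eq_pow_iff_modEq, hu]
    apply (Nat.modEq_and_modEq_iff_modEq_mul hcop).mp
    constructor
    · simpa using hk1.add hl1
    · simpa using hk2.add hl2
  have haugp : ∀ m : ℕ, MonoidAlgebra.lift ℤ ℤ G (1 : G →* ℤ)
      ((u ^ m : (MonoidAlgebra ℤ G)ˣ) : MonoidAlgebra ℤ G) = 1 := by
    intro m
    rw [Units.val_pow_eq_pow_val, map_pow, haug, one_pow]
  have hkey := key (u ^ k) (u ^ l) hvw hv hw (haugp k) (haugp l)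
  obtain ⟨q', rfl⟩ : ∃ q', q = q' + 1 := ⟨q - 1, by have := hq.pos; omega⟩
  rw [Finset.sum_range_succ'] at hkey
  have hterm : ∀ j ∈ Finset.range q', fv p a
      ((u ^ k * (u ^ l) ^ (j + 1) : (MonoidAlgebra ℤ G)ˣ) : MonoidAlgebra ℤ G) =
      fv p a (u : MonoidAlgebra ℤ G) := by
    intro j hj
    rw [fv_const p (q' + 1) a hp hq hpq (u ^ k) (u ^ l) hvw hv hw (j + 1), huvw]
    intro hd
    have := Nat.le_of_dvd (by omega) hd
    have := Finset.mem_range.mp hj
    omega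
  rw [Finset.sum_congr rfl hterm, Finset.sum_const, Finset.card_range, pow_zero, mul_one,
    nsmul_eq_mul] at hkey
  push_cast at hkey
  have hq' : (q' : ℤ) ≠ 0 := by
    have := hq.two_le
    omega
  have heq : fv p a (u : MonoidAlgebra ℤ G) =
      fv p a ((u ^ k : (MonoidAlgebra ℤ G)ˣ) : MonoidAlgebra ℤ G) := by
    apply mul_left_cancel₀ hq'
    rw [Units.val_pow_eq_pow_val]
    linarith
  have h1 := fv_zero p (q' + 1) a hp hq hpq ha u haug hu hG
  have h2 := fv_one p a hp ha (u ^ k) (haugp k) hv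
  rw [← heq] at h2
  have h3 : (p : ℤ) ∣ 1 := by
    have := dvd_sub h1 h2
    simpa using this
  have h4 : p ∣ 1 := by exact_mod_cast h3
  exact hp.one_lt.ne' (Nat.dvd_one.mp h4)

end Pool.Agent.Helper495_SP
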