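import Mathlib
import Pool.Agent.Helper495_SP.Defs
set_option autoImplicit false
namespace Pool.Agent.Helper495_SP
open scoped Classical
open Polynomial
variable {G : Type*} [Group G]

/-- the sum over the elements whose order has `p`-part `p ^ a`, as a linear map over `ℤ_p` -/
noncomputable def FL (G : Type*) [Group G] [Fintype G] (p a : ℕ) [Fact p.Prime] :
    MonoidAlgebra ℤ_[p] G →ₗ[ℤ_[p]] ℤ_[p] where
  toFun x := ∑ g : G, if (orderOf g).factorization p = a then x.coeff g else 0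
  map_add' x y := by
    rw [← Finset.sum_add_distrib]
    refine Finset.sum_congr rfl fun g _ => ?_
    split_ifs
    · rw [MonoidAlgebra.coeff_add, Finsupp.add_apply]
    · rw [add_zero]
  map_smul' c x := by
    rw [RingHom.id_apply, smul_eq_mul, Finset.mul_sum]
    refine Finset.sum_congr rfl fun g _ => ?_
    split_ifs
    · rw [MonoidAlgebra.coeff_smul, Finsupp.smul_apply, smul_eq_mul]
    · rw [mul_zero]

theorem FL_map [Fintype G] (p a : ℕ) [Fact p.Prime] (x : MonoidAlgebra ℤ G) :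
    FL G p a (MonoidAlgebra.mapRingHom G (Int.castRingHom ℤ_[p]) x) = (fv p a x : ℤ_[p]) := by
  unfold fv
  rw [Int.cast_sum]
  change (∑ g : G, if (orderOf g).factorization p = a then
    (MonoidAlgebra.mapRingHom G (Int.castRingHom ℤ_[p]) x).coeff g else 0) = _
  refine Finset.sum_congr rfl fun g _ => ?_
  split_ifs
  · rw [MonoidAlgebra.coeff_mapRingHom, mul_one]; rfl
  · rw [mul_zero, Int.cast_zero]

theorem q_unit (p q : ℕ) [Fact p.Prime] (hq : q.Prime) (hpq : p ≠ q) :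
    ∃ c : ℤ_[p], c * (q : ℤ_[p]) = 1 := by
  have h : IsUnit (q : ℤ_[p]) := by
    rw [PadicInt.isUnit_iff]
    by_contra hne
    have hlt : ‖((q : ℤ) : ℤ_[p])‖ < 1 := by
      refine lt_of_le_of_ne (PadicInt.norm_le_one _) ?_
      rwa [Int.cast_natCast]
    rw [PadicInt.norm_int_lt_one_iff_dvd] at hlt
    have h1 : p ∣ q := by exact_mod_cast hlt
    exact hpq ((Nat.prime_dvd_prime_iff_eq Fact.out hq).1 h1)
  obtain ⟨u, hu⟩ := h
  refine ⟨((u⁻¹ : ℤ_[p]ˣ) : ℤ_[p]), ?_⟩
  rw [← hu, Units.inv_mul]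

theorem key_of_sum_zero [Fintype G] {p : ℕ} [Fact p.Prime] (a q : ℕ) (hq : q.Prime) (hpq : p ≠ q)
    (hz : ∀ e v : MonoidAlgebra ℤ_[p] G, e * e = e → Commute e v →
      MonoidAlgebra.lift ℤ_[p] ℤ_[p] G (1 : G →* ℤ_[p]) e = 0 → v ^ p ^ a = 1 →
      (∑ g : G, if (orderOf g).factorization p = a then (v * e).coeff g else 0) = 0)
    (v w : (MonoidAlgebra ℤ G)ˣ) (hvw : Commute v w) (hv : orderOf v = p ^ a)
    (hw : orderOf w = q)
    (haugw : MonoidAlgebra.lift ℤ ℤ G (1 : G →* ℤ) (w : MonoidAlgebra ℤ G) = 1) :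
    (q : ℤ) * fv p a (v : MonoidAlgebra ℤ G) =
      ∑ j ∈ Finset.range q, fv p a ((v * w ^ j : (MonoidAlgebra ℤ G)ˣ) : MonoidAlgebra ℤ G) := by
  obtain ⟨c, hc⟩ := q_unit p q hq hpq
  set φ := MonoidAlgebra.mapRingHom G (Int.castRingHom ℤ_[p]) with hφ
  set V := φ (v : MonoidAlgebra ℤ G) with hV
  set Y := φ (w : MonoidAlgebra ℤ G) with hY
  have hYq : Y ^ q = 1 := by
    have h1 : w ^ q = 1 := by rw [← hw]; exact pow_orderOf_eq_one w
    have h2 : (w : MonoidAlgebra ℤ G) ^ q = 1 := by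
      rw [← Units.val_pow_eq_pow_val, h1, Units.val_one]
    rw [hY, ← map_pow, h2, map_one]
  have hVp : V ^ p ^ a = 1 := by
    have h1 : v ^ p ^ a = 1 := by rw [← hv]; exact pow_orderOf_eq_one v
    have h2 : (v : MonoidAlgebra ℤ G) ^ p ^ a = 1 := by
      rw [← Units.val_pow_eq_pow_val, h1, Units.val_one]
    rw [hV, ← map_pow, h2, map_one]
  have hVY : Commute V Y := by
    have h1 : (v : MonoidAlgebra ℤ G) * w = w * v := by
      rw [← Units.val_mul, ← Units.val_mul, hvw.eq]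
    change V * Y = Y * V
    rw [hV, hY, ← map_mul, h1, map_mul]
  set σ := ∑ j ∈ Finset.range q, Y ^ j with hσ
  have hσY : σ * Y = σ := by
    have h1 : σ * Y + 1 = σ + 1 := by
      calc σ * Y + 1 = ∑ j ∈ Finset.range (q + 1), Y ^ j := by
            rw [Finset.sum_range_succ', pow_zero, hσ, Finset.sum_mul]
            congr 1
        _ = σ + 1 := by rw [Finset.sum_range_succ, hYq]
    exact add_right_cancel h1
  have hσYj : ∀ j : ℕ, σ * Y ^ j = σ := by
    intro j
    induction j with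
    | zero => rw [pow_zero, mul_one]
    | succ j ih => rw [pow_succ, ← mul_assoc, ih, hσY]
  have hσσ : σ * σ = (q : ℤ_[p]) • σ := by
    conv_lhs => rw [hσ, Finset.mul_sum]
    rw [← hσ, Finset.sum_congr rfl fun j _ => hσYj j, Finset.sum_const, Finset.card_range,
      Nat.cast_smul_eq_nsmul]
  have hcomm : Commute σ V := by
    rw [hσ]
    exact Commute.sum_left _ _ _ fun j _ => (hVY.symm.pow_left j)
  have hee : (1 - c • σ) * (1 - c • σ) = 1 - c • σ := by
    have h1 : (c • σ) * (c • σ) = c • σ := by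
      rw [smul_mul_smul_comm, hσσ, smul_smul, mul_assoc, hc, mul_one]
    rw [mul_sub, mul_one, sub_mul, one_mul, h1, sub_self, sub_zero]
  have haugY : MonoidAlgebra.lift ℤ_[p] ℤ_[p] G (1 : G →* ℤ_[p]) Y = 1 := by
    have h1 : ∀ x : MonoidAlgebra ℤ G, MonoidAlgebra.lift ℤ_[p] ℤ_[p] G (1 : G →* ℤ_[p]) (φ x) =
        ((MonoidAlgebra.lift ℤ ℤ G (1 : G →* ℤ) x : ℤ) : ℤ_[p]) := by
      intro x
      induction x using MonoidAlgebra.induction with
      | zero => simp
      | single_add g b f _ _ ih =>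
        rw [map_add, map_add, map_add, ih, Int.cast_add, hφ, MonoidAlgebra.mapRingHom_single]
        simp [MonoidAlgebra.lift_single]
    rw [hY, h1, haugw, Int.cast_one]
  have hauge : MonoidAlgebra.lift ℤ_[p] ℤ_[p] G (1 : G →* ℤ_[p]) (1 - c • σ) = 0 := by
    rw [map_sub, map_one, map_smul, hσ, map_sum]
    simp only [map_pow, haugY, one_pow, Finset.sum_const, Finset.card_range, smul_eq_mul,
      nsmul_eq_mul, mul_one, hc, sub_self]
  have hmain := hz (1 - c • σ) V hee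
    ((Commute.one_left V).sub_left (hcomm.smul_left c)) hauge hVp
  have hF : FL G p a (V * (1 - c • σ)) = 0 := hmain
  have hVσ : V * (1 - c • σ) = V - c • ∑ j ∈ Finset.range q, V * Y ^ j := by
    rw [mul_sub, mul_one, mul_smul_comm, hσ, Finset.mul_sum]
  rw [hVσ, map_sub, map_smul, map_sum, smul_eq_mul, sub_eq_zero] at hF
  have hF2 : (q : ℤ_[p]) * FL G p a V = ∑ j ∈ Finset.range q, FL G p a (V * Y ^ j) := by
    rw [hF, ← mul_assoc, mul_comm (q : ℤ_[p]) c, hc, one_mul]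
  have e1 : ∀ j : ℕ, FL G p a (V * Y ^ j) =
      (fv p a ((v * w ^ j : (MonoidAlgebra ℤ G)ˣ) : MonoidAlgebra ℤ G) : ℤ_[p]) := by
    intro j
    have h1 : V * Y ^ j = φ ((v * w ^ j : (MonoidAlgebra ℤ G)ˣ) : MonoidAlgebra ℤ G) := by
      rw [Units.val_mul, Units.val_pow_eq_pow_val, map_mul, map_pow]
    rw [h1, hφ, FL_map]
  rw [hV, hφ, FL_map, ← hφ, ← hV, Finset.sum_congr rfl fun j _ => e1 j] at hF2
  have hF3 : (((q : ℤ) * fv p a (v : MonoidAlgebra ℤ G) : ℤ) : ℤ_[p]) =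
      ((∑ j ∈ Finset.range q, fv p a ((v * w ^ j : (MonoidAlgebra ℤ G)ˣ) : MonoidAlgebra ℤ G) : ℤ) :
        ℤ_[p]) := by
    rw [Int.cast_mul, Int.cast_sum, Int.cast_natCast]
    exact hF2
  exact Int.cast_injective hF3

end Pool.Agent.Helper495_SP
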