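import Mathlib
set_option autoImplicit false
namespace Pool.Agent.Helper495_SP
open scoped Classical
variable {G : Type*} [Group G]

open Subgroup in
theorem j12_aux {K : Type*} [Group K] [Finite K] {p : ℕ} [Fact p.Prime] (y : K) (k : ℕ)
    (hy : orderOf y = p ^ (k + 1)) (hS : ¬ p ∣ (zpowers y).index)
    (hc : ∀ g : K, Commute g (y ^ p ^ k)) :
    ∃ N1 : Subgroup K, (∀ g, g ∈ N1 ↔ ¬ p ∣ orderOf g) ∧
      ∀ g, ∃ i : ℕ, ∃ n ∈ N1, g = y ^ i * n := by
  have hp : p.Prime := Fact.out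
  have hpp : IsPGroup p (zpowers y) := by
    refine IsPGroup.of_card (n := k + 1) ?_
    rw [Nat.card_zpowers, hy]
  set P : Sylow p K := hpp.toSylow hS with hPdef
  have hPmem : ∀ g, g ∈ P ↔ g ∈ zpowers y := fun g => hpp.mem_toSylow hS
  have hPn : normalizer (P : Set K) ≤ centralizer (P : Set K) := by
    intro g hg
    -- the action of `g` on `y`
    have hgy : g * y * g⁻¹ ∈ zpowers y := by
      rw [← hPmem]
      exact (hg y).1 ((hPmem y).2 (mem_zpowers y))
    obtain ⟨c, hcc⟩ := mem_zpowers_iff.1 hgy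
    -- `c` is one modulo `p`
    have hc1 : (p : ℤ) ∣ c - 1 := by
      have h1 : g * y ^ p ^ k * g⁻¹ = y ^ p ^ k := by
        rw [(hc g).eq]
        group
      have h2 : g * y ^ p ^ k * g⁻¹ = y ^ (c * (p ^ k : ℕ)) := by
        rw [← conj_pow, ← hcc, zpow_mul, zpow_natCast]
      rw [h1, ← zpow_natCast, zpow_eq_zpow_iff_modEq, hy] at h2
      have h3 := h2.dvd
      have h4 : c * ((p ^ k : ℕ) : ℤ) - ((p ^ k : ℕ) : ℤ) = ((p : ℤ) ^ k) * (c - 1) := by
        push_cast; ring
      rw [h4] at h3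
      push_cast at h3
      rw [pow_succ] at h3
      exact (mul_dvd_mul_iff_left (pow_ne_zero k (by exact_mod_cast hp.ne_zero))).1 h3
    have hpow : ∀ m : ℕ, g ^ m * y * (g ^ m)⁻¹ = y ^ (c ^ m) := by
      intro m
      induction m with
      | zero => simp
      | succ m ih =>
        have : g ^ (m + 1) * y * (g ^ (m + 1))⁻¹ = g * (g ^ m * y * (g ^ m)⁻¹) * g⁻¹ := by
          rw [pow_succ']
          group
        rw [this, ih, ← conj_zpow, ← hcc, ← zpow_mul, pow_succ']
    -- the `p ^ k`-th power centralises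
    have hk : Commute (g ^ p ^ k) y := by
      have h1 := hpow (p ^ k)
      have h2 : y ^ (c ^ p ^ k) = y ^ (1 : ℤ) := by
        rw [zpow_eq_zpow_iff_modEq, hy]
        refine (Int.modEq_iff_dvd.2 ?_).symm
        have := dvd_sub_pow_of_dvd_sub (R := ℤ) (a := c) (b := 1) hc1 k
        rw [one_pow] at this
        push_cast
        exact this
      rw [h2, zpow_one, mul_inv_eq_iff_eq_mul] at h1
      exact h1
    -- the `p`-part
    obtain ⟨e, m, hm, hord⟩ := Nat.exists_eq_pow_mul_and_not_dvd (orderOf_pos g).ne' p hp.ne_one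
    have hm' : g ^ m ∈ zpowers y := by
      have hQ : IsPGroup p (zpowers (g ^ m)) := by
        rw [IsPGroup.iff_card]
        obtain ⟨j, -, hj⟩ := (Nat.dvd_prime_pow hp).1
          (orderOf_dvd_of_pow_eq_one (x := g ^ m) (n := p ^ e) (by
            rw [← pow_mul, mul_comm, ← hord, pow_orderOf_eq_one]))
        exact ⟨j, by rw [Nat.card_zpowers, hj]⟩
      have hle : zpowers (g ^ m) ≤ normalizer (P : Set K) := by
        rw [zpowers_le]
        exact pow_mem hg m
      have h1 := hQ.inf_normalizer_sylow P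
      have h2 : g ^ m ∈ zpowers (g ^ m) ⊓ (P : Subgroup K) := by
        rw [← h1]
        exact ⟨mem_zpowers _, hle (mem_zpowers _)⟩
      exact (hPmem _).1 h2.2
    have hmy : Commute (g ^ m) y := by
      obtain ⟨j, hj⟩ := mem_zpowers_iff.1 hm'
      rw [← hj]
      exact (Commute.refl y).zpow_left j
    have hcop : IsCoprime (m : ℤ) ((p ^ k : ℕ) : ℤ) := by
      rw [Nat.isCoprime_iff_coprime]
      exact (((Nat.Prime.coprime_iff_not_dvd hp).2 hm).symm).pow_right k
    obtain ⟨u, v, huv⟩ := hcop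
    have hgg : Commute g y := by
      have : g = (g ^ m) ^ u * (g ^ p ^ k) ^ v := by
        rw [← zpow_natCast g m, ← zpow_natCast g (p ^ k), ← zpow_mul, ← zpow_mul, ← zpow_add,
          mul_comm (m : ℤ) u, mul_comm ((p ^ k : ℕ) : ℤ) v, huv, zpow_one]
      rw [this]
      exact (hmy.zpow_left u).mul_left (hk.zpow_left v)
    rw [mem_centralizer_iff]
    intro h hh
    obtain ⟨j, hj⟩ := mem_zpowers_iff.1 ((hPmem h).1 hh)
    rw [← hj]
    exact ((hgg.zpow_right j).eq).symm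
  have hcompl := MonoidHom.ker_transferSylow_isComplement' P hPn
  have hcard := MonoidHom.not_dvd_card_ker_transferSylow P hPn
  set N1 := (MonoidHom.transferSylow P hPn).ker with hN1
  refine ⟨N1, fun g => ⟨fun hg hd => ?_, fun hg => ?_⟩, fun g => ?_⟩
  · apply hcard
    refine hd.trans ?_
    have := orderOf_dvd_natCard (⟨g, hg⟩ : N1)
    rwa [Subgroup.orderOf_mk] at this
  · rw [hN1, MonoidHom.mem_ker]
    have h1 : orderOf (MonoidHom.transferSylow P hPn g) ∣ orderOf g := orderOf_map_dvd _ g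
    have h2 : orderOf (MonoidHom.transferSylow P hPn g) ∣ p ^ (k + 1) := by
      have := orderOf_dvd_natCard (MonoidHom.transferSylow P hPn g)
      have hPc : Nat.card P = p ^ (k + 1) := by
        have : (P : Subgroup K) = zpowers y := hpp.toSylow_coe hS
        have h3 : Nat.card P = Nat.card (P : Subgroup K) := rfl
        rw [h3, this, Nat.card_zpowers, hy]
      rwa [hPc] at this
    obtain ⟨j, -, hj⟩ := (Nat.dvd_prime_pow hp).1 h2
    rcases Nat.eq_zero_or_pos j with rfl | hj0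
    · rw [pow_zero, orderOf_eq_one_iff] at hj
      exact hj
    · exfalso
      apply hg
      rw [hj] at h1
      exact (dvd_pow_self p hj0.ne').trans h1
  · obtain ⟨⟨⟨n, hn⟩, ⟨h, hh⟩⟩, hnh⟩ := hcompl.2 g⁻¹
    have hnh' : n * h = g⁻¹ := hnh
    have h3 : h⁻¹ ∈ zpowers y := (zpowers y).inv_mem ((hPmem h).1 hh)
    obtain ⟨i, hi⟩ := (mem_powers_iff_mem_zpowers.2 h3)
    refine ⟨i, n⁻¹, N1.inv_mem hn, ?_⟩
    have h4 : g = h⁻¹ * n⁻¹ := by
      rw [← mul_inv_rev]
      rw [hnh', inv_inv]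
    rw [h4]
    have h5 : y ^ i = h⁻¹ := hi
    rw [h5]

theorem cyc_structure [Finite G] {p : ℕ} [Fact p.Prime] (y : G) (k : ℕ)
    (hy : orderOf y = p ^ (k + 1)) (hSyl : ¬ p ∣ (Subgroup.zpowers y).index) :
    ∃ N0 : Subgroup G,
      (∀ g, g ∈ N0 ↔ (Commute g (y ^ p ^ k) ∧ ¬ p ∣ orderOf g)) ∧
      (∀ g, Commute g (y ^ p ^ k) → ∃ i : ℕ, ∃ n ∈ N0, g = y ^ i * n) := by
  set x : G := y ^ p ^ k with hx
  set K : Subgroup G := Subgroup.centralizer {x} with hK
  have hmemK : ∀ g, g ∈ K ↔ Commute g x := fun g => by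
    rw [hK, Subgroup.mem_centralizer_singleton_iff]
    exact Iff.rfl
  have hyK : y ∈ K := (hmemK y).2 ((Commute.refl y).pow_right _)
  set y' : K := ⟨y, hyK⟩ with hy'
  have hy1 : orderOf y' = p ^ (k + 1) := by rw [hy', Subgroup.orderOf_mk, hy]
  have hcomm : ∀ g : K, Commute g (y' ^ p ^ k) := by
    intro g
    have := (hmemK g).1 g.2
    exact Subtype.ext this
  have hle : Subgroup.zpowers y ≤ K := by
    rw [Subgroup.zpowers_le]; exact hyK
  have hzp : Subgroup.zpowers y' = (Subgroup.zpowers y).subgroupOf K := by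
    ext g
    rw [Subgroup.mem_subgroupOf, Subgroup.mem_zpowers_iff, Subgroup.mem_zpowers_iff]
    constructor
    · rintro ⟨j, rfl⟩
      exact ⟨j, rfl⟩
    · rintro ⟨j, hj⟩
      exact ⟨j, Subtype.ext hj⟩
  have hind : ¬ p ∣ (Subgroup.zpowers y').index := by
    intro hd
    apply hSyl
    refine hd.trans ?_
    rw [hzp]
    exact Subgroup.relIndex_dvd_index_of_le hle
  obtain ⟨N1, h1, h2⟩ := j12_aux y' k hy1 hind hcomm
  refine ⟨N1.map K.subtype, fun g => ?_, fun g hg => ?_⟩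
  · constructor
    · rintro ⟨g', hg', rfl⟩
      refine ⟨(hmemK _).1 g'.2, ?_⟩
      have := (h1 g').1 hg'
      rwa [← Subgroup.orderOf_coe] at this
    · rintro ⟨hg1, hg2⟩
      refine ⟨⟨g, (hmemK g).2 hg1⟩, (h1 _).2 ?_, rfl⟩
      rwa [Subgroup.orderOf_mk]
  · obtain ⟨i, n, hn, he⟩ := h2 ⟨g, (hmemK g).2 hg⟩
    refine ⟨i, n, ⟨n, hn, rfl⟩, ?_⟩
    exact congrArg Subtype.val he

end Pool.Agent.Helper495_SP
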