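import Mathlib
set_option autoImplicit false

namespace Pool.Agent.Helper495_SP
open scoped Classical
variable {G : Type*} [Group G]

theorem cyc_unique [Fintype G] {p : ℕ} (hp : 0 < p) (C : Subgroup G) [IsCyclic C] {x v : G} (hx : x ∈ C)
    (hv : v ∈ C) (hox : orderOf x = p) (hvp : v ^ p = 1) : v ∈ Subgroup.zpowers x := by
  let S : Finset C := Finset.univ.filter fun a => a ^ p = 1
  let T : Finset C := Finset.univ.filter fun a => a ∈ Subgroup.zpowers (⟨x, hx⟩ : C)
  have hox' : orderOf (⟨x, hx⟩ : C) = p := by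
    rw [← hox]; exact Subgroup.orderOf_mk x hx
  have hTS : T ⊆ S := by
    intro a ha
    simp only [T, S, Finset.mem_filter, Finset.mem_univ, true_and] at ha ⊢
    obtain ⟨i, rfl⟩ := Subgroup.mem_zpowers_iff.1 ha
    rw [← zpow_natCast, ← zpow_mul, mul_comm, zpow_mul, zpow_natCast, ← hox', pow_orderOf_eq_one,
      one_zpow]
  have hT : T.card = p := by
    rw [← hox', ← Nat.card_zpowers, Nat.card_eq_fintype_card, Fintype.card_subtype]
  have hS : S.card ≤ p := IsCyclic.card_pow_eq_one_le hp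
  have hE : T = S := Finset.eq_of_subset_of_card_le hTS (by rw [hT]; exact hS)
  have hvS : (⟨v, hv⟩ : C) ∈ S := by
    simp only [S, Finset.mem_filter, Finset.mem_univ, true_and]
    exact Subtype.ext hvp
  rw [← hE] at hvS
  simp only [T, Finset.mem_filter, Finset.mem_univ, true_and] at hvS
  obtain ⟨i, hi⟩ := Subgroup.mem_zpowers_iff.1 hvS
  refine Subgroup.mem_zpowers_iff.2 ⟨i, ?_⟩
  have := congrArg Subtype.val hi
  simpa using this

open scoped Pointwise in
/-- the Sylow subgroup of a cyclic type -/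
theorem sylow_cyclic [Fintype G] {p : ℕ} [Fact p.Prime] (y : G) (k : ℕ)
    (hy : orderOf y = p ^ (k + 1)) (hSyl : ¬ p ∣ (Subgroup.zpowers y).index) (Q : Sylow p G) :
    ∃ g : G, ∀ u : G, u ∈ Q ↔ g⁻¹ * u * g ∈ Subgroup.zpowers y := by
  have hP : IsPGroup p (Subgroup.zpowers y) := by
    refine IsPGroup.of_card (n := k + 1) ?_
    rw [Nat.card_zpowers, hy]
  obtain ⟨g, hg⟩ := MulAction.exists_smul_eq G (hP.toSylow hSyl) Q
  refine ⟨g, fun u => ?_⟩
  have h1 : u ∈ Q ↔ u ∈ g • (hP.toSylow hSyl) := by rw [hg]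
  rw [h1]
  have h2 : u ∈ g • (hP.toSylow hSyl) ↔ u ∈ (MulAut.conj g) • (Subgroup.zpowers y) := Iff.rfl
  rw [h2, Subgroup.mem_pointwise_smul_iff_inv_smul_mem]
  have h3 : (MulAut.conj g)⁻¹ • u = g⁻¹ * u * g := by
    rw [MulAut.smul_def, ← map_inv, MulAut.conj_apply, inv_inv]
  rw [h3]

theorem isCyclic_sylow [Fintype G] {p : ℕ} [Fact p.Prime] (y : G) (k : ℕ)
    (hy : orderOf y = p ^ (k + 1)) (hSyl : ¬ p ∣ (Subgroup.zpowers y).index) (Q : Sylow p G) :
    IsCyclic (Q : Subgroup G) := by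
  have hP : IsPGroup p (Subgroup.zpowers y) := by
    refine IsPGroup.of_card (n := k + 1) ?_
    rw [Nat.card_zpowers, hy]
  have e := (hP.toSylow hSyl).equiv Q
  have h1 : IsCyclic (hP.toSylow hSyl : Subgroup G) := by
    change IsCyclic (Subgroup.zpowers y)
    infer_instance
  exact isCyclic_of_surjective e e.surjective

theorem order_x {p : ℕ} [hp : Fact p.Prime] (y : G) (k : ℕ)
    (hy : orderOf y = p ^ (k + 1)) : orderOf (y ^ p ^ k) = p := by
  have h0 : p ^ k ≠ 0 := pow_ne_zero _ hp.out.ne_zero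
  rw [orderOf_pow_of_dvd h0 (by rw [hy]; exact pow_dvd_pow p (Nat.le_succ k)), hy, pow_succ,
    Nat.mul_div_cancel_left _ (Nat.pos_of_ne_zero h0)]

/-- an element of order `p` commuting with `x` is in `⟨x⟩` -/
theorem comm_mem [Fintype G] {p : ℕ} [hp : Fact p.Prime] (y : G) (k : ℕ)
    (hy : orderOf y = p ^ (k + 1)) (hSyl : ¬ p ∣ (Subgroup.zpowers y).index) {v : G}
    (hv : v ^ p = 1) (hc : Commute v (y ^ p ^ k)) : v ∈ Subgroup.zpowers (y ^ p ^ k) := by
  set x := y ^ p ^ k with hx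
  have hox := order_x y k hy
  rw [← hx] at hox
  have h1 : IsPGroup p (Subgroup.zpowers x) := by
    refine IsPGroup.of_card (n := 1) ?_
    rw [Nat.card_zpowers, hox, pow_one]
  have h2 : IsPGroup p (Subgroup.zpowers v) := by
    rcases (Nat.dvd_prime hp.out).1 (orderOf_dvd_of_pow_eq_one hv) with h | h
    · refine IsPGroup.of_card (n := 0) ?_
      rw [Nat.card_zpowers, h, pow_zero]
    · refine IsPGroup.of_card (n := 1) ?_
      rw [Nat.card_zpowers, h, pow_one]
  have h3 : Subgroup.zpowers x ≤ Subgroup.normalizer (Subgroup.zpowers v : Set G) := by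
    rw [Subgroup.zpowers_le, Subgroup.mem_normalizer_iff]
    intro h
    have key : ∀ t : G, t ∈ Subgroup.zpowers v → x * t * x⁻¹ = t := by
      intro t ht
      obtain ⟨i, rfl⟩ := Subgroup.mem_zpowers_iff.1 ht
      have := (hc.zpow_left i).eq
      rw [← this, mul_inv_cancel_right]
    constructor
    · intro hh
      rw [key h hh]; exact hh
    · intro hh
      have h4 : ∀ t : G, t ∈ Subgroup.zpowers v → x⁻¹ * t * x = t := by
        intro t ht
        have := key t ht
        calc x⁻¹ * t * x = x⁻¹ * (x * t * x⁻¹) * x := by rw [this]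
          _ = t := by group
      have h5 := h4 _ hh
      have h6 : x⁻¹ * (x * h * x⁻¹) * x = h := by group
      rw [h6] at h5
      rw [h5]; exact hh
  have h4 := h1.to_sup_of_normal_right' h2 h3
  obtain ⟨Q, hQ⟩ := h4.exists_le_sylow
  have := isCyclic_sylow y k hy hSyl Q
  exact cyc_unique hp.out.pos (Q : Subgroup G)
    (hQ (Subgroup.mem_sup_left (Subgroup.mem_zpowers x)))
    (hQ (Subgroup.mem_sup_right (Subgroup.mem_zpowers v))) hox hv

/-- a nontrivial element of `⟨x⟩` generates `x` -/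
theorem gen_of_mem {p : ℕ} [hp : Fact p.Prime] {x v : G} (hox : orderOf x = p)
    (hv : v ∈ Subgroup.zpowers x) (hv1 : v ≠ 1) : x ∈ Subgroup.zpowers v := by
  have h1 : Nat.card (Subgroup.zpowers x) = p := by rw [Nat.card_zpowers, hox]
  have h2 := mem_zpowers_of_prime_card (G := Subgroup.zpowers x) h1
    (g := ⟨v, hv⟩) (g' := ⟨x, Subgroup.mem_zpowers x⟩) (by
      intro h; exact hv1 (congrArg Subtype.val h))
  obtain ⟨i, hi⟩ := Subgroup.mem_zpowers_iff.1 h2
  refine Subgroup.mem_zpowers_iff.2 ⟨i, ?_⟩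
  have := congrArg Subtype.val hi
  simpa using this

theorem card_fix [Fintype G] {p : ℕ} [hp : Fact p.Prime] (y : G) (k : ℕ)
    (hy : orderOf y = p ^ (k + 1)) (hSyl : ¬ p ∣ (Subgroup.zpowers y).index) (h : G)
    (hh : p ∣ orderOf h) :
    (Finset.univ.filter fun m : G => Commute (m * h * m⁻¹) (y ^ p ^ k)).card =
      Nat.card {g : G // g * (y ^ p ^ k) * g⁻¹ ∈ Subgroup.zpowers (y ^ p ^ k)} := by
  set x := y ^ p ^ k with hx
  have hox := order_x y k hy
  rw [← hx] at hox
  set w := h ^ (orderOf h / p) with hw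
  have how : orderOf w = p := by
    rw [hw]
    obtain ⟨d, hd⟩ := hh
    have hd0 : d ≠ 0 := by
      rintro rfl
      have := orderOf_pos h
      omega
    have hdd : d ∣ orderOf h := by rw [hd]; exact Dvd.intro_left p rfl
    have hhd : orderOf h / p = d := by rw [hd, Nat.mul_div_cancel_left _ hp.out.pos]
    rw [hhd, orderOf_pow_of_dvd hd0 hdd, hd, Nat.mul_div_cancel _ (Nat.pos_of_ne_zero hd0)]
  have hw1 : w ≠ 1 := by
    intro h1
    rw [h1, orderOf_one] at how
    exact hp.out.one_lt.ne how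
  have hconj : ∀ m t : G, ∀ n : ℕ, (m * t * m⁻¹) ^ n = m * t ^ n * m⁻¹ := fun m t n => conj_pow
  -- reformulation
  have hiff : ∀ m : G, Commute (m * h * m⁻¹) x ↔ m * w * m⁻¹ ∈ Subgroup.zpowers x := by
    intro m
    constructor
    · intro hc
      refine comm_mem y k hy hSyl ?_ ?_
      · rw [hconj, ← how, pow_orderOf_eq_one]; simp
      · rw [hw, ← hconj]
        exact hc.pow_left _
    · intro hm
      have h1 : m * w * m⁻¹ ≠ 1 := by
        intro h2
        apply hw1
        have : w = m⁻¹ * (m * w * m⁻¹) * m := by group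
        rw [this, h2]; simp
      have h2 := gen_of_mem hox hm h1
      obtain ⟨i, hi⟩ := Subgroup.mem_zpowers_iff.1 h2
      rw [← hi, hw, ← hconj]
      exact ((Commute.refl (m * h * m⁻¹)).pow_right _).zpow_right _
  -- nonempty
  obtain ⟨m₀, hm₀⟩ : ∃ m₀ : G, m₀ * w * m₀⁻¹ ∈ Subgroup.zpowers x := by
    have h2 : IsPGroup p (Subgroup.zpowers w) := by
      refine IsPGroup.of_card (n := 1) ?_
      rw [Nat.card_zpowers, how, pow_one]
    obtain ⟨Q, hQ⟩ := h2.exists_le_sylow
    obtain ⟨g, hg⟩ := sylow_cyclic y k hy hSyl Q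
    have h3 := (hg w).1 (hQ (Subgroup.mem_zpowers w))
    refine ⟨g⁻¹, ?_⟩
    rw [inv_inv]
    refine cyc_unique hp.out.pos (Subgroup.zpowers y) ?_ h3 hox ?_
    · rw [hx]; exact Subgroup.npow_mem_zpowers y _
    · have := hconj g⁻¹ w p
      rw [inv_inv] at this
      rw [this, ← how, pow_orderOf_eq_one]; simp
  have hm₁ : m₀ * w * m₀⁻¹ ≠ 1 := by
    intro h2
    apply hw1
    have : w = m₀⁻¹ * (m₀ * w * m₀⁻¹) * m₀ := by group
    rw [this, h2]; simp
  obtain ⟨i, hi⟩ := Subgroup.mem_zpowers_iff.1 hm₀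
  obtain ⟨j, hj⟩ := Subgroup.mem_zpowers_iff.1 (gen_of_mem hox hm₀ hm₁)
  have hzc : ∀ m t : G, ∀ n : ℤ, (m * t * m⁻¹) ^ n = m * t ^ n * m⁻¹ := fun m t n => conj_zpow
  have hiff2 : ∀ g : G, (g * m₀) * w * (g * m₀)⁻¹ ∈ Subgroup.zpowers x ↔
      g * x * g⁻¹ ∈ Subgroup.zpowers x := by
    intro g
    have e : (g * m₀) * w * (g * m₀)⁻¹ = g * (m₀ * w * m₀⁻¹) * g⁻¹ := by group
    rw [e]
    constructor
    · intro h1
      have h5 : g * x * g⁻¹ = (g * (m₀ * w * m₀⁻¹) * g⁻¹) ^ j := by rw [hzc, hj]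
      rw [h5]
      exact Subgroup.zpow_mem _ h1 j
    · intro h1
      have h5 : g * (m₀ * w * m₀⁻¹) * g⁻¹ = (g * x * g⁻¹) ^ i := by rw [hzc, hi]
      rw [h5]
      exact Subgroup.zpow_mem _ h1 i
  have e1 : (Finset.univ.filter fun m : G => Commute (m * h * m⁻¹) x).card =
      (Finset.univ.filter fun g : G => g * x * g⁻¹ ∈ Subgroup.zpowers x).card := by
    symm
    refine Finset.card_bij (fun g _ => g * m₀) ?_ ?_ ?_
    · intro g hg
      simp only [Finset.mem_filter, Finset.mem_univ, true_and] at hg ⊢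
      rw [hiff]
      exact (hiff2 g).2 hg
    · intro a _ b _ hab
      exact mul_right_cancel hab
    · intro m hm
      simp only [Finset.mem_filter, Finset.mem_univ, true_and] at hm
      refine ⟨m * m₀⁻¹, ?_, by group⟩
      simp only [Finset.mem_filter, Finset.mem_univ, true_and]
      rw [← hiff2]
      rw [hiff] at hm
      have e : m * m₀⁻¹ * m₀ = m := by group
      rw [e]; exact hm
  rw [e1, Nat.card_eq_fintype_card, Fintype.card_subtype]

theorem count_cyc {R : Type*} [CommRing R] [Fintype G] {p : ℕ} [Fact p.Prime] (y : G) (k : ℕ)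
    (hy : orderOf y = p ^ (k + 1)) (hSyl : ¬ p ∣ (Subgroup.zpowers y).index) (a : ℕ) (ha : 1 ≤ a)
    (z : G → R) :
    (∑ g : G, if Commute g (y ^ p ^ k) ∧ (orderOf g).factorization p = a
        then ∑ m : G, z (m⁻¹ * g * m) else 0) =
      (Nat.card {g : G // g * (y ^ p ^ k) * g⁻¹ ∈ Subgroup.zpowers (y ^ p ^ k)} : R) *
        ∑ g : G, if (orderOf g).factorization p = a then z g else 0 := by
  have h1 : (∑ g : G, if Commute g (y ^ p ^ k) ∧ (orderOf g).factorization p = a
        then ∑ m : G, z (m⁻¹ * g * m) else 0) =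
      ∑ m : G, ∑ g : G, if Commute g (y ^ p ^ k) ∧ (orderOf g).factorization p = a
        then z (m⁻¹ * g * m) else 0 := by
    rw [Finset.sum_comm]
    refine Finset.sum_congr rfl fun g _ => ?_
    split_ifs with h
    · rfl
    · simp
  have h2 : ∀ m : G, (∑ g : G, if Commute g (y ^ p ^ k) ∧ (orderOf g).factorization p = a
        then z (m⁻¹ * g * m) else 0) =
      ∑ h : G, if Commute (m * h * m⁻¹) (y ^ p ^ k) ∧ (orderOf h).factorization p = a
        then z h else 0 := by
    intro m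
    refine (Fintype.sum_equiv (MulAut.conj m).toEquiv _ _ fun h => ?_).symm
    have e1 : (MulAut.conj m).toEquiv h = m * h * m⁻¹ := by
      simp [MulAut.conj_apply]
    have e2 : orderOf (m * h * m⁻¹) = orderOf h := by
      have := (MulAut.conj m).orderOf_eq h
      rwa [MulAut.conj_apply] at this
    have e3 : m⁻¹ * (m * h * m⁻¹) * m = h := by group
    rw [e1, e2, e3]
  rw [h1]
  simp_rw [h2]
  rw [Finset.sum_comm, Finset.mul_sum]
  refine Finset.sum_congr rfl fun h _ => ?_
  by_cases hh : (orderOf h).factorization p = a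
  · simp only [hh, and_true, if_true]
    have hd : p ∣ orderOf h := by
      by_contra hnd
      rw [Nat.factorization_eq_zero_of_not_dvd hnd] at hh
      omega
    rw [← card_fix y k hy hSyl h hd, Finset.sum_ite, Finset.sum_const_zero, add_zero,
      Finset.sum_const, nsmul_eq_mul]
  · simp [hh]

end Pool.Agent.Helper495_SP
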