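import Mathlib
set_option autoImplicit false
namespace Pool.Agent.Helper495_SP
open scoped Classical
variable {G : Type*} [Group G]

theorem split_cyc {R : Type*} [CommRing R] [Fintype G] {p : ℕ} [Fact p.Prime] (y : G) (k : ℕ)
    (hy : orderOf y = p ^ (k + 1))
    (N0 : Subgroup G) (hN0 : ∀ g, g ∈ N0 ↔ (Commute g (y ^ p ^ k) ∧ ¬ p ∣ orderOf g))
    (hK : ∀ g, Commute g (y ^ p ^ k) → ∃ i : ℕ, ∃ n ∈ N0, g = y ^ i * n) (a : ℕ) (F : G → R) :
    (∑ g : G, if Commute g (y ^ p ^ k) ∧ (orderOf g).factorization p = a then F g else 0) =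
      ∑ h : G, if h ∈ Subgroup.zpowers y ∧ orderOf h = p ^ a
        then ∑ n : G, (if n ∈ N0 then F (h * n) else 0) else 0 := by
  classical
  have hp : p.Prime := Fact.out
  have hcy : ∀ h ∈ Subgroup.zpowers y, Commute h (y ^ p ^ k) := by
    rintro h ⟨i, rfl⟩
    exact ((Commute.refl y).zpow_left i).pow_right _
  have hordy : ∀ h ∈ Subgroup.zpowers y, ∃ b, orderOf h = p ^ b := by
    intro h hh
    have h1 : orderOf h ∣ p ^ (k + 1) := by
      rw [← hy]
      exact orderOf_dvd_of_mem_zpowers hh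
    obtain ⟨b, -, hb⟩ := (Nat.dvd_prime_pow hp).1 h1
    exact ⟨b, hb⟩
  have hmem1 : ∀ h ∈ Subgroup.zpowers y, h ∈ N0 → h = 1 := by
    intro h hh hN
    obtain ⟨b, hb⟩ := hordy h hh
    have h2 := ((hN0 h).1 hN).2
    rcases Nat.eq_zero_or_pos b with h3 | h3
    · rw [h3, pow_zero] at hb
      exact orderOf_eq_one_iff.1 hb
    · exact absurd (hb ▸ dvd_pow_self p (Nat.pos_iff_ne_zero.1 h3)) h2
  have hconj : ∀ h ∈ Subgroup.zpowers y, ∀ n ∈ N0, h⁻¹ * n * h ∈ N0 := by
    intro h hh n hn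
    rw [hN0] at hn ⊢
    have hc := hcy h hh
    refine ⟨(hc.inv_left.mul_left hn.1).mul_left hc, ?_⟩
    have h4 : orderOf (h⁻¹ * n * h) = orderOf n := by
      have := MulEquiv.orderOf_eq (MulAut.conj h⁻¹) n
      rw [MulAut.conj_apply, inv_inv] at this
      exact this
    rw [h4]; exact hn.2
  have hpow : ∀ h ∈ Subgroup.zpowers y, ∀ n ∈ N0, ∀ j : ℕ, ∃ n' ∈ N0,
      (h * n) ^ j = h ^ j * n' := by
    intro h hh n hn j
    induction j with
    | zero => exact ⟨1, N0.one_mem, by simp⟩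
    | succ j ih =>
      obtain ⟨n', hn', e⟩ := ih
      refine ⟨h⁻¹ * n' * h * n, N0.mul_mem (hconj h hh n' hn') hn, ?_⟩
      rw [pow_succ, e, pow_succ]
      group
  have hord : ∀ h ∈ Subgroup.zpowers y, ∀ n ∈ N0,
      ((orderOf (h * n)).factorization p = a ↔ orderOf h = p ^ a) := by
    intro h hh n hn
    obtain ⟨b, hb⟩ := hordy h hh
    have hfac : (orderOf (h * n)).factorization p = b := by
      obtain ⟨n', hn', e⟩ := hpow h hh n hn (p ^ b)
      rw [← hb, pow_orderOf_eq_one, one_mul, hb] at e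
      have hpos : 0 < orderOf (h * n) := orderOf_pos _
      have hd1 : orderOf (h * n) ∣ p ^ b * orderOf n' := by
        apply orderOf_dvd_of_pow_eq_one
        rw [pow_mul, e, pow_orderOf_eq_one]
      have hd2 : p ^ b ∣ orderOf (h * n) := by
        obtain ⟨n'', hn'', e''⟩ := hpow h hh n hn (orderOf (h * n))
        rw [pow_orderOf_eq_one] at e''
        have h5 : h ^ orderOf (h * n) = n''⁻¹ := eq_inv_of_mul_eq_one_left e''.symm
        have h6 : h ^ orderOf (h * n) = 1 :=
          hmem1 _ (Subgroup.pow_mem _ hh _) (h5 ▸ N0.inv_mem hn'')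
        rw [← hb]
        exact orderOf_dvd_of_pow_eq_one h6
      have hn2 := ((hN0 n').1 hn').2
      have hpos' : 0 < orderOf n' := orderOf_pos _
      apply le_antisymm
      · have h7 : (orderOf (h * n)).factorization p ≤ (p ^ b * orderOf n').factorization p :=
          (Nat.factorization_le_iff_dvd hpos.ne' (Nat.mul_ne_zero (pow_pos hp.pos b).ne'
            hpos'.ne')).2 hd1 p
        rw [Nat.factorization_mul (pow_pos hp.pos b).ne' hpos'.ne'] at h7
        simpa [Nat.factorization_eq_zero_of_not_dvd hn2, hp.factorization_self] using h7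
      · exact (hp.pow_dvd_iff_le_factorization hpos.ne').1 hd2
    rw [hfac, hb]
    constructor
    · rintro rfl; rfl
    · intro h8; exact Nat.pow_right_injective hp.two_le h8
  have hR : ∀ h : G, (if h ∈ Subgroup.zpowers y ∧ orderOf h = p ^ a
        then ∑ n : G, (if n ∈ N0 then F (h * n) else 0) else 0) =
      ∑ n : G, if (h ∈ Subgroup.zpowers y ∧ orderOf h = p ^ a) ∧ n ∈ N0 then F (h * n) else 0 := by
    intro h
    by_cases hc : h ∈ Subgroup.zpowers y ∧ orderOf h = p ^ a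
    · rw [if_pos hc]
      exact Finset.sum_congr rfl fun n _ => by simp [hc]
    · rw [if_neg hc]
      symm
      exact Finset.sum_eq_zero fun n _ => if_neg fun hh => hc hh.1
  rw [Finset.sum_congr rfl fun h _ => hR h, ← Finset.sum_product', ← Finset.sum_filter,
    ← Finset.sum_filter]
  symm
  refine Finset.sum_bij (fun q _ => q.1 * q.2) ?_ ?_ ?_ ?_
  · rintro ⟨h, n⟩ hq
    simp only [Finset.univ_product_univ, Finset.mem_filter, Finset.mem_univ, true_and] at hq ⊢
    obtain ⟨⟨hh, ho⟩, hn⟩ := hq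
    exact ⟨(hcy h hh).mul_left ((hN0 n).1 hn).1, (hord h hh n hn).2 ho⟩
  · rintro ⟨h, n⟩ hq ⟨h', n'⟩ hq' e
    simp only [Finset.univ_product_univ, Finset.mem_filter, Finset.mem_univ, true_and] at hq hq' e
    have h9 : h'⁻¹ * h = n' * n⁻¹ := by
      have h10 : h = h' * n' * n⁻¹ := by rw [← e]; group
      rw [h10]; group
    have h11 : h'⁻¹ * h = 1 := hmem1 _
      (Subgroup.mul_mem _ (Subgroup.inv_mem _ hq'.1.1) hq.1.1)
      (h9 ▸ N0.mul_mem hq'.2 (N0.inv_mem hq.2))
    have h12 : h = h' := (inv_mul_eq_one.1 h11).symm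
    subst h12
    rw [mul_left_cancel e]
  · intro g hg
    simp only [Finset.mem_filter, Finset.mem_univ, true_and] at hg
    obtain ⟨i, n, hn, rfl⟩ := hK g hg.1
    have hm : y ^ i ∈ Subgroup.zpowers y := Subgroup.pow_mem _ (Subgroup.mem_zpowers y) i
    refine ⟨(y ^ i, n), ?_, rfl⟩
    simp only [Finset.univ_product_univ, Finset.mem_filter, Finset.mem_univ, true_and]
    exact ⟨⟨hm, (hord _ hm n hn).1 hg.2⟩, hn⟩
  · rintro ⟨h, n⟩ hq
    rfl

end Pool.Agent.Helper495_SP
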