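import Mathlib
set_option autoImplicit false
namespace Pool.Agent.Helper495_SP
open scoped Classical
variable {G : Type*} [Group G]

theorem proj_kG {k : Type*} [CommRing k] [Fintype G] (P : Subgroup G) (e : MonoidAlgebra k G)
    (he : e * e = e) (m : MonoidAlgebra k G) (hm : m * e = m)
    (hP : ∀ h ∈ P, MonoidAlgebra.single h (1 : k) * m = m) :
    ∃ b : MonoidAlgebra k G, b * e = b ∧
      m = ∑ h : G, if h ∈ P then MonoidAlgebra.single h (1 : k) * b else 0 := by
  -- representatives of the right cosets
  let r : G → G := fun g => Quotient.out (Quotient.mk (QuotientGroup.rightRel P) g)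
  have hr1 : ∀ g, g * (r g)⁻¹ ∈ P := by
    intro g
    have h : (QuotientGroup.rightRel P) (r g) g := Quotient.exact (Quotient.out_eq _)
    exact QuotientGroup.rightRel_apply.mp h
  have hr2 : ∀ h ∈ P, ∀ g, r (h * g) = r g := by
    intro h hh g
    have : Quotient.mk (QuotientGroup.rightRel P) (h * g) =
        Quotient.mk (QuotientGroup.rightRel P) g := by
      apply Quotient.sound
      change (QuotientGroup.rightRel P) (h * g) g
      rw [QuotientGroup.rightRel_apply]
      have : g * (h * g)⁻¹ = h⁻¹ := by group
      rw [this]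
      exact P.inv_mem hh
    simp only [r, this]
  have hmc : ∀ h ∈ P, ∀ g, m.coeff (h * g) = m.coeff g := by
    intro h hh g
    conv_lhs => rw [← hP h hh]
    rw [MonoidAlgebra.coeff_single_mul_apply, one_mul, inv_mul_cancel_left]
  let b0 : MonoidAlgebra k G :=
    MonoidAlgebra.ofCoeff (Finsupp.equivFunOnFinite.symm fun g => if r g = g then m.coeff g else 0)
  have hb0 : ∀ g, b0.coeff g = if r g = g then m.coeff g else 0 := fun g => rfl
  have hsum : m = ∑ h : G, if h ∈ P then MonoidAlgebra.single h (1 : k) * b0 else 0 := by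
    apply MonoidAlgebra.ext
    ext x
    rw [MonoidAlgebra.coeff_sum, Finsupp.finsetSum_apply]
    have hx : x * (r x)⁻¹ ∈ P := hr1 x
    have hxx : (x * (r x)⁻¹)⁻¹ * x = r x := by group
    rw [Finset.sum_eq_single (x * (r x)⁻¹)]
    · rw [if_pos hx, MonoidAlgebra.coeff_single_mul_apply, one_mul, hxx, hb0]
      have h1 : r (r x) = r x := by
        conv_lhs => rw [← hxx]
        exact hr2 _ (P.inv_mem hx) x
      rw [if_pos h1]
      have h2 := hmc _ hx (r x)
      rw [inv_mul_cancel_right] at h2
      exact h2
    · intro h _ hne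
      by_cases hh : h ∈ P
      · rw [if_pos hh, MonoidAlgebra.coeff_single_mul_apply, one_mul, hb0, if_neg]
        intro h1
        rw [hr2 _ (P.inv_mem hh)] at h1
        apply hne
        rw [h1]
        group
      · rw [if_neg hh]
        rfl
    · intro h
      exact absurd (Finset.mem_univ _) h
  refine ⟨b0 * e, by rw [mul_assoc, he], ?_⟩
  conv_lhs => rw [← hm, hsum, Finset.sum_mul]
  refine Finset.sum_congr rfl fun h _ => ?_
  split_ifs
  · rw [mul_assoc]
  · rw [zero_mul]

end Pool.Agent.Helper495_SP
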