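import Mathlib
set_option autoImplicit false
/-
J06 free module parametrisation (proved by helper322)
-/
namespace Pool.Agent.Helper495_SP
open Polynomial
variable {k : Type*} [Field k] {V : Type*} [AddCommGroup V] [Module k V] [FiniteDimensional k V]

theorem free_param_ker (X : Module.End k V) (n : ℕ)
    (hX : ∀ v, X v = 0 → ∃ w, v = (X ^ (n - 1)) w) :
    ∀ i, i ≤ n → ∀ v, (X ^ i) v = 0 → ∃ w, v = (X ^ (n - i)) w := by
  intro i
  induction i with
  | zero =>
    intro _ v hv
    refine ⟨0, ?_⟩
    rw [map_zero]
    simpa using hv
  | succ i ih =>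
    intro hi v hv
    have h1 : (X ^ i) (X v) = 0 := by
      rw [← Module.End.mul_apply, ← pow_succ]
      exact hv
    obtain ⟨l, hl⟩ := ih (by omega) (X v) h1
    have e1 : n - i = (n - (i + 1)) + 1 := by omega
    rw [e1, pow_succ', Module.End.mul_apply] at hl
    have h2 : X (v - (X ^ (n - (i + 1))) l) = 0 := by
      rw [map_sub, hl, sub_self]
    obtain ⟨w, hw⟩ := hX _ h2
    have e2 : n - 1 = (n - (i + 1)) + i := by omega
    rw [e2, pow_add, Module.End.mul_apply] at hw
    refine ⟨l + (X ^ i) w, ?_⟩
    rw [map_add, ← hw]
    abel

theorem free_param (X : Module.End k V) (n : ℕ) (hn : 1 ≤ n) (hXn : X ^ n = 0)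
    (hX : ∀ v, X v = 0 → ∃ w, v = (X ^ (n - 1)) w) :
    ∃ (m : ℕ) (b : Fin m → V),
      (∀ v : V, ∃ f : Fin m → k[X], v = ∑ j, (aeval X (f j)) (b j)) ∧
      (∀ f : Fin m → k[X], ∑ j, (aeval X (f j)) (b j) = 0 → ∀ j, (Polynomial.X : k[X]) ^ n ∣ f j) := by
  classical
  let B := Module.finBasis k (V ⧸ LinearMap.range X)
  have hb : ∀ j, ∃ v : V, (LinearMap.range X).mkQ v = B j := fun j =>
    Submodule.mkQ_surjective _ (B j)
  choose b hb using hb
  refine ⟨Module.finrank k (V ⧸ LinearMap.range X), b, ?_, ?_⟩
  · have hstep : ∀ w : V, ∃ (c : Fin (Module.finrank k (V ⧸ LinearMap.range X)) → k) (w' : V),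
        w = ∑ j, c j • b j + X w' := by
      intro w
      have h1 : (LinearMap.range X).mkQ w = (LinearMap.range X).mkQ
          (∑ j, (B.repr ((LinearMap.range X).mkQ w)) j • b j) := by
        rw [map_sum]
        simp only [map_smul, hb]
        exact (B.sum_repr _).symm
      have h2 : w - ∑ j, (B.repr ((LinearMap.range X).mkQ w)) j • b j ∈ LinearMap.range X := by
        have h3 : (LinearMap.range X).mkQ
            (w - ∑ j, (B.repr ((LinearMap.range X).mkQ w)) j • b j) = 0 := by
          rw [map_sub, ← h1, sub_self]
        exact (Submodule.Quotient.mk_eq_zero _).1 h3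
      obtain ⟨w', hw'⟩ := h2
      refine ⟨fun j => (B.repr ((LinearMap.range X).mkQ w)) j, w', ?_⟩
      rw [hw']
      abel
    have key : ∀ (i : ℕ) (v : V), ∃ (f : Fin (Module.finrank k (V ⧸ LinearMap.range X)) → k[X])
        (w : V), v = ∑ j, (aeval X (f j)) (b j) + (X ^ i) w := by
      intro i
      induction i with
      | zero =>
        intro v
        exact ⟨fun _ => 0, v, by simp⟩
      | succ i ih =>
        intro v
        obtain ⟨f, w, hw⟩ := ih v
        obtain ⟨c, w', hw'⟩ := hstep w
        refine ⟨fun j => f j + C (c j) * Polynomial.X ^ i, w', ?_⟩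
        rw [hw, hw', map_add, map_sum]
        simp only [map_add, map_mul, aeval_C, aeval_X_pow, LinearMap.add_apply,
          Finset.sum_add_distrib, Module.End.mul_apply, map_smul, pow_succ,
          Module.algebraMap_end_apply, add_assoc]
    intro v
    obtain ⟨f, w, hw⟩ := key n v
    rw [hXn, LinearMap.zero_apply, add_zero] at hw
    exact ⟨f, hw⟩
  · intro f hf
    have key : ∀ i, i ≤ n → ∀ j, (Polynomial.X : k[X]) ^ i ∣ f j := by
      intro i
      induction i with
      | zero =>
        intro _ j
        rw [pow_zero]
        exact one_dvd _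
      | succ i ih =>
        intro hi
        choose g hg using ih (by omega)
        -- split off the constant terms
        have hdiv : ∀ j, ∃ h : k[X], g j = C ((g j).coeff 0) + Polynomial.X * h := by
          intro j
          refine ⟨(g j).divX, ?_⟩
          conv_lhs => rw [← Polynomial.X_mul_divX_add (g j)]
          rw [add_comm]
        choose h hh using hdiv
        have h1 : (X ^ (n - 1)) (∑ j, (aeval X (g j)) (b j)) = 0 := by
          have e : n - 1 = (n - 1 - i) + i := by omega
          rw [e, pow_add, Module.End.mul_apply, map_sum]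
          have : ∀ j, (X ^ i) ((aeval X (g j)) (b j)) = (aeval X (f j)) (b j) := by
            intro j
            rw [hg j, map_mul, aeval_X_pow, Module.End.mul_apply]
          simp only [this]
          rw [hf, map_zero]
        have h2 : (X ^ (n - 1)) (∑ j, (g j).coeff 0 • b j) = 0 := by
          have e3 : ∑ j, (g j).coeff 0 • b j = ∑ j, (aeval X (g j)) (b j) -
              X (∑ j, (aeval X (h j)) (b j)) := by
            rw [map_sum, ← Finset.sum_sub_distrib]
            refine Finset.sum_congr rfl fun j _ => ?_
            conv_rhs => rw [hh j]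
            rw [map_add, map_mul, aeval_C, aeval_X, LinearMap.add_apply, Module.End.mul_apply,
              Module.algebraMap_end_apply]
            simp
          have e4 : n - 1 + 1 = n := by omega
          rw [e3, map_sub, h1, ← Module.End.mul_apply, ← pow_succ, e4, hXn, LinearMap.zero_apply,
            sub_zero]
        obtain ⟨w, hw⟩ := free_param_ker X n hX (n - 1) (by omega) _ h2
        have e5 : n - (n - 1) = 1 := by omega
        rw [e5, pow_one] at hw
        have h3 : ∑ j, (g j).coeff 0 • B j = 0 := by
          have := congrArg (LinearMap.range X).mkQ hw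
          rw [map_sum] at this
          simp only [map_smul, hb] at this
          rw [this, ← LinearMap.mem_ker, (LinearMap.range X).ker_mkQ]
          exact LinearMap.mem_range_self X w
        have h4 := Fintype.linearIndependent_iff.1 B.linearIndependent _ h3
        intro j
        have h5 : g j = Polynomial.X * h j := by
          have := hh j
          rw [h4 j, C_0, zero_add] at this
          exact this
        rw [hg j, h5, pow_succ]
        exact mul_dvd_mul_left _ (dvd_mul_right _ _)
    exact key n le_rfl

end Pool.Agent.Helper495_SP
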