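import Mathlib
import Pool.Agent.Helper495_SP.J06
set_option autoImplicit false
namespace Pool.Agent.Helper495_SP
open Polynomial
variable {k : Type*} [Field k] {V : Type*} [AddCommGroup V] [Module k V] [FiniteDimensional k V]

/-- the map from the free module over the polynomial ring -/
noncomputable def spPi (X : Module.End k V) {m : ℕ} (b : Fin m → V) :
    (Fin m → k[X]) →ₗ[k] V where
  toFun f := ∑ j, (aeval X (f j)) (b j)
  map_add' f g := by
    simp only [Pi.add_apply, map_add, LinearMap.add_apply, Finset.sum_add_distrib]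
  map_smul' c f := by
    simp only [Pi.smul_apply, map_smul, LinearMap.smul_apply, RingHom.id_apply, Finset.smul_sum]

omit [FiniteDimensional k V] in
theorem spPi_apply (X : Module.End k V) {m : ℕ} (b : Fin m → V) (f : Fin m → k[X]) :
    spPi X b f = ∑ j, (aeval X (f j)) (b j) := rfl

theorem spPi_smul (X : Module.End k V) {m : ℕ} (b : Fin m → V) (q : k[X]) (f : Fin m → k[X]) :
    spPi X b (q • f) = (aeval X q) (spPi X b f) := by
  rw [spPi_apply, spPi_apply, map_sum]
  refine Finset.sum_congr rfl fun j _ => ?_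
  rw [Pi.smul_apply, smul_eq_mul, map_mul, Module.End.mul_apply]

theorem spPi_X_smul (X : Module.End k V) {m : ℕ} (b : Fin m → V) (f : Fin m → k[X]) :
    spPi X b ((Polynomial.X : k[X]) • f) = X (spPi X b f) := by
  rw [spPi_smul, aeval_X]

theorem spPi_Xpow_smul (X : Module.End k V) {m : ℕ} (b : Fin m → V) (n : ℕ)
    (f : Fin m → k[X]) :
    spPi X b ((Polynomial.X : k[X]) ^ n • f) = (X ^ n) (spPi X b f) := by
  rw [spPi_smul, map_pow, aeval_X]

/-- the endomorphism of the free module with given values on the standard basis -/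
noncomputable def spEnd {m : ℕ} (w : Fin m → (Fin m → k[X])) :
    (Fin m → k[X]) →ₗ[k[X]] (Fin m → k[X]) where
  toFun f := ∑ j, f j • w j
  map_add' f g := by
    simp only [Pi.add_apply, add_smul, Finset.sum_add_distrib]
  map_smul' c f := by
    simp only [Pi.smul_apply, smul_eq_mul, mul_smul, RingHom.id_apply, Finset.smul_sum]

theorem spEnd_apply {m : ℕ} (w : Fin m → (Fin m → k[X])) (f : Fin m → k[X]) :
    spEnd w f = ∑ j, f j • w j := rfl

theorem sp_comm_aeval {X Y : Module.End k V} (h : Commute X Y) (q : k[X]) :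
    Commute Y (aeval X q) := by
  induction q using Polynomial.induction_on' with
  | add p q hp hq => rw [map_add]; exact hp.add_right hq
  | monomial n a =>
    rw [aeval_monomial]
    exact (Algebra.commute_algebraMap_right a Y).mul_right (h.symm.pow_right n)

/-- Frobenius for commuting endomorphisms -/
theorem sp_sub_pow {A : Type*} [Ring A] (p : ℕ) (hp : p.Prime) (h0 : (p : A) = 0) {x y : A}
    (h : Commute x y) : (x - y) ^ p = x ^ p - y ^ p := by
  have h1 : Commute (x - y) y := h.sub_left (Commute.refl y)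
  have h2 := h1.add_pow_prime_eq hp
  rw [sub_add_cancel, h0] at h2
  rw [h2]
  simp

theorem exists_t (p n : ℕ) (hp : p.Prime) [CharP k p] (hn : 1 ≤ n)
    (X Y : Module.End k V) (hXY : Commute X Y) (hXn : X ^ n = 0) (hY : Y ^ p = 0)
    (hX : ∀ v, X v = 0 → ∃ w, v = (X ^ (n - 1)) w)
    (g h : k[X]) (hgh : g ^ p = (Polynomial.X : k[X]) ^ n * h) (hh : aeval X h = 1) :
    ∃ t : Module.End k V, Commute t X ∧ Commute t Y ∧
      (∀ l l', Y l = X l' → ∃ c, X c = 0 ∧ t ((X ^ (n - 1)) l) - (Y ^ (p - 1)) l' = (Y ^ (p - 1)) c) ∧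
      (∀ m, Y m = (aeval X g) m → ∃ c, t m - m = ((Y - aeval X g) ^ (p - 1)) c) := by
  classical
  obtain ⟨m, b, hb1, hb2⟩ := free_param X n hn hXn hX
  set P := spPi X b with hP
  have hPsurj : Function.Surjective P := fun v => by
    obtain ⟨f, hf⟩ := hb1 v
    exact ⟨f, hf.symm⟩
  have hXne : (Polynomial.X : k[X]) ^ n ≠ 0 := pow_ne_zero _ Polynomial.X_ne_zero
  -- the kernel
  have hker : ∀ f, P f = 0 → ∃ a, f = (Polynomial.X : k[X]) ^ n • a := by
    intro f hf
    have h1 := hb2 f hf
    choose a ha using h1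
    refine ⟨a, ?_⟩
    funext j
    rw [Pi.smul_apply, smul_eq_mul]
    exact ha j
  have hker2 : ∀ a, P ((Polynomial.X : k[X]) ^ n • a) = 0 := by
    intro a
    rw [hP, spPi_Xpow_smul, hXn]
    rfl
  -- the lift of `Y`
  choose w hw using fun j => hPsurj (Y (b j))
  set Yt : Module.End k[X] (Fin m → k[X]) := spEnd w with hYt
  have hPYt : ∀ f, P (Yt f) = Y (P f) := by
    intro f
    have h1 : P (Yt f) = ∑ j, P (f j • w j) := by
      rw [hYt, spEnd_apply, map_sum]
    rw [h1, hP, spPi_apply X b f, map_sum]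
    refine Finset.sum_congr rfl fun j _ => ?_
    rw [spPi_smul, ← hP, hw]
    have h2 := sp_comm_aeval hXY (f j)
    have h3 := congrArg (fun A : Module.End k V => A (b j)) h2.eq
    simpa only [Module.End.mul_apply] using h3.symm
  have hPYtp : ∀ (r : ℕ) f, P ((Yt ^ r) f) = (Y ^ r) (P f) := by
    intro r
    induction r with
    | zero => intro f; rfl
    | succ r ih =>
      intro f
      rw [pow_succ', pow_succ', Module.End.mul_apply, Module.End.mul_apply, hPYt, ih]
  -- the operator `tt`
  have hex : ∀ j : Fin m, ∃ a, (Yt ^ p) (Pi.single j 1) = (Polynomial.X : k[X]) ^ n • a := by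
    intro j
    apply hker
    rw [hPYtp, hY]
    rfl
  choose u hu using hex
  set tt : Module.End k[X] (Fin m → k[X]) := spEnd u with htt
  have hsum : ∀ f : Fin m → k[X], f = ∑ j, f j • (Pi.single j 1 : Fin m → k[X]) := by
    intro f
    funext i
    rw [Finset.sum_apply, Finset.sum_eq_single i]
    · simp
    · intro j _ hj
      simp [Pi.single_eq_of_ne hj.symm]
    · intro hi
      exact absurd (Finset.mem_univ i) hi
  have hYp : ∀ f, (Yt ^ p) f = (Polynomial.X : k[X]) ^ n • tt f := by
    intro f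
    conv_lhs => rw [hsum f]
    rw [map_sum, htt, spEnd_apply, Finset.smul_sum]
    refine Finset.sum_congr rfl fun j _ => ?_
    rw [map_smul, hu, smul_comm]
  have hcancel : ∀ f f' : Fin m → k[X], (Polynomial.X : k[X]) ^ n • f =
      (Polynomial.X : k[X]) ^ n • f' → f = f' := by
    intro f f' hff
    funext j
    have := congrFun hff j
    rw [Pi.smul_apply, Pi.smul_apply, smul_eq_mul, smul_eq_mul] at this
    exact mul_left_cancel₀ hXne this
  have hcomm : ∀ f, tt (Yt f) = Yt (tt f) := by
    intro f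
    apply hcancel
    rw [← hYp, ← map_smul, ← hYp, ← Module.End.mul_apply, ← Module.End.mul_apply, ← pow_succ,
      ← pow_succ']
  -- the operator `t`
  obtain ⟨s, hs⟩ := P.exists_rightInverse_of_surjective (LinearMap.range_eq_top.2 hPsurj)
  have hs' : ∀ v, P (s v) = v := fun v => LinearMap.congr_fun hs v
  set t : Module.End k V := P ∘ₗ (tt.restrictScalars k) ∘ₗ s with ht
  have hPt : ∀ f, t (P f) = P (tt f) := by
    intro f
    have h1 : P (s (P f) - f) = 0 := by rw [map_sub, hs', sub_self]
    obtain ⟨a, ha⟩ := hker _ h1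
    have h2 : P (tt (s (P f)) - tt f) = 0 := by
      rw [← map_sub, ha, map_smul]
      exact hker2 _
    rw [map_sub, sub_eq_zero] at h2
    exact h2
  have htX : ∀ v, t (X v) = X (t v) := by
    intro v
    obtain ⟨f, rfl⟩ := hPsurj v
    rw [hP, ← spPi_X_smul, ← hP, hPt, hPt, map_smul, hP, spPi_X_smul]
  have htXp : ∀ (r : ℕ) v, t ((X ^ r) v) = (X ^ r) (t v) := by
    intro r
    induction r with
    | zero => intro v; rfl
    | succ r ih =>
      intro v
      rw [pow_succ', Module.End.mul_apply, Module.End.mul_apply, htX, ih]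
  have htY : ∀ v, t (Y v) = Y (t v) := by
    intro v
    obtain ⟨f, rfl⟩ := hPsurj v
    rw [← hPYt, hPt, hPt, hcomm, hPYt]
  refine ⟨t, LinearMap.ext htX, LinearMap.ext htY, ?_, ?_⟩
  · intro l l' hll
    obtain ⟨f, rfl⟩ := hPsurj l
    obtain ⟨f', rfl⟩ := hPsurj l'
    have h1 : P (Yt f - (Polynomial.X : k[X]) • f') = 0 := by
      rw [map_sub, hPYt, hP, spPi_X_smul, ← hP, hll, sub_self]
    obtain ⟨a, ha⟩ := hker _ h1
    have ha' : Yt f = (Polynomial.X : k[X]) • f' + (Polynomial.X : k[X]) ^ n • a := by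
      rw [← ha]; abel
    obtain ⟨q, rfl⟩ : ∃ q, p = q + 1 := ⟨p - 1, by have := hp.pos; omega⟩
    obtain ⟨r, rfl⟩ : ∃ r, n = r + 1 := ⟨n - 1, by omega⟩
    have h2 : (Polynomial.X : k[X]) • ((Polynomial.X : k[X]) ^ r • tt f) =
        (Polynomial.X : k[X]) • ((Yt ^ q) f' + (Polynomial.X : k[X]) ^ r • (Yt ^ q) a) := by
      have h3 := hYp f
      rw [pow_succ, Module.End.mul_apply, ha', map_add, map_smul, map_smul] at h3
      rw [smul_add, smul_smul, smul_smul, ← pow_succ', ← h3]
    have h4 : (Polynomial.X : k[X]) ^ r • tt f =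
        (Yt ^ q) f' + (Polynomial.X : k[X]) ^ r • (Yt ^ q) a := by
      funext j
      have := congrFun h2 j
      simp only [Pi.smul_apply, Pi.add_apply, smul_eq_mul] at this ⊢
      exact mul_left_cancel₀ Polynomial.X_ne_zero this
    refine ⟨(X ^ r) (P a), ?_, ?_⟩
    · rw [← Module.End.mul_apply, ← pow_succ', hXn]
      rfl
    · simp only [Nat.add_sub_cancel]
      have h5 := congrArg P h4
      rw [map_add, hP, spPi_Xpow_smul, spPi_Xpow_smul, ← hP, ← hPt, hPYtp, hPYtp] at h5
      rw [htXp, h5]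
      have h6 : (Y ^ q) ((X ^ r) (P a)) = (X ^ r) ((Y ^ q) (P a)) := by
        have := (hXY.pow_pow r q).eq
        rw [← Module.End.mul_apply, ← this, Module.End.mul_apply]
      rw [h6]
      abel
  · intro v hv
    obtain ⟨f, rfl⟩ := hPsurj v
    set Zt : Module.End k[X] (Fin m → k[X]) := Yt - algebraMap k[X] _ g with hZt
    have hPZt : ∀ f, P (Zt f) = (Y - aeval X g) (P f) := by
      intro f
      rw [hZt, LinearMap.sub_apply, map_sub, hPYt, LinearMap.sub_apply,
        Module.algebraMap_end_apply, hP, spPi_smul]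
    have hPZtp : ∀ (r : ℕ) f, P ((Zt ^ r) f) = ((Y - aeval X g) ^ r) (P f) := by
      intro r
      induction r with
      | zero => intro f; rfl
      | succ r ih =>
        intro f
        rw [pow_succ', pow_succ', Module.End.mul_apply, Module.End.mul_apply, hPZt, ih]
    have hp0 : ((p : ℕ) : Module.End k[X] (Fin m → k[X])) = 0 := by
      rw [← map_natCast (algebraMap k[X] (Module.End k[X] (Fin m → k[X]))),
        CharP.cast_eq_zero k[X] p, map_zero]
    have hZp : Zt ^ p = Yt ^ p - algebraMap k[X] _ (g ^ p) := by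
      rw [hZt, sp_sub_pow p hp hp0 (Algebra.commute_algebraMap_right g Yt), map_pow]
    have h1 : P (Zt f) = 0 := by
      rw [hPZt, LinearMap.sub_apply, hv, sub_self]
    obtain ⟨a, ha⟩ := hker _ h1
    obtain ⟨q, hq⟩ : ∃ q, p = q + 1 := ⟨p - 1, by have := hp.pos; omega⟩
    have h2 : (Polynomial.X : k[X]) ^ n • (tt f - h • f) =
        (Polynomial.X : k[X]) ^ n • (Zt ^ q) a := by
      rw [← map_smul, ← ha, ← Module.End.mul_apply, ← pow_succ, ← hq, hZp, LinearMap.sub_apply,
        hYp, Module.algebraMap_end_apply, hgh, smul_sub, smul_smul]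
    have h3 := congrArg P (hcancel _ _ h2)
    rw [map_sub, ← hPt, hPZtp] at h3
    refine ⟨P a, ?_⟩
    have h4 : P (h • f) = P f := by
      rw [hP, spPi_smul, hh]
      rfl
    rw [h4] at h3
    rw [h3, hq, Nat.add_sub_cancel]

end Pool.Agent.Helper495_SP
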