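import Mathlib
set_option autoImplicit false
namespace Pool.Agent.Helper495_SP
open Polynomial
variable {k : Type*} [Field k] {V : Type*} [AddCommGroup V] [Module k V] [FiniteDimensional k V]

omit [FiniteDimensional k V] in
theorem j577_comm {A B : Module.End k V} (h : Commute A B) (v : V) : A (B v) = B (A v) := by
  have := LinearMap.congr_fun h.eq v
  simpa [Module.End.mul_apply] using this

omit [FiniteDimensional k V] in
theorem j577_im (n : ℕ) (X : Module.End k V) (hXn : X ^ n = 0)
    (hX : ∀ v, X v = 0 → ∃ w, v = (X ^ (n - 1)) w) :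
    ∀ i, i ≤ n → ∀ v, (X ^ i) v = 0 → ∃ w, v = (X ^ (n - i)) w := by
  intro i
  induction i with
  | zero =>
    intro _ v hv
    refine ⟨0, ?_⟩
    rw [pow_zero, Module.End.one_apply] at hv
    rw [hv, map_zero]
  | succ i ih =>
    intro hi v hv
    have h1 : X ((X ^ i) v) = 0 := by
      rw [← Module.End.mul_apply, ← pow_succ']
      exact hv
    obtain ⟨w, hw⟩ := hX _ h1
    have h2 : (X ^ i) (v - (X ^ (n - (i + 1))) w) = 0 := by
      rw [map_sub, ← Module.End.mul_apply, ← pow_add, hw]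
      have : i + (n - (i + 1)) = n - 1 := by omega
      rw [this, sub_self]
    obtain ⟨w', hw'⟩ := ih (by omega) _ h2
    refine ⟨w + X w', ?_⟩
    have h3 : (X ^ (n - i)) w' = (X ^ (n - (i + 1))) (X w') := by
      rw [← Module.End.mul_apply, ← pow_succ]
      congr 2
      omega
    rw [map_add, ← h3, ← hw']
    abel

theorem ker_le_of_nilp (p n : ℕ) (hp : p.Prime) [CharP k p] (hn : 1 ≤ n)
    (X Y : Module.End k V) (hXY : Commute X Y) (hXn : X ^ n = 0) (hY : Y ^ p = 0)
    (hX : ∀ v, X v = 0 → ∃ w, v = (X ^ (n - 1)) w)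
    (g h : k[X]) (hg : (Polynomial.X : k[X]) ∣ g)
    (hgh : g ^ p = (Polynomial.X : k[X]) ^ n * h)
    (t : Module.End k V) (htX : Commute t X) (htY : Commute t Y)
    (ht : ∀ m, Y m = (aeval X g) m → ∃ c, t m - m = ((Y - aeval X g) ^ (p - 1)) c)
    (N : ℕ) (hN : ∀ m, X m = 0 → Y m = 0 → ∃ c, X c = 0 ∧ (t ^ N) m = (Y ^ (p - 1)) c) :
    ∀ m, Y m = (aeval X g) m → ∃ c, m = ((Y - aeval X g) ^ (p - 1)) c := by
  rcases subsingleton_or_nontrivial V with hV | hV
  · intro m _
    exact ⟨0, Subsingleton.elim _ _⟩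
  haveI : Fact p.Prime := ⟨hp⟩
  haveI : CharP (Module.End k V) p :=
    charP_of_injective_algebraMap (algebraMap k (Module.End k V)).injective p
  obtain ⟨g₁, hg₁⟩ := hg
  set G : Module.End k V := aeval X g with hG
  set Z : Module.End k V := Y - G with hZ
  have hcomm : ∀ q : k[X], ∀ B : Module.End k V, Commute B X → Commute B (aeval X q) := by
    intro q B hB
    induction q using Polynomial.induction_on' with
    | add a b ha hb => rw [map_add]; exact ha.add_right hb
    | monomial m c =>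
      rw [aeval_monomial]
      exact (Algebra.commute_algebraMap_right _ _).mul_right (hB.pow_right m)
  have hYG : Commute Y G := hcomm g Y hXY.symm
  have hXG : Commute X G := hcomm g X (Commute.refl X)
  have htG : Commute t G := hcomm g t htX
  have hG1 : G = X * aeval X g₁ := by
    rw [hG, hg₁, map_mul, aeval_X]
  have hG1' : G = aeval X g₁ * X := by
    rw [hG1]
    exact (hcomm g₁ X (Commute.refl X)).eq
  have hGp : G ^ p = 0 := by
    rw [hG, ← map_pow, hgh, map_mul, map_pow, aeval_X, hXn, zero_mul]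
  have hZX : Commute X Z := hXY.sub_right hXG
  have hZY : Commute Y Z := (Commute.refl Y).sub_right hYG
  have htZ : Commute t Z := htY.sub_right htG
  have hZp : Z ^ p = 0 := by
    rw [hZ, sub_pow_char_of_commute p hYG, hY, hGp, sub_zero]
  -- Y^(p-1) = Z^(p-1) + X * W
  obtain ⟨W, hW⟩ : ∃ W : Module.End k V, Y ^ (p - 1) = Z ^ (p - 1) + X * W := by
    have h1 := hZY.mul_geom_sum₂ (p - 1)
    have h2 : Y - Z = G := by rw [hZ]; abel
    rw [h2, hG1] at h1
    refine ⟨aeval X g₁ * ∑ i ∈ Finset.range (p - 1), Y ^ i * Z ^ (p - 1 - 1 - i), ?_⟩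
    rw [← mul_assoc, h1]
    abel
  have hiter : ∀ m, Y m = G m → ∀ M : ℕ, ∃ c, (t ^ M) m - m = (Z ^ (p - 1)) c := by
    intro m hm M
    induction M with
    | zero => exact ⟨0, by simp⟩
    | succ M ih =>
      obtain ⟨c, hc⟩ := ih
      obtain ⟨d, hd⟩ := ht m hm
      refine ⟨t c + d, ?_⟩
      have h1 : t ((Z ^ (p - 1)) c) = (Z ^ (p - 1)) (t c) :=
        j577_comm (htZ.pow_right _) c
      rw [map_add, ← h1, ← hc, ← hd, pow_succ', Module.End.mul_apply, map_sub]
      abel
  have hZ0 : ∀ m, Z m = 0 ↔ Y m = G m := by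
    intro m
    rw [hZ, LinearMap.sub_apply, sub_eq_zero]
  have main : ∀ j, j ≤ n → ∀ l, Z ((X ^ (n - j)) l) = 0 →
      ∃ c, (X ^ (n - j)) l = (Z ^ (p - 1)) c := by
    intro j
    induction j with
    | zero =>
      intro _ l _
      refine ⟨0, ?_⟩
      rw [Nat.sub_zero, hXn, map_zero, LinearMap.zero_apply]
    | succ j ih =>
      intro hj l hl
      set i := n - (j + 1) with hi
      have hin : i + 1 ≤ n := by omega
      set m := (X ^ i) l with hm
      have hYm : Y m = G m := (hZ0 m).1 hl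
      have hq1 : (X ^ (n - 1)) l = (X ^ (n - 1 - i)) m := by
        rw [hm, ← Module.End.mul_apply, ← pow_add]
        congr 2
        omega
      have hXq : X ((X ^ (n - 1)) l) = 0 := by
        rw [← Module.End.mul_apply, ← pow_succ', Nat.sub_add_cancel hn, hXn,
          LinearMap.zero_apply]
      have hYq : Y ((X ^ (n - 1)) l) = 0 := by
        have h1 : Y ((X ^ (n - 1 - i)) m) = (X ^ (n - 1 - i)) (Y m) :=
          j577_comm (hXY.symm.pow_right _) m
        have h2 : (X ^ (n - 1 - i)) (G m) = G ((X ^ (n - 1 - i)) m) :=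
          j577_comm (hXG.pow_left _) m
        rw [hq1, h1, hYm, h2, ← hq1, hG1', Module.End.mul_apply, hXq, map_zero]
      obtain ⟨u, hXu, hu⟩ := hN _ hXq hYq
      obtain ⟨c', hc'⟩ := hX u hXu
      have h3 : (X ^ (n - 1)) ((t ^ N) l - (Y ^ (p - 1)) c') = 0 := by
        have h4 : (X ^ (n - 1)) ((t ^ N) l) = (t ^ N) ((X ^ (n - 1)) l) :=
          j577_comm (htX.symm.pow_pow _ _) l
        have h5 : (X ^ (n - 1)) ((Y ^ (p - 1)) c') = (Y ^ (p - 1)) ((X ^ (n - 1)) c') :=
          j577_comm (hXY.pow_pow _ _) c'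
        rw [map_sub, h4, h5, hu, hc', sub_self]
      obtain ⟨c'', hc''⟩ := j577_im n X hXn hX (n - 1) (by omega) _ h3
      have hn1 : n - (n - 1) = 1 := by omega
      rw [hn1, pow_one] at hc''
      have h6 : (t ^ N) l = (Z ^ (p - 1)) c' + X (W c' + c'') := by
        have h7 : (Y ^ (p - 1)) c' = (Z ^ (p - 1)) c' + X (W c') := by
          rw [hW, LinearMap.add_apply, Module.End.mul_apply]
        rw [map_add, ← add_assoc, ← h7, ← hc'']
        abel
      have h8 : (t ^ N) m = (Z ^ (p - 1)) ((X ^ i) c') + (X ^ (i + 1)) (W c' + c'') := by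
        have h9 : (t ^ N) m = (X ^ i) ((t ^ N) l) := by
          rw [hm]
          exact (j577_comm (htX.symm.pow_pow _ _) l).symm
        have h10 : (X ^ i) ((Z ^ (p - 1)) c') = (Z ^ (p - 1)) ((X ^ i) c') :=
          j577_comm (hZX.pow_pow _ _) c'
        rw [h9, h6, map_add, h10, pow_succ, Module.End.mul_apply]
      have h11 : Z ((X ^ (n - j)) (W c' + c'')) = 0 := by
        have hij : n - j = i + 1 := by omega
        have h12 : (X ^ (i + 1)) (W c' + c'') = (t ^ N) m - (Z ^ (p - 1)) ((X ^ i) c') := by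
          rw [h8]; abel
        have h13 : Z ((t ^ N) m) = (t ^ N) (Z m) := (j577_comm (htZ.pow_left N) m).symm
        have h14 : Z ((Z ^ (p - 1)) ((X ^ i) c')) = 0 := by
          rw [← Module.End.mul_apply, ← pow_succ', Nat.sub_add_cancel hp.one_lt.le, hZp,
            LinearMap.zero_apply]
        rw [hij, h12, map_sub, h13, hl, map_zero, h14, sub_zero]
      obtain ⟨c₄, hc₄⟩ := ih (by omega) _ h11
      have hij : n - j = i + 1 := by omega
      rw [hij] at hc₄
      obtain ⟨c₅, hc₅⟩ := hiter m hYm N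
      refine ⟨(X ^ i) c' + c₄ - c₅, ?_⟩
      rw [map_sub, map_add, ← hc₄, ← h8, ← hc₅]
      abel
  intro m hm
  have h1 := main n le_rfl m (by rw [Nat.sub_self, pow_zero, Module.End.one_apply]; exact (hZ0 m).2 hm)
  rw [Nat.sub_self, pow_zero, Module.End.one_apply] at h1
  exact h1

end Pool.Agent.Helper495_SP
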