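import Mathlib
import Pool.Agent.Helper495_SP.J07
import Pool.Agent.Helper495_SP.J08
set_option autoImplicit false
namespace Pool.Agent.Helper495_SP
open Polynomial
variable {k : Type*} [Field k] {V : Type*} [AddCommGroup V] [Module k V] [FiniteDimensional k V]

theorem aot_ker (n : ℕ) (X : Module.End k V)
    (hX : ∀ v, X v = 0 → ∃ w, v = (X ^ (n - 1)) w) :
    ∀ j : ℕ, j ≤ n → ∀ u, (X ^ j) u = 0 → ∃ w, u = (X ^ (n - j)) w := by
  intro j
  induction j with
  | zero =>
    intro _ u hu
    refine ⟨0, ?_⟩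
    rw [pow_zero] at hu
    rw [map_zero]
    exact hu
  | succ j ih =>
    intro hj u hu
    have h1 : (X ^ j) (X u) = 0 := by
      rw [← Module.End.mul_apply, ← pow_succ]
      exact hu
    obtain ⟨u', hu'⟩ := ih (by omega) (X u) h1
    have h2 : X (u - (X ^ (n - (j + 1))) u') = 0 := by
      rw [map_sub, hu', ← Module.End.mul_apply, ← pow_succ']
      have : n - (j + 1) + 1 = n - j := by omega
      rw [this, sub_self]
    obtain ⟨w, hw⟩ := hX _ h2
    refine ⟨u' + (X ^ j) w, ?_⟩
    rw [map_add, ← Module.End.mul_apply, ← pow_add]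
    have : n - (j + 1) + j = n - 1 := by omega
    rw [this, ← hw]
    abel

theorem aot (p n : ℕ) (hp : p.Prime) [CharP k p] (hn : 1 ≤ n)
    (X Y : Module.End k V) (hXY : Commute X Y) (hXn : X ^ n = 0) (hY : Y ^ p = 0)
    (hX : ∀ v, X v = 0 → ∃ w, v = (X ^ (n - 1)) w)
    (g h : k[X]) (hg : (Polynomial.X : k[X]) ∣ g)
    (hgh : g ^ p = (Polynomial.X : k[X]) ^ n * h) (hh : aeval X h = 1)
    (σ η : Module.End k V) (ω : k) (e : ℕ) (he : 0 < e) (hprim : IsPrimitiveRoot (ω ^ n) e)
    (hσY : Commute σ Y) (hσX : σ * X = X * η * σ) (hηX : Commute η X) (hηY : Commute η Y)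
    (hη : ∀ m, X m = 0 → η m = ω • m) (hσker : ∀ m, X m = 0 → X (σ m) = 0)
    (hσe : ∀ m, X m = 0 → Y m = 0 → (σ ^ e) m = m)
    (h5 : ∀ m, X m = 0 → Y m = 0 → σ m = m → ∃ l, m = (X ^ (n - 1)) l ∧ Y l = 0) :
    ∀ m, Y m = (aeval X g) m → ∃ c, m = ((Y - aeval X g) ^ (p - 1)) c := by
  obtain ⟨t, htX, htY, hta, htb⟩ := exists_t p n hp hn X Y hXY hXn hY hX g h hgh hh
  have happ : ∀ {A C : Module.End k V}, Commute A C → ∀ v, A (C v) = C (A v) := by
    intro A C hAC v
    rw [← Module.End.mul_apply, hAC.eq, Module.End.mul_apply]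
  set w : k := ω ^ n with hw
  have hwe : w ^ e = 1 := hprim.pow_eq_one
  have hw0 : w ≠ 0 := by
    intro h0
    rw [h0, zero_pow he.ne'] at hwe
    exact zero_ne_one hwe
  set B : Submodule k V := (LinearMap.ker X).map (Y ^ (p - 1)) with hB
  have memB : ∀ v, v ∈ B ↔ ∃ c, X c = 0 ∧ (Y ^ (p - 1)) c = v := by
    intro v
    rw [hB, Submodule.mem_map]
    rfl
  have hσB : ∀ v ∈ B, σ v ∈ B := by
    intro v hv
    obtain ⟨c, hc, rfl⟩ := (memB v).mp hv
    exact (memB _).mpr ⟨σ c, hσker c hc, (happ (hσY.pow_right (p - 1)) c).symm⟩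
  have htB : ∀ v ∈ B, t v ∈ B := by
    intro v hv
    obtain ⟨c, hc, rfl⟩ := (memB v).mp hv
    refine (memB _).mpr ⟨t c, ?_, (happ (htY.pow_right (p - 1)) c).symm⟩
    rw [← happ htX, hc, map_zero]
  have hσM : ∀ m, X m = 0 → Y m = 0 → X (σ m) = 0 ∧ Y (σ m) = 0 := by
    intro m h1 h2
    refine ⟨hσker m h1, ?_⟩
    rw [← happ hσY, h2, map_zero]
  have htM : ∀ m, X m = 0 → Y m = 0 → X (t m) = 0 ∧ Y (t m) = 0 := by
    intro m h1 h2
    refine ⟨?_, ?_⟩
    · rw [← happ htX, h1, map_zero]
    · rw [← happ htY, h2, map_zero]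
  have hσpow : ∀ j : ℕ, σ * X ^ j = X ^ j * η ^ j * σ := by
    intro j
    induction j with
    | zero => simp
    | succ j ih =>
      have e1 : η * X ^ j = X ^ j * η := (hηX.pow_right j).eq
      calc σ * X ^ (j + 1) = (σ * X) * X ^ j := by rw [pow_succ', ← mul_assoc]
        _ = X * η * (σ * X ^ j) := by rw [hσX]; simp only [mul_assoc]
        _ = X * (η * X ^ j) * η ^ j * σ := by rw [ih]; simp only [mul_assoc]
        _ = X ^ (j + 1) * η ^ (j + 1) * σ := by
          rw [e1, pow_succ', pow_succ']; simp only [mul_assoc]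
  -- eta ^ j on ker X
  have hηpow : ∀ j : ℕ, ∀ v, X v = 0 → (η ^ j) v = ω ^ j • v := by
    intro j
    induction j with
    | zero => intro v _; simp
    | succ j ih =>
      intro v hv
      rw [pow_succ, Module.End.mul_apply, hη v hv, map_smul, ih v hv, smul_smul, pow_succ']
  -- (1)
  have s1 : ∀ m, X m = 0 → Y m = 0 → t (σ m) - w • σ (t m) ∈ B := by
    intro m hm1 hm2
    obtain ⟨l, hl⟩ := hX m hm1
    have k1 : (X ^ (n - 1)) (Y l) = 0 := by
      rw [happ (hXY.pow_left (n - 1)), ← hl, hm2]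
    obtain ⟨l', hl'⟩ := aot_ker n X hX (n - 1) (by omega) _ k1
    have hn1 : n - (n - 1) = 1 := by omega
    rw [hn1, pow_one] at hl'
    obtain ⟨c, hc, hc'⟩ := hta l l' hl'
    rw [← hl] at hc'
    have k2 : σ m = (X ^ (n - 1)) ((η ^ (n - 1)) (σ l)) := by
      rw [hl, ← Module.End.mul_apply, hσpow]
      rfl
    have k3 : Y ((η ^ (n - 1)) (σ l)) = X ((η ^ n) (σ l')) := by
      rw [← happ (hηY.pow_left (n - 1)), ← happ hσY, hl', ← Module.End.mul_apply σ X, hσX,
        Module.End.mul_apply, Module.End.mul_apply, happ (hηX.pow_left (n - 1)),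
        ← Module.End.mul_apply (η ^ (n - 1)) η, ← pow_succ]
      have : n - 1 + 1 = n := by omega
      rw [this]
    obtain ⟨c1, hc1, hc1'⟩ := hta _ _ k3
    rw [← k2] at hc1'
    have k4 : X ((Y ^ (p - 1)) l') = 0 := by
      rw [happ (hXY.pow_right (p - 1)), ← hl', ← Module.End.mul_apply, ← pow_succ,
        Nat.sub_add_cancel hp.one_le, hY]
      rfl
    have k5 : (Y ^ (p - 1)) ((η ^ n) (σ l')) = w • σ ((Y ^ (p - 1)) l') := by
      rw [← happ ((hηY.pow_left n).pow_right (p - 1)), ← happ (hσY.pow_right (p - 1)),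
        hηpow n _ (hσker _ k4)]
    refine (memB _).mpr ⟨c1 - w • σ c, ?_, ?_⟩
    · rw [map_sub, map_smul, hc1, hσker c hc, smul_zero, sub_zero]
    · have e1 : t (σ m) = w • σ ((Y ^ (p - 1)) l') + (Y ^ (p - 1)) c1 := by
        rw [← k5, ← hc1']; abel
      have e2 : t m = (Y ^ (p - 1)) l' + (Y ^ (p - 1)) c := by
        rw [← hc']; abel
      rw [e1, e2, map_add, smul_add, map_sub, map_smul, happ (hσY.pow_right (p - 1)) c]
      abel
  have heK : (e : k) ≠ 0 := by
    have : NeZero e := ⟨he.ne'⟩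
    exact (hprim.neZero').out
  have hσiM : ∀ i : ℕ, ∀ m, X m = 0 → Y m = 0 → X ((σ ^ i) m) = 0 ∧ Y ((σ ^ i) m) = 0 := by
    intro i
    induction i with
    | zero => intro m h1 h2; simpa using ⟨h1, h2⟩
    | succ i ih =>
      intro m h1 h2
      rw [pow_succ', Module.End.mul_apply]
      exact hσM _ (ih m h1 h2).1 (ih m h1 h2).2
  -- (2)
  have s2 : ∀ m, X m = 0 → Y m = 0 → σ m - m ∈ B → t m ∈ B := by
    intro m hm1 hm2 hmB
    set m' : V := (e : k)⁻¹ • ∑ i ∈ Finset.range e, (σ ^ i) m with hm'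
    have k0 : σ m' = m' := by
      rw [hm', map_smul, map_sum]
      congr 1
      have e1 : ∀ i ∈ Finset.range e, σ ((σ ^ i) m) = (σ ^ (i + 1)) m := by
        intro i _
        rw [pow_succ', Module.End.mul_apply]
      rw [Finset.sum_congr rfl e1]
      have e2 := Finset.sum_range_succ (fun i => (σ ^ i) m) e
      have e3 := Finset.sum_range_succ' (fun i => (σ ^ i) m) e
      rw [e2, hσe m hm1 hm2] at e3
      simp only [pow_zero, Module.End.one_apply] at e3
      exact (add_right_cancel e3).symm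
    have k1 : ∀ i : ℕ, (σ ^ i) m - m ∈ B := by
      intro i
      induction i with
      | zero => simp
      | succ i ih =>
        have : (σ ^ (i + 1)) m - m = σ ((σ ^ i) m - m) + (σ m - m) := by
          rw [pow_succ', Module.End.mul_apply, map_sub]; abel
        rw [this]
        exact B.add_mem (hσB _ ih) hmB
    have k2 : m' - m ∈ B := by
      have : m' - m = (e : k)⁻¹ • ∑ i ∈ Finset.range e, ((σ ^ i) m - m) := by
        rw [Finset.sum_sub_distrib, Finset.sum_const, Finset.card_range, smul_sub, hm',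
          ← Nat.cast_smul_eq_nsmul k, smul_smul, inv_mul_cancel₀ heK, one_smul]
      rw [this]
      exact B.smul_mem _ (B.sum_mem fun i _ => k1 i)
    have k3 : X m' = 0 := by
      rw [hm', map_smul, map_sum, Finset.sum_eq_zero fun i _ => (hσiM i m hm1 hm2).1, smul_zero]
    have k4 : Y m' = 0 := by
      rw [hm', map_smul, map_sum, Finset.sum_eq_zero fun i _ => (hσiM i m hm1 hm2).2, smul_zero]
    obtain ⟨l, hl, hl2⟩ := h5 m' k3 k4 k0
    obtain ⟨c, hc, hc'⟩ := hta l 0 (by rw [hl2, map_zero])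
    rw [← hl, map_zero, sub_zero] at hc'
    have k5 : t m' ∈ B := (memB _).mpr ⟨c, hc, hc'.symm⟩
    have k6 : t m = t m' - t (m' - m) := by rw [map_sub]; abel
    rw [k6]
    exact B.sub_mem k5 (htB _ k2)
  -- (3)
  have s3 : ∀ j : ℕ, ∀ m, X m = 0 → Y m = 0 → σ m - w ^ j • m ∈ B → (t ^ (j + 1)) m ∈ B := by
    intro j
    induction j with
    | zero =>
      intro m h1 h2 h3
      rw [pow_zero, one_smul] at h3
      rw [zero_add, pow_one]
      exact s2 m h1 h2 h3
    | succ j ih =>
      intro m h1 h2 h3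
      have k1 := s1 m h1 h2
      have k2 := htB _ h3
      rw [map_sub, map_smul] at k2
      have k3 : w • (σ (t m) - w ^ j • t m) ∈ B := by
        have : w • (σ (t m) - w ^ j • t m) =
            (t (σ m) - w ^ (j + 1) • t m) - (t (σ m) - w • σ (t m)) := by
          rw [smul_sub, smul_smul, ← pow_succ']; abel
        rw [this]
        exact B.sub_mem k2 k1
      have k4 : σ (t m) - w ^ j • t m ∈ B := by
        have := B.smul_mem w⁻¹ k3
        rwa [smul_smul, inv_mul_cancel₀ hw0, one_smul] at this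
      have k5 := ih (t m) (htM m h1 h2).1 (htM m h1 h2).2 k4
      rw [pow_succ, Module.End.mul_apply]
      exact k5
  have htiB : ∀ i : ℕ, ∀ v ∈ B, (t ^ i) v ∈ B := by
    intro i
    induction i with
    | zero => intro v hv; simpa using hv
    | succ i ih =>
      intro v hv
      rw [pow_succ', Module.End.mul_apply]
      exact htB _ (ih v hv)
  -- (4)
  have s4 : ∀ m, X m = 0 → Y m = 0 → (t ^ e) m ∈ B := by
    intro m h1 h2
    set z : k := w⁻¹ with hz
    have hzw : w * z = 1 := mul_inv_cancel₀ hw0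
    have hze : z ^ e = 1 := by rw [hz, inv_pow, hwe, inv_one]
    have hdec : m = ∑ j ∈ Finset.range e, (e : k)⁻¹ • ∑ i ∈ Finset.range e,
        (z ^ (i * j)) • (σ ^ i) m := by
      rw [← Finset.smul_sum, Finset.sum_comm]
      have e1 : ∀ i ∈ Finset.range e, ∑ j ∈ Finset.range e, (z ^ (i * j)) • (σ ^ i) m =
          if i = 0 then (e : k) • m else 0 := by
        intro i hi
        rw [← Finset.sum_smul]
        split_ifs with h0
        · subst h0
          simp
        · have hzi : z ^ i ≠ 1 := by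
            intro hcon
            rw [hz, inv_pow, inv_eq_one] at hcon
            have := hprim.dvd_of_pow_eq_one i hcon
            exact h0 (Nat.eq_zero_of_dvd_of_lt this (Finset.mem_range.mp hi))
          have e2 : ∑ j ∈ Finset.range e, z ^ (i * j) = 0 := by
            have e3 : ∀ j ∈ Finset.range e, z ^ (i * j) = (z ^ i) ^ j := fun j _ => pow_mul z i j
            rw [Finset.sum_congr rfl e3]
            have e4 := mul_geom_sum (z ^ i) e
            rw [← pow_mul, mul_comm i e, pow_mul, hze, one_pow, sub_self] at e4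
            rcases mul_eq_zero.mp e4 with h | h
            · exact absurd (sub_eq_zero.mp h) hzi
            · exact h
          rw [e2, zero_smul]
      rw [Finset.sum_congr rfl e1, Finset.sum_ite_eq' (Finset.range e) 0,
        if_pos (Finset.mem_range.mpr he), smul_smul, inv_mul_cancel₀ heK, one_smul]
    rw [hdec, map_sum]
    refine B.sum_mem fun j hj => ?_
    set mj : V := (e : k)⁻¹ • ∑ i ∈ Finset.range e, (z ^ (i * j)) • (σ ^ i) m with hmj
    have k1 : X mj = 0 := by
      rw [hmj, map_smul, map_sum, Finset.sum_eq_zero, smul_zero]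
      intro i _
      rw [map_smul, (hσiM i m h1 h2).1, smul_zero]
    have k2 : Y mj = 0 := by
      rw [hmj, map_smul, map_sum, Finset.sum_eq_zero, smul_zero]
      intro i _
      rw [map_smul, (hσiM i m h1 h2).2, smul_zero]
    have k3 : σ mj = w ^ j • mj := by
      rw [hmj, map_smul, map_sum, smul_comm (w ^ j)]
      congr 1
      have e1 : ∀ i ∈ Finset.range e, σ ((z ^ (i * j)) • (σ ^ i) m) =
          w ^ j • ((z ^ ((i + 1) * j)) • (σ ^ (i + 1)) m) := by
        intro i _
        rw [map_smul, smul_smul, pow_succ', Module.End.mul_apply, add_mul, one_mul, pow_add z,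
          mul_left_comm, ← mul_pow, hzw, one_pow, mul_one]
      rw [Finset.sum_congr rfl e1, ← Finset.smul_sum]
      congr 1
      have e2 := Finset.sum_range_succ (fun i => (z ^ (i * j)) • (σ ^ i) m) e
      have e3 := Finset.sum_range_succ' (fun i => (z ^ (i * j)) • (σ ^ i) m) e
      rw [e2, hσe m h1 h2, pow_mul, hze, one_pow] at e3
      simp only [zero_mul, pow_zero, Module.End.one_apply] at e3
      exact (add_right_cancel e3).symm
    have k4 : (t ^ (j + 1)) mj ∈ B := s3 j mj k1 k2 (by rw [k3, sub_self]; exact B.zero_mem)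
    have hje : e = (e - (j + 1)) + (j + 1) := by
      have := Finset.mem_range.mp hj
      omega
    rw [hje, pow_add, Module.End.mul_apply]
    exact htiB _ _ k4
  refine ker_le_of_nilp p n hp hn X Y hXY hXn hY hX g h hg hgh t htX htY htb e ?_
  intro m h1 h2
  obtain ⟨c, hc, hc'⟩ := (memB _).mp (s4 m h1 h2)
  exact ⟨c, hc, hc'.symm⟩

end Pool.Agent.Helper495_SP
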