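import Mathlib
import Pool.Agent.Helper495_SP.J12
set_option autoImplicit false
namespace Pool.Agent.Helper495_SP
open scoped Classical
variable {G : Type*} [Group G]

namespace J13

/-- a generator of the image of the normaliser in the automorphism group of a cyclic group of
prime order -/
theorem exists_gen [Finite G] {p : ℕ} [Fact p.Prime] (x : G) (hx : orderOf x = p) :
    ∃ s0 : Subgroup.normalizer ((Subgroup.zpowers x : Subgroup G) : Set G),
      ∀ g : Subgroup.normalizer ((Subgroup.zpowers x : Subgroup G) : Set G),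
        ∃ j : ℕ, (Subgroup.zpowers x).normalizerMonoidHom g =
          (Subgroup.zpowers x).normalizerMonoidHom s0 ^ j := by
  have hcard : Nat.card (Subgroup.zpowers x) = p := by rw [Nat.card_zpowers, hx]
  have : IsCyclic (ZMod (Nat.card (Subgroup.zpowers x)))ˣ := by
    rw [hcard]; infer_instance
  have : IsCyclic (MulAut (Subgroup.zpowers x)) :=
    isCyclic_of_injective (IsCyclic.mulAutMulEquiv (Subgroup.zpowers x)).toMonoidHom
      (IsCyclic.mulAutMulEquiv (Subgroup.zpowers x)).injective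
  have : IsCyclic ((Subgroup.zpowers x).normalizerMonoidHom.range) := inferInstance
  have : Finite ((Subgroup.zpowers x).normalizerMonoidHom.range) := inferInstance
  obtain ⟨⟨t, s0, ht⟩, hgen⟩ :=
    IsCyclic.exists_generator (α := (Subgroup.zpowers x).normalizerMonoidHom.range)
  refine ⟨s0, fun g => ?_⟩
  have h1 := hgen ⟨(Subgroup.zpowers x).normalizerMonoidHom g, g, rfl⟩
  rw [← mem_powers_iff_mem_zpowers] at h1
  obtain ⟨j, hj⟩ := h1
  refine ⟨j, ?_⟩
  have h2 := congrArg Subtype.val hj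
  rw [ht]
  exact h2.symm

theorem conj_sylow [Finite G] {p : ℕ} [Fact p.Prime] {y z : G} {n : ℕ} (hy : orderOf y = p ^ n)
    (hz : orderOf z = p ^ n) (hSyl : ¬ p ∣ (Subgroup.zpowers y).index) {K : Subgroup G}
    (hyK : y ∈ K) (hzK : z ∈ K) : ∃ κ ∈ K, ∃ c : ℕ, κ * z * κ⁻¹ = y ^ c := by
  have hPK : ∀ {u : G}, u ∈ K → Subgroup.zpowers u ≤ K := fun hu => by
    rwa [Subgroup.zpowers_le]
  have hcard : ∀ {u : G}, orderOf u = p ^ n → Nat.card (Subgroup.zpowers u) = p ^ n :=
    fun hu => by rw [Nat.card_zpowers, hu]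
  have hidx : (Subgroup.zpowers z).index = (Subgroup.zpowers y).index := by
    have h1 := (Subgroup.zpowers z).card_mul_index
    have h2 := (Subgroup.zpowers y).card_mul_index
    rw [hcard hz] at h1
    rw [hcard hy] at h2
    have h3 : 0 < p ^ n := pow_pos (Fact.out : p.Prime).pos n
    exact Nat.eq_of_mul_eq_mul_left h3 (h1.trans h2.symm)
  have hS : ∀ {u : G}, orderOf u = p ^ n → u ∈ K → (Subgroup.zpowers u).index =
      (Subgroup.zpowers y).index → IsPGroup p ((Subgroup.zpowers u).subgroupOf K) ∧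
      ¬ p ∣ ((Subgroup.zpowers u).subgroupOf K).index := by
    intro u hu huK hi
    constructor
    · have h1 : IsPGroup p (Subgroup.zpowers u) := IsPGroup.of_card (hcard hu)
      exact h1.comap_subtype
    · intro hd
      apply hSyl
      rw [← hi]
      exact dvd_trans hd (Subgroup.relIndex_dvd_index_of_le (hPK huK))
  obtain ⟨y1, y2⟩ := hS hy hyK rfl
  obtain ⟨z1, z2⟩ := hS hz hzK hidx
  obtain ⟨κ, hκ⟩ := MulAction.exists_smul_eq K (z1.toSylow z2) (y1.toSylow y2)
  have hz' : (⟨z, hzK⟩ : K) ∈ (z1.toSylow z2 : Subgroup K) := by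
    show z ∈ Subgroup.zpowers z
    exact Subgroup.mem_zpowers z
  have h1 := Subgroup.smul_mem_pointwise_smul _ (MulAut.conj κ) _ hz'
  rw [← Sylow.coe_subgroup_smul, hκ] at h1
  have h2 : ((MulAut.conj κ • (⟨z, hzK⟩ : K) : K) : G) ∈ Subgroup.zpowers y := h1
  have h3 : ((MulAut.conj κ • (⟨z, hzK⟩ : K) : K) : G) = (κ : G) * z * (κ : G)⁻¹ := rfl
  rw [h3, ← mem_powers_iff_mem_zpowers] at h2
  obtain ⟨c, hc⟩ := h2
  exact ⟨κ, κ.2, c, hc.symm⟩

end J13

theorem exists_sigma [Finite G] {p : ℕ} [Fact p.Prime] (y : G) (k : ℕ)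
    (hy : orderOf y = p ^ (k + 1)) (hSyl : ¬ p ∣ (Subgroup.zpowers y).index) :
    ∃ (s : G) (c : ℕ), s * y * s⁻¹ = y ^ c ∧
      ∀ g : G, g * (y ^ p ^ k) * g⁻¹ ∈ Subgroup.zpowers (y ^ p ^ k) →
        ∃ (j : ℕ) (κ : G), Commute κ (y ^ p ^ k) ∧ g = s ^ j * κ := by
  have hp : p.Prime := Fact.out
  set x : G := y ^ p ^ k with hx
  have hxo : orderOf x = p := by
    rw [hx, orderOf_pow_of_dvd (pow_pos hp.pos k).ne' (by rw [hy, pow_succ]; exact dvd_mul_right _ _),
      hy, pow_succ, Nat.mul_div_cancel_left _ (pow_pos hp.pos k)]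
  obtain ⟨s0, hs0⟩ := J13.exists_gen x hxo
  have hker : ∀ g : Subgroup.normalizer ((Subgroup.zpowers x : Subgroup G) : Set G),
      (Subgroup.zpowers x).normalizerMonoidHom g = 1 ↔ Commute (g : G) x := by
    intro g
    rw [← MonoidHom.mem_ker, Subgroup.normalizerMonoidHom_ker, Subgroup.mem_subgroupOf,
      Subgroup.mem_centralizer_iff]
    constructor
    · intro h
      exact (h x (Subgroup.mem_zpowers x)).symm
    · intro h z hz
      obtain ⟨i, rfl⟩ := Subgroup.mem_zpowers_iff.1 hz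
      exact (h.zpow_right i).symm
  have hyK : y ∈ Subgroup.centralizer ({x} : Set G) := by
    rw [Subgroup.mem_centralizer_singleton_iff]
    exact (Commute.refl y).pow_right (p ^ k)
  have hKc : ∀ g : G, g ∈ Subgroup.centralizer ({x} : Set G) ↔ Commute g x := by
    intro g
    rw [Subgroup.mem_centralizer_singleton_iff]
    rfl
  -- `s0 y s0⁻¹` commutes with `x`
  have hzK : (s0 : G) * y * (s0 : G)⁻¹ ∈ Subgroup.centralizer ({x} : Set G) := by
    rw [hKc]
    have h1 : (s0 : G)⁻¹ * x * ((s0 : G)⁻¹)⁻¹ ∈ Subgroup.zpowers x :=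
      ((s0⁻¹).2 x).1 (Subgroup.mem_zpowers x)
    rw [inv_inv] at h1
    obtain ⟨i, hi⟩ := Subgroup.mem_zpowers_iff.1 h1
    have h2 : Commute y ((s0 : G)⁻¹ * x * (s0 : G)) := by
      rw [← hi]
      exact ((Commute.refl y).pow_right (p ^ k)).zpow_right i
    have h3 : y * ((s0 : G)⁻¹ * x * (s0 : G)) = ((s0 : G)⁻¹ * x * (s0 : G)) * y := h2
    show (s0 : G) * y * (s0 : G)⁻¹ * x = x * ((s0 : G) * y * (s0 : G)⁻¹)
    calc (s0 : G) * y * (s0 : G)⁻¹ * x =
        (s0 : G) * (y * ((s0 : G)⁻¹ * x * (s0 : G))) * (s0 : G)⁻¹ := by group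
      _ = (s0 : G) * (((s0 : G)⁻¹ * x * (s0 : G)) * y) * (s0 : G)⁻¹ := by rw [h3]
      _ = _ := by group
  have hzo : orderOf ((s0 : G) * y * (s0 : G)⁻¹) = p ^ (k + 1) := by
    rw [← hy]
    exact orderOf_injective (MulAut.conj (s0 : G)).toMonoidHom (MulAut.conj (s0 : G)).injective y
  obtain ⟨κ0, hκ0, c, hc⟩ := J13.conj_sylow hy hzo hSyl hyK hzK
  rw [hKc] at hκ0
  refine ⟨κ0 * s0, c, ?_, fun g hg => ?_⟩
  · rw [← hc]
    group
  · -- `g` normalises `<x>`
    have hnorm : ∀ u : G, u * x * u⁻¹ ∈ Subgroup.zpowers x →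
        u ∈ Subgroup.normalizer ((Subgroup.zpowers x : Subgroup G) : Set G) := by
      intro u hu
      refine Subgroup.mem_normalizer_fintype fun n hn => ?_
      obtain ⟨i, rfl⟩ := Subgroup.mem_zpowers_iff.1 hn
      have h1 : u * x ^ i * u⁻¹ = (u * x * u⁻¹) ^ i := by rw [conj_zpow]
      rw [h1]
      exact Subgroup.zpow_mem _ hu i
    have hκn : κ0 ∈ Subgroup.normalizer ((Subgroup.zpowers x : Subgroup G) : Set G) := by
      refine hnorm κ0 ?_
      rw [hκ0.eq, mul_inv_cancel_right]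
      exact Subgroup.mem_zpowers x
    let g' : Subgroup.normalizer ((Subgroup.zpowers x : Subgroup G) : Set G) := ⟨g, hnorm g hg⟩
    let κ' : Subgroup.normalizer ((Subgroup.zpowers x : Subgroup G) : Set G) := ⟨κ0, hκn⟩
    obtain ⟨j, hj⟩ := hs0 g'
    refine ⟨j, ((κ0 * s0) ^ j)⁻¹ * g, ?_, by group⟩
    have h1 : (Subgroup.zpowers x).normalizerMonoidHom (((κ' * s0) ^ j)⁻¹ * g') = 1 := by
      rw [map_mul, map_inv, map_pow, map_mul, (hker κ').2 hκ0, one_mul, hj, inv_mul_cancel]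
    exact (hker _).1 h1

end Pool.Agent.Helper495_SP
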