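import Mathlib
set_option autoImplicit false
namespace Pool.Agent.Helper495_SP
open scoped Classical
variable {G : Type*} [Group G]

lemma fc_L1 {p : ℕ} (hp : p.Prime) (y a : G) (k : ℕ) (hy : orderOf y = p ^ (k + 1))
    (ha : a ∈ Subgroup.zpowers y) (hap : a ^ p = 1) : a ∈ Subgroup.zpowers (y ^ p ^ k) := by
  obtain ⟨i, rfl⟩ := Subgroup.mem_zpowers_iff.1 ha
  have h1 : y ^ (i * (p : ℤ)) = 1 := by
    rw [zpow_mul, zpow_natCast]; exact hap
  have h2 : ((p ^ (k + 1) : ℕ) : ℤ) ∣ i * (p : ℤ) := by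
    rw [← hy]; exact orderOf_dvd_iff_zpow_eq_one.2 h1
  have h3 : ((p : ℤ) ^ k) ∣ i := by
    have hp0 : (p : ℤ) ≠ 0 := by exact_mod_cast hp.ne_zero
    rw [Nat.cast_pow, pow_succ] at h2
    exact (mul_dvd_mul_iff_right hp0).1 h2
  obtain ⟨j, rfl⟩ := h3
  rw [Subgroup.mem_zpowers_iff]
  refine ⟨j, ?_⟩
  rw [← zpow_natCast y, ← zpow_mul]
  push_cast
  rfl

lemma fc_L2 {p : ℕ} (hp : p.Prime) [Finite G] (a b : G) (ha : orderOf a = p)
    (hb : b ∈ Subgroup.zpowers a) (hb1 : b ≠ 1) : a ∈ Subgroup.zpowers b := by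
  have := Fact.mk hp
  have hbp : b ^ p = 1 := by
    obtain ⟨i, rfl⟩ := Subgroup.mem_zpowers_iff.1 hb
    rw [← zpow_natCast, ← zpow_mul, mul_comm, zpow_mul, zpow_natCast, ← ha, pow_orderOf_eq_one,
      one_zpow]
  have hob : orderOf b = p := orderOf_eq_prime hbp hb1
  have hle : Subgroup.zpowers b ≤ Subgroup.zpowers a := by
    rw [Subgroup.zpowers_le]; exact hb
  have heq : Subgroup.zpowers b = Subgroup.zpowers a :=
    Subgroup.eq_of_le_of_card_ge hle (by rw [Nat.card_zpowers, Nat.card_zpowers, ha, hob])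
  rw [heq]
  exact Subgroup.mem_zpowers a

theorem free_cyc [Finite G] {p : ℕ} [Fact p.Prime] (y : G) (k : ℕ)
    (hy : orderOf y = p ^ (k + 1)) (hSyl : ¬ p ∣ (Subgroup.zpowers y).index)
    (g h : G) (hg : ¬ g * (y ^ p ^ k) * g⁻¹ ∈ Subgroup.zpowers (y ^ p ^ k))
    (hh : h ∈ Subgroup.zpowers y)
    (hgh : (g⁻¹ * h * g) * (y ^ p ^ k) * (g⁻¹ * h * g)⁻¹ ∈ Subgroup.zpowers (y ^ p ^ k)) :
    h = 1 := by
  have hp : p.Prime := Fact.out
  by_contra hne
  apply hg
  set x := y ^ p ^ k with hx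
  have hox : orderOf x = p := by
    rw [hx, orderOf_pow' y (pow_ne_zero _ hp.ne_zero), hy, pow_succ,
      Nat.gcd_eq_right (Dvd.intro _ rfl), Nat.mul_div_cancel_left _ (pow_pos hp.pos _)]
  -- a power of `h` of order `p`
  have hohp : ∃ s, orderOf h = p ^ (s + 1) := by
    have h1 : orderOf h ∣ p ^ (k + 1) := by
      rw [← hy]
      exact orderOf_dvd_of_mem_zpowers hh
    obtain ⟨s, -, hs⟩ := (Nat.dvd_prime_pow hp).1 h1
    rcases s with _ | s
    · rw [pow_zero, orderOf_eq_one_iff] at hs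
      exact absurd hs hne
    · exact ⟨s, hs⟩
  obtain ⟨s, hs⟩ := hohp
  set x' := h ^ p ^ s with hx'
  have hox' : orderOf x' = p := by
    rw [hx', orderOf_pow' h (pow_ne_zero _ hp.ne_zero), hs, pow_succ,
      Nat.gcd_eq_right (Dvd.intro _ rfl), Nat.mul_div_cancel_left _ (pow_pos hp.pos _)]
  have hx'y : x' ∈ Subgroup.zpowers y := Subgroup.pow_mem _ hh _
  have hx'x : x' ∈ Subgroup.zpowers x := fc_L1 hp y x' k hy hx'y (by rw [← hox']; exact pow_orderOf_eq_one _)
  have hx'1 : x' ≠ 1 := by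
    intro h0; rw [h0, orderOf_one] at hox'; exact hp.one_lt.ne hox'
  -- the normaliser of `⟨x⟩`
  have hnorm : ∀ u : G, u * x * u⁻¹ ∈ Subgroup.zpowers x →
      u ∈ Subgroup.normalizer (Subgroup.zpowers x : Set G) := by
    intro u hu
    have hle : (Subgroup.zpowers x).map (MulAut.conj u).toMonoidHom ≤ Subgroup.zpowers x := by
      rw [MonoidHom.map_zpowers, Subgroup.zpowers_le]
      simpa using hu
    have heq : (Subgroup.zpowers x).map (MulAut.conj u).toMonoidHom = Subgroup.zpowers x := by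
      apply Subgroup.eq_of_le_of_card_ge hle
      rw [Subgroup.card_map_of_injective (MulAut.conj u).injective]
    exact Subgroup.mem_normalizer_iff_map_conj_eq.2 heq
  set z := g⁻¹ * x' * g with hz
  have hzpow : z = (g⁻¹ * h * g) ^ p ^ s := by
    rw [hz, hx']
    have := (conj_pow (a := g⁻¹) (b := h) (i := p ^ s))
    rw [inv_inv] at this
    exact this.symm
  have hzN : z ∈ Subgroup.normalizer (Subgroup.zpowers x : Set G) := by
    rw [hzpow]; exact Subgroup.pow_mem _ (hnorm _ hgh) _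
  have hzp : z ^ p = 1 := by
    have := (conj_pow (a := g⁻¹) (b := x') (i := p))
    rw [inv_inv] at this
    rw [hz, this, ← hox', pow_orderOf_eq_one]; simp
  have hz1 : z ≠ 1 := by
    intro h0
    apply hx'1
    have h1 : x' = g * z * g⁻¹ := by rw [hz]; group
    rw [h1, h0]; group
  have hoz : orderOf z = p := orderOf_eq_prime hzp hz1
  have hpz : IsPGroup p (Subgroup.zpowers z) :=
    IsPGroup.of_card (n := 1) (by rw [Nat.card_zpowers, hoz, pow_one])
  have hpx : IsPGroup p (Subgroup.zpowers x) :=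
    IsPGroup.of_card (n := 1) (by rw [Nat.card_zpowers, hox, pow_one])
  have hpy : IsPGroup p (Subgroup.zpowers y) :=
    IsPGroup.of_card (n := k + 1) (by rw [Nat.card_zpowers, hy])
  have hQ : IsPGroup p (Subgroup.zpowers z ⊔ Subgroup.zpowers x : Subgroup G) :=
    hpz.to_sup_of_normal_right' hpx (by rw [Subgroup.zpowers_le]; exact hzN)
  obtain ⟨S, hS⟩ := hQ.exists_le_sylow
  obtain ⟨n, hn⟩ := MulAction.exists_smul_eq G (hpy.toSylow hSyl) S
  have hmem : ∀ w ∈ S, n⁻¹ * w * n ∈ Subgroup.zpowers y := by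
    intro w hw
    rw [← hn] at hw
    have h1 : w ∈ ((n • hpy.toSylow hSyl : Sylow p G) : Subgroup G) := hw
    rw [Sylow.coe_subgroup_smul, Subgroup.mem_pointwise_smul_iff_inv_smul_mem] at h1
    simpa using h1
  have hcp : ∀ w : G, w ^ p = 1 → (n⁻¹ * w * n) ^ p = 1 := by
    intro w hw
    have := (conj_pow (a := n⁻¹) (b := w) (i := p))
    rw [inv_inv] at this
    rw [this, hw]; simp
  have hzS : z ∈ S := hS (Subgroup.mem_sup_left (Subgroup.mem_zpowers z))
  have hxS : x ∈ S := hS (Subgroup.mem_sup_right (Subgroup.mem_zpowers x))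
  have hxp : x ^ p = 1 := by rw [← hox]; exact pow_orderOf_eq_one _
  have a1 : n⁻¹ * z * n ∈ Subgroup.zpowers x := fc_L1 hp y _ k hy (hmem z hzS) (hcp z hzp)
  have a2 : n⁻¹ * x * n ∈ Subgroup.zpowers x := fc_L1 hp y _ k hy (hmem x hxS) (hcp x hxp)
  have hx1 : x ≠ 1 := by
    intro h0; rw [h0, orderOf_one] at hox; exact hp.one_lt.ne hox
  have a3 : n⁻¹ * x * n ≠ 1 := by
    intro h0
    apply hx1
    have h1 : x = n * (n⁻¹ * x * n) * n⁻¹ := by group
    rw [h1, h0]; group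
  have a4 : x ∈ Subgroup.zpowers (n⁻¹ * x * n) := fc_L2 hp x _ hox a2 a3
  have a5 : n⁻¹ * z * n ∈ Subgroup.zpowers (n⁻¹ * x * n) :=
    (Subgroup.zpowers_le.2 a4) a1
  have a6 : z ∈ Subgroup.zpowers x := by
    obtain ⟨i, hi⟩ := Subgroup.mem_zpowers_iff.1 a5
    rw [Subgroup.mem_zpowers_iff]
    refine ⟨i, ?_⟩
    have := (conj_zpow (a := n⁻¹) (b := x) (i := i))
    rw [inv_inv] at this
    rw [this] at hi
    have h1 : z = n * (n⁻¹ * z * n) * n⁻¹ := by group
    rw [h1, ← hi]; group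
  have a7 : x ∈ Subgroup.zpowers z := fc_L2 hp x z hox a6 hz1
  obtain ⟨i, hi⟩ := Subgroup.mem_zpowers_iff.1 a7
  have a8 : g * x * g⁻¹ = x' ^ i := by
    have := (conj_zpow (a := g⁻¹) (b := x') (i := i))
    rw [inv_inv] at this
    rw [← hi, hz, this]; group
  rw [a8]
  exact Subgroup.zpow_mem _ hx'x i

end Pool.Agent.Helper495_SP
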