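import Mathlib
set_option autoImplicit false
namespace Pool.Agent.Helper495_SP
open scoped Classical
variable {G : Type*} [Group G]

theorem free_orbit {k : Type*} [CommRing k] {V : Type*} [AddCommGroup V] [Module k V] [Fintype G]
    (ρ : G →* Module.End k V) (P N : Subgroup G) (hPN : P ≤ N)
    (hfree : ∀ g, g ∉ N → ∀ h ∈ P, g⁻¹ * h * g ∈ N → h = 1)
    (hG : ∀ m, (∀ g, ρ g m = m) → m = 0) (v : Module.End k V) (hv : ∀ g, Commute (ρ g) v)
    (m : V) (hm : ∀ g ∈ N, ρ g m = m) (hvm : v m = m) :
    ∃ b, v b = b ∧ m = ∑ h : G, if h ∈ P then ρ h b else 0 := by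
  have : Fintype (G ⧸ N) := Fintype.ofFinite _
  set F : G ⧸ N → V := fun c => ρ c.out m with hFdef
  have hF : ∀ g : G, F (g : G ⧸ N) = ρ g m := by
    intro g
    obtain ⟨n, hn⟩ := QuotientGroup.mk_out_eq_mul N g
    show ρ (Quotient.out (g : G ⧸ N)) m = ρ g m
    rw [hn, map_mul, Module.End.mul_apply, hm n n.2]
  have hsm : ∀ (g : G) (c : G ⧸ N), ρ g (F c) = F (g • c) := by
    intro g c
    induction c using QuotientGroup.induction_on with
    | H x =>
      rw [hF, ← Module.End.mul_apply, ← map_mul]
      exact (hF (g * x)).symm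
  have hS : ∑ c, F c = 0 := by
    apply hG
    intro g
    rw [map_sum]
    simp only [hsm]
    exact Equiv.sum_comp (MulAction.toPerm g) F
  set o : G ⧸ N := ((1 : G) : G ⧸ N) with ho
  have h1 : F o = m := by
    rw [ho, hF, map_one, Module.End.one_apply]
  -- representatives of the orbits
  set r : G ⧸ N → G ⧸ N :=
    fun c => Quotient.out (Quotient.mk (MulAction.orbitRel P (G ⧸ N)) c) with hr
  have hr1 : ∀ (h : G), h ∈ P → ∀ c, r (h • c) = r c := by
    intro h hh c
    have : (Quotient.mk (MulAction.orbitRel P (G ⧸ N)) (h • c)) =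
        Quotient.mk (MulAction.orbitRel P (G ⧸ N)) c :=
      Quotient.sound ⟨⟨h, hh⟩, rfl⟩
    rw [hr]
    simp only [this]
  have hr2 : ∀ c, ∃ h ∈ P, h • r c = c := by
    intro c
    have h2 : (MulAction.orbitRel P (G ⧸ N)).r (r c) c := Quotient.exact (Quotient.out_eq _)
    have h3 := (MulAction.orbitRel P (G ⧸ N)).symm h2
    obtain ⟨h, hh⟩ := h3
    exact ⟨h, h.2, hh⟩
  have hfree' : ∀ c : G ⧸ N, c ≠ o → ∀ h ∈ P, h • c = c → h = 1 := by
    intro c hc h hh hhc
    induction c using QuotientGroup.induction_on with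
    | H x =>
      refine hfree x ?_ h hh ?_
      · intro hx
        apply hc
        rw [ho, eq_comm, QuotientGroup.eq]
        simpa using hx
      · have h2 : ((h * x : G) : G ⧸ N) = (x : G ⧸ N) := hhc
        have h3 := QuotientGroup.eq.1 h2.symm
        rwa [← mul_assoc] at h3
  have hfix : ∀ h ∈ P, h • o = o := by
    intro h hh
    have : ((h * 1 : G) : G ⧸ N) = ((1 : G) : G ⧸ N) := by
      rw [mul_one, eq_comm, QuotientGroup.eq]
      simpa using hPN hh
    exact this
  have hne : ∀ h ∈ P, ∀ c, h • c ≠ o ↔ c ≠ o := by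
    intro h hh c
    rw [not_iff_not]
    constructor
    · intro h2
      have h3 := hfix h⁻¹ (inv_mem hh)
      rw [← h2, inv_smul_smul] at h3
      rw [h3, h2]
    · rintro rfl
      exact hfix h hh
  have hmS : m = -∑ c, if c ≠ o then F c else 0 := by
    have h2 : ∑ c, F c = F o + ∑ c, if c ≠ o then F c else 0 := by
      have h3 : ∀ c, F c = (if c = o then F c else 0) + (if c ≠ o then F c else 0) := by
        intro c
        by_cases hc : c = o
        · simp [hc]
        · simp [hc]
      rw [Finset.sum_congr rfl fun c _ => h3 c, Finset.sum_add_distrib]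
      simp
    rw [hS, h1] at h2
    exact eq_neg_of_add_eq_zero_left h2.symm
  refine ⟨-∑ c, (if c ≠ o ∧ c = r c then F c else 0), ?_, ?_⟩
  · rw [map_neg, map_sum]
    congr 1
    refine Finset.sum_congr rfl fun c _ => ?_
    split_ifs
    · have h2 := hv c.out
      have h3 : (v * ρ c.out) m = (ρ c.out * v) m := by rw [h2.eq]
      rw [Module.End.mul_apply, Module.End.mul_apply, hvm] at h3
      exact h3
    · exact map_zero v
  · have hstep : ∀ h : G, (if h ∈ P then ρ h (-∑ c, (if c ≠ o ∧ c = r c then F c else 0))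
        else 0) = -∑ c, (if h ∈ P then (if c ≠ o ∧ h⁻¹ • c = r c then F c else 0) else 0) := by
      intro h
      by_cases hh : h ∈ P
      · simp only [if_pos hh]
        rw [map_neg, map_sum]
        congr 1
        refine Eq.trans (Finset.sum_congr rfl fun c _ => ?_) (Equiv.sum_comp (MulAction.toPerm h)
          (fun c => if c ≠ o ∧ h⁻¹ • c = r c then F c else 0))
        simp only [MulAction.toPerm_apply, inv_smul_smul, hr1 h hh c, hne h hh c]
        split_ifs
        · exact hsm h c
        · exact map_zero _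
      · simp only [if_neg hh]
        simp
    rw [Finset.sum_congr rfl fun h _ => hstep h, Finset.sum_neg_distrib, Finset.sum_comm]
    rw [hmS]
    congr 1
    refine Finset.sum_congr rfl fun c _ => ?_
    by_cases hc : c = o
    · simp [hc]
    · rw [if_pos hc]
      obtain ⟨h0, hh0, hh0c⟩ := hr2 c
      rw [Finset.sum_eq_single h0]
      · rw [if_pos hh0, if_pos ⟨hc, by rw [inv_smul_eq_iff, hh0c]⟩]
      · intro h _ hne'
        by_cases hh : h ∈ P
        · rw [if_pos hh, if_neg]
          rintro ⟨-, h2⟩
          apply hne'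
          have h3 : (h * h0⁻¹) • c = c := by
            have h4 : h0⁻¹ • c = r c := by rw [inv_smul_eq_iff, hh0c]
            rw [mul_smul, h4, ← h2, smul_inv_smul]
          have h5 := hfree' c hc _ (mul_mem hh (inv_mem hh0)) h3
          exact mul_inv_eq_one.1 h5
        · rw [if_neg hh]
      · intro h
        exact absurd (Finset.mem_univ _) h

end Pool.Agent.Helper495_SP
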