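import Mathlib
import Pool.Agent.Helper495_SP.J09
import Pool.Agent.Helper495_SP.J13
import Pool.Agent.Helper495_SP.J13b
import Pool.Agent.Helper495_SP.J14
set_option autoImplicit false
namespace Pool.Agent.Helper495_SP
open scoped Classical
open Polynomial
variable {G : Type*} [Group G]

/-- the stabiliser of a vector as a subgroup -/
def fixS {k : Type*} [CommRing k] {V : Type*} [AddCommGroup V] [Module k V]
    (ρ : G →* Module.End k V) (m : V) : Subgroup G where
  carrier := {g | ρ g m = m}
  one_mem' := by simp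
  mul_mem' := by
    intro a b ha hb
    simp only [Set.mem_ofPred_eq] at ha hb ⊢
    rw [map_mul, Module.End.mul_apply, hb, ha]
  inv_mem' := by
    intro a ha
    simp only [Set.mem_ofPred_eq] at ha ⊢
    conv_lhs => rw [← ha]
    rw [← Module.End.mul_apply, ← map_mul, inv_mul_cancel, map_one, Module.End.one_apply]

theorem mem_fixS {k : Type*} [CommRing k] {V : Type*} [AddCommGroup V] [Module k V]
    (ρ : G →* Module.End k V) (m : V) (g : G) : g ∈ fixS ρ m ↔ ρ g m = m := Iff.rfl

/-- polynomial identity in characteristic p -/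
theorem geom_char {k : Type*} [Field k] {p : ℕ} [Fact p.Prime] [CharP k p] (a : ℕ) :
    ∑ i ∈ Finset.range (p ^ a), (Polynomial.X : k[X]) ^ i
      = ((Polynomial.X : k[X]) - 1) ^ (p ^ a - 1) := by
  have h1 : ((Polynomial.X : k[X]) - 1) ≠ 0 := by
    have := Polynomial.X_sub_C_ne_zero (1 : k)
    simpa using this
  apply mul_left_cancel₀ h1
  rw [mul_geom_sum, ← pow_succ']
  have h2 : p ^ a - 1 + 1 = p ^ a := Nat.sub_add_cancel (Nat.pos_of_ne_zero (by
    exact pow_ne_zero _ (Fact.out : p.Prime).ne_zero))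
  rw [h2, sub_pow_char_pow, one_pow]

theorem geom_char_end {k : Type*} [Field k] {V : Type*} [AddCommGroup V] [Module k V]
    {p : ℕ} [Fact p.Prime] [CharP k p] (a : ℕ) (f : Module.End k V) :
    ∑ i ∈ Finset.range (p ^ a), f ^ i = (f - 1) ^ (p ^ a - 1) := by
  have := congrArg (aeval f) (geom_char (k := k) (p := p) a)
  simpa [map_sum, map_pow, map_sub] using this

theorem sub_pow_end {k : Type*} [Field k] {V : Type*} [AddCommGroup V] [Module k V]
    {p : ℕ} [Fact p.Prime] [CharP k p] (a : ℕ) (f : Module.End k V) :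
    (f - 1) ^ (p ^ a) = f ^ (p ^ a) - 1 := by
  have h : ((Polynomial.X : k[X]) - 1) ^ (p ^ a) = Polynomial.X ^ (p ^ a) - 1 := by
    rw [sub_pow_char_pow, one_pow]
  have := congrArg (aeval f) h
  simpa [map_pow, map_sub] using this

/-- powers of a restricted operator -/
theorem restrict_pow_coe {k : Type*} [Field k] {V : Type*} [AddCommGroup V] [Module k V]
    (L : Submodule k V) (f : Module.End k V) (hf : ∀ m ∈ L, f m ∈ L) (j : ℕ) (l : L) :
    (((f.restrict hf) ^ j) l : V) = (f ^ j) l := by
  induction j generalizing l with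
  | zero => simp
  | succ j ih =>
    rw [pow_succ, Module.End.mul_apply, ih, pow_succ, Module.End.mul_apply]
    rfl

theorem sum_zpowers {k : Type*} [Field k] {V : Type*} [AddCommGroup V] [Module k V] [Fintype G]
    {p : ℕ} [Fact p.Prime] [CharP k p] (ρ : G →* Module.End k V) (y : G) (a : ℕ)
    (hy : orderOf y = p ^ a) (b : V) :
    (∑ h : G, if h ∈ Subgroup.zpowers y then ρ h b else 0) = ((ρ y - 1) ^ (p ^ a - 1)) b := by
  rw [← geom_char_end (p := p), ← Finset.sum_filter]
  have h1 : (Finset.univ.filter (fun h => h ∈ Subgroup.zpowers y))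
      = (Finset.range (p ^ a)).image (fun i => y ^ i) := by
    ext h
    simp only [Finset.mem_filter, Finset.mem_univ, true_and, Finset.mem_image, Finset.mem_range]
    rw [mem_zpowers_iff_mem_range_orderOf, Finset.mem_image]
    simp only [Finset.mem_range, hy]
  rw [h1, Finset.sum_image]
  · rw [LinearMap.sum_apply]
    apply Finset.sum_congr rfl
    intro i _
    rw [map_pow]
  · intro i hi j hj hij
    simp only [Finset.coe_range, Set.mem_Iio] at hi hj
    exact pow_injOn_Iio_orderOf (by simpa [hy] using hi) (by simpa [hy] using hj) hij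

theorem local_cyc {k : Type*} [Field k] {p : ℕ} [Fact p.Prime] [CharP k p] [Fintype G]
    {V : Type*} [AddCommGroup V] [Module k V] [FiniteDimensional k V]
    (ρ : G →* Module.End k V) (v : Module.End k V) (hv : ∀ g, Commute (ρ g) v)
    (y : G) (kk : ℕ) (hy : orderOf y = p ^ (kk + 1))
    (hSyl : ¬ p ∣ (Subgroup.zpowers y).index)
    (hproj : ∀ m, (∀ h ∈ Subgroup.zpowers y, ρ h m = m) →
      ∃ b, m = ∑ h : G, if h ∈ Subgroup.zpowers y then ρ h b else 0)
    (hG : ∀ m, (∀ g, ρ g m = m) → m = 0) (hvp : v ^ p = 1)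
    (N0 : Subgroup G) (hN0 : ∀ g, g ∈ N0 ↔ (Commute g (y ^ p ^ kk) ∧ ¬ p ∣ orderOf g))
    (hK : ∀ g, Commute g (y ^ p ^ kk) → ∃ i : ℕ, ∃ n ∈ N0, g = y ^ i * n) :
    ∀ m, (∀ n ∈ N0, ρ n m = m) → v m = ρ (y ^ p ^ kk) m →
      ∃ c, (∀ n ∈ N0, ρ n c = c) ∧ m = ((v - ρ (y ^ p ^ kk)) ^ (p - 1)) c := by
  have hpp : p.Prime := Fact.out
  set x : G := y ^ p ^ kk with hx
  set n : ℕ := p ^ (kk + 1) with hn
  have hn1 : 1 ≤ n := Nat.one_le_iff_ne_zero.mpr (pow_ne_zero _ hpp.ne_zero)
  have hyn : y ^ n = 1 := by rw [← hy]; exact pow_orderOf_eq_one y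
  have hxp : x ^ p = 1 := by rw [hx, ← pow_mul, ← pow_succ]; exact hyn
  have hyx : Commute y x := (Commute.refl y).pow_right _
  -- normalisation
  have hnorm : ∀ g : G, g * x * g⁻¹ ∈ Subgroup.zpowers x → ∀ a ∈ N0, g⁻¹ * a * g ∈ N0 := by
    intro g hg a ha
    rw [hN0] at ha ⊢
    refine ⟨?_, ?_⟩
    · obtain ⟨i, hi⟩ := Subgroup.mem_zpowers_iff.mp hg
      have h1 : Commute a (g * x * g⁻¹) := by rw [← hi]; exact ha.1.zpow_right i
      have h2 : a * (g * x * g⁻¹) = (g * x * g⁻¹) * a := h1.eq
      show g⁻¹ * a * g * x = x * (g⁻¹ * a * g)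
      calc g⁻¹ * a * g * x = g⁻¹ * (a * (g * x * g⁻¹)) * g := by group
        _ = g⁻¹ * ((g * x * g⁻¹) * a) * g := by rw [h2]
        _ = x * (g⁻¹ * a * g) := by group
    · have h3 : orderOf (g⁻¹ * a * g) = orderOf a := by
        have := orderOf_injective (MulAut.conj g⁻¹).toMonoidHom (MulAut.conj g⁻¹).injective a
        simpa [MulAut.conj_apply] using this
      rw [h3]; exact ha.2
  have hynorm : ∀ a, y * a * y⁻¹ ∈ N0 ↔ a ∈ N0 := by
    intro a
    constructor
    · intro h
      have h1 := hnorm y (by rw [hyx.eq, mul_inv_cancel_right]; exact Subgroup.mem_zpowers x) _ h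
      have h2 : y⁻¹ * (y * a * y⁻¹) * y = a := by group
      rwa [h2] at h1
    · intro h
      have h0 : y⁻¹ * x * (y⁻¹)⁻¹ ∈ Subgroup.zpowers x := by
        have : y⁻¹ * x * (y⁻¹)⁻¹ = x := by
          rw [inv_inv, mul_assoc, ← hyx.eq, inv_mul_cancel_left]
        rw [this]; exact Subgroup.mem_zpowers x
      have h1 := hnorm y⁻¹ h0 a h
      rwa [inv_inv] at h1
  -- the subspace L
  let L : Submodule k V :=
    { carrier := {m | ∀ a ∈ N0, ρ a m = m}
      add_mem' := by
        intro u w hu hw a ha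
        rw [map_add, hu a ha, hw a ha]
      zero_mem' := by intro a _; exact map_zero _
      smul_mem' := by
        intro r u hu a ha
        rw [map_smul, hu a ha] }
  have memL : ∀ m, m ∈ L ↔ ∀ a ∈ N0, ρ a m = m := fun m => Iff.rfl
  have hLg : ∀ g : G, g * x * g⁻¹ ∈ Subgroup.zpowers x → ∀ m ∈ L, ρ g m ∈ L := by
    intro g hg m hm a ha
    have h1 : ρ a (ρ g m) = ρ g (ρ (g⁻¹ * a * g) m) := by
      rw [← Module.End.mul_apply, ← Module.End.mul_apply, ← map_mul, ← map_mul]
      congr 2
      group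
    rw [h1, hm _ (hnorm g hg a ha)]
  have hyx' : y * x * y⁻¹ ∈ Subgroup.zpowers x := by
    rw [hyx.eq, mul_inv_cancel_right]; exact Subgroup.mem_zpowers x
  have hLy : ∀ m ∈ L, ρ y m ∈ L := hLg y hyx'
  have hLv : ∀ m ∈ L, v m ∈ L := by
    intro m hm a ha
    have h1 : ρ a (v m) = v (ρ a m) := by
      rw [← Module.End.mul_apply, ← Module.End.mul_apply, (hv a).eq]
    rw [h1, hm a ha]
  -- the projector e0
  have hcard : (Fintype.card N0 : k) ≠ 0 := by
    intro h0
    rw [CharP.cast_eq_zero_iff k p] at h0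
    obtain ⟨a, ha⟩ := exists_prime_orderOf_dvd_card p h0
    have h1 := (hN0 (a : G)).mp a.2
    apply h1.2
    rw [Subgroup.orderOf_coe, ha]
  set E : Module.End k V := ∑ g : G, (if g ∈ N0 then ρ g else 0) with hE
  set e0 : Module.End k V := (Fintype.card N0 : k)⁻¹ • E with he0
  have hEL : ∀ m ∈ L, E m = (Fintype.card N0 : k) • m := by
    intro m hm
    rw [hE, LinearMap.sum_apply]
    have h1 : ∀ g : G, (if g ∈ N0 then ρ g else 0 : Module.End k V) m
        = if g ∈ N0 then m else 0 := by
      intro g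
      by_cases hg : g ∈ N0
      · rw [if_pos hg, if_pos hg, hm g hg]
      · rw [if_neg hg, if_neg hg, LinearMap.zero_apply]
    rw [Finset.sum_congr rfl (fun g _ => h1 g), ← Finset.sum_filter, Finset.sum_const,
      Nat.cast_smul_eq_nsmul]
    congr 1
    rw [Fintype.card_subtype]
  have he0L : ∀ m ∈ L, e0 m = m := by
    intro m hm
    rw [he0, LinearMap.smul_apply, hEL m hm, smul_smul, inv_mul_cancel₀ hcard, one_smul]
  have he0mem : ∀ b, e0 b ∈ L := by
    intro b
    rw [he0, LinearMap.smul_apply]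
    apply L.smul_mem
    intro a ha
    rw [hE, LinearMap.sum_apply, map_sum]
    refine Eq.trans ?_ (Equiv.sum_comp (Equiv.mulLeft a) _)
    apply Finset.sum_congr rfl
    intro g _
    by_cases hg : g ∈ N0
    · have h1 : (Equiv.mulLeft a) g ∈ N0 := N0.mul_mem ha hg
      rw [if_pos hg, if_pos h1]
      show ρ a (ρ g b) = ρ (a * g) b
      rw [map_mul, Module.End.mul_apply]
    · have h1 : ¬ (Equiv.mulLeft a) g ∈ N0 :=
        fun h => hg ((Subgroup.mul_mem_cancel_left N0 ha).mp h)
      rw [if_neg hg, if_neg h1]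
      simp
  have he0y : Commute e0 (ρ y) := by
    rw [he0]
    apply Commute.smul_left
    show E * ρ y = ρ y * E
    rw [hE, Finset.sum_mul, Finset.mul_sum, ← Equiv.sum_comp (MulAut.conj y).toEquiv]
    apply Finset.sum_congr rfl
    intro g _
    have h0 : (MulAut.conj y).toEquiv g = y * g * y⁻¹ := rfl
    rw [h0]
    by_cases hg : g ∈ N0
    · rw [if_pos hg, if_pos ((hynorm g).mpr hg), ← map_mul, ← map_mul]
      congr 1
      group
    · rw [if_neg hg, if_neg (fun h => hg ((hynorm g).mp h))]
      simp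
  have he0v : Commute e0 v := by
    rw [he0]
    apply Commute.smul_left
    rw [hE]
    apply Commute.sum_left
    intro g _
    by_cases hg : g ∈ N0
    · rw [if_pos hg]; exact hv g
    · rw [if_neg hg]; exact Commute.zero_left _
  -- s and c
  obtain ⟨s, c, hsc, hN⟩ := exists_sigma (p := p) y kk hy hSyl
  rw [← hx] at hN
  have hsyj : ∀ j : ℕ, s * y ^ j * s⁻¹ = y ^ (c * j) := by
    intro j
    rw [pow_mul, ← hsc, conj_pow]
  have hcp : ¬ p ∣ c := by
    rintro ⟨d, hd⟩
    have h1 := hsyj (p ^ kk)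
    have h2 : y ^ (c * p ^ kk) = 1 := by
      rw [hd, mul_comm p d, mul_assoc, ← pow_succ', mul_comm, pow_mul, ← hn, hyn, one_pow]
    rw [h2, conj_eq_one_iff] at h1
    have h3 := orderOf_dvd_of_pow_eq_one h1
    rw [hy] at h3
    exact absurd ((Nat.pow_dvd_pow_iff_le_right hpp.one_lt).mp h3) (by omega)
  have hccop : Nat.Coprime c n := by
    rw [hn]
    exact Nat.Coprime.pow_right _ ((Nat.Coprime.symm) ((Nat.Prime.coprime_iff_not_dvd hpp).mpr hcp))
  -- y = s y^d s^{-1}
  have hsd : ∃ d : ℕ, s⁻¹ * y * s = y ^ d := by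
    have hcop2 : Nat.Coprime (orderOf y) c := by rw [hy]; exact hccop.symm
    obtain ⟨d, hd⟩ := exists_pow_eq_self_of_coprime (x := y) hcop2.symm
    refine ⟨d, ?_⟩
    have h1 := hsyj d
    rw [pow_mul, hd] at h1
    calc s⁻¹ * y * s = s⁻¹ * (s * y ^ d * s⁻¹) * s := by rw [h1]
      _ = y ^ d := by group
  obtain ⟨d, hd⟩ := hsd
  have hsx : s * x * s⁻¹ ∈ Subgroup.zpowers x := by
    rw [hx, hsyj, mul_comm, pow_mul]
    exact Subgroup.pow_mem _ (Subgroup.mem_zpowers _) _
  have hLs : ∀ m ∈ L, ρ s m ∈ L := hLg s hsx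
  -- operators on L
  have hLX : ∀ m ∈ L, (ρ y - 1) m ∈ L := fun m hm => L.sub_mem (hLy m hm) hm
  have hLY : ∀ m ∈ L, (v - 1) m ∈ L := fun m hm => L.sub_mem (hLv m hm) hm
  have hLyi : ∀ i : ℕ, ∀ m ∈ L, ((ρ y) ^ i) m ∈ L := by
    intro i
    induction i with
    | zero => intro m hm; simpa using hm
    | succ i ih => intro m hm; rw [pow_succ', Module.End.mul_apply]; exact hLy _ (ih m hm)
  have hLη : ∀ m ∈ L, (∑ i ∈ Finset.range c, (ρ y) ^ i) m ∈ L := by
    intro m hm
    rw [LinearMap.sum_apply]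
    exact L.sum_mem (fun i _ => hLyi i m hm)
  set XX : Module.End k L := (ρ y - 1).restrict hLX with hXX
  set YY : Module.End k L := (v - 1).restrict hLY with hYY
  set σσ : Module.End k L := (ρ s).restrict hLs with hσσ
  set ηη : Module.End k L := (∑ i ∈ Finset.range c, (ρ y) ^ i).restrict hLη with hηη
  have cX : ∀ l : L, ((XX l : L) : V) = ρ y l - l := fun l => rfl
  have cY : ∀ l : L, ((YY l : L) : V) = v l - l := fun l => rfl
  have cσ : ∀ l : L, ((σσ l : L) : V) = ρ s l := fun l => rfl
  have cη : ∀ l : L, ((ηη l : L) : V) = (∑ i ∈ Finset.range c, (ρ y) ^ i) (l : V) := fun l => rfl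
  have Xfix : ∀ l : L, XX l = 0 → ρ y l = l := by
    intro l hl
    have := congrArg (Subtype.val) hl
    rw [cX] at this
    exact sub_eq_zero.mp this
  have Yfix : ∀ l : L, YY l = 0 → v l = l := by
    intro l hl
    have := congrArg (Subtype.val) hl
    rw [cY] at this
    exact sub_eq_zero.mp this
  have Xfix' : ∀ l : L, XX l = 0 → ∀ i : ℕ, ρ (y ^ i) (l : V) = l := by
    intro l hl i
    have h1 : y ∈ fixS ρ (l : V) := Xfix l hl
    exact (fixS ρ (l : V)).pow_mem h1 i
  have Xfix'' : ∀ l : L, XX l = 0 → ∀ h ∈ Subgroup.zpowers y, ρ h (l : V) = l := by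
    intro l hl h hh
    have h1 : y ∈ fixS ρ (l : V) := Xfix l hl
    exact (Subgroup.zpowers_le.mpr h1) hh
  have vyc : ∀ g (w : V), v (ρ g w) = ρ g (v w) := by
    intro g w
    rw [← Module.End.mul_apply, ← Module.End.mul_apply, (hv g).eq]
  have key : ∀ (l : L), YY l = (aeval XX ((Polynomial.X : k[X]) ^ p ^ kk)) l →
      ∃ c' : L, l = ((YY - aeval XX ((Polynomial.X : k[X]) ^ p ^ kk)) ^ (p - 1)) c' := by
    apply aot (k := k) (V := L) p n hpp hn1 XX YY ?hXY ?hXn ?hY ?hX
      ((Polynomial.X : k[X]) ^ p ^ kk) 1 ?hg ?hgh ?hh σσ ηη (c : k) (orderOf (c : ZMod p)) ?he ?hprim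
      ?hσY ?hσX ?hηX ?hηY ?hη ?hσker ?hσe ?h5
    case hXY =>
      refine LinearMap.ext fun l => Subtype.ext ?_
      have h1 : (ρ y - 1) * (v - 1) = (v - 1) * (ρ y - 1) :=
        (((hv y).sub_right (Commute.one_right _)).sub_left (Commute.one_left _)).eq
      exact congrArg (fun f : Module.End k V => f (l : V)) h1
    case hXn =>
      refine LinearMap.ext fun l => Subtype.ext ?_
      rw [hXX, restrict_pow_coe, hn, sub_pow_end, ← map_pow, ← hn, hyn, map_one, sub_self]
      rfl
    case hY =>
      refine LinearMap.ext fun l => Subtype.ext ?_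
      have h1 := sub_pow_end (p := p) 1 v
      rw [pow_one] at h1
      rw [hYY, restrict_pow_coe, h1, hvp, sub_self]
      rfl
    case hX =>
      intro l hl
      obtain ⟨b, hb⟩ := hproj (l : V) (Xfix'' l hl)
      rw [sum_zpowers (p := p) ρ y (kk + 1) hy b] at hb
      refine ⟨⟨e0 b, he0mem b⟩, Subtype.ext ?_⟩
      rw [hXX, restrict_pow_coe]
      show (l : V) = ((ρ y - 1) ^ (n - 1)) (e0 b)
      have h2 : Commute e0 ((ρ y - 1) ^ (n - 1)) :=
        ((he0y.sub_right (Commute.one_right e0))).pow_right _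
      rw [← Module.End.mul_apply, ← h2.eq, Module.End.mul_apply, ← hb]
      exact (he0L _ l.2).symm
    case hg =>
      exact dvd_pow_self _ (pow_ne_zero _ hpp.ne_zero)
    case hgh =>
      rw [mul_one, ← pow_mul, ← pow_succ]
    case hh => exact map_one _
    case he =>
      have hu : IsUnit (c : ZMod p) := by
        rw [isUnit_iff_ne_zero, Ne, CharP.cast_eq_zero_iff (ZMod p) p]
        exact hcp
      obtain ⟨u, hu⟩ := hu
      rw [← hu, orderOf_units]
      exact orderOf_pos u
    case hprim =>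
      have h1 : ((c : k)) ^ n = (c : k) := by
        rw [hn, ← iterateFrobenius_def, map_natCast]
      rw [h1]
      have h2 := (IsPrimitiveRoot.orderOf (c : ZMod p)).map_of_injective
        (f := ZMod.castHom (dvd_refl p) k) (RingHom.injective _)
      rwa [map_natCast] at h2
    case hσY =>
      refine LinearMap.ext fun l => Subtype.ext ?_
      rw [Module.End.mul_apply, Module.End.mul_apply, cσ, cY, cY, map_sub, cσ, vyc]
    case hσX =>
      refine LinearMap.ext fun l => Subtype.ext ?_
      rw [Module.End.mul_apply, Module.End.mul_apply, Module.End.mul_apply]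
      have h1 : ρ s * (ρ y - 1) = (ρ y - 1) * (∑ i ∈ Finset.range c, (ρ y) ^ i) * ρ s := by
        rw [mul_geom_sum, mul_sub, sub_mul, mul_one, one_mul, ← map_pow, ← map_mul, ← map_mul]
        congr 2
        rw [← hsc]; group
      exact congrArg (fun f : Module.End k V => f (l : V)) h1
    case hηX =>
      refine LinearMap.ext fun l => Subtype.ext ?_
      rw [Module.End.mul_apply, Module.End.mul_apply]
      have h1 : (∑ i ∈ Finset.range c, (ρ y) ^ i) * (ρ y - 1)
          = (ρ y - 1) * (∑ i ∈ Finset.range c, (ρ y) ^ i) := by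
        rw [mul_geom_sum, geom_sum_mul]
      exact congrArg (fun f : Module.End k V => f (l : V)) h1
    case hηY =>
      refine LinearMap.ext fun l => Subtype.ext ?_
      rw [Module.End.mul_apply, Module.End.mul_apply]
      have h1 : (∑ i ∈ Finset.range c, (ρ y) ^ i) * (v - 1)
          = (v - 1) * (∑ i ∈ Finset.range c, (ρ y) ^ i) := by
        have : Commute (∑ i ∈ Finset.range c, (ρ y) ^ i) (v - 1) := by
          apply Commute.sum_left
          intro i _
          exact (((hv y).pow_left i).sub_right (Commute.one_right _))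
        exact this.eq
      exact congrArg (fun f : Module.End k V => f (l : V)) h1
    case hη =>
      intro l hl
      apply Subtype.ext
      rw [cη, LinearMap.sum_apply]
      have h1 : ∀ i ∈ Finset.range c, ((ρ y) ^ i) (l : V) = l := by
        intro i _
        rw [← map_pow]; exact Xfix' l hl i
      rw [Finset.sum_congr rfl h1, Finset.sum_const, Finset.card_range]
      rw [Submodule.coe_smul, Nat.cast_smul_eq_nsmul]
    case hσker =>
      intro l hl
      apply Subtype.ext
      rw [cX, cσ]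
      have h1 : ρ y (ρ s l) = ρ s (ρ (y ^ d) l) := by
        rw [← Module.End.mul_apply, ← Module.End.mul_apply, ← map_mul, ← map_mul, ← hd]
        congr 2
        group
      rw [h1, Xfix' l hl, sub_self]
      rfl
    case hσe =>
      intro l hl _
      apply Subtype.ext
      rw [hσσ, restrict_pow_coe, ← map_pow]
      have hce : c ^ (orderOf (c : ZMod p)) % p = 1 % p := by
        have h1 : ((c ^ (orderOf (c : ZMod p)) : ℕ) : ZMod p) = ((1 : ℕ) : ZMod p) := by
          push_cast
          exact pow_orderOf_eq_one _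
        exact (ZMod.natCast_eq_natCast_iff' _ _ _).mp h1
      have hsj : ∀ j : ℕ, s ^ j * x * (s ^ j)⁻¹ = x ^ (c ^ j) := by
        intro j
        induction j with
        | zero => simp
        | succ j ih =>
          have h2 : s ^ (j + 1) * x * (s ^ (j + 1))⁻¹ = s * (s ^ j * x * (s ^ j)⁻¹) * s⁻¹ := by
            rw [pow_succ']; group
          rw [h2, ih, hx, ← pow_mul, hsyj, ← pow_mul, pow_succ]
          congr 1
          ring
      have hcomm : Commute (s ^ orderOf (c : ZMod p)) x := by
        have h3 := hsj (orderOf (c : ZMod p))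
        have h4 : x ^ (c ^ (orderOf (c : ZMod p))) = x := by
          have h5 : x ^ (c ^ (orderOf (c : ZMod p))) = x ^ 1 := by
            rw [pow_eq_pow_iff_modEq]
            have h6 : orderOf x ∣ p := orderOf_dvd_of_pow_eq_one hxp
            exact Nat.ModEq.of_dvd h6 hce
          rw [h5, pow_one]
        rw [h4] at h3
        show _ * _ = _ * _
        calc s ^ orderOf (c : ZMod p) * x
            = (s ^ orderOf (c : ZMod p) * x * (s ^ orderOf (c : ZMod p))⁻¹)
              * s ^ orderOf (c : ZMod p) := by group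
          _ = x * s ^ orderOf (c : ZMod p) := by rw [h3]
      obtain ⟨i, a, ha, hia⟩ := hK _ hcomm
      rw [hia, map_mul, Module.End.mul_apply, l.2 a ha]
      exact Xfix' l hl i
    case h5 =>
      intro l hl hl2 hl3
      have hfs : ρ s (l : V) = l := by
        have := congrArg Subtype.val hl3
        rwa [cσ] at this
      -- the normaliser
      have hinvH : ∀ g : G, g * x * g⁻¹ ∈ Subgroup.zpowers x →
          g⁻¹ * x * (g⁻¹)⁻¹ ∈ Subgroup.zpowers x := by
        intro g hg
        have hall : ∀ h ∈ Subgroup.zpowers x, g * h * g⁻¹ ∈ Subgroup.zpowers x := by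
          intro h hh
          obtain ⟨i, rfl⟩ := Subgroup.mem_zpowers_iff.mp hh
          rw [← conj_zpow]
          exact Subgroup.zpow_mem _ hg i
        have hpow : ∀ j : ℕ, g ^ j * x * (g ^ j)⁻¹ ∈ Subgroup.zpowers x := by
          intro j
          induction j with
          | zero => simp
          | succ j ih =>
            have h2 : g ^ (j + 1) * x * (g ^ (j + 1))⁻¹ = g * (g ^ j * x * (g ^ j)⁻¹) * g⁻¹ := by
              rw [pow_succ']; group
            rw [h2]; exact hall _ ih
        have h3 : g⁻¹ = g ^ (orderOf g - 1) := by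
          rw [inv_eq_iff_mul_eq_one, ← pow_succ', Nat.sub_add_cancel (orderOf_pos g)]
          exact pow_orderOf_eq_one g
        rw [h3]; exact hpow _
      let NN : Subgroup G :=
        { carrier := {g | g * x * g⁻¹ ∈ Subgroup.zpowers x}
          one_mem' := by simp
          mul_mem' := by
            intro a b ha hb
            simp only [Set.mem_ofPred_eq] at ha hb ⊢
            obtain ⟨i, hi⟩ := Subgroup.mem_zpowers_iff.mp hb
            have h2 : a * b * x * (a * b)⁻¹ = (a * x * a⁻¹) ^ i := by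
              rw [conj_zpow, hi]; group
            rw [h2]; exact Subgroup.zpow_mem _ ha i
          inv_mem' := by
            intro a ha
            exact hinvH a ha }
      have memNN : ∀ g, g ∈ NN ↔ g * x * g⁻¹ ∈ Subgroup.zpowers x := fun g => Iff.rfl
      have hPN : Subgroup.zpowers y ≤ NN := by
        rw [Subgroup.zpowers_le]
        exact hyx'
      have hfree : ∀ g, g ∉ NN → ∀ h ∈ Subgroup.zpowers y, g⁻¹ * h * g ∈ NN → h = 1 := by
        intro g hg h hh hgh
        exact free_cyc (p := p) y kk hy hSyl g h hg hh hgh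
      have hmN : ∀ g ∈ NN, ρ g (l : V) = l := by
        intro g hg
        obtain ⟨j, κ, hκ, hgj⟩ := hN g hg
        obtain ⟨i, a, ha, hia⟩ := hK κ hκ
        have h1 : s ∈ fixS ρ (l : V) := hfs
        have h2 : y ∈ fixS ρ (l : V) := Xfix l hl
        have h3 : a ∈ fixS ρ (l : V) := l.2 a ha
        have h4 : g ∈ fixS ρ (l : V) := by
          rw [hgj, hia]
          exact mul_mem (pow_mem h1 j) (mul_mem (pow_mem h2 i) h3)
        exact h4
      obtain ⟨b, hvb, hb⟩ := free_orbit ρ (Subgroup.zpowers y) NN hPN hfree hG v hv (l : V) hmN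
        (Yfix l hl2)
      rw [sum_zpowers (p := p) ρ y (kk + 1) hy b] at hb
      refine ⟨⟨e0 b, he0mem b⟩, Subtype.ext ?_, Subtype.ext ?_⟩
      · rw [hXX, restrict_pow_coe]
        show (l : V) = ((ρ y - 1) ^ (n - 1)) (e0 b)
        have h2 : Commute e0 ((ρ y - 1) ^ (n - 1)) :=
          ((he0y.sub_right (Commute.one_right e0))).pow_right _
        rw [← Module.End.mul_apply, ← h2.eq, Module.End.mul_apply, ← hb]
        exact (he0L _ l.2).symm
      · rw [cY]
        show v (e0 b) - e0 b = 0
        rw [← Module.End.mul_apply, ← he0v.eq, Module.End.mul_apply, hvb, sub_self]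
  intro m hm hvm
  have hid : ∀ l : L, (((YY - aeval XX ((Polynomial.X : k[X]) ^ p ^ kk)) l : L) : V)
      = (v - ρ x) (l : V) := by
    intro l
    rw [LinearMap.sub_apply, Submodule.coe_sub, map_pow, aeval_X, hXX, restrict_pow_coe,
      sub_pow_end, cY, ← map_pow, ← hx]
    simp
  have hpowid : ∀ (j : ℕ) (l : L),
      (((YY - aeval XX ((Polynomial.X : k[X]) ^ p ^ kk)) ^ j) l : V) = ((v - ρ x) ^ j) (l : V) := by
    intro j
    induction j with
    | zero => intro l; simp
    | succ j ih =>
      intro l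
      rw [pow_succ, Module.End.mul_apply, ih, pow_succ, Module.End.mul_apply, hid]
  obtain ⟨c', hc'⟩ := key ⟨m, hm⟩ (by
    apply Subtype.ext
    have h1 := hid ⟨m, hm⟩
    rw [LinearMap.sub_apply, LinearMap.sub_apply, hvm, sub_self] at h1
    exact sub_eq_zero.mp h1)
  refine ⟨c', c'.2, ?_⟩
  have := congrArg Subtype.val hc'
  rw [hpowid] at this
  exact this

end Pool.Agent.Helper495_SP
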