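import Mathlib
import Pool.Agent.Helper495_SP.J10
import Pool.Agent.Helper495_SP.J20
set_option autoImplicit false
namespace Pool.Agent.Helper495_SP
open scoped Classical
open Polynomial
variable {G : Type*} [Group G]

theorem LCP.arith {p : ℕ} (hp : p.Prime) {y h : G} {kk a j : ℕ} (hy : orderOf y = p ^ (kk + 1))
    (hj : y ^ j = h) (hord : orderOf h = p ^ a) (ha : 1 ≤ a) :
    ∃ s : ℕ, Nat.Coprime p s ∧ j * p ^ (a - 1) = s * p ^ kk := by
  have hj0 : j ≠ 0 ∨ j = 0 := (em _).symm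
  by_cases hj0 : j = 0
  · exfalso
    rw [hj0, pow_zero] at hj
    rw [← hj, orderOf_one] at hord
    have : 1 < p ^ a := Nat.one_lt_pow (by omega) hp.one_lt
    omega
  have h1 : orderOf h = orderOf y / Nat.gcd (orderOf y) j := by
    rw [← hj]; exact orderOf_pow' y hj0
  rw [hy, hord] at h1
  obtain ⟨b, hb, hgb⟩ := (Nat.dvd_prime_pow hp).mp (Nat.gcd_dvd_left (p ^ (kk + 1)) j)
  rw [hgb, Nat.pow_div hb hp.pos] at h1
  have hab : a = kk + 1 - b := Nat.pow_right_injective hp.two_le h1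
  have hbj : p ^ b ∣ j := by rw [← hgb]; exact Nat.gcd_dvd_right _ _
  obtain ⟨s, hs⟩ := hbj
  refine ⟨s, ?_, ?_⟩
  · rw [hp.coprime_iff_not_dvd]
    rintro ⟨s', hs'⟩
    have h2 : p ^ (b + 1) ∣ j := by
      rw [hs, hs', pow_succ, ← mul_assoc]
      exact Dvd.intro _ rfl
    have h3 : p ^ (b + 1) ∣ p ^ (kk + 1) := pow_dvd_pow _ (by omega)
    have h4 : p ^ (b + 1) ∣ p ^ b := by rw [← hgb]; exact Nat.dvd_gcd h3 h2
    have h5 := (Nat.pow_dvd_pow_iff_le_right hp.one_lt).mp h4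
    omega
  · rw [hs]
    have h6 : kk = b + (a - 1) := by omega
    rw [h6, pow_add]
    ring

theorem local_cyc_pow {k : Type*} [Field k] {p : ℕ} [Fact p.Prime] [CharP k p] [Fintype G]
    {V : Type*} [AddCommGroup V] [Module k V] [FiniteDimensional k V]
    (ρ : G →* Module.End k V) (v : Module.End k V) (hv : ∀ g, Commute (ρ g) v)
    (y : G) (kk : ℕ) (hy : orderOf y = p ^ (kk + 1))
    (hSyl : ¬ p ∣ (Subgroup.zpowers y).index)
    (hproj : ∀ m, (∀ h ∈ Subgroup.zpowers y, ρ h m = m) →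
      ∃ b, m = ∑ h : G, if h ∈ Subgroup.zpowers y then ρ h b else 0)
    (hG : ∀ m, (∀ g, ρ g m = m) → m = 0)
    (N0 : Subgroup G) (hN0 : ∀ g, g ∈ N0 ↔ (Commute g (y ^ p ^ kk) ∧ ¬ p ∣ orderOf g))
    (hK : ∀ g, Commute g (y ^ p ^ kk) → ∃ i : ℕ, ∃ n ∈ N0, g = y ^ i * n)
    (a : ℕ) (ha : 1 ≤ a) (hvp : v ^ p ^ a = 1) (h : G) (hh : h ∈ Subgroup.zpowers y)
    (hord : orderOf h = p ^ a) :
    ∀ m, (∀ n ∈ N0, ρ n m = m) → ρ h⁻¹ (v m) = m →
      ∃ c, (∀ n ∈ N0, ρ n c = c) ∧ m = ((ρ h⁻¹ * v - 1) ^ (p ^ a - 1)) c := by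
  classical
  have hp : p.Prime := Fact.out
  by_cases hsub : Subsingleton V
  · intro m _ _
    exact ⟨m, fun n _ => Subsingleton.elim _ _, Subsingleton.elim _ _⟩
  have hnt : Nontrivial V := not_subsingleton_iff_nontrivial.mp hsub
  have hchar : CharP (Module.End k V) p :=
    charP_of_injective_algebraMap (algebraMap k (Module.End k V)).injective p
  -- arithmetic
  have hyfin : IsOfFinOrder y := isOfFinOrder_of_finite y
  obtain ⟨j, hj⟩ : ∃ j : ℕ, y ^ j = h := by
    rw [← mem_powers_iff_mem_zpowers] at hh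
    exact hh
  obtain ⟨s, hcop, hjs⟩ := LCP.arith hp hy hj hord ha
  set x1 : G := h ^ p ^ (a - 1) with hx1
  obtain ⟨t, ht⟩ : ∃ t : ℕ, (y ^ s) ^ t = y := by
    apply exists_pow_eq_self_of_coprime
    rw [hy]
    exact hcop.symm.pow_right _
  have hy1x : (y ^ s) ^ p ^ kk = x1 := by
    rw [hx1, ← hj, ← pow_mul, ← pow_mul, hjs]
  have hcomm : ∀ g : G, Commute g x1 ↔ Commute g (y ^ p ^ kk) := by
    intro g
    constructor
    · intro hg
      have h1 : y ^ p ^ kk = x1 ^ t := by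
        rw [← hy1x, ← pow_mul, mul_comm (p ^ kk) t, pow_mul, ht]
      rw [h1]
      exact hg.pow_right t
    · intro hg
      have h1 : x1 = (y ^ p ^ kk) ^ s := by
        rw [← hy1x, ← pow_mul, ← pow_mul, mul_comm]
      rw [h1]
      exact hg.pow_right s
  have hzp : Subgroup.zpowers (y ^ s) = Subgroup.zpowers y := by
    apply le_antisymm
    · rw [Subgroup.zpowers_le]
      exact Subgroup.pow_mem _ (Subgroup.mem_zpowers y) s
    · rw [Subgroup.zpowers_le]
      have : (y ^ s) ^ t ∈ Subgroup.zpowers (y ^ s) :=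
        Subgroup.pow_mem _ (Subgroup.mem_zpowers _) t
      rwa [ht] at this
  have hord1 : orderOf (y ^ s) = p ^ (kk + 1) := by
    rw [← hy]
    apply Nat.Coprime.orderOf_pow
    rw [hy]
    exact (hcop.symm.pow_right _).symm
  set v1 : Module.End k V := v ^ p ^ (a - 1) with hv1
  have hpa : p ^ (a - 1) * p = p ^ a := by
    rw [← pow_succ]
    congr 1
    omega
  have hloc := local_cyc ρ v1 (fun g => (hv g).pow_right _) (y ^ s) kk hord1 (by rw [hzp]; exact hSyl)
    (by
      intro m hm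
      rw [hzp] at hm
      obtain ⟨b, hb⟩ := hproj m hm
      refine ⟨b, hb.trans ?_⟩
      apply Finset.sum_congr rfl
      intro g _
      have hiff : g ∈ Subgroup.zpowers (y ^ s) ↔ g ∈ Subgroup.zpowers y := by rw [hzp]
      by_cases hg : g ∈ Subgroup.zpowers y
      · rw [if_pos hg, if_pos (hiff.mpr hg)]
      · rw [if_neg hg, if_neg (fun h' => hg (hiff.mp h'))]) hG (by rw [hv1, ← pow_mul, hpa]; exact hvp) N0
    (by intro g; rw [hy1x, hcomm g]; exact hN0 g)
    (by
      intro g hg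
      rw [hy1x, hcomm g] at hg
      obtain ⟨i, n, hn, hgn⟩ := hK g hg
      refine ⟨t * i, n, hn, ?_⟩
      rw [pow_mul, ht]
      exact hgn)
  rw [hy1x] at hloc
  -- the subspace of the fixed points
  have hnorm : ∀ g ∈ Subgroup.zpowers y, ∀ n ∈ N0, g⁻¹ * n * g ∈ N0 := by
    intro g hg n hn
    rw [hN0] at hn ⊢
    have hgc : Commute g (y ^ p ^ kk) := by
      obtain ⟨i, rfl⟩ := Subgroup.mem_zpowers_iff.mp hg
      exact ((Commute.refl y).pow_right _).zpow_left i
    refine ⟨(hgc.inv_left.mul_left hn.1).mul_left hgc, ?_⟩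
    have : orderOf (g⁻¹ * n * g) = orderOf n := by
      have h1 : g⁻¹ * n * g = (MulAut.conj g⁻¹) n := by simp
      rw [h1]
      exact orderOf_injective (MulAut.conj g⁻¹).toMonoidHom (MulAut.conj g⁻¹).injective n
    rw [this]
    exact hn.2
  let L : Submodule k V :=
    { carrier := {m | ∀ n ∈ N0, ρ n m = m}
      add_mem' := by
        intro m m' hm hm' n hn
        rw [map_add, hm n hn, hm' n hn]
      zero_mem' := by
        intro n _
        exact map_zero _
      smul_mem' := by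
        intro c m hm n hn
        rw [map_smul, hm n hn] }
  have hLρ : ∀ g ∈ Subgroup.zpowers y, ∀ m ∈ L, ρ g m ∈ L := by
    intro g hg m hm n hn
    have h1 : ρ n (ρ g m) = ρ g (ρ (g⁻¹ * n * g) m) := by
      rw [← Module.End.mul_apply, ← Module.End.mul_apply, ← map_mul, ← map_mul]
      congr 2
      group
    rw [h1, hm _ (hnorm g hg n hn)]
  have hLv : ∀ m ∈ L, v m ∈ L := by
    intro m hm n hn
    have h1 : ρ n (v m) = v (ρ n m) := by
      rw [← Module.End.mul_apply, (hv n).eq, Module.End.mul_apply]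
    rw [h1, hm n hn]
  have hhinv : h⁻¹ ∈ Subgroup.zpowers y := Subgroup.inv_mem _ hh
  have hLu : ∀ m ∈ L, (ρ h⁻¹ * v - 1) m ∈ L := by
    intro m hm
    rw [LinearMap.sub_apply, Module.End.mul_apply, Module.End.one_apply]
    exact L.sub_mem (hLρ _ hhinv _ (hLv _ hm)) hm
  set U : Module.End k V := ρ h⁻¹ * v - 1 with hU
  let D : Module.End k L := U.restrict hLu
  have hDpow : ∀ (n : ℕ) (m : L), (((D ^ n) m : L) : V) = (U ^ n) (m : V) := by
    intro n
    induction n with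
    | zero => intro m; rfl
    | succ n ih =>
      intro m
      rw [pow_succ, pow_succ, Module.End.mul_apply, Module.End.mul_apply, ih]
      rfl
  have hUq : ∀ b : ℕ, U ^ p ^ b = ρ (h ^ p ^ b)⁻¹ * v ^ p ^ b - 1 := by
    intro b
    rw [hU, sub_pow_char_pow_of_commute (p := p) (n := b) (Commute.one_right _), one_pow,
      (hv h⁻¹).mul_pow, ← map_pow, inv_pow]
  have hDz : D ^ (p ^ (a - 1) * p) = 0 := by
    rw [hpa]
    ext m
    rw [hDpow, hUq, hvp, ← hord, pow_orderOf_eq_one]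
    simp
  intro m hm hhm
  have hp1 : 1 ≤ p ^ (a - 1) := Nat.one_le_pow _ _ hp.pos
  have hkey := ker_le_of_pow (p ^ (a - 1)) p hp1 hp.two_le D hDz (by
    intro z hz
    have hz1 : (U ^ p ^ (a - 1)) (z : V) = 0 := by
      rw [← hDpow, hz]; rfl
    have hz2 : v1 (z : V) = ρ x1 (z : V) := by
      rw [hUq, LinearMap.sub_apply, Module.End.mul_apply, Module.End.one_apply, sub_eq_zero] at hz1
      have h3 : ρ x1 (ρ (x1⁻¹) (v1 (z : V))) = v1 (z : V) := by
        rw [← Module.End.mul_apply, ← map_mul, mul_inv_cancel, map_one, Module.End.one_apply]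
      rw [← h3]
      congr 1
    obtain ⟨c, hc, hzc⟩ := hloc z z.2 hz2
    have hx1m : x1 ∈ Subgroup.zpowers y := Subgroup.pow_mem _ hh _
    have hcL : ∀ i : ℕ, ((ρ x1) ^ i) c ∈ L := by
      intro i
      induction i with
      | zero => exact hc
      | succ i ih =>
        rw [pow_succ', Module.End.mul_apply]
        exact hLρ _ hx1m _ ih
    refine ⟨⟨((ρ x1) ^ (p - 1)) c, hcL _⟩, ?_⟩
    apply Subtype.ext
    rw [hDpow, hzc]
    have h4 : v1 - ρ x1 = ρ x1 * U ^ p ^ (a - 1) := by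
      rw [hUq, mul_sub, mul_one, ← mul_assoc, ← map_mul, mul_inv_cancel, map_one, one_mul]
    have h5 : Commute (ρ x1) (U ^ p ^ (a - 1)) := by
      rw [hUq]
      apply Commute.sub_right _ (Commute.one_right _)
      apply Commute.mul_right
      · exact ((Commute.refl x1).inv_right).map ρ
      · exact (hv x1).pow_right _
    rw [h4, h5.mul_pow, (h5.pow_pow _ _).eq, ← pow_mul]
    rfl)
  rw [hpa] at hkey
  obtain ⟨w, hw⟩ := hkey ⟨m, hm⟩ (by
    apply Subtype.ext
    show U m = 0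
    rw [hU, LinearMap.sub_apply, Module.End.mul_apply, Module.End.one_apply, hhm, sub_self])
  refine ⟨w, w.2, ?_⟩
  rw [← hDpow, ← hw]

end Pool.Agent.Helper495_SP
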