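import Mathlib
import Pool.Agent.Helper495_SP.J05
import Pool.Agent.Helper495_SP.J15
import Pool.Agent.Helper495_SP.J21
set_option autoImplicit false
namespace Pool.Agent.Helper495_SP
open scoped Classical
open Polynomial
variable {G : Type*} [Group G]

/-! auxiliary lemmas -/

/-- sum of the elements of a subgroup -/
noncomputable def sN (k : Type*) [CommRing k] [Fintype G] (N : Subgroup G) : MonoidAlgebra k G :=
  ∑ n : G, if n ∈ N then MonoidAlgebra.single n (1 : k) else 0

theorem left_sN {k : Type*} [CommRing k] [Fintype G] (N : Subgroup G) (n : G) (hn : n ∈ N) :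
    MonoidAlgebra.single n (1 : k) * sN k N = sN k N := by
  unfold sN
  rw [Finset.mul_sum]
  refine Fintype.sum_equiv (Equiv.mulLeft n) _ _ (fun x => ?_)
  simp only [Equiv.coe_mulLeft, N.mul_mem_cancel_left hn, mul_ite, mul_zero,
    MonoidAlgebra.single_mul_single, mul_one]

theorem sN_comm {k : Type*} [CommRing k] [Fintype G] (N : Subgroup G) (h : G)
    (hN : ∀ x, h * x * h⁻¹ ∈ N ↔ x ∈ N) :
    MonoidAlgebra.single h (1 : k) * sN k N = sN k N * MonoidAlgebra.single h (1 : k) := by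
  unfold sN
  rw [Finset.mul_sum, Finset.sum_mul]
  refine Fintype.sum_equiv (MulAut.conj h).toEquiv _ _ (fun x => ?_)
  simp [MulAut.conj_apply, hN x, MonoidAlgebra.single_mul_single]

/-- the order of a subgroup as a sum -/
noncomputable def qN [Fintype G] (N : Subgroup G) : ℕ := (Finset.univ.filter (fun n : G => n ∈ N)).card

theorem sN_mul {k : Type*} [CommRing k] [Fintype G] (N : Subgroup G) (m : MonoidAlgebra k G)
    (hm : ∀ n ∈ N, MonoidAlgebra.single n (1 : k) * m = m) :
    sN k N * m = (qN N : k) • m := by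
  unfold sN qN
  rw [Finset.sum_mul]
  have h1 : ∀ n : G, (if n ∈ N then MonoidAlgebra.single n (1 : k) else 0) * m =
      if n ∈ N then m else 0 := by
    intro n
    split_ifs with h
    · exact hm n h
    · exact zero_mul _
  rw [Finset.sum_congr rfl (fun n _ => h1 n), ← Finset.sum_filter, Finset.sum_const,
    Nat.cast_smul_eq_nsmul]

/-- the elements fixed by `N` on the left and by `e` on the right -/
noncomputable def LN {k : Type*} [CommRing k] [Fintype G] (N : Subgroup G) (e : MonoidAlgebra k G) :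
    Submodule k (MonoidAlgebra k G) where
  carrier := {m | (∀ n ∈ N, MonoidAlgebra.single n (1 : k) * m = m) ∧ m * e = m}
  add_mem' := by
    rintro a b ⟨ha, ha'⟩ ⟨hb, hb'⟩
    exact ⟨fun n hn => by rw [mul_add, ha n hn, hb n hn], by rw [add_mul, ha', hb']⟩
  zero_mem' := ⟨fun n _ => mul_zero _, zero_mul _⟩
  smul_mem' := by
    rintro c a ⟨ha, ha'⟩
    exact ⟨fun n hn => by rw [mul_smul_comm, ha n hn], by rw [smul_mul_assoc, ha']⟩

theorem mem_LN {k : Type*} [CommRing k] [Fintype G] {N : Subgroup G} {e m : MonoidAlgebra k G} :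
    m ∈ LN N e ↔ (∀ n ∈ N, MonoidAlgebra.single n (1 : k) * m = m) ∧ m * e = m := Iff.rfl

/-- `m ↦ h⁻¹ m v` on the whole group algebra -/
noncomputable def trDD {k : Type*} [CommRing k] [Fintype G] (h : G) (v : MonoidAlgebra k G) :
    Module.End k (MonoidAlgebra k G) :=
  LinearMap.mulLeft k (MonoidAlgebra.single h⁻¹ (1 : k)) ∘ₗ LinearMap.mulRight k v

theorem trDD_apply {k : Type*} [CommRing k] [Fintype G] (h : G) (v m : MonoidAlgebra k G) :
    trDD h v m = MonoidAlgebra.single h⁻¹ (1 : k) * (m * v) := rfl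

theorem trDD_mem {k : Type*} [CommRing k] [Fintype G] (N : Subgroup G) (e v : MonoidAlgebra k G)
    (hev : Commute e v) (h : G) (hN : ∀ x, h * x * h⁻¹ ∈ N ↔ x ∈ N) (m : MonoidAlgebra k G)
    (hm : m ∈ LN N e) : trDD h v m ∈ LN N e := by
  rw [mem_LN] at hm ⊢
  obtain ⟨h1, h2⟩ := hm
  refine ⟨fun n hn => ?_, ?_⟩
  · rw [trDD_apply, ← mul_assoc, MonoidAlgebra.single_mul_single, mul_one]
    have h3 : n * h⁻¹ = h⁻¹ * (h * n * h⁻¹) := by group
    have h4 := h1 (h * n * h⁻¹) ((hN n).2 hn)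
    rw [h3]
    have h5 : MonoidAlgebra.single (h⁻¹ * (h * n * h⁻¹)) (1 : k) =
        MonoidAlgebra.single h⁻¹ 1 * MonoidAlgebra.single (h * n * h⁻¹) 1 := by
      rw [MonoidAlgebra.single_mul_single, mul_one]
    rw [h5, mul_assoc, ← mul_assoc _ m v, h4]
  · rw [trDD_apply, mul_assoc, mul_assoc m v e, ← hev.eq, ← mul_assoc m e v, h2]

theorem trDD_pow {k : Type*} [CommRing k] [Fintype G] (h : G) (v m : MonoidAlgebra k G) (i : ℕ) :
    (trDD h v ^ i) m = MonoidAlgebra.single ((h⁻¹) ^ i) (1 : k) * (m * v ^ i) := by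
  induction i with
  | zero => simp [← MonoidAlgebra.one_def]
  | succ i ih =>
    rw [pow_succ', Module.End.mul_apply, ih, trDD_apply, pow_succ' (h⁻¹), pow_succ v]
    rw [mul_assoc (MonoidAlgebra.single (h⁻¹ ^ i) 1), mul_assoc m, ← mul_assoc,
      MonoidAlgebra.single_mul_single, mul_one]

theorem trDD_pow_one {k : Type*} [CommRing k] [Fintype G] (h : G) (v : MonoidAlgebra k G) (s : ℕ)
    (hs : h ^ s = 1) (hv : v ^ s = 1) : trDD h v ^ s = 1 := by
  refine LinearMap.ext fun m => ?_
  rw [trDD_pow, inv_pow, hs, hv, inv_one, mul_one, ← MonoidAlgebra.one_def, one_mul]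
  rfl

/-- intertwining passes to powers of `f - 1` -/
theorem pow_intertwine {k : Type*} [CommRing k] {X Y : Type*} [AddCommGroup X] [Module k X]
    [AddCommGroup Y] [Module k Y] (i : X →ₗ[k] Y) (f : Module.End k X) (F : Module.End k Y)
    (hf : ∀ x, i (f x) = F (i x)) (j : ℕ) (x : X) : i (((f - 1) ^ j) x) = ((F - 1) ^ j) (i x) := by
  induction j generalizing x with
  | zero => rfl
  | succ j ih =>
    rw [pow_succ, pow_succ, Module.End.mul_apply, Module.End.mul_apply, ih]
    congr 1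
    simp [hf]

theorem sub_pow_frob {p : ℕ} [Fact p.Prime] {X : Type*} [AddCommGroup X] [Module (ZMod p) X]
    (f : Module.End (ZMod p) X) (a : ℕ) (hf : f ^ p ^ a = 1) : (f - 1) ^ p ^ a = 0 := by
  have h1 : ((Polynomial.X : Polynomial (ZMod p)) - 1) ^ p ^ a = Polynomial.X ^ p ^ a - 1 := by
    rw [sub_pow_char_pow, one_pow]
  have h2 := congrArg (Polynomial.aeval f) h1
  simp only [map_pow, map_sub, Polynomial.aeval_X, map_one, hf, sub_self] at h2
  exact h2

theorem restrict_pow_one {k : Type*} [CommRing k] {Y : Type*} [AddCommGroup Y] [Module k Y]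
    (W : Submodule k Y) (F : Module.End k Y) (hF : ∀ x ∈ W, F x ∈ W) (s : ℕ) (hs : F ^ s = 1) :
    (F.restrict hF : Module.End k W) ^ s = 1 := by
  have h1 : ∀ (j : ℕ) (x : W), (((F.restrict hF : Module.End k W) ^ j) x : Y) = (F ^ j) (x : Y) := by
    intro j
    induction j with
    | zero => intro x; rfl
    | succ j ih =>
      intro x
      rw [pow_succ, pow_succ, Module.End.mul_apply, Module.End.mul_apply, ih]
      rfl
  refine LinearMap.ext fun x => Subtype.ext ?_
  rw [h1, hs]
  rfl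

theorem not_dvd_qN [Fintype G] {p : ℕ} [Fact p.Prime] (N : Subgroup G)
    (hN : ∀ g ∈ N, ¬ p ∣ orderOf g) : ¬ p ∣ qN N := by
  intro hd
  have h1 : qN N = Nat.card N := by
    unfold qN
    rw [Nat.card_eq_fintype_card, Fintype.card_subtype]
  rw [h1] at hd
  obtain ⟨n, hn⟩ := exists_prime_orderOf_dvd_card' p hd
  apply hN n n.2
  rw [Subgroup.orderOf_coe, hn]

theorem right_single_of_fixed {k : Type*} [CommRing k] [Fintype G] (m : MonoidAlgebra k G)
    (hm : ∀ g, MonoidAlgebra.single g (1 : k) * m = m) (g : G) :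
    m * MonoidAlgebra.single g (1 : k) = m := by
  have hc : ∀ x, m.coeff x = m.coeff 1 := by
    intro x
    conv_lhs => rw [← hm x]
    rw [MonoidAlgebra.coeff_single_mul_eq_mul_coeff (m₂ := (1 : G))]
    · rw [one_mul]
    · intro z _
      constructor
      · intro hz; exact mul_eq_left.1 hz
      · rintro rfl; exact mul_one _
  ext x
  rw [MonoidAlgebra.coeff_mul_single_eq_coeff_mul (m₂ := x * g⁻¹)]
  · rw [mul_one, hc, hc x]
  · intro z _
    constructor
    · rintro rfl; group
    · rintro rfl; group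

theorem fixed_zero {k : Type*} [CommRing k] [Fintype G] (m e : MonoidAlgebra k G)
    (hm : ∀ g, MonoidAlgebra.single g (1 : k) * m = m) (hme : m * e = m)
    (haug : MonoidAlgebra.lift k k G (1 : G →* k) e = 0) : m = 0 := by
  have h1 : ∀ f : MonoidAlgebra k G, m * f = (MonoidAlgebra.lift k k G (1 : G →* k) f) • m := by
    intro f
    induction f using MonoidAlgebra.induction_on with
    | of g => rw [MonoidAlgebra.of_apply, right_single_of_fixed m hm g]; simp
    | add a b ha hb => rw [mul_add, ha, hb, map_add, add_smul]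
    | smul c a ha => rw [mul_smul_comm, ha, map_smul, smul_assoc]
  rw [← hme, h1, haug, zero_smul]

theorem lift_map {k l : Type*} [CommRing k] [CommRing l] (f : k →+* l) (a : MonoidAlgebra k G) :
    MonoidAlgebra.lift l l G (1 : G →* l) (MonoidAlgebra.mapRingHom G f a) =
      f (MonoidAlgebra.lift k k G (1 : G →* k) a) := by
  induction a using MonoidAlgebra.induction_on with
  | of g => simp
  | add a b ha hb => rw [map_add, map_add, ha, hb, map_add, map_add]
  | smul c a ha =>
    have : MonoidAlgebra.mapRingHom G f (c • a) = f c • MonoidAlgebra.mapRingHom G f a := by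
      ext x; simp
    rw [this, map_smul, ha, map_smul, smul_eq_mul, smul_eq_mul, map_mul]

theorem trace_cyc [Fintype G] {p : ℕ} [Fact p.Prime] (y : G) (kk : ℕ)
    (hy : orderOf y = p ^ (kk + 1)) (hSyl : ¬ p ∣ (Subgroup.zpowers y).index)
    (N0 : Subgroup G) (hN0 : ∀ g, g ∈ N0 ↔ (Commute g (y ^ p ^ kk) ∧ ¬ p ∣ orderOf g))
    (hK : ∀ g, Commute g (y ^ p ^ kk) → ∃ i : ℕ, ∃ n ∈ N0, g = y ^ i * n)
    (e v : MonoidAlgebra ℤ_[p] G) (he : e * e = e) (hev : Commute e v)
    (haug : MonoidAlgebra.lift ℤ_[p] ℤ_[p] G (1 : G →* ℤ_[p]) e = 0)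
    (a : ℕ) (ha : 1 ≤ a) (hvp : v ^ p ^ a = 1) (h : G) (hh : h ∈ Subgroup.zpowers y)
    (hord : orderOf h = p ^ a) :
    (∑ n : G, if n ∈ N0 then LinearMap.trace ℤ_[p] (MonoidAlgebra ℤ_[p] G)
      (LinearMap.mulLeft ℤ_[p] (MonoidAlgebra.single (h * n)⁻¹ (1 : ℤ_[p])) ∘ₗ
        LinearMap.mulRight ℤ_[p] (v * e)) else 0) = 0 := by
  set x := y ^ p ^ kk with hx
  have hhx : Commute h x := by
    obtain ⟨z, rfl⟩ := Subgroup.mem_zpowers_iff.1 hh
    exact ((Commute.refl y).zpow_left z).pow_right _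
  have hconj : ∀ g, h * g * h⁻¹ ∈ N0 ↔ g ∈ N0 := by
    intro g
    rw [hN0, hN0]
    have h1 : orderOf (h * g * h⁻¹) = orderOf g := (MulAut.conj h).orderOf_eq g
    have h2 : h * x * h⁻¹ = x := by rw [hhx.eq]; group
    have h3 : Commute (h * g * h⁻¹) x ↔ Commute g x := by
      conv_lhs => rw [← h2]
      exact Commute.conj_iff h
    rw [h1, h3]
  have hq : ¬ p ∣ qN N0 := not_dvd_qN N0 (fun g hg => ((hN0 g).1 hg).2)
  have hs1 : h ^ p ^ a = 1 := by rw [← hord]; exact pow_orderOf_eq_one h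
  -- the sum of traces is the trace of one map
  set w := v * e with hw
  set Φ : Module.End ℤ_[p] (MonoidAlgebra ℤ_[p] G) :=
    LinearMap.mulLeft ℤ_[p] (sN ℤ_[p] N0 * MonoidAlgebra.single h⁻¹ (1 : ℤ_[p])) ∘ₗ
      LinearMap.mulRight ℤ_[p] w with hΦ
  have hsum : (∑ n : G, if n ∈ N0 then LinearMap.trace ℤ_[p] (MonoidAlgebra ℤ_[p] G)
      (LinearMap.mulLeft ℤ_[p] (MonoidAlgebra.single (h * n)⁻¹ (1 : ℤ_[p])) ∘ₗ
        LinearMap.mulRight ℤ_[p] w) else 0) = LinearMap.trace ℤ_[p] (MonoidAlgebra ℤ_[p] G) Φ := by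
    have e1 : sN ℤ_[p] N0 * MonoidAlgebra.single h⁻¹ (1 : ℤ_[p]) =
        ∑ n : G, if n ∈ N0 then MonoidAlgebra.single (h * n)⁻¹ (1 : ℤ_[p]) else 0 := by
      unfold sN
      rw [Finset.sum_mul]
      refine Fintype.sum_equiv (Equiv.inv G) _ _ (fun n => ?_)
      simp [MonoidAlgebra.single_mul_single]
    have e2 : Φ = ∑ n : G, if n ∈ N0 then
        (LinearMap.mulLeft ℤ_[p] (MonoidAlgebra.single (h * n)⁻¹ (1 : ℤ_[p])) ∘ₗ
        LinearMap.mulRight ℤ_[p] w) else 0 := by
      refine LinearMap.ext fun m => ?_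
      rw [hΦ, LinearMap.comp_apply, LinearMap.mulLeft_apply, e1, Finset.sum_mul,
        LinearMap.sum_apply]
      refine Finset.sum_congr rfl fun n _ => ?_
      split_ifs
      · rfl
      · simp
    rw [e2, map_sum]
    refine Finset.sum_congr rfl fun n _ => ?_
    split_ifs
    · rfl
    · rw [map_zero]
  rw [hsum]
  -- restrict to `L`
  have hΦL : ∀ m, Φ m ∈ LN N0 e := by
    intro m
    rw [mem_LN]
    have h1 : Φ m = sN ℤ_[p] N0 * MonoidAlgebra.single h⁻¹ (1 : ℤ_[p]) * (m * w) := rfl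
    refine ⟨fun n hn => ?_, ?_⟩
    · rw [h1, mul_assoc, ← mul_assoc, left_sN N0 n hn]
    · rw [h1, hw, mul_assoc, mul_assoc m, mul_assoc v, he]
  have hDL : ∀ m ∈ LN N0 e, trDD h v m ∈ LN N0 e := fun m hm => trDD_mem N0 e v hev h hconj m hm
  set d : Module.End ℤ_[p] (LN N0 e) := (trDD h v).restrict hDL with hd
  have hinvconj : ∀ g, h⁻¹ * g * (h⁻¹)⁻¹ ∈ N0 ↔ g ∈ N0 := by
    intro g
    rw [← hconj (h⁻¹ * g * (h⁻¹)⁻¹)]
    have : h * (h⁻¹ * g * (h⁻¹)⁻¹) * h⁻¹ = g := by group
    rw [this]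
  have hres : (Φ.restrict (fun m _ => hΦL m) : Module.End ℤ_[p] (LN N0 e)) =
      (qN N0 : ℤ_[p]) • d := by
    refine LinearMap.ext fun m => Subtype.ext ?_
    obtain ⟨m, hm⟩ := m
    have hm' := hm
    rw [mem_LN] at hm'
    show sN ℤ_[p] N0 * MonoidAlgebra.single h⁻¹ (1 : ℤ_[p]) * (m * w) =
      (qN N0 : ℤ_[p]) • (MonoidAlgebra.single h⁻¹ (1 : ℤ_[p]) * (m * v))
    have h1 : m * w = m * v := by
      rw [hw, ← hev.eq, ← mul_assoc, hm'.2]
    rw [h1, ← sN_comm N0 h⁻¹ hinvconj, mul_assoc, ← mul_assoc _ m v, sN_mul N0 m hm'.1,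
      smul_mul_assoc, mul_smul_comm]
  rw [← LinearMap.trace_restrict_eq_of_forall_mem (LN N0 e) Φ hΦL, hres, map_smul]
  -- the reduction
  set R := ℤ_[p]
  set π : MonoidAlgebra ℤ_[p] G →+* MonoidAlgebra (ZMod p) G :=
    MonoidAlgebra.mapRingHom G (PadicInt.toZMod (p := p)) with hπ
  have hπs : ∀ g, π (MonoidAlgebra.single g (1 : ℤ_[p])) = MonoidAlgebra.single g (1 : ZMod p) := by
    intro g; simp [hπ]
  have hπsm : ∀ (c : ℤ_[p]) m, π (c • m) = (PadicInt.toZMod c) • π m := by
    intro c m; ext x; simp [hπ]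
  set eb := π e with heb
  set vb := π v with hvb
  have hevb : Commute eb vb := hev.map π
  have hπL : ∀ m ∈ LN N0 e, π m ∈ LN N0 eb := by
    intro m hm
    rw [mem_LN] at hm ⊢
    refine ⟨fun n hn => ?_, ?_⟩
    · rw [← hπs, ← map_mul, hm.1 n hn]
    · rw [heb, ← map_mul, hm.2]
  set ρ : LN N0 e →+ LN N0 eb :=
    { toFun := fun m => ⟨π m, hπL m m.2⟩
      map_zero' := Subtype.ext (map_zero π)
      map_add' := fun a b => Subtype.ext (map_add π _ _) } with hρdef
  have hρ : ∀ m : LN N0 e, (ρ m : MonoidAlgebra (ZMod p) G) = π m := fun m => rfl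
  have hDLb : ∀ m ∈ LN N0 eb, trDD h vb m ∈ LN N0 eb :=
    fun m hm => trDD_mem N0 eb vb hevb h hconj m hm
  set db : Module.End (ZMod p) (LN N0 eb) := (trDD h vb).restrict hDLb with hdb
  have hvbp : vb ^ p ^ a = 1 := by rw [hvb, ← map_pow, hvp, map_one]
  have htr : LinearMap.trace ℤ_[p] (LN N0 e) d = 0 := by
    refine trace_zero ρ ?_ ?_ ?_ (p ^ a) ?_ d db ?_ ?_ ?_ ?_
    · -- surjective
      rintro ⟨mb, hmb⟩
      have hmb' := hmb
      rw [mem_LN] at hmb'
      obtain ⟨m0, hm0⟩ : ∃ m0, π m0 = mb := by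
        have := MonoidAlgebra.map_surjective (M := G) (PadicInt.toZMod (p := p)).toAddMonoidHom
          (ZMod.ringHom_surjective _)
        exact this mb
      have hqu : IsUnit (qN N0 : ℤ_[p]) := by
        rw [PadicInt.isUnit_iff]
        by_contra hne
        have h1 : ‖((qN N0 : ℤ) : ℤ_[p])‖ < 1 := by
          refine lt_of_le_of_ne (PadicInt.norm_le_one _) ?_
          simpa using hne
        rw [PadicInt.norm_int_lt_one_iff_dvd] at h1
        exact hq (by exact_mod_cast h1)
      obtain ⟨u, hu⟩ := hqu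
      have hmem : (↑u⁻¹ : ℤ_[p]) • (sN ℤ_[p] N0 * m0 * e) ∈ LN N0 e := by
        refine (LN N0 e).smul_mem _ ?_
        rw [mem_LN]
        refine ⟨fun n hn => ?_, ?_⟩
        · rw [← mul_assoc, ← mul_assoc, left_sN N0 n hn]
        · rw [mul_assoc, he]
      refine ⟨⟨_, hmem⟩, Subtype.ext ?_⟩
      rw [hρ]
      show π ((↑u⁻¹ : ℤ_[p]) • (sN ℤ_[p] N0 * m0 * e)) = mb
      have hπN : π (sN ℤ_[p] N0) = sN (ZMod p) N0 := by
        unfold sN
        rw [map_sum]
        refine Finset.sum_congr rfl fun n _ => ?_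
        split_ifs
        · exact hπs n
        · exact map_zero _
      rw [hπsm, map_mul, map_mul, hm0, hπN, sN_mul N0 mb hmb'.1, smul_mul_assoc, ← heb, hmb'.2,
        smul_smul]
      have h2 : (PadicInt.toZMod (↑u⁻¹ : ℤ_[p])) * (qN N0 : ZMod p) = 1 := by
        rw [← map_natCast (PadicInt.toZMod (p := p)), ← hu, ← map_mul, Units.inv_mul, map_one]
      rw [h2, one_smul]
    · intro c m
      exact Subtype.ext (hπsm c m)
    · rintro ⟨m, hm⟩ hm0
      have hm' := hm
      rw [mem_LN] at hm'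
      have h0 : π m = 0 := congrArg Subtype.val hm0
      have h1 : ∀ g, ∃ c, m.coeff g = (p : ℤ_[p]) * c := by
        intro g
        have h2 : PadicInt.toZMod (m.coeff g) = 0 := by
          have := congrArg (fun z => z.coeff g) h0
          simpa [hπ] using this
        have h3 : m.coeff g ∈ RingHom.ker (PadicInt.toZMod (p := p)) := h2
        rw [PadicInt.ker_toZMod, PadicInt.maximalIdeal_eq_span_p, Ideal.mem_span_singleton] at h3
        exact h3
      choose c hc using h1
      obtain ⟨m', hm'⟩ : ∃ m' : MonoidAlgebra ℤ_[p] G, m = (p : ℤ_[p]) • m' := by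
        refine ⟨MonoidAlgebra.ofCoeff (Finsupp.equivFunOnFinite.symm c), ?_⟩
        ext g
        simp [hc g]
      have hp0 : (p : ℤ_[p]) ≠ 0 := by
        have := (Fact.out : p.Prime).ne_zero
        exact_mod_cast this
      have hinj : ∀ z : MonoidAlgebra ℤ_[p] G, (p : ℤ_[p]) • z = 0 → z = 0 := by
        intro z hz
        ext g
        have := congrArg (fun z => z.coeff g) hz
        simpa [hp0] using this
      have hmem : m' ∈ LN N0 e := by
        rw [mem_LN]
        rename_i hmm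
        obtain ⟨ha1, ha2⟩ := hmm
        refine ⟨fun n hn => ?_, ?_⟩
        · refine sub_eq_zero.1 (hinj _ ?_)
          rw [smul_sub, ← mul_smul_comm, ← hm', ha1 n hn, sub_self]
        · refine sub_eq_zero.1 (hinj _ ?_)
          rw [smul_sub, ← smul_mul_assoc, ← hm', ha2, sub_self]
      exact ⟨⟨m', hmem⟩, Subtype.ext hm'⟩
    · calc 2 ≤ p := (Fact.out : p.Prime).two_le
        _ = p ^ 1 := (pow_one p).symm
        _ ≤ p ^ a := Nat.pow_le_pow_right (Fact.out : p.Prime).pos ha
    · exact restrict_pow_one _ _ hDL _ (trDD_pow_one h v _ hs1 hvp)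
    · intro m
      refine Subtype.ext ?_
      show π (MonoidAlgebra.single h⁻¹ (1 : ℤ_[p]) * ((m : MonoidAlgebra ℤ_[p] G) * v)) =
        MonoidAlgebra.single h⁻¹ (1 : ZMod p) * (π m * vb)
      rw [map_mul, map_mul, hπs]
    · exact sub_pow_frob db a (restrict_pow_one _ _ hDLb _ (trDD_pow_one h vb _ hs1 hvbp))
    · -- freeness
      set W : Submodule (ZMod p) (MonoidAlgebra (ZMod p) G) :=
        LN (⊥ : Subgroup G) eb with hW
      have hWm : ∀ m, m ∈ W ↔ m * eb = m := by
        intro m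
        rw [hW, mem_LN]
        refine ⟨fun h => h.2, fun h => ⟨fun n hn => ?_, h⟩⟩
        rw [Subgroup.mem_bot.1 hn, ← MonoidAlgebra.one_def, one_mul]
      have hLW : ∀ g, ∀ m ∈ W, LinearMap.mulLeft (ZMod p) (MonoidAlgebra.single g (1 : ZMod p)) m
          ∈ W := by
        intro g m hm
        rw [hWm] at hm ⊢
        rw [LinearMap.mulLeft_apply, mul_assoc, hm]
      have hRW : ∀ m ∈ W, LinearMap.mulRight (ZMod p) vb m ∈ W := by
        intro m hm
        rw [hWm] at hm ⊢
        rw [LinearMap.mulRight_apply, mul_assoc, ← hevb.eq, ← mul_assoc, hm]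
      let ρ' : G →* Module.End (ZMod p) W :=
        { toFun := fun g => (LinearMap.mulLeft (ZMod p) (MonoidAlgebra.single g (1 : ZMod p))).restrict
            (hLW g)
          map_one' := by
            refine LinearMap.ext fun m => Subtype.ext ?_
            show MonoidAlgebra.single (1 : G) (1 : ZMod p) * (m : MonoidAlgebra (ZMod p) G) =
              (m : MonoidAlgebra (ZMod p) G)
            rw [← MonoidAlgebra.one_def, one_mul]
          map_mul' := by
            intro g g'
            refine LinearMap.ext fun m => Subtype.ext ?_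
            show MonoidAlgebra.single (g * g') (1 : ZMod p) * (m : MonoidAlgebra (ZMod p) G) =
              MonoidAlgebra.single g (1 : ZMod p) * (MonoidAlgebra.single g' (1 : ZMod p) *
                (m : MonoidAlgebra (ZMod p) G))
            rw [← mul_assoc, MonoidAlgebra.single_mul_single, mul_one] }
      have hρ' : ∀ g (m : W), ((ρ' g m : W) : MonoidAlgebra (ZMod p) G) =
          MonoidAlgebra.single g (1 : ZMod p) * m := fun g m => rfl
      let v' : Module.End (ZMod p) W := (LinearMap.mulRight (ZMod p) vb).restrict hRW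
      have hv' : ∀ (m : W), ((v' m : W) : MonoidAlgebra (ZMod p) G) = m * vb := fun m => rfl
      have hv'p : v' ^ p ^ a = 1 := by
        refine restrict_pow_one _ _ hRW _ ?_
        rw [LinearMap.pow_mulRight, hvbp, LinearMap.mulRight_one]
        rfl
      have hebb : eb * eb = eb := by rw [heb, ← map_mul, he]
      have haugb : MonoidAlgebra.lift (ZMod p) (ZMod p) G (1 : G →* ZMod p) eb = 0 := by
        rw [heb, hπ, lift_map, haug, map_zero]
      have key := local_cyc_pow (k := ZMod p) (p := p) ρ' v'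
        (fun g => LinearMap.ext fun m => Subtype.ext (mul_assoc _ _ _).symm) y kk hy hSyl
        (by
          rintro ⟨m, hm⟩ hfix
          obtain ⟨b, hb, hb'⟩ := proj_kG (Subgroup.zpowers y) eb hebb m ((hWm m).1 hm)
            (fun g hg => congrArg Subtype.val (hfix g hg))
          refine ⟨⟨b, (hWm b).2 hb⟩, Subtype.ext ?_⟩
          rw [AddSubmonoidClass.coe_finsetSum]
          show m = _
          rw [hb']
          refine Finset.sum_congr rfl fun g _ => ?_
          split_ifs
          · rfl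
          · rfl)
        (by
          rintro ⟨m, hm⟩ hfix
          refine Subtype.ext ?_
          exact fixed_zero m eb (fun g => congrArg Subtype.val (hfix g)) ((hWm m).1 hm) haugb)
        N0 hN0 hK a ha hv'p h hh hord
      rintro ⟨m, hm⟩ hfix
      have hm' := hm
      rw [mem_LN] at hm'
      have hfix' : MonoidAlgebra.single h⁻¹ (1 : ZMod p) * (m * vb) = m :=
        congrArg Subtype.val hfix
      obtain ⟨c, hc1, hc2⟩ := key ⟨m, (hWm m).2 hm'.2⟩
        (fun n hn => Subtype.ext (hm'.1 n hn)) (Subtype.ext hfix')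
      have hcL : (c : MonoidAlgebra (ZMod p) G) ∈ LN N0 eb := by
        rw [mem_LN]
        exact ⟨fun n hn => congrArg Subtype.val (hc1 n hn), (hWm _).1 c.2⟩
      refine ⟨⟨c, hcL⟩, Subtype.ext ?_⟩
      have i1 := pow_intertwine W.subtype (ρ' h⁻¹ * v') (trDD h vb) (fun _ => rfl) (p ^ a - 1) c
      have i2 := pow_intertwine (LN N0 eb).subtype db (trDD h vb) (fun _ => rfl) (p ^ a - 1) ⟨c, hcL⟩
      have i3 := congrArg Subtype.val hc2
      exact i3.trans (i1.trans i2.symm)
  rw [htr, smul_zero]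

end Pool.Agent.Helper495_SP
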