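import Mathlib
import Pool.Agent.Helper495_SP.J12
import Pool.Agent.Helper495_SP.J16
import Pool.Agent.Helper495_SP.J17
import Pool.Agent.Helper495_SP.J18
import Pool.Agent.Helper495_SP.J22
set_option autoImplicit false
namespace Pool.Agent.Helper495_SP
open scoped Classical
open Polynomial
variable {G : Type*} [Group G]

theorem sum_zero_cyc [Fintype G] {p : ℕ} [Fact p.Prime] (y : G) (kk : ℕ)
    (hy : orderOf y = p ^ (kk + 1)) (hSyl : ¬ p ∣ (Subgroup.zpowers y).index)
    (e v : MonoidAlgebra ℤ_[p] G) (he : e * e = e) (hev : Commute e v)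
    (haug : MonoidAlgebra.lift ℤ_[p] ℤ_[p] G (1 : G →* ℤ_[p]) e = 0)
    (a : ℕ) (ha : 1 ≤ a) (hvp : v ^ p ^ a = 1) :
    (∑ g : G, if (orderOf g).factorization p = a then (v * e).coeff g else 0) = 0 := by
  obtain ⟨N0, hN0, hK⟩ := cyc_structure y kk hy hSyl
  have h1 := count_cyc y kk hy hSyl a ha (fun g => (v * e).coeff g)
  have h2 := split_cyc y kk hy N0 hN0 hK a (fun g => ∑ m : G, (v * e).coeff (m⁻¹ * g * m))
  have h3 : (∑ h : G, if h ∈ Subgroup.zpowers y ∧ orderOf h = p ^ a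
        then ∑ n : G, (if n ∈ N0 then ∑ m : G, (v * e).coeff (m⁻¹ * (h * n) * m) else 0)
        else 0) = 0 := by
    refine Finset.sum_eq_zero fun h _ => ?_
    split_ifs with hh
    · have h4 := trace_cyc y kk hy hSyl N0 hN0 hK e v he hev haug a ha hvp h hh.1 hh.2
      refine Eq.trans (Finset.sum_congr rfl fun n _ => ?_) h4
      split_ifs
      · exact (trace_formula (h * n) (v * e)).symm
      · rfl
    · rfl
  have h5 := h1.symm.trans (h2.trans h3)
  rcases mul_eq_zero.1 h5 with h6 | h6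
  · exfalso
    have h7 : Nat.card {g : G // g * (y ^ p ^ kk) * g⁻¹ ∈ Subgroup.zpowers (y ^ p ^ kk)} ≠ 0 := by
      have : Nonempty {g : G // g * (y ^ p ^ kk) * g⁻¹ ∈ Subgroup.zpowers (y ^ p ^ kk)} :=
        ⟨⟨1, by simp⟩⟩
      exact Nat.card_pos.ne'
    exact h7 (by exact_mod_cast h6)
  · exact h6

end Pool.Agent.Helper495_SP
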