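import Mathlib
import Pool.Agent.Helper495_SP.Defs
import Pool.Agent.Helper495_SP.J04b
import Pool.Agent.Helper495_SP.J04d
import Pool.Agent.Helper495_SP.J23
import Pool.Agent.Helper495_SP.J24
set_option autoImplicit false

/-!
Orders of torsion units when the Sylow `p`-subgroups are cyclic.
-/

namespace Pool.Agent.Helper495_SP

open scoped Classical in
/-- units of prime power order (Cohn and Livingstone) -/
theorem exists_of_prime_pow {G : Type*} [Group G] [Finite G] (p a : ℕ) (hp : p.Prime)
    (v : (MonoidAlgebra ℤ G)ˣ)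
    (haug : MonoidAlgebra.lift ℤ ℤ G (1 : G →* ℤ) (v : MonoidAlgebra ℤ G) = 1)
    (hv : orderOf v = p ^ a) : ∃ g : G, orderOf g = p ^ a := by
  haveI := Fintype.ofFinite G
  rcases Nat.eq_zero_or_pos a with rfl | ha
  · exact ⟨1, by simp⟩
  have h1 := fv_one p a hp ha v haug hv
  have h2 : fv p a (v : MonoidAlgebra ℤ G) ≠ 0 := by
    intro h0
    rw [h0, zero_sub, dvd_neg] at h1
    have := Int.natAbs_dvd_natAbs.2 h1
    simp only [Int.natAbs_natCast, Int.natAbs_one, Nat.dvd_one] at this
    exact hp.one_lt.ne' this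
  obtain ⟨g, -, hg⟩ := Finset.exists_ne_zero_of_sum_ne_zero h2
  have hg' : (orderOf g).factorization p = a := by
    by_contra hne
    apply hg
    rw [if_neg hne, mul_zero]
  have hdvd : p ^ a ∣ orderOf g := by
    rw [← hg']
    exact Nat.ordProj_dvd (orderOf g) p
  refine ⟨g ^ (orderOf g / p ^ a), ?_⟩
  exact orderOf_pow_orderOf_div (orderOf_pos g).ne' hdvd

open scoped Classical in
/-- **Theorem.** If the Sylow `p`-subgroups of `G` are cyclic, then a normalised unit of order
`p ^ a * q` in the integral group ring forces an element of that order in `G`. -/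
theorem cyc_order {G : Type*} [Group G] [Finite G] (p q a : ℕ) (hp : p.Prime) (hq : q.Prime)
    (hpq : p ≠ q) (ha : 1 ≤ a) (hcyc : ∀ P : Sylow p G, IsCyclic P)
    (u : (MonoidAlgebra ℤ G)ˣ)
    (haug : MonoidAlgebra.lift ℤ ℤ G (1 : G →* ℤ) (u : MonoidAlgebra ℤ G) = 1)
    (hu : orderOf u = p ^ a * q) : ∃ g : G, orderOf g = p ^ a * q := by
  haveI := Fintype.ofFinite G
  haveI : Fact p.Prime := ⟨hp⟩
  -- `p` divides the order of `G`
  have hpG : p ∣ Nat.card G := by
    have hv : orderOf (u ^ q) = p ^ a := by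
      rw [orderOf_pow' u hq.ne_zero, hu, Nat.gcd_eq_right (Dvd.intro_left _ rfl)]
      exact Nat.mul_div_cancel _ hq.pos
    have haug' : MonoidAlgebra.lift ℤ ℤ G (1 : G →* ℤ)
        ((u ^ q : (MonoidAlgebra ℤ G)ˣ) : MonoidAlgebra ℤ G) = 1 := by
      rw [Units.val_pow_eq_pow_val, map_pow, haug, one_pow]
    obtain ⟨g, hg⟩ := exists_of_prime_pow p a hp _ haug' hv
    have h1 : orderOf g ∣ Nat.card G := orderOf_dvd_natCard g
    rw [hg] at h1
    exact (dvd_pow_self p (by omega)).trans h1
  -- a generator of a Sylow subgroup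
  let P : Sylow p G := default
  obtain ⟨⟨y, hyP⟩, hgen⟩ := (hcyc P).exists_generator
  have hzP : Subgroup.zpowers y = (P : Subgroup G) := by
    apply le_antisymm
    · rw [Subgroup.zpowers_le]; exact hyP
    · intro z hz
      obtain ⟨i, hi⟩ := hgen ⟨z, hz⟩
      exact ⟨i, congrArg Subtype.val hi⟩
  have hcard : orderOf y = p ^ (Nat.card G).factorization p := by
    rw [← Nat.card_zpowers, hzP]
    exact P.card_eq_multiplicity
  have hk : 1 ≤ (Nat.card G).factorization p :=
    (hp.dvd_iff_one_le_factorization Nat.card_pos.ne').1 hpG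
  obtain ⟨k, hk'⟩ : ∃ k, (Nat.card G).factorization p = k + 1 := ⟨_, (Nat.sub_add_cancel hk).symm⟩
  have hy : orderOf y = p ^ (k + 1) := by rw [hcard, hk']
  have hSyl : ¬ p ∣ (Subgroup.zpowers y).index := by
    rw [hzP]
    exact P.not_dvd_index
  refine finish p q a hp hq hpq ha ?_ u haug hu
  intro v w hvw hv hw _ haugw
  exact key_of_sum_zero a q hq hpq
    (fun e v he hev haug hvp => sum_zero_cyc y k hy hSyl e v he hev haug a ha hvp)
    v w hvw hv hw haugw

end Pool.Agent.Helper495_SP
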