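import Mathlib
set_option autoImplicit false
namespace Pool.Agent.Helper495_SP
open scoped Classical

/-- `GL(2)` is in bijection with `SL(2)` times the units -/
noncomputable def P1_equiv (F : Type*) [Field F] :
    Matrix.GeneralLinearGroup (Fin 2) F ≃ Matrix.SpecialLinearGroup (Fin 2) F × Fˣ where
  toFun g := (⟨Matrix.diagonal ![(((Matrix.GeneralLinearGroup.det g)⁻¹ : Fˣ) : F), 1] *
    (g : Matrix (Fin 2) (Fin 2) F), by
      rw [Matrix.det_mul, Matrix.det_diagonal, Fin.prod_univ_two]
      simp only [Matrix.cons_val_zero, Matrix.cons_val_one, mul_one]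
      have h : (g : Matrix (Fin 2) (Fin 2) F).det =
        ((Matrix.GeneralLinearGroup.det g : Fˣ) : F) := rfl
      rw [h, Units.inv_mul]⟩, Matrix.GeneralLinearGroup.det g)
  invFun p := Matrix.GeneralLinearGroup.mkOfDetNeZero
    (Matrix.diagonal ![(p.2 : F), 1] * (p.1 : Matrix (Fin 2) (Fin 2) F)) (by
      rw [Matrix.det_mul, Matrix.det_diagonal, Fin.prod_univ_two, p.1.2]
      simp)
  left_inv g := by
    apply Units.ext
    show Matrix.diagonal ![((Matrix.GeneralLinearGroup.det g : Fˣ) : F), 1] *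
      (Matrix.diagonal ![(((Matrix.GeneralLinearGroup.det g)⁻¹ : Fˣ) : F), 1] *
        (g : Matrix (Fin 2) (Fin 2) F)) = (g : Matrix (Fin 2) (Fin 2) F)
    rw [← mul_assoc, Matrix.diagonal_mul_diagonal]
    have h : (Matrix.diagonal fun i => ![((Matrix.GeneralLinearGroup.det g : Fˣ) : F), 1] i *
        ![(((Matrix.GeneralLinearGroup.det g)⁻¹ : Fˣ) : F), 1] i) = 1 := by
      rw [← Matrix.diagonal_one]
      congr 1
      ext i
      fin_cases i
      · exact Units.mul_inv _
      · simp
    rw [h, one_mul]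
  right_inv p := by
    obtain ⟨B, u⟩ := p
    have hdet : Matrix.GeneralLinearGroup.det (Matrix.GeneralLinearGroup.mkOfDetNeZero
        (Matrix.diagonal ![(u : F), 1] * (B : Matrix (Fin 2) (Fin 2) F)) (by
      rw [Matrix.det_mul, Matrix.det_diagonal, Fin.prod_univ_two, B.2]
      simp)) = u := by
      apply Units.ext
      show (Matrix.diagonal ![(u : F), 1] * (B : Matrix (Fin 2) (Fin 2) F)).det = u
      rw [Matrix.det_mul, Matrix.det_diagonal, Fin.prod_univ_two, B.2]
      simp
    apply Prod.ext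
    · apply Subtype.ext
      dsimp only
      rw [hdet]
      show Matrix.diagonal ![((u⁻¹ : Fˣ) : F), 1] *
        (Matrix.diagonal ![(u : F), 1] * (B : Matrix (Fin 2) (Fin 2) F)) = B
      rw [← mul_assoc, Matrix.diagonal_mul_diagonal]
      have h : (Matrix.diagonal fun i => ![((u⁻¹ : Fˣ) : F), 1] i * ![(u : F), 1] i) = 1 := by
        rw [← Matrix.diagonal_one]
        congr 1
        ext i
        fin_cases i <;> simp
      rw [h, one_mul]
    · exact hdet

theorem card_SL2 (F : Type*) [Field F] [Fintype F] :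
    Nat.card (Matrix.SpecialLinearGroup (Fin 2) F) =
      Fintype.card F * (Fintype.card F - 1) * (Fintype.card F + 1) := by
  have h1 := Nat.card_congr (P1_equiv F)
  rw [Nat.card_prod] at h1
  have h2 : Nat.card (Matrix.GeneralLinearGroup (Fin 2) F) =
      ∏ i : Fin 2, (Fintype.card F ^ 2 - Fintype.card F ^ (i : ℕ)) := Matrix.card_GL_field 2
  have h3 : Nat.card Fˣ = Fintype.card F - 1 := by
    rw [Nat.card_eq_fintype_card, Fintype.card_units]
  rw [h2, h3, Fin.prod_univ_two] at h1
  simp only [Fin.val_zero, Fin.val_one, pow_zero, pow_one] at h1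
  have hq : 1 < Fintype.card F := Fintype.one_lt_card
  obtain ⟨k, hk⟩ : ∃ k, Fintype.card F = k + 2 := ⟨Fintype.card F - 2, by omega⟩
  rw [hk] at h1 ⊢
  have e1 : (k + 2) ^ 2 - 1 = (k + 1) * (k + 3) := by
    have : (k + 2) ^ 2 = (k + 1) * (k + 3) + 1 := by ring
    omega
  have e2 : (k + 2) ^ 2 - (k + 2) = (k + 2) * (k + 1) := by
    have : (k + 2) ^ 2 = (k + 2) * (k + 1) + (k + 2) := by ring
    omega
  have e3 : k + 2 - 1 = k + 1 := by omega
  rw [e1, e2, e3] at h1
  rw [e3]
  have h4 : (k + 1) * Nat.card (Matrix.SpecialLinearGroup (Fin 2) F) =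
      (k + 1) * ((k + 2) * (k + 1) * (k + 2 + 1)) := by
    calc (k + 1) * Nat.card (Matrix.SpecialLinearGroup (Fin 2) F) =
        Nat.card (Matrix.SpecialLinearGroup (Fin 2) F) * (k + 1) := mul_comm _ _
      _ = (k + 1) * (k + 3) * ((k + 2) * (k + 1)) := h1.symm
      _ = _ := by ring
  exact Nat.eq_of_mul_eq_mul_left (Nat.succ_pos k) h4

end Pool.Agent.Helper495_SP
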