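import Mathlib
import Pool.Agent.Helper495_SP.P1
set_option autoImplicit false
namespace Pool.Agent.Helper495_SP
open scoped Classical

theorem card_center_SL2 (F : Type*) [Field F] [Fintype F] :
    Nat.card (Subgroup.center (Matrix.SpecialLinearGroup (Fin 2) F)) =
      Nat.gcd 2 (Fintype.card F - 1) := by
  rw [Nat.card_congr (Matrix.SpecialLinearGroup.center_equiv_rootsOfUnity' (R := F)
    (0 : Fin 2)).toEquiv]
  have h1 : rootsOfUnity (Fintype.card (Fin 2)) F = (powMonoidHom 2 : Fˣ →* Fˣ).ker := by
    ext x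
    rw [mem_rootsOfUnity, MonoidHom.mem_ker, powMonoidHom_apply, Fintype.card_fin]
  rw [h1, IsCyclic.card_powMonoidHom_ker, Nat.gcd_comm, Nat.card_units, Nat.card_eq_fintype_card]

theorem card_PSL2 (F : Type*) [Field F] [Fintype F] :
    Nat.card (Matrix.ProjectiveSpecialLinearGroup (Fin 2) F) * Nat.gcd 2 (Fintype.card F - 1) =
      Fintype.card F * (Fintype.card F - 1) * (Fintype.card F + 1) := by
  rw [← card_SL2 F, ← card_center_SL2 F]
  exact (Subgroup.card_eq_card_quotient_mul_card_subgroup
    (Subgroup.center (Matrix.SpecialLinearGroup (Fin 2) F))).symm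

end Pool.Agent.Helper495_SP
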