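import Mathlib
import Pool.Agent.Helper495_SP.P5
set_option autoImplicit false
namespace Pool.Agent.Helper495_SP
open scoped Classical

section
variable {F : Type*} [Field F]

/-- the class of a matrix -/
def pk (A : Matrix.SpecialLinearGroup (Fin 2) F) : Matrix.ProjectiveSpecialLinearGroup (Fin 2) F :=
  QuotientGroup.mk' (Subgroup.center (Matrix.SpecialLinearGroup (Fin 2) F)) A

theorem pk_mul (A B : Matrix.SpecialLinearGroup (Fin 2) F) : pk (A * B) = pk A * pk B :=
  map_mul _ A B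

theorem pk_inv (A : Matrix.SpecialLinearGroup (Fin 2) F) : pk A⁻¹ = (pk A)⁻¹ := map_inv _ A

theorem pk_pow (A : Matrix.SpecialLinearGroup (Fin 2) F) (k : ℕ) : pk (A ^ k) = (pk A) ^ k :=
  map_pow _ A k

theorem pk_surj (g : Matrix.ProjectiveSpecialLinearGroup (Fin 2) F) : ∃ A, pk A = g :=
  QuotientGroup.mk'_surjective _ g

theorem pk_eq {A B : Matrix.SpecialLinearGroup (Fin 2) F} :
    pk A = pk B ↔ ∃ c : F, c ^ 2 = 1 ∧
      (B : Matrix (Fin 2) (Fin 2) F) = c • (A : Matrix (Fin 2) (Fin 2) F) := by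
  unfold pk
  rw [QuotientGroup.mk'_apply, QuotientGroup.mk'_apply, QuotientGroup.eq,
    Matrix.SpecialLinearGroup.mem_center_iff]
  constructor
  · rintro ⟨c, hc, hc'⟩
    refine ⟨c, by simpa using hc, ?_⟩
    have h1 : B = A * (A⁻¹ * B) := by group
    have h2 : (B : Matrix (Fin 2) (Fin 2) F) =
        (A : Matrix (Fin 2) (Fin 2) F) * ((A⁻¹ * B : Matrix.SpecialLinearGroup (Fin 2) F) :
          Matrix (Fin 2) (Fin 2) F) := by
      conv_lhs => rw [h1]
      rw [Matrix.SpecialLinearGroup.coe_mul]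
    rw [h2, ← hc', Matrix.scalar_apply]
    rw [← Matrix.smul_one_eq_diagonal, Matrix.mul_smul, mul_one]
  · rintro ⟨c, hc, hc'⟩
    refine ⟨c, by simpa using hc, ?_⟩
    rw [Matrix.SpecialLinearGroup.coe_mul, hc', Matrix.mul_smul,
      ← Matrix.SpecialLinearGroup.coe_mul, inv_mul_cancel, Matrix.SpecialLinearGroup.coe_one,
      Matrix.scalar_apply, Matrix.smul_one_eq_diagonal]

/-- unipotent matrices -/
def uu (b : F) : Matrix.SpecialLinearGroup (Fin 2) F :=
  ⟨!![1, b; 0, 1], by simp [Matrix.det_fin_two]⟩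

theorem uu_val (b : F) : (uu b : Matrix (Fin 2) (Fin 2) F) = !![1, b; 0, 1] := rfl

theorem uu_add (a b : F) : uu (a + b) = uu a * uu b := by
  apply Subtype.ext
  rw [Matrix.SpecialLinearGroup.coe_mul, uu_val, uu_val, uu_val, Matrix.mul_fin_two]
  simp [add_comm]

theorem uu_zero : uu (0 : F) = 1 := by
  apply Subtype.ext
  show (!![1, 0; 0, 1] : Matrix (Fin 2) (Fin 2) F) = 1
  exact Matrix.one_fin_two.symm

/-- diagonal matrices -/
def dd (x : Fˣ) : Matrix.SpecialLinearGroup (Fin 2) F :=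
  ⟨!![(x : F), 0; 0, ((x⁻¹ : Fˣ) : F)], by simp [Matrix.det_fin_two]⟩

theorem dd_val (x : Fˣ) :
    (dd x : Matrix (Fin 2) (Fin 2) F) = !![(x : F), 0; 0, ((x⁻¹ : Fˣ) : F)] := rfl

theorem dd_mul (x y : Fˣ) : dd (x * y) = dd x * dd y := by
  apply Subtype.ext
  rw [Matrix.SpecialLinearGroup.coe_mul, dd_val, dd_val, dd_val, Matrix.mul_fin_two]
  simp [mul_comm]

theorem dd_one : dd (1 : Fˣ) = 1 := by
  apply Subtype.ext
  rw [dd_val]
  simp [Matrix.one_fin_two]

theorem dd_pow (x : Fˣ) (k : ℕ) : dd (x ^ k) = dd x ^ k := by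
  induction k with
  | zero => simp [dd_one]
  | succ k ih => rw [pow_succ, pow_succ, dd_mul, ih]

/-- the homomorphism `b ↦ u(b)` -/
def phi (F : Type*) [Field F] :
    Multiplicative F →* Matrix.ProjectiveSpecialLinearGroup (Fin 2) F where
  toFun b := pk (uu b.toAdd)
  map_one' := by
    show pk (uu (0 : F)) = 1
    rw [uu_zero]; exact map_one _
  map_mul' a b := by
    rw [← pk_mul, ← uu_add]; rfl

theorem phi_apply (b : Multiplicative F) : phi F b = pk (uu b.toAdd) := rfl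

theorem phi_inj : Function.Injective (phi F) := by
  intro a b hab
  rw [phi_apply, phi_apply, pk_eq] at hab
  obtain ⟨c, _, hc⟩ := hab
  rw [uu_val, uu_val] at hc
  have h00 := congrFun (congrFun hc 0) 0
  have h01 := congrFun (congrFun hc 0) 1
  simp at h00 h01
  rw [← h00, one_mul] at h01
  apply Multiplicative.toAdd.injective
  exact h01.symm

/-- conjugating a non-trivial unipotent to a unipotent forces an upper triangular matrix -/
theorem upper {A : Matrix.SpecialLinearGroup (Fin 2) F} {a b c : F} (ha : a ≠ 0)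
    (h : ((A * uu a : Matrix.SpecialLinearGroup (Fin 2) F) : Matrix (Fin 2) (Fin 2) F) =
      c • ((uu b * A : Matrix.SpecialLinearGroup (Fin 2) F) : Matrix (Fin 2) (Fin 2) F)) :
    (A : Matrix (Fin 2) (Fin 2) F) 1 0 = 0 ∧
    a * (A : Matrix (Fin 2) (Fin 2) F) 0 0 = b * (A : Matrix (Fin 2) (Fin 2) F) 1 1 := by
  rw [Matrix.SpecialLinearGroup.coe_mul, Matrix.SpecialLinearGroup.coe_mul, uu_val, uu_val] at h
  have hdet := A.property
  rw [Matrix.det_fin_two] at hdet
  set x := (A : Matrix (Fin 2) (Fin 2) F) 0 0 with hx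
  set y := (A : Matrix (Fin 2) (Fin 2) F) 0 1 with hy
  set z := (A : Matrix (Fin 2) (Fin 2) F) 1 0 with hz
  set w := (A : Matrix (Fin 2) (Fin 2) F) 1 1 with hw
  have hA : (A : Matrix (Fin 2) (Fin 2) F) = !![x, y; z, w] := Matrix.eta_fin_two _
  rw [hA, Matrix.mul_fin_two, Matrix.mul_fin_two] at h
  have h00 := congrFun (congrFun h 0) 0
  have h01 := congrFun (congrFun h 0) 1
  have h10 := congrFun (congrFun h 1) 0
  have h11 := congrFun (congrFun h 1) 1
  simp at h00 h01 h10 h11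
  have hdet' : x * w - y * z = 1 := hdet
  by_cases hc : c = 1
  · subst hc
    rw [one_mul] at h00 h01 h10 h11
    have hz0 : z = 0 := by
      have : z * a = 0 := by linear_combination h11
      rcases mul_eq_zero.1 this with h | h
      · exact h
      · exact absurd h ha
    refine ⟨hz0, ?_⟩
    linear_combination h01
  · exfalso
    have hc' : c - 1 ≠ 0 := sub_ne_zero.2 hc
    have hz0 : z = 0 := by
      have : (c - 1) * z = 0 := by linear_combination -h10
      exact (mul_eq_zero.1 this).resolve_left hc'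
    have hw0 : w = 0 := by
      have : (c - 1) * w = 0 := by
        rw [hz0] at h11
        linear_combination -h11
      exact (mul_eq_zero.1 this).resolve_left hc'
    rw [hz0, hw0] at hdet'
    simp at hdet'

theorem decomp {A : Matrix.SpecialLinearGroup (Fin 2) F}
    (h : (A : Matrix (Fin 2) (Fin 2) F) 1 0 = 0) :
    ∃ (x : Fˣ) (b : F), (x : F) = (A : Matrix (Fin 2) (Fin 2) F) 0 0 ∧
      ((x⁻¹ : Fˣ) : F) = (A : Matrix (Fin 2) (Fin 2) F) 1 1 ∧ A = dd x * uu b := by
  have hdet := A.property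
  rw [Matrix.det_fin_two, h, mul_zero, sub_zero] at hdet
  have hx : (A : Matrix (Fin 2) (Fin 2) F) 0 0 ≠ 0 := left_ne_zero_of_mul_eq_one hdet
  have hw : (A : Matrix (Fin 2) (Fin 2) F) 1 1 = ((A : Matrix (Fin 2) (Fin 2) F) 0 0)⁻¹ :=
    eq_inv_of_mul_eq_one_right hdet
  refine ⟨Units.mk0 _ hx, (A : Matrix (Fin 2) (Fin 2) F) 0 1 /
    (A : Matrix (Fin 2) (Fin 2) F) 0 0, rfl, ?_, ?_⟩
  · rw [hw]; simp
  · apply Subtype.ext
    rw [Matrix.SpecialLinearGroup.coe_mul, dd_val, uu_val, Matrix.mul_fin_two]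
    conv_lhs => rw [Matrix.eta_fin_two (A : Matrix (Fin 2) (Fin 2) F)]
    rw [h, hw]
    simp
    field_simp

theorem dd_conj (x : Fˣ) (b : F) : dd x * uu b * (dd x)⁻¹ = uu ((x : F) ^ 2 * b) := by
  rw [mul_inv_eq_iff_eq_mul]
  apply Subtype.ext
  rw [Matrix.SpecialLinearGroup.coe_mul, Matrix.SpecialLinearGroup.coe_mul, dd_val, uu_val, uu_val,
    Matrix.mul_fin_two, Matrix.mul_fin_two]
  simp
  field_simp

end

theorem unipotent_PSL2 (F : Type*) [Field F] [Fintype F] (p : ℕ) [Fact p.Prime] [CharP F p] :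
    ∃ φ : Multiplicative F →* Matrix.ProjectiveSpecialLinearGroup (Fin 2) F,
      Function.Injective φ ∧ ¬ p ∣ φ.range.index ∧
      (∀ a : F, a ≠ 0 → ∀ g, Commute g (φ (Multiplicative.ofAdd a)) → g ∈ φ.range) ∧
      ∃ (s : F) (σ : Matrix.ProjectiveSpecialLinearGroup (Fin 2) F), s ≠ 0 ∧
        (∀ a : F, σ * φ (Multiplicative.ofAdd a) * σ⁻¹ = φ (Multiplicative.ofAdd (s * a))) ∧
        (∀ g, (∀ a, g * φ a * g⁻¹ ∈ φ.range) →
          ∃ (j : ℕ) (b : Multiplicative F), g = σ ^ j * φ b) := by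
  refine ⟨phi F, phi_inj, ?_, ?_, ?_⟩
  · intro hdvd
    have hq : p ∣ Fintype.card F := by
      have h1 : ((Fintype.card F : ℕ) : F) = 0 := FiniteField.cast_card_eq_zero F
      rwa [CharP.cast_eq_zero_iff F p] at h1
    have h1 : Nat.card (phi F).range = Fintype.card F := by
      rw [← Nat.card_congr (MonoidHom.ofInjective phi_inj).toEquiv, Nat.card_eq_fintype_card]
      exact Fintype.card_multiplicative F
    have h2 := (phi F).range.card_mul_index
    rw [h1] at h2
    have h3 := card_PSL2 F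
    rw [← h2] at h3
    have hcard : 1 < Fintype.card F := Fintype.one_lt_card
    have h4 : (phi F).range.index * Nat.gcd 2 (Fintype.card F - 1) =
        (Fintype.card F - 1) * (Fintype.card F + 1) := by
      apply Nat.eq_of_mul_eq_mul_left (by omega : 0 < Fintype.card F)
      rw [← mul_assoc, h3, mul_assoc]
    have h5 : p ∣ (Fintype.card F - 1) * (Fintype.card F + 1) := by
      rw [← h4]; exact hdvd.mul_right _
    have hp : p.Prime := Fact.out
    have hp1 : ¬ p ∣ 1 := hp.one_lt.ne' ∘ Nat.dvd_one.1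
    rcases (Nat.Prime.dvd_mul hp).1 h5 with h6 | h6
    · apply hp1
      have h7 := Nat.dvd_sub hq h6
      have h8 : Fintype.card F - (Fintype.card F - 1) = 1 := by omega
      rwa [h8] at h7
    · apply hp1
      have h7 := Nat.dvd_sub h6 hq
      have h8 : Fintype.card F + 1 - Fintype.card F = 1 := by omega
      rwa [h8] at h7
  · intro a ha g hg
    obtain ⟨A, rfl⟩ := pk_surj g
    rw [phi_apply] at hg
    have h1 : pk (uu a * A) = pk (A * uu a) := by
      rw [pk_mul, pk_mul]; exact hg.eq.symm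
    obtain ⟨c, _, hc⟩ := pk_eq.1 h1
    obtain ⟨h2, h3⟩ := upper ha hc
    obtain ⟨x, b, hx, hx', hA⟩ := decomp h2
    have h4 : (x : F) = ((x⁻¹ : Fˣ) : F) := by
      rw [hx, hx']
      exact mul_left_cancel₀ ha h3
    have h5 : (x : F) ^ 2 = 1 := by
      rw [pow_two]
      nth_rewrite 2 [h4]
      exact x.mul_inv
    refine ⟨Multiplicative.ofAdd b, ?_⟩
    rw [phi_apply, hA]
    apply pk_eq.2
    refine ⟨x, h5, ?_⟩
    rw [Matrix.SpecialLinearGroup.coe_mul, dd_val, ← h4]
    have h6 : (!![(x : F), 0; 0, (x : F)] : Matrix (Fin 2) (Fin 2) F) = (x : F) • 1 := by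
      rw [Matrix.one_fin_two]; simp
    rw [h6, Matrix.smul_mul, one_mul]
    rfl
  · obtain ⟨a0, ha0⟩ := IsCyclic.exists_generator (α := Fˣ)
    refine ⟨(a0 : F) ^ 2, pk (dd a0), pow_ne_zero _ a0.ne_zero, ?_, ?_⟩
    · intro a
      rw [phi_apply, phi_apply, ← pk_inv, ← pk_mul, ← pk_mul]
      show pk (dd a0 * uu a * (dd a0)⁻¹) = pk (uu ((a0 : F) ^ 2 * a))
      rw [dd_conj]
    · intro g hg
      obtain ⟨A, rfl⟩ := pk_surj g
      obtain ⟨b', hb'⟩ := hg (Multiplicative.ofAdd 1)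
      rw [phi_apply, phi_apply] at hb'
      have h1 : pk (uu b'.toAdd * A) = pk (A * uu 1) := by
        rw [pk_mul, pk_mul, hb']
        show pk A * pk (uu 1) * (pk A)⁻¹ * pk A = _
        group
      obtain ⟨c, _, hc⟩ := pk_eq.1 h1
      obtain ⟨h2, _⟩ := upper one_ne_zero hc
      obtain ⟨x, b, _, _, hA⟩ := decomp h2
      obtain ⟨k, hk⟩ := (IsOfFinOrder.mem_powers_iff_mem_zpowers (isOfFinOrder_of_finite a0)).2
        (ha0 x)
      refine ⟨k, Multiplicative.ofAdd b, ?_⟩
      have hk' : a0 ^ k = x := hk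
      rw [phi_apply, ← pk_pow, ← dd_pow, hk', ← pk_mul, hA]
      rfl

end Pool.Agent.Helper495_SP
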