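import Mathlib
set_option autoImplicit false

namespace Pool.Agent.Helper495_SP
open scoped Classical

open Polynomial in
theorem opsl_dvd {F : Type*} [Field F] (A : Matrix (Fin 2) (Fin 2) F) (hdet : A.det = 1)
    (n : ℕ) (ε : F) (h : (X ^ 2 - C A.trace * X + C 1 : F[X]) ∣ X ^ n - C ε) :
    A ^ n = ε • (1 : Matrix (Fin 2) (Fin 2) F) := by
  have h1 : aeval A (X ^ 2 - C A.trace * X + C 1 : F[X]) = 0 := by
    have := Matrix.aeval_self_charpoly A
    rw [Matrix.charpoly_fin_two, hdet] at this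
    exact this
  obtain ⟨g, hg⟩ := h
  have h2 : aeval A (X ^ n - C ε : F[X]) = 0 := by
    rw [hg, map_mul, h1, zero_mul]
  rw [map_sub, map_pow, aeval_X, aeval_C, sub_eq_zero] at h2
  rw [h2, Algebra.algebraMap_eq_smul_one]

theorem opsl_key {F : Type*} [Field F] (A : Matrix.SpecialLinearGroup (Fin 2) F) (n : ℕ) (ε : F)
    (_ : ε ^ 2 = 1) (h : A.1 ^ n = ε • (1 : Matrix (Fin 2) (Fin 2) F)) :
    ((A : Matrix.ProjectiveSpecialLinearGroup (Fin 2) F)) ^ n = 1 := by
  have h1 : A ^ n ∈ Subgroup.center (Matrix.SpecialLinearGroup (Fin 2) F) := by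
    rw [Subgroup.mem_center_iff]
    intro B
    apply Subtype.ext
    show B.1 * (A ^ n).1 = (A ^ n).1 * B.1
    have h2 : (A ^ n).1 = A.1 ^ n := by simp
    rw [h2, h]
    simp
  have h3 : ((A ^ n : Matrix.SpecialLinearGroup (Fin 2) F) :
      Matrix.ProjectiveSpecialLinearGroup (Fin 2) F) = 1 := (QuotientGroup.eq_one_iff _).2 h1
  rw [← h3]
  rfl

open Polynomial in
theorem opsl_split {F : Type*} [Field F] [Fintype F] (t c : F) (hc : c ^ 2 - t * c + 1 = 0)
    (hne : c ≠ t - c) (e : ℕ) (he : (Fintype.card F - 1) ∣ 2 * e) :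
    ∃ ε : F, ε ^ 2 = 1 ∧ (X ^ 2 - C t * X + C 1 : F[X]) ∣ X ^ e - C ε := by
  have hc0 : c ≠ 0 := by
    rintro rfl
    simp at hc
  have hcc : c * (t - c) = 1 := by linear_combination -hc
  have hfac : (X ^ 2 - C t * X + C 1 : F[X]) = (X - C c) * (X - C (t - c)) := by
    have h1 : (C (1 : F)) = C c * C (t - c) := by rw [← C_mul, hcc]
    rw [h1, C_sub]
    ring
  have h1 : c ^ (Fintype.card F - 1) = 1 := FiniteField.pow_card_sub_one_eq_one c hc0
  have h2 : (c ^ e) ^ 2 = 1 := by
    obtain ⟨k, hk⟩ := he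
    rw [← pow_mul, mul_comm e 2, hk, pow_mul, h1, one_pow]
  refine ⟨c ^ e, h2, ?_⟩
  have h3 : (t - c) ^ e = c ^ e := by
    have h4 : c ^ e * (t - c) ^ e = 1 := by rw [← mul_pow, hcc, one_pow]
    have h5 : c ^ e * (c ^ e) = 1 := by rw [← sq]; exact h2
    have h6 : c ^ e ≠ 0 := pow_ne_zero _ hc0
    exact mul_left_cancel₀ h6 (h4.trans h5.symm)
  rw [hfac]
  refine IsCoprime.mul_dvd ?_ ?_ ?_
  · exact isCoprime_X_sub_C_of_isUnit_sub (sub_ne_zero.2 hne).isUnit
  · rw [dvd_iff_isRoot]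
    simp
  · rw [dvd_iff_isRoot]
    simp [h3]

open Polynomial in
theorem opsl_irr {F : Type*} [Field F] [Fintype F] (t : F)
    (hroot : ∀ c : F, c ^ 2 - t * c + 1 ≠ 0) (e : ℕ) (he : (Fintype.card F + 1) ∣ 2 * e) :
    ∃ ε : F, ε ^ 2 = 1 ∧ (X ^ 2 - C t * X + C 1 : F[X]) ∣ X ^ e - C ε := by
  set χ : F[X] := X ^ 2 - C t * X + C 1 with hχ
  have hdeg : χ.natDegree = 2 := by
    rw [hχ]
    compute_degree!
  have hirr : Irreducible χ := by
    rw [irreducible_iff_roots_eq_zero_of_degree_le_three (by omega) (by omega)]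
    rw [Multiset.eq_zero_iff_forall_notMem]
    intro c hc
    have := (mem_roots'.1 hc).2
    apply hroot c
    simpa [hχ, IsRoot] using this
  have : Fact (Irreducible χ) := ⟨hirr⟩
  let K := AdjoinRoot χ
  let c : K := AdjoinRoot.root χ
  let φ : F →+* K := AdjoinRoot.of χ
  have hφ : Function.Injective φ := φ.injective
  have hc : c ^ 2 - φ t * c + 1 = 0 := by
    have := AdjoinRoot.eval₂_root χ
    simpa [hχ] using this
  have hcc : c * (φ t - c) = 1 := by linear_combination -hc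
  have hc0 : c ≠ 0 := by
    intro h
    rw [h] at hcc
    simp at hcc
  -- the Frobenius
  obtain ⟨p, hp⟩ := CharP.exists F
  have := hp
  have hpp : Fact p.Prime := ⟨CharP.char_is_prime F p⟩
  obtain ⟨⟨m, hm0⟩, -, hm⟩ := FiniteField.card F p
  simp only [PNat.mk_coe] at hm
  have : CharP K p := charP_of_injective_ringHom hφ p
  set q := Fintype.card F with hq
  have hfrob : c ^ q = c ∨ c ^ q = φ t - c := by
    have h1 : (c ^ q) ^ 2 - φ t * c ^ q + 1 = 0 := by
      have h2 : (c ^ 2 - φ t * c + 1) ^ q = (c ^ q) ^ 2 - φ t * c ^ q + 1 := by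
        rw [hm, add_pow_char_pow, sub_pow_char_pow, ← hm, one_pow, mul_pow, ← map_pow,
          FiniteField.pow_card, ← pow_mul, ← pow_mul, mul_comm 2]
      rw [← h2, hc, zero_pow]
      rw [hm]
      exact (pow_pos hpp.1.pos _).ne'
    have h3 : (c ^ q - c) * (c ^ q - (φ t - c)) = 0 := by
      linear_combination h1 - hc
    rcases mul_eq_zero.1 h3 with h | h
    · left; exact sub_eq_zero.1 h
    · right; exact sub_eq_zero.1 h
  have hnot : c ^ q ≠ c := by
    intro h
    -- the roots of X^q - X in K are the images of the elements of F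
    have hq1 : 1 < q := Fintype.one_lt_card
    have hne : (X ^ q - X : K[X]) ≠ 0 := FiniteField.X_pow_card_sub_X_ne_zero K hq1
    have h1 : (Finset.univ.image φ : Finset K) ⊆ (X ^ q - X : K[X]).roots.toFinset := by
      intro x hx
      obtain ⟨a, -, rfl⟩ := Finset.mem_image.1 hx
      rw [Multiset.mem_toFinset, mem_roots hne]
      simp [IsRoot, ← map_pow, hq, FiniteField.pow_card]
    have h2 : (X ^ q - X : K[X]).roots.toFinset.card ≤ q := by
      refine (Multiset.toFinset_card_le _).trans ?_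
      refine (card_roots' _).trans ?_
      exact (FiniteField.X_pow_card_sub_X_natDegree_eq K hq1).le
    have h3 : (Finset.univ.image φ : Finset K).card = q := by
      rw [Finset.card_image_of_injective _ hφ, Finset.card_univ]
    have h4 := Finset.eq_of_subset_of_card_le h1 (by rw [h3]; exact h2)
    have h5 : c ∈ (X ^ q - X : K[X]).roots.toFinset := by
      rw [Multiset.mem_toFinset, mem_roots hne]
      simp [IsRoot, h]
    rw [← h4] at h5
    obtain ⟨a, -, ha⟩ := Finset.mem_image.1 h5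
    apply hroot a
    apply hφ
    rw [map_add, map_sub, map_mul, map_pow, ha, map_one, map_zero]
    exact hc
  have hcq : c ^ (q + 1) = 1 := by
    rw [pow_succ, hfrob.resolve_left hnot, mul_comm]
    exact hcc
  have h2 : (c ^ e) ^ 2 = 1 := by
    obtain ⟨k, hk⟩ := he
    rw [← pow_mul, mul_comm e 2, hk, pow_mul, hcq, one_pow]
  have h3 : ∃ ε : F, ε ^ 2 = 1 ∧ c ^ e = φ ε := by
    have h5 : (c ^ e - 1) * (c ^ e + 1) = 0 := by linear_combination h2
    rcases mul_eq_zero.1 h5 with h | h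
    · exact ⟨1, by simp, by rw [map_one]; exact sub_eq_zero.1 h⟩
    · exact ⟨-1, by simp, by rw [map_neg, map_one]; exact eq_neg_of_add_eq_zero_left h⟩
  obtain ⟨ε, hε, h4⟩ := h3
  refine ⟨ε, hε, ?_⟩
  rw [← AdjoinRoot.mk_eq_zero, map_sub, map_pow, AdjoinRoot.mk_X, AdjoinRoot.mk_C, sub_eq_zero]
  exact h4

theorem order_PSL2 (F : Type*) [Field F] [Fintype F] (p : ℕ) [Fact p.Prime] [CharP F p]
    (g : Matrix.ProjectiveSpecialLinearGroup (Fin 2) F) :
    g ^ p = 1 ∨ g ^ ((Fintype.card F - 1) / Nat.gcd 2 (Fintype.card F - 1)) = 1 ∨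
      g ^ ((Fintype.card F + 1) / Nat.gcd 2 (Fintype.card F - 1)) = 1 := by
  obtain ⟨A, rfl⟩ := QuotientGroup.mk_surjective g
  have hdet : A.1.det = 1 := A.2
  have hq1 : 1 < Fintype.card F := Fintype.one_lt_card
  set q := Fintype.card F with hq
  set d := Nat.gcd 2 (q - 1) with hd
  have hd2 : d ∣ 2 := Nat.gcd_dvd_left _ _
  have hd1 : d ∣ q - 1 := Nat.gcd_dvd_right _ _
  have hd3 : d ∣ q + 1 := by
    have : q + 1 = (q - 1) + 2 := by omega
    rw [this]
    exact dvd_add hd1 hd2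
  have hdv : ∀ m, d ∣ m → m ∣ 2 * (m / d) := by
    intro m hm
    obtain ⟨k, hk⟩ := hd2
    refine ⟨k, ?_⟩
    have h1 : d * (m / d) = m := Nat.mul_div_cancel' hm
    calc 2 * (m / d) = d * (m / d) * k := by rw [hk]; ring
      _ = m * k := by rw [h1]
  by_cases hroot : ∃ c : F, c ^ 2 - A.1.trace * c + 1 = 0
  · obtain ⟨c, hc⟩ := hroot
    by_cases hne : c = A.1.trace - c
    · left
      have hc1 : c ^ 2 = 1 := by
        have : c * (A.1.trace - c) = 1 := by linear_combination -hc
        rw [← hne] at this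
        rw [sq]
        exact this
      have ht : A.1.trace = 2 * c := by linear_combination -hne
      have h1 : (A.1 - c • (1 : Matrix (Fin 2) (Fin 2) F)) ^ 2 = 0 := by
        have h2 := Matrix.aeval_self_charpoly A.1
        rw [Matrix.charpoly_fin_two, hdet, ht] at h2
        simp only [map_add, map_sub, map_mul, map_pow, Polynomial.aeval_X, Polynomial.aeval_C,
          Algebra.algebraMap_eq_smul_one] at h2
        have h3 : (A.1 - c • (1 : Matrix (Fin 2) (Fin 2) F)) ^ 2 =
            A.1 ^ 2 - ((2 : F) * c) • A.1 + (c ^ 2) • (1 : Matrix (Fin 2) (Fin 2) F) := by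
          rw [sq, sub_mul, mul_sub, mul_sub]
          simp only [Matrix.smul_mul, Matrix.mul_smul, one_mul, mul_one, smul_smul]
          rw [sq, sq]
          module
        rw [h3, hc1]
        have h6 : ((2 : F) * c) • A.1 = ((2 : F) • (1 : Matrix (Fin 2) (Fin 2) F) *
            c • (1 : Matrix (Fin 2) (Fin 2) F)) * A.1 := by
          simp only [Matrix.smul_mul, Matrix.mul_smul, one_mul, mul_one, smul_smul]
          rw [mul_comm]
        rw [← h2, h6]
      have hp2 : 2 ≤ p := (Fact.out : p.Prime).two_le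
      have h4 : (A.1 - c • (1 : Matrix (Fin 2) (Fin 2) F)) ^ p = 0 := by
        obtain ⟨k, hk⟩ := Nat.exists_eq_add_of_le hp2
        rw [hk, pow_add, h1, zero_mul]
      have h5 : A.1 ^ p = (c ^ p) • (1 : Matrix (Fin 2) (Fin 2) F) := by
        have hcomm : Commute A.1 (c • (1 : Matrix (Fin 2) (Fin 2) F)) := by
          rw [commute_iff_eq]
          simp
        rw [sub_pow_char_of_commute p hcomm, sub_eq_zero] at h4
        rw [h4, smul_pow, one_pow]
      exact opsl_key A p (c ^ p) (by rw [← pow_mul, mul_comm, pow_mul, hc1, one_pow]) h5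
    · right; left
      obtain ⟨ε, h1, h2⟩ := opsl_split A.1.trace c hc hne ((q - 1) / d) (hdv _ hd1)
      exact opsl_key A _ ε h1 (opsl_dvd A.1 hdet _ ε h2)
  · right; right
    push Not at hroot
    obtain ⟨ε, h1, h2⟩ := opsl_irr A.1.trace hroot ((q + 1) / d) (hdv _ hd3)
    exact opsl_key A _ ε h1 (opsl_dvd A.1 hdet _ ε h2)

end Pool.Agent.Helper495_SP
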