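import Mathlib
set_option autoImplicit false
namespace Pool.Agent.Helper495_SP
open scoped Classical

/-- diagonal matrices -/
def ddS {F : Type*} [Field F] (x : Fˣ) : Matrix.SpecialLinearGroup (Fin 2) F :=
  ⟨!![(x : F), 0; 0, ((x⁻¹ : Fˣ) : F)], by simp [Matrix.det_fin_two]⟩

theorem ddS_val {F : Type*} [Field F] (x : Fˣ) :
    (ddS x : Matrix (Fin 2) (Fin 2) F) = !![(x : F), 0; 0, ((x⁻¹ : Fˣ) : F)] := rfl

theorem ddS_mul {F : Type*} [Field F] (x y : Fˣ) : ddS (x * y) = ddS x * ddS y := by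
  apply Subtype.ext
  rw [Matrix.SpecialLinearGroup.coe_mul, ddS_val, ddS_val, ddS_val, Matrix.mul_fin_two]
  simp [mul_comm]

theorem ddS_one {F : Type*} [Field F] : ddS (1 : Fˣ) = 1 := by
  apply Subtype.ext
  rw [ddS_val]
  simp [Matrix.one_fin_two]

theorem ddS_pow {F : Type*} [Field F] (x : Fˣ) (k : ℕ) : ddS (x ^ k) = ddS x ^ k := by
  induction k with
  | zero => simp [ddS_one]
  | succ k ih => rw [pow_succ, pow_succ, ddS_mul, ih]

theorem ddS_center {F : Type*} [Field F] (x : Fˣ) :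
    ddS x ∈ Subgroup.center (Matrix.SpecialLinearGroup (Fin 2) F) ↔ x ^ 2 = 1 := by
  rw [Matrix.SpecialLinearGroup.mem_center_iff]
  constructor
  · rintro ⟨r, _, hr⟩
    rw [ddS_val, Matrix.scalar_apply] at hr
    have h0 := congrFun (congrFun hr 0) 0
    have h1 := congrFun (congrFun hr 1) 1
    simp at h0 h1
    have h2 : x = x⁻¹ := by
      apply Units.ext
      rw [← h0, h1, Units.val_inv_eq_inv_val]
    rw [pow_two]
    nth_rewrite 2 [h2]
    exact mul_inv_cancel x
  · intro h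
    have h2 : x⁻¹ = x := by
      rw [inv_eq_iff_mul_eq_one, ← pow_two]; exact h
    refine ⟨x, ?_, ?_⟩
    · rw [Fintype.card_fin, ← Units.val_pow_eq_pow_val, h, Units.val_one]
    · rw [ddS_val, h2, Matrix.scalar_apply]
      ext i j
      fin_cases i <;> fin_cases j <;> simp

theorem nat_dvd_two_mul (m j : ℕ) (hm : 0 < m) : m ∣ 2 * j ↔ m / Nat.gcd 2 m ∣ j := by
  set d := Nat.gcd 2 m with hd
  have hd0 : 0 < d := Nat.gcd_pos_of_pos_left _ (by norm_num)
  obtain ⟨e, he⟩ : d ∣ 2 := Nat.gcd_dvd_left 2 m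
  obtain ⟨m', hm'⟩ : d ∣ m := Nat.gcd_dvd_right 2 m
  have hdiv : m / d = m' := by
    rw [hm']; exact Nat.mul_div_cancel_left _ hd0
  have hcop : Nat.Coprime m' e := by
    have h1 := Nat.coprime_div_gcd_div_gcd (m := 2) (n := m) hd0
    rw [← hd] at h1
    have h2 : 2 / d = e := by
      nth_rewrite 1 [he]; exact Nat.mul_div_cancel_left _ hd0
    rw [h2, hdiv] at h1
    exact h1.symm
  rw [hdiv]
  constructor
  · intro h
    have h3 : d * m' ∣ d * (e * j) := by
      rw [← hm', ← mul_assoc, ← he]; exact h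
    exact hcop.dvd_of_dvd_mul_left (Nat.dvd_of_mul_dvd_mul_left hd0 h3)
  · intro h
    have h3 : d * m' ∣ d * (e * j) := Nat.mul_dvd_mul_left d (h.mul_left e)
    rw [← hm', ← mul_assoc, ← he] at h3
    exact h3

theorem exists_split_PSL2 (F : Type*) [Field F] [Fintype F] :
    ∃ g : Matrix.ProjectiveSpecialLinearGroup (Fin 2) F,
      orderOf g = (Fintype.card F - 1) / Nat.gcd 2 (Fintype.card F - 1) := by
  obtain ⟨a, ha⟩ := IsCyclic.exists_generator (α := Fˣ)
  have hord : orderOf a = Fintype.card F - 1 := by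
    rw [orderOf_eq_card_of_forall_mem_zpowers ha, Nat.card_eq_fintype_card, Fintype.card_units]
  have hcard : 1 < Fintype.card F := Fintype.one_lt_card
  refine ⟨QuotientGroup.mk' (Subgroup.center (Matrix.SpecialLinearGroup (Fin 2) F)) (ddS a), ?_⟩
  have key : ∀ j : ℕ,
      (QuotientGroup.mk' (Subgroup.center (Matrix.SpecialLinearGroup (Fin 2) F)) (ddS a)) ^ j = 1 ↔
        (Fintype.card F - 1) / Nat.gcd 2 (Fintype.card F - 1) ∣ j := by
    intro j
    rw [← map_pow, ← ddS_pow, ← nat_dvd_two_mul _ _ (by omega), ← hord, orderOf_dvd_iff_pow_eq_one]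
    rw [QuotientGroup.mk'_apply, QuotientGroup.eq_one_iff, ddS_center, ← pow_mul, mul_comm j 2]
  apply Nat.dvd_antisymm
  · exact orderOf_dvd_of_pow_eq_one ((key _).2 dvd_rfl)
  · exact (key _).1 (pow_orderOf_eq_one _)

end Pool.Agent.Helper495_SP
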