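import Mathlib
set_option autoImplicit false
namespace Pool.Agent.Helper495_SP
open scoped Classical

theorem exists_nonsplit_PSL2 (F : Type*) [Field F] [Fintype F] :
    ∃ g : Matrix.ProjectiveSpecialLinearGroup (Fin 2) F,
      orderOf g = (Fintype.card F + 1) / Nat.gcd 2 (Fintype.card F - 1) := by
  let p := ringChar F
  have : Fact p.Prime := ⟨CharP.char_is_prime F p⟩
  let K := FiniteField.Extension F p 2
  have hfr : Module.finrank F K = 2 := FiniteField.finrank_extension F p 2
  have hcard : Nat.card K = Nat.card F ^ 2 := FiniteField.natCard_extension F p 2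
  set q := Fintype.card F with hq
  have hqF : Nat.card F = q := Nat.card_eq_fintype_card
  have hq2 : 2 ≤ q := Fintype.one_lt_card
  have : Finite K := inferInstance
  obtain ⟨z, hz⟩ := IsCyclic.exists_ofOrder_eq_natCard (α := Kˣ)
  have hKu : Nat.card Kˣ = (q + 1) * (q - 1) := by
    rw [Nat.card_units, hcard, hqF]
    have : q ^ 2 - 1 ^ 2 = (q + 1) * (q - 1) := Nat.sq_sub_sq q 1
    simpa using this
  let c : Kˣ := z ^ (q - 1)
  have hc : orderOf c = q + 1 := by
    rw [orderOf_pow, hz, hKu, Nat.gcd_eq_right (Dvd.intro_left _ rfl)]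
    exact Nat.mul_div_cancel _ (by omega)
  have hcn : Algebra.norm F (c : K) = 1 := by
    apply (algebraMap F K).injective
    rw [FiniteField.algebraMap_norm_eq_pow, map_one, hcard, hqF]
    have h1 : (q ^ 2 - 1) / (q - 1) = q + 1 := by
      have : q ^ 2 - 1 ^ 2 = (q + 1) * (q - 1) := Nat.sq_sub_sq q 1
      rw [one_pow] at this
      rw [this]
      exact Nat.mul_div_cancel _ (by omega)
    rw [h1, ← hc, ← Units.val_pow_eq_pow_val, pow_orderOf_eq_one, Units.val_one]
  let b : Module.Basis (Fin 2) F K := Module.finBasisOfFinrankEq F K hfr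
  let A : Matrix.SpecialLinearGroup (Fin 2) F :=
    ⟨Algebra.leftMulMatrix b (c : K), by rw [← Algebra.norm_eq_matrix_det, hcn]⟩
  have hA : ∀ j : ℕ, ((A ^ j : Matrix.SpecialLinearGroup (Fin 2) F) :
      Matrix (Fin 2) (Fin 2) F) = Algebra.leftMulMatrix b ((c : K) ^ j) := by
    intro j
    rw [Matrix.SpecialLinearGroup.coe_pow, map_pow]
  refine ⟨QuotientGroup.mk A, ?_⟩
  have h1 : orderOf (QuotientGroup.mk A : Matrix.ProjectiveSpecialLinearGroup (Fin 2) F) =
      orderOf (c ^ 2) := by
    rw [orderOf_eq_orderOf_iff]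
    intro j
    rw [← QuotientGroup.mk_pow, QuotientGroup.eq_one_iff, Matrix.SpecialLinearGroup.mem_center_iff,
      hA]
    have hsc : ∀ r : F, Matrix.scalar (Fin 2) r = Algebra.leftMulMatrix b (algebraMap F K r) := by
      intro r
      rw [AlgHom.commutes]
      rfl
    have hinj := Algebra.leftMulMatrix_injective b
    constructor
    · rintro ⟨r, hr, h⟩
      rw [hsc] at h
      have h2 := hinj h
      rw [Fintype.card_fin] at hr
      rw [← pow_mul, mul_comm, pow_mul, Units.ext_iff]
      push_cast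
      rw [← h2, ← map_pow, hr, map_one]
    · intro h
      rw [← pow_mul, mul_comm, pow_mul, Units.ext_iff] at h
      push_cast at h
      rcases mul_self_eq_one_iff.1 ((sq _).symm.trans h) with h2 | h2
      · exact ⟨1, by simp, by rw [hsc, h2, map_one]⟩
      · exact ⟨-1, by simp, by rw [hsc, h2, map_neg, map_one]⟩
  rw [h1, orderOf_pow, hc]
  congr 1
  have h2 : q + 1 = (q - 1) + 2 := by omega
  rw [h2, Nat.gcd_comm, Nat.gcd_add_self_right]

end Pool.Agent.Helper495_SP
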