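import Mathlib
import Pool.Agent.Helper495_SP.P2
import Pool.Agent.Helper495_SP.P3a
import Pool.Agent.Helper495_SP.P3b
set_option autoImplicit false
namespace Pool.Agent.Helper495_SP
open scoped Classical

/-- helper: `n` divides `T` when every prime power of `n` divides `p`, `T` or `T'`, etc. -/
theorem dvd_aux {n T T' p : ℕ} (hp : p.Prime) (hco : Nat.Coprime T T') (hpn : ¬ p ∣ n)
    (hA : ∀ (r a : ℕ), r.Prime → r ^ a ∣ n → r ^ a ∣ p ∨ r ^ a ∣ T ∨ r ^ a ∣ T')
    (hB : ∀ (r s : ℕ), r.Prime → s.Prime → r ≠ s → r * s ∣ n →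
      r * s ∣ p ∨ r * s ∣ T ∨ r * s ∣ T')
    {r0 : ℕ} (hr0 : r0.Prime) (hr0n : r0 ∣ n) (hr0T : r0 ∣ T) : n ∣ T := by
  have nop : ∀ r : ℕ, r.Prime → r ∣ n → ¬ r ∣ p := by
    intro r hr hrn hrp
    have := (Nat.prime_dvd_prime_iff_eq hr hp).1 hrp
    exact hpn (this ▸ hrn)
  have noboth : ∀ r : ℕ, r.Prime → r ∣ T → ¬ r ∣ T' := by
    intro r hr h1 h2
    exact hr.one_lt.ne' (Nat.eq_one_of_dvd_coprimes hco h1 h2)
  have hall : ∀ s : ℕ, s.Prime → s ∣ n → s ∣ T := by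
    intro s hs hsn
    by_cases h : r0 = s
    · exact h ▸ hr0T
    have hmul : r0 * s ∣ n := (Nat.coprime_primes hr0 hs).2 h |>.mul_dvd_of_dvd_of_dvd hr0n hsn
    rcases hB r0 s hr0 hs h hmul with h1 | h1 | h1
    · exact absurd ((dvd_mul_right r0 s).trans h1) (nop r0 hr0 hr0n)
    · exact (dvd_mul_left s r0).trans h1
    · exact absurd ((dvd_mul_right r0 s).trans h1) (noboth r0 hr0 hr0T)
  refine (Nat.dvd_iff_prime_pow_dvd_dvd T n).2 ?_
  intro s a hs hsa
  rcases Nat.eq_zero_or_pos a with rfl | ha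
  · simp
  have hsn : s ∣ n := (dvd_pow_self s ha.ne').trans hsa
  rcases hA s a hs hsa with h1 | h1 | h1
  · exact absurd ((dvd_pow_self s ha.ne').trans h1) (nop s hs hsn)
  · exact h1
  · exact absurd ((dvd_pow_self s ha.ne').trans h1) (noboth s hs (hall s hs hsn))

theorem order_of_dvd {G : Type*} [Group G] {T n : ℕ} (hT : 0 < T) (hn : n ∣ T) (g : G)
    (hg : orderOf g = T) : ∃ h : G, orderOf h = n := by
  refine ⟨g ^ (T / n), ?_⟩
  have hn0 : 0 < n := Nat.pos_of_dvd_of_pos hn hT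
  have h1 : T / n ≠ 0 := (Nat.div_pos (Nat.le_of_dvd hT hn) hn0).ne'
  rw [orderOf_pow_of_dvd h1 (by rw [hg]; exact Nat.div_dvd_of_dvd hn), hg,
    Nat.div_div_self hn hT.ne']

theorem spec_PSL2 (F : Type*) [Field F] [Fintype F] (p : ℕ) [Fact p.Prime] [CharP F p]
    (n : ℕ) (hn : 0 < n)
    (hA : ∀ (r a : ℕ), r.Prime → r ^ a ∣ n →
      ∃ g : Matrix.ProjectiveSpecialLinearGroup (Fin 2) F, orderOf g = r ^ a)
    (hB : ∀ (r s : ℕ), r.Prime → s.Prime → r ≠ s → r * s ∣ n →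
      ∃ g : Matrix.ProjectiveSpecialLinearGroup (Fin 2) F, orderOf g = r * s) :
    ∃ g : Matrix.ProjectiveSpecialLinearGroup (Fin 2) F, orderOf g = n := by
  have hp : p.Prime := Fact.out
  set q : ℕ := Fintype.card F with hq
  set d : ℕ := Nat.gcd 2 (q - 1) with hd
  have hq2 : 2 ≤ q := Fintype.one_lt_card
  have hpq : p ∣ q := by
    obtain ⟨k, hk, hk2⟩ := FiniteField.card F p
    rw [hq, hk2]
    exact dvd_pow_self p k.pos.ne'
  have hd1 : d ∣ q - 1 := Nat.gcd_dvd_right _ _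
  have hd2 : d ∣ 2 := Nat.gcd_dvd_left _ _
  have hd3 : d ∣ q + 1 := by
    have : q + 1 = (q - 1) + 2 := by omega
    rw [this]
    exact Nat.dvd_add hd1 hd2
  have hd0 : 0 < d := Nat.pos_of_dvd_of_pos hd2 (by norm_num)
  have hT1 : 0 < (q - 1) / d := Nat.div_pos (Nat.le_of_dvd (by omega) hd1) hd0
  have hT2 : 0 < (q + 1) / d := Nat.div_pos (Nat.le_of_dvd (by omega) hd3) hd0
  have hT1d : (q - 1) / d ∣ q - 1 := Nat.div_dvd_of_dvd hd1
  have hT2d : (q + 1) / d ∣ q + 1 := Nat.div_dvd_of_dvd hd3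
  have hp1 : ¬ p ∣ (q - 1) / d := by
    intro h
    have h1 : p ∣ q - 1 := h.trans hT1d
    have h2 : p ∣ q - (q - 1) := Nat.dvd_sub hpq h1
    have h3 : q - (q - 1) = 1 := by omega
    rw [h3] at h2
    exact hp.one_lt.ne' (Nat.dvd_one.1 h2)
  have hp2 : ¬ p ∣ (q + 1) / d := by
    intro h
    have h1 : p ∣ q + 1 := h.trans hT2d
    have h2 : p ∣ 1 := (Nat.dvd_add_right hpq).1 h1
    exact hp.one_lt.ne' (Nat.dvd_one.1 h2)
  have hco : Nat.Coprime ((q - 1) / d) ((q + 1) / d) := by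
    have hdd : d = 1 ∨ d = 2 := (Nat.dvd_prime Nat.prime_two).1 hd2
    rcases hdd with h | h
    · rw [h, Nat.div_one, Nat.div_one]
      have h1 : q + 1 = (q - 1) + 2 := by omega
      rw [h1, Nat.coprime_self_add_right]
      rw [h] at hd
      exact (Nat.coprime_comm.1 (show Nat.Coprime 2 (q - 1) from hd.symm))
    · rw [h]
      have h1 : 2 ∣ q - 1 := h ▸ hd1
      obtain ⟨m, hm⟩ := h1
      have h2 : q + 1 = 2 * (m + 1) := by omega
      rw [hm, h2, Nat.mul_div_cancel_left _ (by norm_num), Nat.mul_div_cancel_left _ (by norm_num)]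
      simp
  have hord : ∀ g : Matrix.ProjectiveSpecialLinearGroup (Fin 2) F,
      orderOf g ∣ p ∨ orderOf g ∣ (q - 1) / d ∨ orderOf g ∣ (q + 1) / d := by
    intro g
    rcases order_PSL2 F p g with h | h | h
    · left; exact orderOf_dvd_of_pow_eq_one h
    · right; left; exact orderOf_dvd_of_pow_eq_one h
    · right; right; exact orderOf_dvd_of_pow_eq_one h
  have hA' : ∀ (r a : ℕ), r.Prime → r ^ a ∣ n →
      r ^ a ∣ p ∨ r ^ a ∣ (q - 1) / d ∨ r ^ a ∣ (q + 1) / d := by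
    intro r a hr h
    obtain ⟨g, hg⟩ := hA r a hr h
    rw [← hg]
    exact hord g
  have hB' : ∀ (r s : ℕ), r.Prime → s.Prime → r ≠ s → r * s ∣ n →
      r * s ∣ p ∨ r * s ∣ (q - 1) / d ∨ r * s ∣ (q + 1) / d := by
    intro r s hr hs hne h
    obtain ⟨g, hg⟩ := hB r s hr hs hne h
    rw [← hg]
    exact hord g
  by_cases hpn : p ∣ n
  · have huniq : ∀ {r : ℕ}, r.Prime → r ∣ n → r = p := by
      intro r hr hrn
      by_contra hne
      have hmul : p * r ∣ n :=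
        ((Nat.coprime_primes hp hr).2 (Ne.symm hne)).mul_dvd_of_dvd_of_dvd hpn hrn
      rcases hB' p r hp hr (Ne.symm hne) hmul with h1 | h1 | h1
      · have h2 : r ∣ p := (dvd_mul_left r p).trans h1
        exact hne ((Nat.prime_dvd_prime_iff_eq hr hp).1 h2)
      · exact hp1 ((dvd_mul_right p r).trans h1)
      · exact hp2 ((dvd_mul_right p r).trans h1)
    have hnp := Nat.eq_prime_pow_of_unique_prime_dvd hn.ne' huniq
    obtain ⟨g, hg⟩ := hA p _ hp (dvd_of_eq hnp.symm)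
    exact ⟨g, hg.trans hnp.symm⟩
  · rcases eq_or_ne n 1 with rfl | hn1
    · exact ⟨1, orderOf_one⟩
    have hr0 : n.minFac.Prime := Nat.minFac_prime hn1
    have hr0n : n.minFac ∣ n := Nat.minFac_dvd n
    have h0 := hA' n.minFac 1 hr0 (by simpa using hr0n)
    rw [pow_one] at h0
    rcases h0 with h | h | h
    · exact absurd ((Nat.prime_dvd_prime_iff_eq hr0 hp).1 h ▸ hr0n) hpn
    · have h1 : n ∣ (q - 1) / d := dvd_aux hp hco hpn hA' hB' hr0 hr0n h
      obtain ⟨g, hg⟩ := exists_split_PSL2 F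
      exact order_of_dvd hT1 h1 g hg
    · have h1 : n ∣ (q + 1) / d := dvd_aux hp hco.symm hpn
        (fun r a hr hra => (hA' r a hr hra).imp_right Or.symm)
        (fun r s hr hs hne hrs => (hB' r s hr hs hne hrs).imp_right Or.symm) hr0 hr0n h
      obtain ⟨g, hg⟩ := exists_nonsplit_PSL2 F
      exact order_of_dvd hT2 h1 g hg

end Pool.Agent.Helper495_SP

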