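import Mathlib
-- target proved, default heartbeats, axioms propext/choice/Quot.sound
set_option autoImplicit false
namespace Pool.Agent.Helper495_SP
open scoped Classical

/-- in a cyclic group the elements of the same prime order generate the same subgroup -/
theorem mem_zpowers_cyc {P : Type*} [Group P] [Finite P] [IsCyclic P] {s : ℕ} (hs : 0 < s) {x y : P}
    (hx : orderOf x = s) (hy : orderOf y = s) : x ∈ Subgroup.zpowers y := by
  classical
  have := Fintype.ofFinite P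
  have h1 : (Finset.univ.filter fun a : P => a ^ s = 1).card ≤ s := IsCyclic.card_pow_eq_one_le hs
  have h2 : (Finset.univ.filter fun a : P => a ∈ Subgroup.zpowers y) ⊆
      Finset.univ.filter fun a : P => a ^ s = 1 := by
    intro a ha
    rw [Finset.mem_filter] at ha ⊢
    refine ⟨Finset.mem_univ _, ?_⟩
    obtain ⟨k, hk⟩ := Subgroup.mem_zpowers_iff.1 ha.2
    rw [← hk, ← zpow_natCast, ← zpow_mul, mul_comm, zpow_mul, zpow_natCast, ← hy,
      pow_orderOf_eq_one, one_zpow]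
  have h3 : (Finset.univ.filter fun a : P => a ∈ Subgroup.zpowers y).card = s := by
    rw [← hy, ← Nat.card_zpowers, Nat.card_eq_fintype_card, Fintype.card_subtype]
  have h4 := Finset.eq_of_subset_of_card_le h2 (by rw [h3]; exact h1)
  have h5 : x ∈ Finset.univ.filter fun a : P => a ∈ Subgroup.zpowers y := by
    rw [h4, Finset.mem_filter]
    exact ⟨Finset.mem_univ _, by rw [← hx, pow_orderOf_eq_one]⟩
  exact (Finset.mem_filter.1 h5).2

theorem conj_cyc {G : Type*} [Group G] [Finite G] {s : ℕ} (hs : s.Prime)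
    (hcyc : ∀ P : Sylow s G, IsCyclic P) {x y : G} (hx : orderOf x = s) (hy : orderOf y = s) :
    ∃ c : G, x ∈ Subgroup.zpowers (c * y * c⁻¹) := by
  have : Fact s.Prime := ⟨hs⟩
  have h1 : ∀ z : G, orderOf z = s → ∃ P : Sylow s G, z ∈ P := by
    intro z hz
    have h2 : IsPGroup s (Subgroup.zpowers z) :=
      IsPGroup.of_card (n := 1) (by rw [Nat.card_zpowers, hz, pow_one])
    obtain ⟨P, hP⟩ := h2.exists_le_sylow
    exact ⟨P, hP (Subgroup.mem_zpowers z)⟩
  obtain ⟨P, hP⟩ := h1 x hx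
  obtain ⟨Q, hQ⟩ := h1 y hy
  obtain ⟨c, hc⟩ := MulAction.exists_smul_eq G Q P
  refine ⟨c, ?_⟩
  have h3 : c * y * c⁻¹ ∈ P := by
    rw [← hc]
    change c * y * c⁻¹ ∈ ((c • Q : Sylow s G) : Subgroup G)
    rw [Sylow.coe_subgroup_smul]
    exact ⟨y, hQ, by simp⟩
  have := hcyc P
  have e : orderOf (c * y * c⁻¹) = s :=
    (orderOf_injective (MulAut.conj c).toMonoidHom (MulAut.conj c).injective y).trans hy
  have h4 : (⟨x, hP⟩ : P) ∈ Subgroup.zpowers (⟨c * y * c⁻¹, h3⟩ : P) :=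
    mem_zpowers_cyc hs.pos ((Subgroup.orderOf_mk x hP).trans hx)
      ((Subgroup.orderOf_mk _ h3).trans e)
  obtain ⟨k, hk⟩ := Subgroup.mem_zpowers_iff.1 h4
  refine Subgroup.mem_zpowers_iff.2 ⟨k, ?_⟩
  have := congrArg (fun z : P => (z : G)) hk
  simpa using this

theorem conj_pow_cyc {G : Type*} [Group G] [Finite G] {s : ℕ} (hs : s.Prime)
    (hcyc : ∀ P : Sylow s G, IsCyclic P) {x z : G} (hx : orderOf x = s) {k : ℕ}
    (hz : orderOf (z ^ k) = s) : ∃ z' : G, orderOf z' = orderOf z ∧ Commute z' x ∧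
      orderOf (z' ^ k) = s ∧ x ∈ Subgroup.zpowers (z' ^ k) := by
  obtain ⟨c, hc⟩ := conj_cyc hs hcyc hx hz
  have e1 : ∀ w : G, orderOf (c * w * c⁻¹) = orderOf w := fun w =>
    orderOf_injective (MulAut.conj c).toMonoidHom (MulAut.conj c).injective w
  have e2 : (c * z * c⁻¹) ^ k = c * z ^ k * c⁻¹ := conj_pow
  refine ⟨c * z * c⁻¹, e1 z, ?_, ?_, ?_⟩
  · rw [← e2] at hc
    obtain ⟨m, hm⟩ := Subgroup.mem_zpowers_iff.1 hc
    rw [← hm]
    exact ((Commute.refl _).pow_right k).zpow_right m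
  · rw [e2, e1, hz]
  · rw [e2]
    exact hc

theorem spec_of_centralizers {G : Type*} [Group G] [Finite G]
    (hC : ∀ (x : G) (r : ℕ), r.Prime → r ≠ 2 → orderOf x = r →
      (∀ g h : G, Commute g x → Commute h x → Commute g h) ∧
        (∀ g : G, Commute g x → ¬ 2 ∣ orderOf g))
    (hcyc : ∀ (r : ℕ), r.Prime → r ≠ 2 → ∀ P : Sylow r G, IsCyclic P)
    (n : ℕ) (hn : 0 < n)
    (hA : ∀ (r a : ℕ), r.Prime → r ^ a ∣ n → ∃ g : G, orderOf g = r ^ a)
    (hB : ∀ (r s : ℕ), r.Prime → s.Prime → r ≠ s → r * s ∣ n → ∃ g : G, orderOf g = r * s) :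
    ∃ g : G, orderOf g = n := by
  by_cases hpow : ∀ d : ℕ, d.Prime → d ∣ n → d = 2
  · have h1 := Nat.eq_prime_pow_of_unique_prime_dvd hn.ne' (fun {d} h1 h2 => hpow d h1 h2)
    obtain ⟨g, hg⟩ := hA 2 n.primeFactorsList.length Nat.prime_two (by rw [← h1])
    exact ⟨g, by rw [hg, ← h1]⟩
  push Not at hpow
  obtain ⟨r, hr, hrn, hr2⟩ := hpow
  -- `n` is odd
  have hodd : ¬ 2 ∣ n := by
    intro h2
    have hcop : Nat.Coprime r 2 := (Nat.coprime_primes hr Nat.prime_two).2 hr2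
    obtain ⟨g, hg⟩ := hB r 2 hr Nat.prime_two hr2 (hcop.mul_dvd_of_dvd_of_dvd hrn h2)
    have h3 : orderOf (g ^ 2) = r := by
      rw [orderOf_pow, hg, Nat.gcd_eq_right (Dvd.intro_left r rfl)]
      exact Nat.mul_div_cancel r two_pos
    exact (hC (g ^ 2) r hr hr2 h3).2 g ((Commute.refl g).pow_right 2) (by
      rw [hg]
      exact Dvd.intro_left r rfl)
  obtain ⟨x, hx⟩ := hA r 1 hr (by rwa [pow_one])
  rw [pow_one] at hx
  have hCx := (hC x r hr hr2 hx).1
  -- powers of a prime order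
  have hpw : ∀ (s k : ℕ), s.Prime → s ^ (k + 1) ∣ n → ∃ z : G, orderOf z = s ^ (k + 1) ∧
      orderOf (z ^ s ^ k) = s := by
    intro s k hs hd
    obtain ⟨z, hz⟩ := hA s (k + 1) hs hd
    refine ⟨z, hz, ?_⟩
    have h1 : s ^ k ∣ s ^ (k + 1) := pow_dvd_pow s (Nat.le_succ k)
    rw [orderOf_pow, hz, Nat.gcd_eq_right h1, pow_succ]
    exact Nat.mul_div_cancel_left s (pow_pos hs.pos k)
  have key : ∀ m : ℕ, m ∣ n → ∃ g : G, Commute g x ∧ orderOf g = m := by
    intro m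
    induction m using Nat.recOnPosPrimePosCoprime with
    | zero =>
      intro h
      exact absurd (Nat.eq_zero_of_zero_dvd h) hn.ne'
    | one =>
      intro _
      exact ⟨1, Commute.one_left x, orderOf_one⟩
    | prime_pow s k hs hk =>
      intro hd
      obtain ⟨k, rfl⟩ : ∃ k', k = k' + 1 := ⟨k - 1, by omega⟩
      have hsn : s ∣ n := (dvd_pow_self s (Nat.succ_ne_zero k)).trans hd
      have hs2 : s ≠ 2 := fun h => hodd (h ▸ hsn)
      obtain ⟨z, hz1, hz2⟩ := hpw s k hs hd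
      by_cases hsr : s = r
      · subst hsr
        obtain ⟨z', h1, h2, -, -⟩ := conj_pow_cyc hs (hcyc s hs hs2) hx hz2
        exact ⟨z', h2, by rw [h1, hz1]⟩
      · have hcop : Nat.Coprime r s := (Nat.coprime_primes hr hs).2 (Ne.symm hsr)
        obtain ⟨w, hw⟩ := hB r s hr hs (Ne.symm hsr) (hcop.mul_dvd_of_dvd_of_dvd hrn hsn)
        have hw1 : orderOf (w ^ s) = r := by
          rw [orderOf_pow, hw, Nat.gcd_eq_right (Dvd.intro_left r rfl)]
          exact Nat.mul_div_cancel r hs.pos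
        obtain ⟨w', h1, h2, -, -⟩ := conj_pow_cyc hr (hcyc r hr hr2) hx hw1
        have hw2 : orderOf (w' ^ r) = s := by
          rw [orderOf_pow, h1, hw, Nat.gcd_eq_right (Dvd.intro s rfl)]
          exact Nat.mul_div_cancel_left s hr.pos
        obtain ⟨z', k1, k2, -, -⟩ := conj_pow_cyc hs (hcyc s hs hs2) hw2 hz2
        refine ⟨z', ?_, by rw [k1, hz1]⟩
        exact (hC (w' ^ r) s hs hs2 hw2).1 z' x k2 (h2.pow_left r).symm
    | coprime a b ha hb hab iha ihb =>
      intro hd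
      obtain ⟨g, hg1, hg2⟩ := iha ((Dvd.intro b rfl).trans hd)
      obtain ⟨h, hh1, hh2⟩ := ihb ((Dvd.intro_left a rfl).trans hd)
      refine ⟨g * h, hg1.mul_left hh1, ?_⟩
      rw [(hCx g h hg1 hh1).orderOf_mul_eq_mul_orderOf_of_coprime (by rw [hg2, hh2]; exact hab),
        hg2, hh2]
  obtain ⟨g, -, hg⟩ := key n dvd_rfl
  exact ⟨g, hg⟩

end Pool.Agent.Helper495_SP
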