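import Mathlib
set_option autoImplicit false
namespace Pool.Agent.Helper495_SP
open scoped Classical

theorem cyclic_sylow_of_elt {G : Type*} [Group G] [Finite G] (r : ℕ) [Fact r.Prime] (g : G)
    (h : ¬ r ∣ (Subgroup.zpowers g).index) (hr : r ∣ Nat.card G) :
    ∃ (y : G) (k : ℕ), orderOf y = r ^ (k + 1) ∧ ¬ r ∣ (Subgroup.zpowers y).index := by
  have hrp : r.Prime := Fact.out
  have hcard : orderOf g * (Subgroup.zpowers g).index = Nat.card G := by
    rw [← Nat.card_zpowers]
    exact Subgroup.card_mul_index _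
  have hdn : r ∣ orderOf g := by
    rw [← hcard] at hr
    rcases (Nat.Prime.dvd_mul hrp).1 hr with h1 | h1
    · exact h1
    · exact absurd h1 h
  have hn0 : orderOf g ≠ 0 := (orderOf_pos g).ne'
  obtain ⟨e, m, hm, he⟩ := Nat.exists_eq_pow_mul_and_not_dvd hn0 r hrp.ne_one
  have he0 : e ≠ 0 := by
    rintro rfl
    rw [pow_zero, one_mul] at he
    rw [he] at hdn
    exact hm hdn
  obtain ⟨k, rfl⟩ := Nat.exists_eq_succ_of_ne_zero he0
  have hm0 : m ≠ 0 := by
    rintro rfl
    simp at hm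
  have hy : orderOf (g ^ m) = r ^ (k + 1) := by
    rw [orderOf_pow' g hm0, he, Nat.gcd_mul_left_left]
    exact Nat.mul_div_cancel _ (Nat.pos_of_ne_zero hm0)
  refine ⟨g ^ m, k, hy, ?_⟩
  have h2 : orderOf (g ^ m) * (Subgroup.zpowers (g ^ m)).index = Nat.card G := by
    rw [← Nat.card_zpowers]
    exact Subgroup.card_mul_index _
  have h3 : (Subgroup.zpowers (g ^ m)).index = m * (Subgroup.zpowers g).index := by
    have hpos : 0 < r ^ (k + 1) := pow_pos hrp.pos _
    apply Nat.eq_of_mul_eq_mul_left hpos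
    rw [hy] at h2
    rw [h2, ← hcard, he, mul_assoc]
  rw [h3]
  intro hd
  rcases (Nat.Prime.dvd_mul hrp).1 hd with h1 | h1
  · exact hm h1
  · exact h h1

end Pool.Agent.Helper495_SP
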