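import Mathlib
import Pool.Agent.Helper495_SP.P3a
import Pool.Agent.Helper495_SP.P3b
import Pool.Agent.Helper495_SP.P5
import Pool.Agent.Helper495_SP.P6
set_option autoImplicit false
namespace Pool.Agent.Helper495_SP
open scoped Classical

theorem not_dvd_card_of_ne (F : Type*) [Field F] [Fintype F] (p : ℕ) [Fact p.Prime] [CharP F p]
    (r : ℕ) [Fact r.Prime] (hrp : r ≠ p) : ¬ r ∣ Fintype.card F := by
  obtain ⟨n, hp, hn⟩ := FiniteField.card F p
  rw [hn]
  intro h
  have h1 := (Fact.out : r.Prime).dvd_of_dvd_pow h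
  exact hrp ((Nat.prime_dvd_prime_iff_eq Fact.out Fact.out).1 h1)

theorem cyclic_of_index {G : Type*} [Group G] [Finite G] (r : ℕ) [Fact r.Prime] (g : G)
    (h : ¬ r ∣ (Subgroup.zpowers g).index) (hr : r ∣ Nat.card G) (P : Sylow r G) : IsCyclic P := by
  obtain ⟨y, k, hy, hi⟩ := cyclic_sylow_of_elt r g h hr
  have hP : IsPGroup r (Subgroup.zpowers y) := IsPGroup.of_card (n := k + 1) (by
    rw [Nat.card_zpowers, hy])
  let Q : Sylow r G := hP.toSylow hi
  have e : P ≃* Q := Sylow.equiv P Q
  have hQ : IsCyclic Q := by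
    change IsCyclic (Subgroup.zpowers y)
    infer_instance
  exact isCyclic_of_surjective e.symm e.symm.surjective

theorem odd_cyclic_PSL2 (F : Type*) [Field F] [Fintype F] (p : ℕ) [Fact p.Prime] [CharP F p]
    (r : ℕ) [Fact r.Prime] (hr2 : r ≠ 2) (hrp : r ≠ p)
    (P : Sylow r (Matrix.ProjectiveSpecialLinearGroup (Fin 2) F)) : IsCyclic P := by
  have hrpr : r.Prime := Fact.out
  have hr3 : 2 < r := lt_of_le_of_ne hrpr.two_le (Ne.symm hr2)
  have hfin : Finite (Matrix.ProjectiveSpecialLinearGroup (Fin 2) F) := by infer_instance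
  by_cases hr : r ∣ Nat.card (Matrix.ProjectiveSpecialLinearGroup (Fin 2) F)
  · have hcard := card_PSL2 F
    have hq : 1 < Fintype.card F := Fintype.one_lt_card
    have hnq := not_dvd_card_of_ne F p r hrp
    set q := Fintype.card F with hqd
    set d := Nat.gcd 2 (q - 1) with hd
    have hd1 : d ∣ q - 1 := Nat.gcd_dvd_right _ _
    have hd2 : d ∣ 2 := Nat.gcd_dvd_left _ _
    have hd3 : d ∣ q + 1 := by
      have : q + 1 = (q - 1) + 2 := by omega
      rw [this]
      exact dvd_add hd1 hd2
    have hd0 : 0 < d := Nat.pos_of_dvd_of_pos hd2 (by norm_num)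
    have hprod : r ∣ q * (q - 1) * (q + 1) := by
      rw [← hcard]
      exact dvd_mul_of_dvd_left hr _
    have hnot2 : ¬ (r ∣ q - 1 ∧ r ∣ q + 1) := by
      rintro ⟨h1, h2⟩
      have h3 : q + 1 - (q - 1) = 2 := by omega
      have h4 := Nat.dvd_sub h2 h1
      rw [h3] at h4
      have := Nat.le_of_dvd (by norm_num) h4
      omega
    rcases (hrpr.dvd_mul).1 hprod with h | h
    · have h1 : r ∣ q - 1 := ((hrpr.dvd_mul).1 h).resolve_left hnq
      have h2 : ¬ r ∣ q + 1 := fun h2 => hnot2 ⟨h1, h2⟩
      obtain ⟨g, hg⟩ := exists_split_PSL2 F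
      refine cyclic_of_index r g ?_ hr P
      have h3 := Subgroup.card_mul_index (Subgroup.zpowers g)
      rw [Nat.card_zpowers, hg] at h3
      have h4 : (q - 1) * (Subgroup.zpowers g).index = (q - 1) * (q * (q + 1)) := by
        calc (q - 1) * (Subgroup.zpowers g).index
            = ((q - 1) / d * d) * (Subgroup.zpowers g).index := by rw [Nat.div_mul_cancel hd1]
          _ = ((q - 1) / d * (Subgroup.zpowers g).index) * d := by ring
          _ = q * (q - 1) * (q + 1) := by rw [h3, hcard]
          _ = _ := by ring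
      have h5 := Nat.eq_of_mul_eq_mul_left (by omega : 0 < q - 1) h4
      rw [h5, hrpr.dvd_mul]
      tauto
    · have h2 : ¬ r ∣ q - 1 := fun h2 => hnot2 ⟨h2, h⟩
      obtain ⟨g, hg⟩ := exists_nonsplit_PSL2 F
      refine cyclic_of_index r g ?_ hr P
      have h3 := Subgroup.card_mul_index (Subgroup.zpowers g)
      rw [Nat.card_zpowers, hg] at h3
      have h4 : (q + 1) * (Subgroup.zpowers g).index = (q + 1) * (q * (q - 1)) := by
        calc (q + 1) * (Subgroup.zpowers g).index
            = ((q + 1) / d * d) * (Subgroup.zpowers g).index := by rw [Nat.div_mul_cancel hd3]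
          _ = ((q + 1) / d * (Subgroup.zpowers g).index) * d := by ring
          _ = q * (q - 1) * (q + 1) := by rw [h3, hcard]
          _ = _ := by ring
      have h5 := Nat.eq_of_mul_eq_mul_left (by omega : 0 < q + 1) h4
      rw [h5, hrpr.dvd_mul]
      tauto
  · have h1 : Nat.card P = 1 := by
      rw [P.card_eq_multiplicity, Nat.factorization_eq_zero_of_not_dvd hr, pow_zero]
    have : Subsingleton P := (Nat.card_eq_one_iff_unique.1 h1).1
    exact isCyclic_of_subsingleton

end Pool.Agent.Helper495_SP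

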