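import Mathlib
set_option autoImplicit false

/-!
The Suzuki groups.
-/

namespace Pool.Agent.Helper495_SP

/-- The lower triangular matrices `S(a, b)` of Suzuki. -/
def szS {F : Type*} [Field F] (θ : F →+* F) (a b : F) : Matrix (Fin 4) (Fin 4) F :=
  !![1, 0, 0, 0;
     a, 1, 0, 0;
     b, θ a, 1, 0;
     a ^ 2 * θ a + a * b + θ b, a * θ a + b, a, 1]

/-- The diagonal matrices `M(μ)` of Suzuki. -/
def szM {F : Type*} [Field F] (θ : F →+* F) (μ : Fˣ) : Matrix (Fin 4) (Fin 4) F :=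
  Matrix.diagonal ![(μ : F) * θ μ, (μ : F), (μ : F)⁻¹, ((μ : F) * θ μ)⁻¹]

/-- The antidiagonal matrix `T`. -/
def szT (F : Type*) [Field F] : Matrix (Fin 4) (Fin 4) F :=
  !![0, 0, 0, 1;
     0, 0, 1, 0;
     0, 1, 0, 0;
     1, 0, 0, 0]

/-- The Suzuki group: the group of invertible `4 × 4` matrices generated by the `S(a, b)`, the
`M(μ)` and `T`. -/
def Sz (F : Type*) [Field F] (θ : F →+* F) : Subgroup (Matrix.GeneralLinearGroup (Fin 4) F) :=
  Subgroup.closure {g | (∃ a b : F, (g : Matrix (Fin 4) (Fin 4) F) = szS θ a b) ∨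
    (∃ μ : Fˣ, (g : Matrix (Fin 4) (Fin 4) F) = szM θ μ) ∨
    (g : Matrix (Fin 4) (Fin 4) F) = szT F}

end Pool.Agent.Helper495_SP
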