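import Mathlib
set_option autoImplicit false
namespace Pool.Agent.Helper495_SP
variable {k : Type*} [Field k] {V : Type*} [AddCommGroup V] [Module k V] [FiniteDimensional k V]

theorem ext_ker_pow_mem (S : Submodule k V) (X : Module.End k V) (hXS : ∀ m ∈ S, X m ∈ S)
    (i : ℕ) : ∀ m ∈ S, (X ^ i) m ∈ S := by
  induction i with
  | zero => intro m hm; simpa using hm
  | succ i ih =>
    intro m hm
    rw [pow_succ', Module.End.mul_apply]
    exact hXS _ (ih m hm)

theorem ext_ker (p : ℕ) (hp : 1 ≤ p) (S : Submodule k V) (X D : Module.End k V)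
    (hXD : Commute X D) (hXS : ∀ m ∈ S, X m ∈ S) (hDS : ∀ m ∈ S, D m ∈ S)
    (hXp : X ^ p = 0) (hDp : D ^ p = 0)
    (h1 : ∀ m ∈ S, X m = 0 → ∃ l ∈ S, m = (X ^ (p - 1)) l)
    (h2 : ∀ m ∈ S, X m = 0 → D m = 0 → ∃ c ∈ S, X c = 0 ∧ m = (D ^ (p - 1)) c) :
    ∀ m ∈ S, D m = 0 → ∃ c ∈ S, m = (D ^ (p - 1)) c := by
  have key : ∀ i : ℕ, i ≤ p → ∀ m ∈ S, D m = 0 → (X ^ i) m = 0 →
      ∃ c ∈ S, m = (D ^ (p - 1)) c := by
    intro i
    induction i with
    | zero =>
      intro _ m hm _ hX0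
      have : m = 0 := by simpa using hX0
      exact ⟨0, S.zero_mem, by rw [this, map_zero]⟩
    | succ i ih =>
      intro hi m hm hD hX
      have hm' : (X ^ i) m ∈ S := ext_ker_pow_mem S X hXS i m hm
      have hXm' : X ((X ^ i) m) = 0 := by
        rw [← Module.End.mul_apply, ← pow_succ']; exact hX
      have hcomm : D * X ^ i = X ^ i * D := (hXD.symm.pow_right i).eq
      have hDm' : D ((X ^ i) m) = 0 := by
        rw [← Module.End.mul_apply, hcomm, Module.End.mul_apply, hD, map_zero]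
      obtain ⟨c, hcS, hXc, hc⟩ := h2 _ hm' hXm' hDm'
      obtain ⟨l, hlS, hl⟩ := h1 c hcS hXc
      have hcomm2 : D ^ (p - 1) * X ^ (p - 1 - i) = X ^ (p - 1 - i) * D ^ (p - 1) :=
        (hXD.symm.pow_pow (p - 1) (p - 1 - i)).eq
      have hcomm3 : D ^ (p - 1) * X ^ (p - 1) = X ^ (p - 1) * D ^ (p - 1) :=
        (hXD.symm.pow_pow (p - 1) (p - 1)).eq
      have hcomm4 : D * X ^ (p - 1 - i) = X ^ (p - 1 - i) * D :=
        (hXD.symm.pow_right (p - 1 - i)).eq
      set u := (X ^ (p - 1 - i)) l with hu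
      have huS : u ∈ S := ext_ker_pow_mem S X hXS _ l hlS
      set v := (D ^ (p - 1)) u with hv
      have hvS : v ∈ S := ext_ker_pow_mem S D hDS _ u huS
      have hDv : D v = 0 := by
        rw [hv, ← Module.End.mul_apply, ← pow_succ']
        have : p - 1 + 1 = p := by omega
        rw [this, hDp]; rfl
      have hXv : (X ^ i) v = (X ^ i) m := by
        rw [hc, hl, hv, hu]
        rw [← Module.End.mul_apply, ← Module.End.mul_apply, ← Module.End.mul_apply, mul_assoc, hcomm2,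
          ← mul_assoc, ← pow_add, hcomm3]
        have : i + (p - 1 - i) = p - 1 := by omega
        rw [this]
      obtain ⟨c1, hc1S, hc1⟩ := ih (by omega) (m - v) (S.sub_mem hm hvS)
        (by rw [map_sub, hD, hDv, sub_zero]) (by rw [map_sub, hXv, sub_self])
      refine ⟨c1 + u, S.add_mem hc1S huS, ?_⟩
      rw [map_add, ← hc1, ← hv, sub_add_cancel]
  intro m hm hD
  exact key p le_rfl m hm hD (by rw [hXp]; rfl)

end Pool.Agent.Helper495_SP
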