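import Mathlib
import Pool.Agent.Helper495_SP.Defs
set_option autoImplicit false
namespace Pool.Agent.Helper495_SP
open scoped Classical
open Polynomial
variable {F : Type*} [Field F] [Fintype F] {V : Type*} [AddCommGroup V] [Module F V]

theorem DD_expand_aux (a b : F) :
    ∑ i ∈ Finset.range (Fintype.card F), a ^ i * b ^ (Fintype.card F - 1 - i) =
      if a = b then 0 else 1 := by
  split_ifs with h
  · subst h
    have h1 : ∀ i ∈ Finset.range (Fintype.card F), a ^ i * a ^ (Fintype.card F - 1 - i) =
        a ^ (Fintype.card F - 1) := by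
      intro i hi
      rw [Finset.mem_range] at hi
      rw [← pow_add]
      congr 1
      omega
    rw [Finset.sum_congr rfl h1, Finset.sum_const, Finset.card_range, nsmul_eq_mul,
      FiniteField.cast_card_eq_zero, zero_mul]
  · have h1 := geom_sum₂_mul a b (Fintype.card F)
    rw [FiniteField.pow_card, FiniteField.pow_card] at h1
    have h2 : a - b ≠ 0 := sub_ne_zero.2 h
    exact mul_right_cancel₀ h2 (by rw [h1, one_mul])

theorem DD_expand (A : F → Module.End F V) (h0 : A 0 = 1) (a : F) :
    A a = ∑ i ∈ Finset.range (Fintype.card F), a ^ i • DD A i := by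
  have hq : 1 < Fintype.card F := Fintype.one_lt_card
  obtain ⟨n, hn⟩ : ∃ n, Fintype.card F = n + 1 := ⟨Fintype.card F - 1, by omega⟩
  have hn0 : n ≠ 0 := by omega
  have key : ∀ b : F, ∑ i ∈ Finset.range n, a ^ (i + 1) * b ^ (Fintype.card F - 1 - (i + 1)) =
      (if b = 0 then 1 else 0) - (if a = b then 1 else 0) := by
    intro b
    have h1 := DD_expand_aux a b
    rw [hn, Finset.sum_range_succ'] at h1
    rw [hn]
    have h2 : b ^ n = if b = 0 then 0 else 1 := by
      split_ifs with hb
      · rw [hb, zero_pow hn0]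
      · have := FiniteField.pow_card_sub_one_eq_one b hb
        rwa [hn] at this
    have h3 : a ^ 0 * b ^ (n + 1 - 1 - 0) = b ^ n := by simp
    rw [h3, h2] at h1
    have h4 : ∑ i ∈ Finset.range n, a ^ (i + 1) * b ^ (n + 1 - 1 - (i + 1)) =
      (if a = b then (0 : F) else 1) - (if b = 0 then 0 else 1) := by
      rw [← h1]; ring
    rw [h4]
    by_cases e1 : a = b
    · rw [if_pos e1, if_pos e1]
      by_cases e2 : b = 0
      · rw [if_pos e2, if_pos e2]; ring
      · rw [if_neg e2, if_neg e2]
    · rw [if_neg e1, if_neg e1]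
      by_cases e2 : b = 0
      · rw [if_pos e2, if_pos e2]
      · rw [if_neg e2, if_neg e2]; ring
  have hsum : ∑ i ∈ Finset.range (Fintype.card F), a ^ i • DD A i =
      (1 : Module.End F V) - ∑ b : F, (∑ i ∈ Finset.range n,
        a ^ (i + 1) * b ^ (Fintype.card F - 1 - (i + 1))) • A b := by
    conv_lhs => rw [hn, Finset.sum_range_succ']
    have h1 : DD A 0 = 1 := by rw [DD, if_pos rfl]
    rw [pow_zero, one_smul, h1]
    have h2 : ∀ i ∈ Finset.range n, a ^ (i + 1) • DD A (i + 1) =
        - ∑ b : F, (a ^ (i + 1) * b ^ (Fintype.card F - 1 - (i + 1))) • A b := by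
      intro i _
      rw [DD, if_neg (Nat.succ_ne_zero i), smul_neg, Finset.smul_sum]
      simp only [smul_smul]
    rw [Finset.sum_congr rfl h2, Finset.sum_neg_distrib, Finset.sum_comm]
    simp only [Finset.sum_smul]
    abel
  rw [hsum]
  simp only [key, sub_smul, ite_smul, one_smul, zero_smul]
  rw [Finset.sum_sub_distrib, Finset.sum_ite_eq' Finset.univ (0 : F), if_pos (Finset.mem_univ _),
    Finset.sum_ite_eq Finset.univ a, if_pos (Finset.mem_univ _), h0]
  abel

end Pool.Agent.Helper495_SP
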