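import Mathlib
import Pool.Agent.Helper495_SP.Defs
import Pool.Agent.Helper495_SP.T01
set_option autoImplicit false
namespace Pool.Agent.Helper495_SP
open scoped Classical
open Polynomial
variable {F : Type*} [Field F] [Fintype F] {V : Type*} [AddCommGroup V] [Module F V]

theorem coeff_zero_of_eval {W : Type*} [AddCommGroup W] [Module F W] (v : ℕ → W)
    (h : ∀ a : F, ∑ i ∈ Finset.range (Fintype.card F), a ^ i • v i = 0) :
    ∀ i < Fintype.card F, v i = 0 := by
  intro i hi
  rw [← Module.forall_dual_apply_eq_zero_iff F]
  intro φ
  set p : F[X] := ∑ j ∈ Finset.range (Fintype.card F), C (φ (v j)) * X ^ j with hp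
  have hcoeff : ∀ j < Fintype.card F, p.coeff j = φ (v j) := by
    intro j hj
    rw [hp, finsetSum_coeff]
    simp only [coeff_C_mul, coeff_X_pow]
    rw [Finset.sum_eq_single j]
    · simp
    · intro b _ hb
      simp [Ne.symm hb]
    · intro hj'
      exact absurd (Finset.mem_range.2 hj) hj'
  have hdeg : p.degree < (Fintype.card F : ℕ) := by
    rw [hp]
    refine lt_of_le_of_lt (degree_sum_le _ _) ?_
    rw [Finset.sup_lt_iff (by exact WithBot.bot_lt_coe _)]
    intro j hj
    refine lt_of_le_of_lt (degree_C_mul_X_pow_le _ _) ?_
    exact_mod_cast Finset.mem_range.1 hj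
  have hzero : p = 0 := by
    by_contra hne
    have hroots : (Finset.univ : Finset F).val ≤ p.roots := by
      rw [Multiset.le_iff_subset Finset.univ.nodup]
      intro a _
      rw [mem_roots hne, IsRoot.def, hp, eval_finsetSum]
      have := congrArg φ (h a)
      rw [map_sum, map_zero] at this
      rw [← this]
      refine Finset.sum_congr rfl fun j _ => ?_
      rw [map_smul, smul_eq_mul, eval_mul, eval_C, eval_pow, eval_X, mul_comm]
    have hcard := Multiset.card_le_card hroots
    have h2 := card_roots' p
    have h3 : p.natDegree < Fintype.card F := (natDegree_lt_iff_degree_lt hne).2 hdeg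
    have h4 : Multiset.card (Finset.univ : Finset F).val = Fintype.card F := rfl
    omega
  have := hcoeff i hi
  rw [hzero, coeff_zero] at this
  exact this.symm

theorem DD_mul (A : F → Module.End F V) (h0 : A 0 = 1) (hA : ∀ a b, A (a + b) = A a * A b)
    (i j : ℕ) (hi : i < Fintype.card F) (hj : j < Fintype.card F) :
    DD A i * DD A j = if i + j < Fintype.card F then ((i + j).choose i : F) • DD A (i + j) else 0 := by
  set q := Fintype.card F with hq
  have key : ∀ a b : F, ∑ i ∈ Finset.range q, a ^ i • ∑ j ∈ Finset.range q, b ^ j •
      (DD A i * DD A j - if i + j < q then ((i + j).choose i : F) • DD A (i + j) else 0) = 0 := by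
    intro a b
    have h1 : A a * A b = ∑ i ∈ Finset.range q, a ^ i • ∑ j ∈ Finset.range q, b ^ j •
        (DD A i * DD A j) := by
      rw [DD_expand A h0 a, DD_expand A h0 b, Finset.sum_mul]
      refine Finset.sum_congr rfl fun i _ => ?_
      rw [smul_mul_assoc, Finset.mul_sum]
      congr 1
      refine Finset.sum_congr rfl fun j _ => ?_
      rw [mul_smul_comm]
    have h2 : A (a + b) = ∑ i ∈ Finset.range q, a ^ i • ∑ j ∈ Finset.range q, b ^ j •
        (if i + j < q then ((i + j).choose i : F) • DD A (i + j) else 0) := by
      rw [DD_expand A h0 (a + b)]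
      have e1 : ∀ n ∈ Finset.range q, (a + b) ^ n • DD A n =
          ∑ p ∈ (Finset.range q ×ˢ Finset.range q) with p.1 + p.2 = n,
            (a ^ p.1 * b ^ p.2 * ((p.1 + p.2).choose p.1 : F)) • DD A (p.1 + p.2) := by
        intro n hn
        rw [(Commute.all a b).add_pow', Finset.sum_smul]
        have hset : Finset.filter (fun p : ℕ × ℕ => p.1 + p.2 = n) (Finset.range q ×ˢ Finset.range q)
            = Finset.HasAntidiagonal.antidiagonal n := by
          ext p
          rw [Finset.mem_filter, Finset.mem_product, Finset.mem_range, Finset.mem_range,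
            Finset.HasAntidiagonal.mem_antidiagonal]
          have := Finset.mem_range.1 hn
          constructor
          · exact fun h => h.2
          · intro h
            refine ⟨⟨by omega, by omega⟩, h⟩
        rw [hset]
        refine Finset.sum_congr rfl fun p hp => ?_
        rw [Finset.HasAntidiagonal.mem_antidiagonal] at hp
        rw [hp, nsmul_eq_mul]
        congr 1
        ring
      rw [Finset.sum_congr rfl e1]
      have e2 : ∀ i ∈ Finset.range q, a ^ i • ∑ j ∈ Finset.range q, b ^ j •
        (if i + j < q then ((i + j).choose i : F) • DD A (i + j) else 0) =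
          ∑ j ∈ Finset.range q, if i + j < q then
            (a ^ i * b ^ j * ((i + j).choose i : F)) • DD A (i + j) else 0 := by
        intro i _
        rw [Finset.smul_sum]
        refine Finset.sum_congr rfl fun j _ => ?_
        split_ifs
        · rw [smul_smul, smul_smul]
        · simp
      rw [Finset.sum_congr rfl e2, ← Finset.sum_product']
      rw [← Finset.sum_filter]
      rw [← Finset.sum_fiberwise_of_maps_to (t := Finset.range q) (g := fun p : ℕ × ℕ => p.1 + p.2)]
      · refine Finset.sum_congr rfl fun n hn => ?_
        refine Finset.sum_congr ?_ fun _ _ => rfl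
        ext p
        simp only [Finset.mem_filter, Finset.mem_product, Finset.mem_range] at hn ⊢
        constructor
        · rintro ⟨h, h'⟩
          exact ⟨⟨h, by omega⟩, h'⟩
        · rintro ⟨⟨h, _⟩, h'⟩
          exact ⟨h, h'⟩
      · intro p hp
        simp only [Finset.mem_filter, Finset.mem_range] at hp ⊢
        exact hp.2
    have h3 := hA a b
    rw [h1, h2] at h3
    simp only [smul_sub, Finset.sum_sub_distrib]
    rw [h3, sub_self]
  have k1 : ∀ b : F, ∀ i < q, ∑ j ∈ Finset.range q, b ^ j •
      (DD A i * DD A j - if i + j < q then ((i + j).choose i : F) • DD A (i + j) else 0) = 0 := by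
    intro b
    exact coeff_zero_of_eval _ (fun a => key a b)
  have k2 := coeff_zero_of_eval _ (fun b => k1 b i hi) j hj
  exact sub_eq_zero.1 k2

end Pool.Agent.Helper495_SP
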