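import Mathlib
import Pool.Agent.Helper495_SP.Defs
import Pool.Agent.Helper495_SP.T02
set_option autoImplicit false
namespace Pool.Agent.Helper495_SP
open scoped Classical
open Polynomial
variable {F : Type*} [Field F] [Fintype F] {V : Type*} [AddCommGroup V] [Module F V]

theorem choose_mul_pow_modEq {p : ℕ} [Fact p.Prime] (m k j : ℕ) :
    (m * p ^ j).choose (k * p ^ j) ≡ m.choose k [MOD p] := by
  induction j with
  | zero => simp; rfl
  | succ j ih =>
    have hp : 0 < p := (Fact.out : p.Prime).pos
    have h := Choose.choose_modEq_choose_mod_mul_choose_div_nat (p := p)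
      (n := m * p ^ (j + 1)) (k := k * p ^ (j + 1))
    have e1 : ∀ n : ℕ, n * p ^ (j + 1) % p = 0 := by
      intro n
      rw [pow_succ, ← mul_assoc]
      exact Nat.mul_mod_left _ _
    have e2 : ∀ n : ℕ, n * p ^ (j + 1) / p = n * p ^ j := by
      intro n
      rw [pow_succ, ← mul_assoc]
      exact Nat.mul_div_cancel _ hp
    rw [e1, e1, e2, e2, Nat.choose_self, one_mul] at h
    exact h.trans ih

theorem DD_pow_p {p r : ℕ} [Fact p.Prime] [CharP F p] (hr : Fintype.card F = p ^ r)
    (A : F → Module.End F V) (h0 : A 0 = 1) (hA : ∀ a b, A (a + b) = A a * A b)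
    (j : ℕ) (hj : j < r) :
    DD A (p ^ j) ^ p = 0 ∧
      (∀ c, c < p → DD A (p ^ j) ^ c = (c.factorial : F) • DD A (c * p ^ j)) := by
  have hp : p.Prime := Fact.out
  have hpj : 0 < p ^ j := pow_pos hp.pos j
  have hle : p * p ^ j ≤ Fintype.card F := by
    rw [hr, ← pow_succ']
    exact Nat.pow_le_pow_right hp.pos hj
  have hlt : ∀ c, c < p → c * p ^ j < Fintype.card F := by
    intro c hc
    exact lt_of_lt_of_le (Nat.mul_lt_mul_of_pos_right hc hpj) hle
  have hj' : p ^ j < Fintype.card F := by
    have := hlt 1 hp.one_lt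
    rwa [one_mul] at this
  have hcast : ∀ c : ℕ, (((c + 1) * p ^ j).choose (c * p ^ j) : F) = ((c + 1 : ℕ) : F) := by
    intro c
    rw [CharP.natCast_eq_natCast F p]
    have := choose_mul_pow_modEq (p := p) (c + 1) c j
    rwa [Nat.choose_succ_self_right] at this
  have key : ∀ c, c < p → DD A (p ^ j) ^ c = (c.factorial : F) • DD A (c * p ^ j) := by
    intro c
    induction c with
    | zero =>
      intro _
      simp [DD]
    | succ c ih =>
      intro hc
      have hc' : c < p := by omega
      rw [pow_succ, ih hc', smul_mul_assoc, DD_mul A h0 hA _ _ (hlt c hc') hj',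
        ← Nat.succ_mul, if_pos (hlt (c + 1) hc), Nat.succ_eq_add_one, hcast, smul_smul,
        Nat.factorial_succ]
      push_cast
      ring_nf
  refine ⟨?_, key⟩
  obtain ⟨c, rfl⟩ : ∃ c, p = c + 1 := ⟨p - 1, by have := hp.pos; omega⟩
  have hc' : c < c + 1 := Nat.lt_succ_self c
  rw [pow_succ, key c hc', smul_mul_assoc, DD_mul A h0 hA _ _ (hlt c hc') hj', ← Nat.succ_mul,
    Nat.succ_eq_add_one]
  split_ifs with h
  · rw [hcast, CharP.cast_eq_zero F (c + 1), zero_smul, smul_zero]
  · rw [smul_zero]

end Pool.Agent.Helper495_SP
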