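import Mathlib
import Pool.Agent.Helper495_SP.Defs
import Pool.Agent.Helper495_SP.T02
-- target proved (aux choose_pow_modEq), only the given DD_mul keeps its sorry
set_option autoImplicit false
namespace Pool.Agent.Helper495_SP
open scoped Classical
open Polynomial
variable {F : Type*} [Field F] [Fintype F] {V : Type*} [AddCommGroup V] [Module F V]

theorem choose_pow_modEq {p : ℕ} [Fact p.Prime] (j : ℕ) :
    ∀ n : ℕ, n.choose (p ^ j) ≡ n / p ^ j [MOD p] := by
  induction j with
  | zero =>
    intro n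
    rw [pow_zero, Nat.choose_one_right, Nat.div_one]
  | succ j ih =>
    intro n
    have hp : 0 < p := (Fact.out : p.Prime).pos
    have h1 := Choose.choose_modEq_choose_mod_mul_choose_div_nat (n := n) (k := p ^ (j + 1)) (p := p)
    have h2 : p ^ (j + 1) % p = 0 := by
      rw [pow_succ]
      exact Nat.mul_mod_left _ _
    have h3 : p ^ (j + 1) / p = p ^ j := by
      rw [pow_succ]
      exact Nat.mul_div_cancel _ hp
    rw [h2, h3, Nat.choose_zero_right, one_mul] at h1
    refine h1.trans ?_
    have h4 : n / p ^ (j + 1) = n / p / p ^ j := by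
      rw [pow_succ', Nat.div_div_eq_div_mul]
    rw [h4]
    exact ih (n / p)

theorem DD_zero_of_mem {p r : ℕ} [Fact p.Prime] [CharP F p] (hr : Fintype.card F = p ^ r)
    (A : F → Module.End F V) (h0 : A 0 = 1) (hA : ∀ a b, A (a + b) = A a * A b)
    (s : ℕ) (m : V) (hm : m ∈ SS p r A s) (i : ℕ) (hi : p ^ s ≤ i) (hi' : i < Fintype.card F) :
    DD A i m = 0 := by
  have hp : p.Prime := Fact.out
  have hp1 : 1 < p := hp.one_lt
  have hi0 : i ≠ 0 := by
    have : 0 < p ^ s := pow_pos hp.pos s
    omega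
  set j := Nat.log p i with hj
  have h1 : p ^ j ≤ i := Nat.pow_log_le_self p hi0
  have h2 : i < p ^ (j + 1) := Nat.lt_pow_succ_log_self hp1 i
  have h3 : s ≤ j := (Nat.le_log_iff_pow_le hp1 hi0).2 hi
  have h4 : j < r := by
    rw [hr] at hi'
    exact (Nat.pow_lt_pow_iff_right hp1).1 (h1.trans_lt hi')
  have h5 := DD_mul A h0 hA (i - p ^ j) (p ^ j) (by omega) (by omega)
  rw [Nat.sub_add_cancel h1, if_pos hi', Nat.choose_symm h1] at h5
  have h6 : DD A (p ^ j) m = 0 := hm j h3 h4
  have h7 := congrArg (fun f : Module.End F V => f m) h5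
  simp only [Module.End.mul_apply, h6, map_zero, LinearMap.smul_apply] at h7
  have h8 : ((i.choose (p ^ j) : ℕ) : F) ≠ 0 := by
    intro h
    rw [CharP.cast_eq_zero_iff F p] at h
    have h9 := choose_pow_modEq (p := p) j i
    have h10 : i / p ^ j ≡ 0 [MOD p] := h9.symm.trans ((Nat.modEq_zero_iff_dvd).2 h)
    rw [Nat.modEq_zero_iff_dvd] at h10
    have h11 : 0 < i / p ^ j := Nat.div_pos h1 (pow_pos hp.pos j)
    have h12 : i / p ^ j < p := by
      rw [Nat.div_lt_iff_lt_mul (pow_pos hp.pos j)]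
      rwa [pow_succ, mul_comm] at h2
    exact absurd (Nat.le_of_dvd h11 h10) (by omega)
  exact (smul_eq_zero.1 h7.symm).resolve_left h8

end Pool.Agent.Helper495_SP
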