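import Mathlib
import Pool.Agent.Helper495_SP.Defs
import Pool.Agent.Helper495_SP.T02
import Pool.Agent.Helper495_SP.T03a
set_option autoImplicit false
namespace Pool.Agent.Helper495_SP
open scoped Classical
open Polynomial
variable {F : Type*} [Field F] [Fintype F] {V : Type*} [AddCommGroup V] [Module F V]

theorem choose_pow_mul_mod (p : ℕ) [Fact p.Prime] (a b : ℕ) :
    ∀ s : ℕ, (p ^ s * a).choose (p ^ s * b) ≡ a.choose b [MOD p]
  | 0 => by simp; rfl
  | s + 1 => by
    have hp : 0 < p := (Fact.out : p.Prime).pos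
    have h1 := Choose.choose_modEq_choose_mod_mul_choose_div_nat (p := p) (n := p * (p ^ s * a))
      (k := p * (p ^ s * b))
    rw [Nat.mul_mod_right, Nat.mul_mod_right, Nat.mul_div_cancel_left _ hp,
      Nat.mul_div_cancel_left _ hp, Nat.choose_self, one_mul] at h1
    have h2 := h1.trans (choose_pow_mul_mod p a b s)
    rw [pow_succ']
    rw [mul_assoc, mul_assoc]
    exact h2

theorem choose_top_mod (p : ℕ) [Fact p.Prime] (m : ℕ) (hm : 1 ≤ m) :
    (p ^ m - 1).choose (p - 1) ≡ 1 [MOD p] := by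
  have hp : 0 < p := (Fact.out : p.Prime).pos
  obtain ⟨k, rfl⟩ : ∃ k, m = k + 1 := ⟨m - 1, by omega⟩
  have h1 := Choose.choose_modEq_choose_mod_mul_choose_div_nat (p := p) (n := p ^ (k + 1) - 1)
      (k := p - 1)
  have hk : 0 < p ^ k := Nat.pow_pos hp
  have e : p ^ (k + 1) - 1 = (p - 1) + p * (p ^ k - 1) := by
    have h2 : p ^ (k + 1) = p * (p ^ k - 1) + p := by
      rw [pow_succ']
      conv_lhs => rw [show p ^ k = (p ^ k - 1) + 1 by omega, mul_add, mul_one]
    omega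
  have e1 : (p ^ (k + 1) - 1) % p = p - 1 := by
    rw [e, Nat.add_mul_mod_self_left]
    exact Nat.mod_eq_of_lt (by omega)
  have e2 : (p - 1) / p = 0 := Nat.div_eq_of_lt (by omega)
  have e3 : (p - 1) % p = p - 1 := Nat.mod_eq_of_lt (by omega)
  rw [e1, e2, e3, Nat.choose_self, Nat.choose_zero_right] at h1
  exact h1

theorem DD_top_split {p r : ℕ} [Fact p.Prime] [CharP F p] (hr : Fintype.card F = p ^ r)
    (A : F → Module.End F V) (h0 : A 0 = 1) (hA : ∀ a b, A (a + b) = A a * A b)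
    (s : ℕ) (hs : s < r) :
    (∃ c : F, DD A (p ^ r - p ^ s) = c • (DD A (p ^ s) ^ (p - 1) * DD A (p ^ r - p ^ (s + 1)))) ∧
      (∀ m : V, DD A (p ^ r - p ^ s) m ∈ SS p r A s) := by
  have hpp : p.Prime := Fact.out
  have hp : 0 < p := hpp.pos
  have hps : 0 < p ^ s := Nat.pow_pos hp
  have hpr : 0 < p ^ r := Nat.pow_pos hp
  have hle1 : p ^ (s + 1) ≤ p ^ r := Nat.pow_le_pow_right hp hs
  have hss : p ^ (s + 1) = (p - 1) * p ^ s + p ^ s := by
    rw [pow_succ']
    conv_lhs => rw [show p = (p - 1) + 1 by omega, add_mul, one_mul]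
    rw [show p - 1 + 1 = p by omega]
  have hps1 : 0 < p ^ (s + 1) := Nat.pow_pos hp
  constructor
  · have hsum : (p - 1) * p ^ s + (p ^ r - p ^ (s + 1)) = p ^ r - p ^ s := by omega
    have h1 := DD_mul A h0 hA ((p - 1) * p ^ s) (p ^ r - p ^ (s + 1)) (by rw [hr]; omega)
      (by rw [hr]; omega)
    rw [hsum, if_pos (by rw [hr]; omega)] at h1
    have h2 := (DD_pow_p hr A h0 hA s hs).2 (p - 1) (by omega)
    have hfac : ((p - 1).factorial : F) ≠ 0 := by
      rw [Ne, CharP.cast_eq_zero_iff F p, hpp.dvd_factorial]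
      omega
    have hch : (((p ^ r - p ^ s).choose ((p - 1) * p ^ s) : ℕ) : F) ≠ 0 := by
      rw [Ne, CharP.cast_eq_zero_iff F p]
      intro hdvd
      have e1 : p ^ r - p ^ s = p ^ s * (p ^ (r - s) - 1) := by
        rw [Nat.mul_sub, mul_one, ← pow_add, Nat.add_sub_cancel' hs.le]
      have e2 : (p - 1) * p ^ s = p ^ s * (p - 1) := mul_comm _ _
      rw [e1, e2] at hdvd
      have h3 := (choose_pow_mul_mod p (p ^ (r - s) - 1) (p - 1) s).trans
        (choose_top_mod p (r - s) (by omega))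
      have h4 : 1 ≡ 0 [MOD p] := h3.symm.trans ((Nat.modEq_zero_iff_dvd).2 hdvd)
      have h5 := (Nat.modEq_zero_iff_dvd).1 h4
      exact hpp.one_lt.ne' (Nat.dvd_one.1 h5)
    refine ⟨(((p - 1).factorial : F) * (((p ^ r - p ^ s).choose ((p - 1) * p ^ s) : ℕ) : F))⁻¹, ?_⟩
    rw [h2, smul_mul_assoc, h1, smul_smul, smul_smul, mul_assoc,
      inv_mul_cancel₀ (mul_ne_zero hfac hch), one_smul]
  · intro m j hj1 hj2
    have hj : p ^ s ≤ p ^ j := Nat.pow_le_pow_right hp hj1
    have hj' : p ^ j < p ^ r := Nat.pow_lt_pow_right hpp.one_lt hj2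
    have h1 := DD_mul A h0 hA (p ^ j) (p ^ r - p ^ s) (by rw [hr]; exact hj') (by rw [hr]; omega)
    rw [if_neg (by rw [hr]; omega)] at h1
    have h2 : (DD A (p ^ j) * DD A (p ^ r - p ^ s)) m = 0 := by rw [h1]; rfl
    exact h2

end Pool.Agent.Helper495_SP
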