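import Mathlib
import Pool.Agent.Helper495_SP.Defs
import Pool.Agent.Helper495_SP.J11
import Pool.Agent.Helper495_SP.T01
import Pool.Agent.Helper495_SP.T02
import Pool.Agent.Helper495_SP.T03a
import Pool.Agent.Helper495_SP.T03b
import Pool.Agent.Helper495_SP.T03c
set_option autoImplicit false
namespace Pool.Agent.Helper495_SP
open scoped Classical
open Polynomial
variable {F : Type*} [Field F] [Fintype F] {V : Type*} [AddCommGroup V] [Module F V] [FiniteDimensional F V]

-- helper lemmas for the target
theorem J649_comm_A (A : F → Module.End F V) (hA : ∀ a b, A (a + b) = A a * A b) (a b : F) :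
    Commute (A a) (A b) := by
  show A a * A b = A b * A a
  rw [← hA, ← hA, add_comm]

theorem J649_comm_right (A : F → Module.End F V) (Y : Module.End F V) (hY : ∀ a, Commute (A a) Y) (i : ℕ) :
    Commute (DD A i) Y := by
  unfold DD
  split_ifs with h
  · exact Commute.one_left _
  · apply Commute.neg_left
    apply Commute.sum_left
    intro a _
    exact (hY a).smul_left _

theorem J649_comm_DD (A : F → Module.End F V) (hA : ∀ a b, A (a + b) = A a * A b) (i j : ℕ) :
    Commute (DD A i) (DD A j) := by
  apply J649_comm_right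
  intro a
  exact (J649_comm_right A (A a) (fun b => J649_comm_A A hA b a) j).symm

theorem J649_stable {p r : ℕ} (A : F → Module.End F V) (s : ℕ) (Y : Module.End F V)
    (hY : ∀ i, Commute (DD A i) Y) (m : V) (hm : m ∈ SS p r A s) : Y m ∈ SS p r A s := by
  intro j h1 h2
  have h := hY (p ^ j)
  have h3 : DD A (p ^ j) (Y m) = Y (DD A (p ^ j) m) := by
    have := congrArg (fun f : Module.End F V => f m) h.eq
    simpa [Module.End.mul_apply] using this
  rw [h3, hm j h1 h2, map_zero]

theorem J649_top {p r : ℕ} (A : F → Module.End F V) (m : V) : m ∈ SS p r A r := by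
  intro j h1 h2
  omega

theorem J649_mono {p r : ℕ} (A : F → Module.End F V) (s : ℕ) (m : V) (hm : m ∈ SS p r A s) :
    m ∈ SS p r A (s + 1) := by
  intro j h1 h2
  exact hm j (by omega) h2

theorem J649_mem_of {p r : ℕ} (A : F → Module.End F V) (s : ℕ) (m : V) (hm : m ∈ SS p r A (s + 1))
    (h : DD A (p ^ s) m = 0) : m ∈ SS p r A s := by
  intro j h1 h2
  rcases Nat.lt_or_ge s j with h3 | h3
  · exact hm j h3 h2
  · have : j = s := by omega
    rw [this]; exact h

theorem J649_image {p r : ℕ} [Fact p.Prime] [CharP F p] (hr : Fintype.card F = p ^ r)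
    (A : F → Module.End F V) (h0 : A 0 = 1) (hA : ∀ a b, A (a + b) = A a * A b)
    (hproj : ∀ m, (∀ a, A a m = m) → ∃ b, m = ∑ a : F, A a b) :
    ∀ s, s ≤ r → ∀ m ∈ SS p r A s, ∃ l, m = DD A (p ^ r - p ^ s) l := by
  intro s
  induction s with
  | zero =>
    intro _ m hm
    have hcard : 2 ≤ Fintype.card F := Fintype.one_lt_card
    have hz : ∀ i, 1 ≤ i → i < Fintype.card F → DD A i m = 0 := by
      intro i h1 h2
      exact DD_zero_of_mem hr A h0 hA 0 m hm i (by simpa using h1) h2
    have hfix : ∀ a, A a m = m := by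
      intro a
      rw [DD_expand A h0 a, LinearMap.sum_apply]
      rw [Finset.sum_eq_single 0]
      · simp [DD]
      · intro i hi hi0
        rw [LinearMap.smul_apply, hz i (by omega) (Finset.mem_range.mp hi), smul_zero]
      · intro h
        exact absurd (Finset.mem_range.mpr (by omega)) h
    obtain ⟨b, hb⟩ := hproj m hfix
    refine ⟨-b, ?_⟩
    have h1 : p ^ r - p ^ 0 = Fintype.card F - 1 := by rw [hr, pow_zero]
    rw [h1]
    have h2 : Fintype.card F - 1 ≠ 0 := by omega
    have h3 : DD A (Fintype.card F - 1) = -∑ a : F, A a := by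
      unfold DD
      rw [if_neg h2]
      congr 1
      apply Finset.sum_congr rfl
      intro a _
      rw [Nat.sub_self, pow_zero, one_smul]
    rw [h3, map_neg, LinearMap.neg_apply, neg_neg, LinearMap.sum_apply]
    exact hb
  | succ s ih =>
    intro hs m hm
    have hs' : s < r := by omega
    obtain ⟨⟨c, hc⟩, -⟩ := DD_top_split hr A h0 hA s hs'
    set X := DD A (p ^ s) with hX
    set E := DD A (p ^ r - p ^ (s + 1)) with hE
    have hXall : ∀ i, Commute (DD A i) X := fun i => J649_comm_DD A hA i (p ^ s)
    have hXE : Commute X E := J649_comm_DD A hA _ _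
    have hEmem : ∀ l, E l ∈ SS p r A (s + 1) := by
      intro l
      rcases Nat.lt_or_ge (s + 1) r with h | h
      · exact (DD_top_split hr A h0 hA (s + 1) h).2 l
      · have : s + 1 = r := by omega
        rw [this]; exact J649_top A _
    have key : ∀ t, t ≤ p → ∀ m ∈ SS p r A (s + 1), (X ^ t) m = 0 → ∃ l, m = E l := by
      intro t
      induction t with
      | zero =>
        intro _ m _ h
        refine ⟨0, ?_⟩
        rw [map_zero]
        simpa using h
      | succ t iht =>
        intro ht m hm h
        have hm' : (X ^ t) m ∈ SS p r A s := by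
          apply J649_mem_of
          · exact J649_stable A (s + 1) (X ^ t) (fun i => (hXall i).pow_right t) m hm
          · have : X ((X ^ t) m) = (X ^ (t + 1)) m := by
              rw [pow_succ', Module.End.mul_apply]
            rw [← hX, this, h]
        obtain ⟨l, hl⟩ := ih (by omega) _ hm'
        rw [hc] at hl
        have hsplit : (X ^ (p - 1)) = X ^ t * X ^ (p - 1 - t) := by
          rw [← pow_add]; congr 1; omega
        have hw : (X ^ t) m = (X ^ t) (E (c • (X ^ (p - 1 - t)) l)) := by
          rw [hl, hsplit]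
          have h5 : Commute (X ^ (p - 1 - t)) E := hXE.pow_left _
          have h6 : (X ^ (p - 1 - t)) (E l) = E ((X ^ (p - 1 - t)) l) := by
            have := congrArg (fun f : Module.End F V => f l) h5.eq
            simpa [Module.End.mul_apply] using this
          rw [LinearMap.smul_apply, Module.End.mul_apply, Module.End.mul_apply, h6, map_smul, map_smul]
        have hm2 : m - E (c • (X ^ (p - 1 - t)) l) ∈ SS p r A (s + 1) :=
          Submodule.sub_mem _ hm (hEmem _)
        obtain ⟨l', hl'⟩ := iht (by omega) _ hm2 (by rw [map_sub, ← hw, sub_self])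
        refine ⟨l' + c • (X ^ (p - 1 - t)) l, ?_⟩
        rw [map_add, ← hl']
        abel
    apply key p le_rfl m hm
    rw [(DD_pow_p hr A h0 hA s hs').1]
    rfl

theorem chain_ti {p r : ℕ} [Fact p.Prime] [CharP F p] (hr : Fintype.card F = p ^ r)
    (A : F → Module.End F V) (h0 : A 0 = 1) (hA : ∀ a b, A (a + b) = A a * A b)
    (hproj : ∀ m, (∀ a, A a m = m) → ∃ b, m = ∑ a : F, A a b)
    (D : Module.End F V) (hD : ∀ a, Commute (A a) D) (hDp : D ^ p = 0)
    (hbase : ∀ m ∈ SS p r A 1, D m = 0 → ∃ c ∈ SS p r A 1, m = (D ^ (p - 1)) c) :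
    ∀ m, D m = 0 → ∃ c, m = (D ^ (p - 1)) c := by
  have hcard : 2 ≤ Fintype.card F := Fintype.one_lt_card
  have hr1 : 1 ≤ r := by
    rcases Nat.eq_zero_or_pos r with h | h
    · rw [h, pow_zero] at hr; omega
    · exact h
  have hp1 : 1 ≤ p := (Fact.out : p.Prime).one_lt.le
  have hDD : ∀ i, Commute (DD A i) D := fun i => J649_comm_right A D hD i
  have main : ∀ s, 1 ≤ s → s ≤ r → ∀ m ∈ SS p r A s, D m = 0 →
      ∃ c ∈ SS p r A s, m = (D ^ (p - 1)) c := by
    intro s hs1
    induction s, hs1 using Nat.le_induction with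
    | base => intro _; exact hbase
    | succ s hs1 ih =>
      intro hs
      have hs' : s < r := by omega
      have hX : ∀ i, Commute (DD A i) (DD A (p ^ s)) := fun i => J649_comm_DD A hA i (p ^ s)
      refine ext_ker p hp1 (SS p r A (s + 1)) (DD A (p ^ s)) D (hDD _)
        (fun m hm => J649_stable A (s + 1) _ hX m hm)
        (fun m hm => J649_stable A (s + 1) D hDD m hm)
        (DD_pow_p hr A h0 hA s hs').1 hDp ?_ ?_
      · intro m hm hXm
        have hms := J649_mem_of A s m hm hXm
        obtain ⟨l, hl⟩ := J649_image hr A h0 hA hproj s (by omega) m hms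
        obtain ⟨⟨c, hc⟩, -⟩ := DD_top_split hr A h0 hA s hs'
        refine ⟨c • DD A (p ^ r - p ^ (s + 1)) l, ?_, ?_⟩
        · apply Submodule.smul_mem
          rcases Nat.lt_or_ge (s + 1) r with h | h
          · exact (DD_top_split hr A h0 hA (s + 1) h).2 l
          · have : s + 1 = r := by omega
            rw [this]; exact J649_top A _
        · rw [hl, hc, LinearMap.smul_apply, Module.End.mul_apply, map_smul]
      · intro m hm hXm hDm
        have hms := J649_mem_of A s m hm hXm
        obtain ⟨c, hc, hmc⟩ := ih (by omega) m hms hDm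
        exact ⟨c, J649_mono A s c hc, hc s le_rfl hs', hmc⟩
  intro m hm
  obtain ⟨c, -, hc⟩ := main r hr1 le_rfl m (J649_top A m) hm
  exact ⟨c, hc⟩

end Pool.Agent.Helper495_SP
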