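import Mathlib
import Pool.Agent.Helper495_SP.Defs
import Pool.Agent.Helper495_SP.J09
import Pool.Agent.Helper495_SP.T01
import Pool.Agent.Helper495_SP.T02
import Pool.Agent.Helper495_SP.T03a
import Pool.Agent.Helper495_SP.T03b
import Pool.Agent.Helper495_SP.T03c
set_option autoImplicit false

namespace Pool.Agent.Helper495_SP
open scoped Classical
open Polynomial
variable {F : Type*} [Field F] [Fintype F] {V : Type*} [AddCommGroup V] [Module F V]

theorem r_pos {p r : ℕ} (hr : Fintype.card F = p ^ r) : 0 < r := by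
  rcases Nat.eq_zero_or_pos r with h | h
  · subst h
    have h1 := Fintype.one_lt_card (α := F)
    rw [hr, pow_zero] at h1
    omega
  · exact h

theorem DD_comm (A : F → Module.End F V) (h0 : A 0 = 1) (hA : ∀ a b, A (a + b) = A a * A b)
    (i j : ℕ) (hi : i < Fintype.card F) (hj : j < Fintype.card F) :
    Commute (DD A i) (DD A j) := by
  unfold Commute SemiconjBy
  rw [DD_mul A h0 hA i j hi hj, DD_mul A h0 hA j i hj hi, add_comm j i]
  split_ifs with h
  · congr 2
    rw [Nat.choose_symm_add]
  · rfl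

theorem DD_comm_v (A : F → Module.End F V) (v : Module.End F V) (hv : ∀ a, Commute (A a) v)
    (i : ℕ) : Commute (DD A i) v := by
  unfold DD
  split_ifs with h
  · exact Commute.one_left v
  · refine Commute.neg_left (Commute.sum_left _ _ _ fun a _ => ?_)
    exact (hv a).smul_left _

theorem DD_sigma (A : F → Module.End F V) (s : F) (hs : s ≠ 0) (σ : Module.End F V)
    (hσ : ∀ a, σ * A a = A (s * a) * σ) (i : ℕ) (hi : i < Fintype.card F) :
    σ * DD A i = s ^ i • (DD A i * σ) := by
  unfold DD
  split_ifs with h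
  · subst h; simp
  · rw [mul_neg, Finset.mul_sum, neg_mul, Finset.sum_mul, smul_neg, Finset.smul_sum]
    congr 1
    symm
    refine Fintype.sum_equiv (Equiv.mulLeft₀ s hs).symm _ _ fun a => ?_
    have e1 : (Equiv.mulLeft₀ s hs).symm a = s⁻¹ * a := rfl
    rw [e1, mul_smul_comm, hσ, smul_mul_assoc, smul_smul]
    have e2 : s * (s⁻¹ * a) = a := by rw [← mul_assoc, mul_inv_cancel₀ hs, one_mul]
    rw [e2]
    congr 1
    rw [mul_pow]
    congr 1
    have h1 : s ^ (Fintype.card F - 1) = 1 := FiniteField.pow_card_sub_one_eq_one s hs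
    have h2 : s ^ i * s ^ (Fintype.card F - 1 - i) = 1 := by
      rw [← pow_add, ← h1]; congr 1; omega
    rw [inv_pow]
    exact eq_inv_of_mul_eq_one_left h2

theorem coe_pow_restrict {S : Submodule F V} (f : Module.End F V) (hf : ∀ x ∈ S, f x ∈ S)
    (n : ℕ) (m : S) : (((f.restrict hf) ^ n) m : V) = (f ^ n) m := by
  induction n with
  | zero => simp
  | succ n ih =>
    rw [pow_succ', pow_succ', Module.End.mul_apply, Module.End.mul_apply, LinearMap.restrict_apply]
    simp only [ih]

/-- the polynomial -/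
noncomputable def gam (F : Type*) [Field F] (p : ℕ) : F[X] :=
  ∑ i ∈ Finset.range (p - 1), C (((i + 1).factorial : F)⁻¹) * X ^ i

theorem gam_aeval {p : ℕ} {E : Type*} [Ring E] [Algebra F E] (x : E) :
    aeval x (X * gam F p) =
      ∑ i ∈ Finset.range (p - 1), (((i + 1).factorial : F)⁻¹) • x ^ (i + 1) := by
  unfold gam
  rw [map_mul, aeval_X, map_sum, Finset.mul_sum]
  refine Finset.sum_congr rfl fun i _ => ?_
  rw [map_mul, aeval_C, map_pow, aeval_X, ← Algebra.smul_def, mul_smul_comm, pow_succ']

theorem gam_pow {p : ℕ} [hp : Fact p.Prime] [CharP F p] {E : Type*} [Ring E] [Algebra F E] (x : E)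
    (hx : x ^ p = 0) : aeval x (gam F p ^ p) = 1 := by
  unfold gam
  rw [sum_pow_char, map_sum]
  have hp1 := hp.out.one_lt
  rw [Finset.sum_eq_single 0]
  · simp
  · intro i _ hi
    have h1 : (C (((i + 1).factorial : F)⁻¹) * X ^ i : F[X]) ^ p =
        C ((((i + 1).factorial : F)⁻¹) ^ p) * (X ^ p) ^ i := by
      rw [mul_pow, ← C_pow, ← pow_mul, ← pow_mul, mul_comm i p]
    rw [h1, map_mul, map_pow (aeval x) (X ^ p) i, map_pow (aeval x) X p, aeval_X, hx, zero_pow hi,
      mul_zero]
  · intro h
    exfalso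
    apply h
    rw [Finset.mem_range]
    omega

theorem base_ti {p r : ℕ} [Fact p.Prime] [CharP F p] (hr : Fintype.card F = p ^ r)
    [FiniteDimensional F V]
    (A : F → Module.End F V) (h0 : A 0 = 1) (hA : ∀ a b, A (a + b) = A a * A b)
    (hproj : ∀ m, (∀ a, A a m = m) → ∃ b, m = ∑ a : F, A a b)
    (v : Module.End F V) (hv : ∀ a, Commute (A a) v) (hvp : v ^ p = 1)
    (s : F) (hs : s ≠ 0) (σ : Module.End F V) (hσ : ∀ a, σ * A a = A (s * a) * σ)
    (hσv : Commute σ v)
    (hσe : ∀ m, (∀ a, A a m = m) → v m = m → (σ ^ orderOf s) m = m)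
    (h5 : ∀ m, (∀ a, A a m = m) → v m = m → σ m = m → ∃ b, v b = b ∧ m = ∑ a : F, A a b) :
    ∀ m ∈ SS p r A 1, (v - A 1) m = 0 → ∃ c ∈ SS p r A 1, m = ((v - A 1) ^ (p - 1)) c := by
  have hp : p.Prime := Fact.out
  have hr0 := r_pos hr
  have hp1 := hp.one_lt
  have hq1 := Fintype.one_lt_card (α := F)
  have hpj : ∀ j, j < r → p ^ j < Fintype.card F := fun j hj => by
    rw [hr]; exact Nat.pow_lt_pow_right hp1 hj
  -- invariance
  have invX : ∀ m ∈ SS p r A 1, DD A 1 m ∈ SS p r A 1 := by
    intro m hm j h1 h2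
    have hc := DD_comm A h0 hA (p ^ j) 1 (hpj j h2) hq1
    have := LinearMap.congr_fun hc.eq m
    rw [Module.End.mul_apply, Module.End.mul_apply, hm j h1 h2, map_zero] at this
    exact this
  have invv : ∀ m ∈ SS p r A 1, (v - 1) m ∈ SS p r A 1 := by
    intro m hm j h1 h2
    have hc := (DD_comm_v A v hv (p ^ j)).sub_right (Commute.one_right (DD A (p ^ j)))
    have := LinearMap.congr_fun hc.eq m
    rw [Module.End.mul_apply, Module.End.mul_apply, hm j h1 h2, map_zero] at this
    exact this
  have invσ : ∀ m ∈ SS p r A 1, σ m ∈ SS p r A 1 := by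
    intro m hm j h1 h2
    have hc := LinearMap.congr_fun (DD_sigma A s hs σ hσ (p ^ j) (hpj j h2)) m
    rw [Module.End.mul_apply, hm j h1 h2, map_zero, LinearMap.smul_apply,
      Module.End.mul_apply] at hc
    exact (smul_eq_zero.1 hc.symm).resolve_left (pow_ne_zero _ hs)
  -- fixed points
  have fixA : ∀ m ∈ SS p r A 1, DD A 1 m = 0 → ∀ a, A a m = m := by
    intro m hm h1 a
    have hm0 : m ∈ SS p r A 0 := by
      intro j _ h2
      rcases Nat.eq_zero_or_pos j with h | h
      · subst h; rw [pow_zero]; exact h1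
      · exact hm j h h2
    have h2 := LinearMap.congr_fun (DD_expand A h0 a) m
    rw [LinearMap.sum_apply, Finset.sum_eq_single 0] at h2
    · rw [h2]; simp [DD]
    · intro i hi hi0
      rw [LinearMap.smul_apply, DD_zero_of_mem hr A h0 hA 0 m hm0 i (by
        rw [pow_zero]; omega) (Finset.mem_range.1 hi), smul_zero]
    · intro h; exfalso; apply h; rw [Finset.mem_range]; omega
  -- the sum of all `A a`
  obtain ⟨⟨c₀, hc₀⟩, -⟩ := DD_top_split hr A h0 hA 0 hr0
  have hsum : ∀ b, (∑ a : F, A a b) =
      ((DD A 1) ^ (p - 1)) ((-c₀) • DD A (p ^ r - p ^ 1) b) := by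
    intro b
    have h1 : (∑ a : F, A a b) = - DD A (p ^ r - p ^ 0) b := by
      have h2 : p ^ r - p ^ 0 ≠ 0 := by rw [← hr, pow_zero]; omega
      unfold DD
      rw [if_neg h2, LinearMap.neg_apply, neg_neg, LinearMap.sum_apply]
      refine Finset.sum_congr rfl fun a _ => ?_
      rw [← hr, pow_zero, Nat.sub_self, pow_zero, one_smul]
    rw [h1, hc₀, LinearMap.smul_apply, Module.End.mul_apply, pow_zero, map_smul, neg_smul]
  have hmemT : ∀ b, (-c₀) • DD A (p ^ r - p ^ 1) b ∈ SS p r A 1 := by
    intro b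
    refine Submodule.smul_mem _ _ ?_
    rcases Nat.lt_or_ge 1 r with h | h
    · exact (DD_top_split hr A h0 hA 1 h).2 b
    · intro j h1 h2; omega
  set S := SS p r A 1 with hS
  set XS : Module.End F S := (DD A 1).restrict invX with hXS
  set YS : Module.End F S := (v - 1).restrict invv with hYS
  set sS : Module.End F S := σ.restrict invσ with hsS
  have hXSp : XS ^ p = 0 := by
    ext m
    rw [coe_pow_restrict]
    have := (DD_pow_p hr A h0 hA 0 hr0).1
    rw [pow_zero] at this
    rw [this]; simp
  have hvp' : (v - 1) ^ p = 0 := by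
    have h1 : ((X : F[X]) - 1) ^ p = X ^ p - 1 := by
      rw [sub_pow_char, one_pow]
    have h2 := congrArg (aeval v) h1
    simp only [map_pow, map_sub, aeval_X, map_one] at h2
    rw [h2, hvp, sub_self]
  have hDX : ∀ i, i < p → DD A i = ((i.factorial : F)⁻¹) • (DD A 1) ^ i := by
    intro i hi
    have h1 := (DD_pow_p hr A h0 hA 0 hr0).2 i hi
    rw [pow_zero, mul_one] at h1
    have h2 : (i.factorial : F) ≠ 0 := by
      rw [Ne, CharP.cast_eq_zero_iff F p]
      intro h3
      exact absurd ((hp.dvd_factorial).1 h3) (by omega)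
    rw [h1, smul_smul, inv_mul_cancel₀ h2, one_smul]
  have hA1 : ∀ m ∈ S, A 1 m = m +
      ∑ i ∈ Finset.range (p - 1), (((i + 1).factorial : F)⁻¹) • ((DD A 1) ^ (i + 1)) m := by
    intro m hm
    have h2 := LinearMap.congr_fun (DD_expand A h0 1) m
    rw [LinearMap.sum_apply] at h2
    have h3 : ∑ i ∈ Finset.range (Fintype.card F), ((1 : F) ^ i • DD A i) m =
        ∑ i ∈ Finset.range p, DD A i m := by
      have hsub : Finset.range p ⊆ Finset.range (Fintype.card F) := by
        intro i hi
        rw [Finset.mem_range] at hi ⊢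
        rw [hr]
        exact lt_of_lt_of_le hi (Nat.le_self_pow hr0.ne' p)
      rw [← Finset.sum_subset hsub]
      · refine Finset.sum_congr rfl fun i _ => ?_
        rw [one_pow, one_smul]
      · intro i hi hi'
        rw [Finset.mem_range] at hi hi'
        rw [one_pow, one_smul]
        exact DD_zero_of_mem hr A h0 hA 1 m hm i (by rw [pow_one]; omega) hi
    rw [h2, h3]
    obtain ⟨t, ht⟩ : ∃ t, p = t + 1 := ⟨p - 1, by omega⟩
    have ht' : p - 1 = t := by omega
    rw [ht', ht, Finset.sum_range_succ', add_comm]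
    congr 1
    refine Finset.sum_congr rfl fun i hi => ?_
    rw [Finset.mem_range] at hi
    rw [hDX (i + 1) (by omega), LinearMap.smul_apply]
  have hcoe : ∀ m : S, ((v - A 1) (m : V)) = ((YS - aeval XS (X * gam F p)) m : S) := by
    intro m
    have e1 : (((YS - aeval XS (X * gam F p)) m : S) : V) = (v - 1) (m : V) -
        ∑ i ∈ Finset.range (p - 1), (((i + 1).factorial : F)⁻¹) • ((DD A 1) ^ (i + 1)) (m : V) := by
      rw [LinearMap.sub_apply, Submodule.coe_sub, gam_aeval, LinearMap.sum_apply,
        Submodule.coe_sum]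
      congr 1
      refine Finset.sum_congr rfl fun i _ => ?_
      rw [LinearMap.smul_apply, Submodule.coe_smul, coe_pow_restrict]
    rw [e1, LinearMap.sub_apply, hA1 m m.2, LinearMap.sub_apply, Module.End.one_apply]
    abel
  have hcoepow : ∀ (n : ℕ) (m : S), (((v - A 1) ^ n) (m : V)) =
      (((YS - aeval XS (X * gam F p)) ^ n) m : S) := by
    intro n
    induction n with
    | zero => intro m; simp
    | succ n ih =>
      intro m
      rw [pow_succ', pow_succ', Module.End.mul_apply, Module.End.mul_apply, ih, hcoe]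
  have hsσX : ∀ m : V, σ (DD A 1 m) = s • DD A 1 (σ m) := by
    intro m
    have := LinearMap.congr_fun (DD_sigma A s hs σ hσ 1 hq1) m
    rw [pow_one, Module.End.mul_apply, LinearMap.smul_apply, Module.End.mul_apply] at this
    exact this
  have hfin : 0 < orderOf s := by
    rw [orderOf_pos_iff, isOfFinOrder_iff_pow_eq_one]
    exact ⟨Fintype.card F - 1, by omega, FiniteField.pow_card_sub_one_eq_one s hs⟩
  have hcop : p.Coprime (orderOf s) := by
    have h1 : orderOf s ∣ Fintype.card F - 1 :=
      orderOf_dvd_of_pow_eq_one (FiniteField.pow_card_sub_one_eq_one s hs)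
    have h2 : p ∣ Fintype.card F := by rw [hr]; exact dvd_pow_self p hr0.ne'
    rw [hp.coprime_iff_not_dvd]
    intro h3
    have h4 := h3.trans h1
    have h5 : p ∣ 1 := by
      have h6 := Nat.dvd_sub h2 h4
      have h7 : Fintype.card F - (Fintype.card F - 1) = 1 := by omega
      rwa [h7] at h6
    exact hp.one_lt.ne' (Nat.dvd_one.1 h5)
  have key := aot (k := F) (V := S) p p hp hp1.le XS YS
    (by
      unfold Commute SemiconjBy
      ext m
      have hc := (DD_comm_v A v hv 1).sub_right (Commute.one_right (DD A 1))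
      exact LinearMap.congr_fun hc.eq (m : V))
    hXSp
    (by
      ext m
      rw [coe_pow_restrict, hvp']; simp)
    (by
      intro m hm
      have hm' : DD A 1 (m : V) = 0 := congrArg Subtype.val hm
      obtain ⟨b, hb⟩ := hproj m (fixA m m.2 hm')
      rw [hsum] at hb
      refine ⟨⟨_, hmemT b⟩, ?_⟩
      apply Subtype.ext
      rw [coe_pow_restrict]
      exact hb)
    (X * gam F p) (gam F p ^ p) (Dvd.intro _ rfl) (mul_pow _ _ _) (gam_pow XS hXSp)
    sS (s • (1 : Module.End F S)) s (orderOf s) hfin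
    ((IsPrimitiveRoot.orderOf s).pow_of_coprime p hcop)
    (by
      unfold Commute SemiconjBy
      ext m
      have hc := hσv.sub_right (Commute.one_right σ)
      exact LinearMap.congr_fun hc.eq (m : V))
    (by
      ext m
      have := hsσX (m : V)
      simpa [hXS, hsS, LinearMap.restrict_apply] using this)
    ((Commute.one_left XS).smul_left s)
    ((Commute.one_left YS).smul_left s)
    (by
      intro m _
      simp)
    (by
      intro m hm
      have hm' : DD A 1 (m : V) = 0 := congrArg Subtype.val hm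
      apply Subtype.ext
      change DD A 1 (σ (m : V)) = 0
      have h1 := hsσX (m : V)
      rw [hm', map_zero] at h1
      exact (smul_eq_zero.1 h1.symm).resolve_left hs)
    (by
      intro m hm hy
      have hm' : DD A 1 (m : V) = 0 := congrArg Subtype.val hm
      have hy' : (v - 1) (m : V) = 0 := congrArg Subtype.val hy
      rw [LinearMap.sub_apply, Module.End.one_apply, sub_eq_zero] at hy'
      apply Subtype.ext
      rw [coe_pow_restrict]
      exact hσe m (fixA m m.2 hm') hy')
    (by
      intro m hm hy hσm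
      have hm' : DD A 1 (m : V) = 0 := congrArg Subtype.val hm
      have hy' : (v - 1) (m : V) = 0 := congrArg Subtype.val hy
      have hσm' : σ (m : V) = m := congrArg Subtype.val hσm
      rw [LinearMap.sub_apply, Module.End.one_apply, sub_eq_zero] at hy'
      obtain ⟨b, hb, hb'⟩ := h5 m (fixA m m.2 hm') hy' hσm'
      rw [hsum] at hb'
      refine ⟨⟨_, hmemT b⟩, ?_, ?_⟩
      · apply Subtype.ext
        rw [coe_pow_restrict]
        exact hb'
      · apply Subtype.ext
        change (v - 1) ((-c₀) • DD A (p ^ r - p ^ 1) b) = 0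
        have h1 := LinearMap.congr_fun (DD_comm_v A v hv (p ^ r - p ^ 1)).eq b
        rw [Module.End.mul_apply, Module.End.mul_apply, hb] at h1
        rw [LinearMap.sub_apply, Module.End.one_apply, map_smul, ← h1, sub_self])
  intro m hm hm0
  have h1 := hcoe ⟨m, hm⟩
  have h2 : (YS - aeval XS (X * gam F p)) ⟨m, hm⟩ = 0 := by
    apply Subtype.ext
    rw [← h1]
    exact hm0
  rw [LinearMap.sub_apply, sub_eq_zero] at h2
  obtain ⟨c, hc⟩ := key ⟨m, hm⟩ h2
  refine ⟨c, c.2, ?_⟩
  rw [hcoepow, ← hc]

end Pool.Agent.Helper495_SP
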