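import Mathlib
import Pool.Agent.Helper495_SP.Defs
import Pool.Agent.Helper495_SP.J14
import Pool.Agent.Helper495_SP.T04
import Pool.Agent.Helper495_SP.T05
set_option autoImplicit false
namespace Pool.Agent.Helper495_SP
open scoped Classical
open Polynomial

section
variable {F : Type*} [Field F] [Fintype F] {V : Type*} [AddCommGroup V] [Module F V]
end

theorem t06_sum {F : Type*} [Field F] [Fintype F] {G : Type*} [Group G] [Fintype G]
    {V : Type*} [AddCommGroup V] (φ : Multiplicative F →* G) (hφ : Function.Injective φ)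
    {a : F} (ha : a ≠ 0) (f : G → V) :
    (∑ h : G, if h ∈ φ.range then f h else 0) =
      ∑ c : F, f (φ (Multiplicative.ofAdd (a * c))) := by
  classical
  rw [← Finset.sum_filter]
  symm
  refine Finset.sum_bij (fun c _ => φ (Multiplicative.ofAdd (a * c))) ?_ ?_ ?_ ?_
  · intro c _
    rw [Finset.mem_filter]
    exact ⟨Finset.mem_univ _, ⟨_, rfl⟩⟩
  · intro c _ d _ h
    have h1 := hφ h
    exact mul_left_cancel₀ ha (Multiplicative.ofAdd.injective h1)
  · intro h hh
    rw [Finset.mem_filter] at hh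
    obtain ⟨x, rfl⟩ := hh.2
    refine ⟨a⁻¹ * Multiplicative.toAdd x, Finset.mem_univ _, ?_⟩
    rw [mul_inv_cancel_left₀ ha, ofAdd_toAdd]
  · intro c _
    rfl

theorem t06_free {F : Type*} [Field F] [Fintype F] {p : ℕ} [Fact p.Prime] [CharP F p]
    {G : Type*} [Group G] [Fintype G] (φ : Multiplicative F →* G) (_hφ : Function.Injective φ)
    (hSyl : ¬ p ∣ φ.range.index)
    (hC : ∀ a : F, a ≠ 0 → ∀ g, Commute g (φ (Multiplicative.ofAdd a)) → g ∈ φ.range) :
    ∀ g, g ∉ Subgroup.normalizer (φ.range : Set G) → ∀ h ∈ φ.range,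
      g⁻¹ * h * g ∈ Subgroup.normalizer (φ.range : Set G) → h = 1 := by
  classical
  intro g hg h hh hz
  by_contra hne
  apply hg
  set P := φ.range with hP
  set N := Subgroup.normalizer (P : Set G) with hN
  have hppow : ∀ y ∈ P, y ^ p = 1 := by
    rintro _ ⟨x, rfl⟩
    rw [← map_pow]
    have : x ^ p = 1 := by
      have h1 : Multiplicative.ofAdd (p • Multiplicative.toAdd x) = x ^ p := by
        rw [ofAdd_nsmul, ofAdd_toAdd]
      rw [← h1, nsmul_eq_mul, CharP.cast_eq_zero, zero_mul, ofAdd_zero]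
    rw [this, map_one]
  have hPcomm : ∀ y ∈ P, ∀ z ∈ P, y * z = z * y := by
    rintro _ ⟨x, rfl⟩ _ ⟨y, rfl⟩
    rw [← map_mul, ← map_mul, mul_comm]
  set z := g⁻¹ * h * g with hzdef
  have hzp : z ^ p = 1 := by
    have : z ^ p = g⁻¹ * h ^ p * g := by
      have h1 := conj_pow (i := p) (a := g⁻¹) (b := h)
      rw [inv_inv] at h1
      exact h1
    rw [this, hppow h hh, mul_one, inv_mul_cancel]
  have hPN : P ≤ N := Subgroup.le_normalizer
  have hrel : ¬ p ∣ P.relIndex N := by
    intro hcon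
    apply hSyl
    rw [← Subgroup.relIndex_mul_index hPN]
    exact hcon.mul_right _
  have hnorm : (P.subgroupOf N).Normal := Subgroup.normal_in_normalizer
  have hzP : z ∈ P := by
    have h1 : (QuotientGroup.mk' (P.subgroupOf N) ⟨z, hz⟩) ^ p = 1 := by
      rw [← map_pow]
      have : (⟨z, hz⟩ : N) ^ p = 1 := by
        apply Subtype.ext
        exact hzp
      rw [this, map_one]
    have h2 : orderOf (QuotientGroup.mk' (P.subgroupOf N) ⟨z, hz⟩) ∣ p := orderOf_dvd_of_pow_eq_one h1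
    have h3 : orderOf (QuotientGroup.mk' (P.subgroupOf N) ⟨z, hz⟩) ∣ P.relIndex N := by
      have := orderOf_dvd_natCard (QuotientGroup.mk' (P.subgroupOf N) ⟨z, hz⟩)
      exact this
    have hpp : p.Prime := Fact.out
    rcases (Nat.dvd_prime hpp).1 h2 with h4 | h4
    · rw [orderOf_eq_one_iff] at h4
      have h5 := (QuotientGroup.eq_one_iff (N := P.subgroupOf N) (⟨z, hz⟩ : N)).1 h4
      exact Subgroup.mem_subgroupOf.1 h5
    · rw [h4] at h3
      exact absurd h3 hrel
  have hz1 : z ≠ 1 := by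
    intro hcon
    apply hne
    have : h = g * z * g⁻¹ := by rw [hzdef]; group
    rw [this, hcon, mul_one, mul_inv_cancel]
  have hcent : ∀ y ∈ P, y ≠ 1 → ∀ x, x * y = y * x → x ∈ P := by
    rintro _ ⟨w, rfl⟩ hy x hx
    refine hC (Multiplicative.toAdd w) ?_ x ?_
    · intro hcon
      apply hy
      have : w = 1 := by
        rw [← ofAdd_toAdd w, hcon, ofAdd_zero]
      rw [this, map_one]
    · rw [ofAdd_toAdd]
      exact hx
  rw [hN, Subgroup.mem_normalizer_iff]
  intro y
  have hgz : g * z * g⁻¹ = h := by rw [hzdef]; group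
  constructor
  · intro hy
    refine hcent h hh hne _ ?_
    have h1 := hPcomm y hy z hzP
    rw [← hgz]
    calc g * y * g⁻¹ * (g * z * g⁻¹) = g * (y * z) * g⁻¹ := by group
      _ = g * (z * y) * g⁻¹ := by rw [h1]
      _ = g * z * g⁻¹ * (g * y * g⁻¹) := by group
  · intro hy
    refine hcent z hzP hz1 _ ?_
    have h1 := hPcomm _ hy h hh
    rw [← hgz] at h1
    have h2 : g * (y * z) * g⁻¹ = g * (z * y) * g⁻¹ := by
      calc g * (y * z) * g⁻¹ = g * y * g⁻¹ * (g * z * g⁻¹) := by group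
        _ = g * z * g⁻¹ * (g * y * g⁻¹) := h1
        _ = g * (z * y) * g⁻¹ := by group
    exact mul_left_cancel (mul_right_cancel h2)

theorem local_ti {F : Type*} [Field F] [Fintype F] {p : ℕ} [Fact p.Prime] [CharP F p]
    {G : Type*} [Group G] [Fintype G] {V : Type*} [AddCommGroup V] [Module F V]
    [FiniteDimensional F V] (ρ : G →* Module.End F V) (v : Module.End F V)
    (hv : ∀ g, Commute (ρ g) v) (φ : Multiplicative F →* G) (hφ : Function.Injective φ)
    (hSyl : ¬ p ∣ φ.range.index)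
    (hC : ∀ a : F, a ≠ 0 → ∀ g, Commute g (φ (Multiplicative.ofAdd a)) → g ∈ φ.range)
    (s : F) (hs : s ≠ 0) (σ : G)
    (hσ : ∀ a : F, σ * φ (Multiplicative.ofAdd a) * σ⁻¹ = φ (Multiplicative.ofAdd (s * a)))
    (hN : ∀ g, (∀ a, g * φ a * g⁻¹ ∈ φ.range) → ∃ (j : ℕ) (b : Multiplicative F), g = σ ^ j * φ b)
    (hproj : ∀ m, (∀ h ∈ φ.range, ρ h m = m) →
      ∃ b, m = ∑ h : G, if h ∈ φ.range then ρ h b else 0)
    (hG : ∀ m, (∀ g, ρ g m = m) → m = 0) (hvp : v ^ p = 1) (a : F) (ha : a ≠ 0) :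
    ∀ m, v m = ρ (φ (Multiplicative.ofAdd a)) m →
      ∃ c, m = ((v - ρ (φ (Multiplicative.ofAdd a))) ^ (p - 1)) c := by
  classical
  obtain ⟨n, _, hr⟩ := FiniteField.card F p
  set A : F → Module.End F V := fun b => ρ (φ (Multiplicative.ofAdd (a * b))) with hAdef
  have h0 : A 0 = 1 := by
    simp only [hAdef, mul_zero, ofAdd_zero, map_one]
  have hA : ∀ b c, A (b + c) = A b * A c := by
    intro b c
    simp only [hAdef, mul_add, ofAdd_add, map_mul]
  have hA1 : A 1 = ρ (φ (Multiplicative.ofAdd a)) := by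
    simp only [hAdef, mul_one]
  have hfix : ∀ m, (∀ b, A b m = m) → ∀ h ∈ φ.range, ρ h m = m := by
    rintro m hm _ ⟨x, rfl⟩
    have h1 := hm (a⁻¹ * Multiplicative.toAdd x)
    simp only [hAdef, mul_inv_cancel_left₀ ha, ofAdd_toAdd] at h1
    exact h1
  have hprojA : ∀ m, (∀ b, A b m = m) → ∃ b, m = ∑ c : F, A c b := by
    intro m hm
    obtain ⟨b, hb⟩ := hproj m (hfix m hm)
    refine ⟨b, ?_⟩
    rw [hb]
    exact t06_sum φ hφ ha (fun h => ρ h b)
  have hvA : ∀ b, Commute (A b) v := fun b => hv _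
  have hA1p : (A 1) ^ p = 1 := by
    rw [hA1, ← map_pow, ← map_pow, ← ofAdd_nsmul, nsmul_eq_mul, CharP.cast_eq_zero, zero_mul,
      ofAdd_zero, map_one, map_one]
  have hDp : (v - A 1) ^ p = 0 := by
    rcases subsingleton_or_nontrivial V with hV | hV
    · exact Subsingleton.elim _ _
    · have : CharP (Module.End F V) p :=
        charP_of_injective_algebraMap (algebraMap F (Module.End F V)).injective p
      rw [sub_pow_char_of_commute p (hvA 1).symm, hvp, hA1p, sub_self]
  have hσA : ∀ b, ρ σ * A b = A (s * b) * ρ σ := by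
    intro b
    simp only [hAdef]
    rw [← map_mul, ← map_mul]
    have h1 := hσ (a * b)
    rw [mul_inv_eq_iff_eq_mul] at h1
    rw [h1]
    congr 4
    ring
  have hσe : ∀ m, (∀ b, A b m = m) → v m = m → (ρ σ ^ orderOf s) m = m := by
    intro m hm _
    rw [← map_pow]
    refine hfix m hm _ (hC a ha _ ?_)
    have h1 : ∀ j : ℕ, ∀ x : F, σ ^ j * φ (Multiplicative.ofAdd x) * (σ ^ j)⁻¹ =
        φ (Multiplicative.ofAdd (s ^ j * x)) := by
      intro j
      induction j with
      | zero => intro x; simp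
      | succ j ih =>
        intro x
        have h2 : σ ^ (j + 1) * φ (Multiplicative.ofAdd x) * (σ ^ (j + 1))⁻¹ =
            σ ^ j * (σ * φ (Multiplicative.ofAdd x) * σ⁻¹) * (σ ^ j)⁻¹ := by
          rw [pow_succ]; group
        rw [h2, hσ, ih, pow_succ, mul_assoc]
    have h2 := h1 (orderOf s) a
    rw [pow_orderOf_eq_one, one_mul, mul_inv_eq_iff_eq_mul] at h2
    exact h2
  have h5 : ∀ m, (∀ b, A b m = m) → v m = m → ρ σ m = m →
      ∃ b, v b = b ∧ m = ∑ c : F, A c b := by
    intro m hm hvm hσm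
    have hpow : ∀ j : ℕ, ρ (σ ^ j) m = m := by
      intro j
      induction j with
      | zero => simp
      | succ j ih => rw [pow_succ, map_mul, Module.End.mul_apply, hσm, ih]
    obtain ⟨b, hb1, hb2⟩ := free_orbit ρ φ.range (Subgroup.normalizer (φ.range : Set G))
      Subgroup.le_normalizer (t06_free φ hφ hSyl hC) hG v hv m (by
        intro g hg
        obtain ⟨j, b, rfl⟩ := hN g (fun x => (Subgroup.mem_normalizer_iff.1 hg _).1 ⟨x, rfl⟩)
        rw [map_mul, Module.End.mul_apply, hfix m hm _ ⟨b, rfl⟩, hpow]) hvm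
    refine ⟨b, hb1, ?_⟩
    rw [hb2]
    refine Eq.trans ?_ (t06_sum φ hφ ha (fun h => ρ h b))
    refine Finset.sum_congr rfl fun h _ => ?_
    congr
  have key := chain_ti hr A h0 hA hprojA (v - A 1)
    (fun b => (hvA b).sub_right (by
      change A b * A 1 = A 1 * A b
      rw [← hA, ← hA, add_comm])) hDp
    (base_ti hr A h0 hA hprojA v hvA hvp s hs (ρ σ) hσA (hv σ) hσe h5)
  rw [hA1] at key
  intro m hm
  refine key m ?_
  rw [LinearMap.sub_apply, hm, sub_self]

end Pool.Agent.Helper495_SP
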