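import Mathlib
import Pool.Agent.Helper495_SP.J05
import Pool.Agent.Helper495_SP.J15
import Pool.Agent.Helper495_SP.T06
set_option autoImplicit false
namespace Pool.Agent.Helper495_SP
open scoped Classical
open Polynomial

namespace TraceTi256

open MonoidAlgebra

/-- The right fixed points of an element. -/
def fixR {G : Type*} [Group G] (k : Type*) [CommRing k] (e : MonoidAlgebra k G) :
    Submodule k (MonoidAlgebra k G) where
  carrier := {m | m * e = m}
  add_mem' := by
    intro a b ha hb
    change (a + b) * e = a + b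
    rw [add_mul, show a * e = a from ha, show b * e = b from hb]
  zero_mem' := by
    change (0 : MonoidAlgebra k G) * e = 0
    rw [zero_mul]
  smul_mem' := by
    intro c m hm
    change (c • m) * e = c • m
    rw [smul_mul_assoc, show m * e = m from hm]

theorem mem_fixR {G : Type*} [Group G] {k : Type*} [CommRing k] {e m : MonoidAlgebra k G} :
    m ∈ fixR k e ↔ m * e = m := Iff.rfl

/-- The twisted multiplication operator. -/
noncomputable def Dk {G : Type*} [Group G] {k : Type*} [CommRing k] (x : G)
    (v : MonoidAlgebra k G) : Module.End k (MonoidAlgebra k G) :=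
  LinearMap.mulLeft k (single x⁻¹ (1 : k)) * LinearMap.mulRight k v

theorem Dk_apply {G : Type*} [Group G] {k : Type*} [CommRing k] (x : G)
    (v m : MonoidAlgebra k G) : Dk x v m = single x⁻¹ (1 : k) * (m * v) := rfl

theorem Dk_mem {G : Type*} [Group G] {k : Type*} [CommRing k] (x : G)
    {e v : MonoidAlgebra k G} (hev : Commute e v) {m : MonoidAlgebra k G}
    (hm : m ∈ fixR k e) : Dk x v m ∈ fixR k e := by
  rw [mem_fixR] at hm ⊢
  rw [Dk_apply, mul_assoc, mul_assoc, ← hev.eq, ← mul_assoc m e v, hm]

/-- The restricted operator. -/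
noncomputable def dk {G : Type*} [Group G] {k : Type*} [CommRing k] (x : G)
    {e v : MonoidAlgebra k G} (hev : Commute e v) : Module.End k (fixR k e) :=
  (Dk x v).restrict (fun _ hm => Dk_mem x hev hm)

theorem coe_dk {G : Type*} [Group G] {k : Type*} [CommRing k] (x : G)
    {e v : MonoidAlgebra k G} (hev : Commute e v) (m : fixR k e) :
    ((dk x hev m : fixR k e) : MonoidAlgebra k G) = Dk x v m := rfl

theorem coe_dk_pow {G : Type*} [Group G] {k : Type*} [CommRing k] (x : G)
    {e v : MonoidAlgebra k G} (hev : Commute e v) (n : ℕ) (m : fixR k e) :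
    (((dk x hev ^ n) m : fixR k e) : MonoidAlgebra k G) = (Dk x v ^ n) m := by
  induction n generalizing m with
  | zero => simp
  | succ n ih =>
    rw [pow_succ, pow_succ, Module.End.mul_apply, Module.End.mul_apply, ih, coe_dk]

theorem coe_dk_sub_pow {G : Type*} [Group G] {k : Type*} [CommRing k] (x : G)
    {e v : MonoidAlgebra k G} (hev : Commute e v) (n : ℕ) (m : fixR k e) :
    ((((dk x hev - 1) ^ n) m : fixR k e) : MonoidAlgebra k G) = ((Dk x v - 1) ^ n) m := by
  induction n generalizing m with
  | zero => simp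
  | succ n ih =>
    rw [pow_succ, pow_succ, Module.End.mul_apply, Module.End.mul_apply, ih]
    congr 1

theorem Dk_pow {G : Type*} [Group G] {k : Type*} [CommRing k] (x : G)
    (v : MonoidAlgebra k G) (n : ℕ) :
    Dk x v ^ n = LinearMap.mulLeft k (single (x⁻¹ ^ n) (1 : k)) * LinearMap.mulRight k (v ^ n) := by
  have hc : Commute (LinearMap.mulLeft k (single x⁻¹ (1 : k))) (LinearMap.mulRight k v) :=
    LinearMap.ext fun m => by
      simp only [Module.End.mul_apply, LinearMap.mulLeft_apply, LinearMap.mulRight_apply,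
        mul_assoc]
  rw [Dk, hc.mul_pow, LinearMap.pow_mulLeft, LinearMap.pow_mulRight, MonoidAlgebra.single_pow,
    one_pow]

theorem dk_pow_eq_one {G : Type*} [Group G] {k : Type*} [CommRing k] {x : G}
    {e v : MonoidAlgebra k G} (hev : Commute e v) {n : ℕ} (hx : x ^ n = 1) (hv : v ^ n = 1) :
    dk x hev ^ n = 1 := by
  refine LinearMap.ext fun m => Subtype.ext ?_
  rw [coe_dk_pow, Dk_pow, inv_pow, hx, inv_one, hv]
  simp only [Module.End.mul_apply, LinearMap.mulLeft_apply, LinearMap.mulRight_apply, mul_one,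
    Module.End.one_apply]
  rw [← MonoidAlgebra.one_def, one_mul]

theorem coeff_gen {G : Type*} [Group G] {k : Type*} [CommRing k] (x : MonoidAlgebra k G)
    (g h : G) (r : k) : (x * single g r).coeff h = x.coeff (h * g⁻¹) * r :=
  MonoidAlgebra.coeff_mul_single_eq_coeff_mul _ (fun m' _ => by
    constructor
    · rintro rfl
      group
    · rintro rfl
      group)

theorem coeff_gen' {G : Type*} [Group G] {k : Type*} [CommRing k] (x : MonoidAlgebra k G)
    (g h : G) (r : k) : (single g r * x).coeff h = r * x.coeff (g⁻¹ * h) :=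
  MonoidAlgebra.coeff_single_mul_eq_mul_coeff _ (fun m' _ => by
    constructor
    · rintro rfl
      group
    · rintro rfl
      group)

/-- Left fixed elements absorb the augmentation. -/
theorem fixed_mul {G : Type*} [Group G] {k : Type*} [CommRing k] (m : MonoidAlgebra k G)
    (hm : ∀ g : G, single g (1 : k) * m = m) (y : MonoidAlgebra k G) :
    m * y = m * single 1 (MonoidAlgebra.lift k k G (1 : G →* k) y) := by
  have hc : ∀ g h : G, m.coeff g = m.coeff h := by
    intro g h
    have h1 := congrArg (fun z => z.coeff h) (hm (h * g⁻¹))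
    simp only [coeff_gen', one_mul] at h1
    rw [← h1]
    congr 1
    group
  induction y using MonoidAlgebra.induction_linear with
  | zero => simp
  | add a b ha hb =>
    rw [mul_add, ha, hb, map_add, MonoidAlgebra.single_add, mul_add]
  | single g r =>
    rw [MonoidAlgebra.lift_single]
    ext h
    rw [coeff_gen, coeff_gen, hc (h * g⁻¹) (h * 1⁻¹)]
    simp

theorem aug_map {G : Type*} [Group G] {k l : Type*} [CommRing k] [CommRing l] (f : k →+* l)
    (y : MonoidAlgebra k G) :
    MonoidAlgebra.lift l l G (1 : G →* l) (mapRingHom G f y)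
      = f (MonoidAlgebra.lift k k G (1 : G →* k) y) := by
  induction y using MonoidAlgebra.induction_linear with
  | zero => simp
  | add a b ha hb => rw [map_add, map_add, ha, hb, map_add, map_add]
  | single g r => simp

/-- The operator identity behind the comparison of the two nilpotent operators. -/
theorem op_pow {G : Type*} [Group G] {k : Type*} [CommRing k] (x : G)
    (v : MonoidAlgebra k G) (n : ℕ) (c : MonoidAlgebra k G) :
    ((LinearMap.mulRight k v - LinearMap.mulLeft k (single x (1 : k))) ^ n :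
        Module.End k (MonoidAlgebra k G)) c
      = ((Dk x v - 1) ^ n) (single (x ^ n) (1 : k) * c) := by
  have h1 : (LinearMap.mulRight k v - LinearMap.mulLeft k (single x (1 : k)) :
      Module.End k (MonoidAlgebra k G)) = (Dk x v - 1) * LinearMap.mulLeft k (single x (1 : k)) := by
    refine LinearMap.ext fun m => ?_
    simp only [Module.End.mul_apply, LinearMap.mulLeft_apply, LinearMap.mulRight_apply,
      LinearMap.sub_apply, Module.End.one_apply, Dk_apply]
    rw [mul_assoc (single x (1 : k)), ← mul_assoc (single x⁻¹ (1 : k)), single_mul_single,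
      inv_mul_cancel, one_mul, ← one_def, one_mul]
  have hc : Commute (Dk x v - 1) (LinearMap.mulLeft k (single x (1 : k))) := by
    apply Commute.sub_left _ (Commute.one_left _)
    refine LinearMap.ext fun m => ?_
    simp only [Module.End.mul_apply, LinearMap.mulLeft_apply, Dk_apply]
    rw [mul_assoc (single x (1 : k)), ← mul_assoc (single x⁻¹ (1 : k)), single_mul_single,
      ← mul_assoc (single x (1 : k)), single_mul_single, inv_mul_cancel, mul_inv_cancel]
  rw [h1, hc.mul_pow, Module.End.mul_apply, LinearMap.pow_mulLeft, LinearMap.mulLeft_apply,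
    single_pow, one_pow]

/-- Descent along a linear retraction of the coefficient field. -/
theorem map_mul_right {G : Type*} [Group G] {k F : Type*} [CommRing k] [CommRing F]
    (i : k →+* F) (τ : F →+ k) (hτ : ∀ r s, τ (r * i s) = τ r * s)
    (m : MonoidAlgebra F G) (y : MonoidAlgebra k G) :
    MonoidAlgebra.map τ (m * mapRingHom G i y) = MonoidAlgebra.map τ m * y := by
  induction m using MonoidAlgebra.induction_linear with
  | zero => simp
  | add a b ha hb => rw [add_mul, MonoidAlgebra.map_add, ha, hb, MonoidAlgebra.map_add, add_mul]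
  | single g r =>
    induction y using MonoidAlgebra.induction_linear with
    | zero => simp
    | add a b ha hb => rw [map_add, mul_add, MonoidAlgebra.map_add, ha, hb, mul_add]
    | single h s =>
      rw [mapRingHom_single, single_mul_single, map_single, map_single, single_mul_single, hτ]

theorem map_mul_left {G : Type*} [Group G] {k F : Type*} [CommRing k] [CommRing F]
    (τ : F →+ k) (g : G) (m : MonoidAlgebra F G) :
    MonoidAlgebra.map τ (single g (1 : F) * m) = single g (1 : k) * MonoidAlgebra.map τ m := by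
  induction m using MonoidAlgebra.induction_linear with
  | zero => simp
  | add a b ha hb => rw [mul_add, MonoidAlgebra.map_add, ha, hb, MonoidAlgebra.map_add, mul_add]
  | single h r =>
    rw [single_mul_single, map_single, map_single, single_mul_single, one_mul, one_mul]

theorem map_iter {G : Type*} [Group G] {k F : Type*} [CommRing k] [CommRing F]
    (i : k →+* F) (τ : F →+ k) (hτ : ∀ r s, τ (r * i s) = τ r * s) (x : G)
    (v : MonoidAlgebra k G) (n : ℕ) (m : MonoidAlgebra F G) :
    MonoidAlgebra.map τ (((Dk x (mapRingHom G i v) - 1) ^ n) m)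
      = ((Dk x v - 1) ^ n) (MonoidAlgebra.map τ m) := by
  induction n generalizing m with
  | zero => simp
  | succ n ih =>
    rw [pow_succ, pow_succ, Module.End.mul_apply, Module.End.mul_apply, ih]
    congr 1
    simp only [LinearMap.sub_apply, Module.End.one_apply, Dk_apply]
    rw [MonoidAlgebra.map_sub, map_mul_left, map_mul_right i τ hτ]

end TraceTi256

open TraceTi256 MonoidAlgebra in
/-- The freeness statement over the field `F`. -/
theorem TraceTi256.freeF {F : Type*} [Field F] [Fintype F] {p : ℕ} [Fact p.Prime] [CharP F p]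
    {G : Type*} [Group G] [Fintype G]
    (φ : Multiplicative F →* G) (hφ : Function.Injective φ)
    (hSyl : ¬ p ∣ φ.range.index)
    (hC : ∀ a : F, a ≠ 0 → ∀ g, Commute g (φ (Multiplicative.ofAdd a)) → g ∈ φ.range)
    (s : F) (hs : s ≠ 0) (σ : G)
    (hσ : ∀ a : F, σ * φ (Multiplicative.ofAdd a) * σ⁻¹ = φ (Multiplicative.ofAdd (s * a)))
    (hN : ∀ g, (∀ a, g * φ a * g⁻¹ ∈ φ.range) → ∃ (j : ℕ) (b : Multiplicative F), g = σ ^ j * φ b)
    (e v : MonoidAlgebra F G) (he : e * e = e) (hev : Commute e v)
    (haug : MonoidAlgebra.lift F F G (1 : G →* F) e = 0)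
    (hvp : v ^ p = 1) (a : F) (ha : a ≠ 0) (m : MonoidAlgebra F G) (hm : m * e = m)
    (hmv : m * v = single (φ (Multiplicative.ofAdd a)) (1 : F) * m) :
    ∃ c : MonoidAlgebra F G, c * e = c ∧
      m = ((Dk (φ (Multiplicative.ofAdd a)) v - 1) ^ (p - 1)) c := by
  set x := φ (Multiplicative.ofAdd a) with hx
  -- the module of right fixed points
  let rho0 : G → Module.End F (fixR F e) := fun g =>
    (LinearMap.mulLeft F (single g (1 : F))).restrict (fun z hz => by
      rw [mem_fixR] at hz ⊢
      rw [LinearMap.mulLeft_apply, mul_assoc, hz])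
  have rho0_coe : ∀ g (z : fixR F e), ((rho0 g z : fixR F e) : MonoidAlgebra F G)
      = single g (1 : F) * (z : MonoidAlgebra F G) := fun _ _ => rfl
  let rho : G →* Module.End F (fixR F e) :=
    { toFun := rho0
      map_one' := by
        refine LinearMap.ext fun z => Subtype.ext ?_
        rw [rho0_coe, ← one_def, one_mul, Module.End.one_apply]
      map_mul' := by
        intro g h
        refine LinearMap.ext fun z => Subtype.ext ?_
        rw [rho0_coe, Module.End.mul_apply, rho0_coe, rho0_coe, ← mul_assoc, single_mul_single,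
          one_mul] }
  have rho_coe : ∀ g (z : fixR F e), ((rho g z : fixR F e) : MonoidAlgebra F G)
      = single g (1 : F) * (z : MonoidAlgebra F G) := fun _ _ => rfl
  let vV : Module.End F (fixR F e) := (LinearMap.mulRight F v).restrict (fun z hz => by
      rw [mem_fixR] at hz ⊢
      rw [LinearMap.mulRight_apply, mul_assoc, ← hev.eq, ← mul_assoc, hz])
  have vV_coe : ∀ z : fixR F e, ((vV z : fixR F e) : MonoidAlgebra F G)
      = (z : MonoidAlgebra F G) * v := fun _ => rfl
  have hcomm : ∀ g, Commute (rho g) vV := by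
    intro g
    refine LinearMap.ext fun z => Subtype.ext ?_
    rw [Module.End.mul_apply, Module.End.mul_apply, rho_coe, vV_coe, vV_coe, rho_coe, mul_assoc]
  have vV_pow : ∀ (n : ℕ) (z : fixR F e), (((vV ^ n) z : fixR F e) : MonoidAlgebra F G)
      = (z : MonoidAlgebra F G) * v ^ n := by
    intro n
    induction n with
    | zero => intro z; simp
    | succ n ih =>
      intro z
      rw [pow_succ, Module.End.mul_apply, ih, vV_coe, mul_assoc, ← pow_succ']
  have hvVp : vV ^ p = 1 := by
    refine LinearMap.ext fun z => Subtype.ext ?_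
    rw [vV_pow, hvp, mul_one, Module.End.one_apply]
  have hfix : ∀ z : fixR F e, (∀ g, rho g z = z) → z = 0 := by
    intro z hz
    have h1 := fixed_mul (z : MonoidAlgebra F G)
      (fun g => by rw [← rho_coe, hz g]) e
    rw [haug, single_zero, mul_zero, mem_fixR.1 z.2] at h1
    exact Subtype.ext h1
  have hproj : ∀ z : fixR F e, (∀ h ∈ φ.range, rho h z = z) →
      ∃ b, z = ∑ h : G, if h ∈ φ.range then rho h b else 0 := by
    intro z hz
    obtain ⟨b, hb, hzb⟩ := proj_kG φ.range e he (z : MonoidAlgebra F G) z.2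
      (fun h hh => by rw [← rho_coe, hz h hh])
    refine ⟨⟨b, hb⟩, Subtype.ext ?_⟩
    rw [hzb, Submodule.coe_sum]
    refine Finset.sum_congr rfl fun h _ => ?_
    split_ifs
    · rfl
    · rfl
  obtain ⟨c, hc⟩ := local_ti rho vV hcomm φ hφ hSyl hC s hs σ hσ hN hproj hfix hvVp a ha
    ⟨m, hm⟩ (Subtype.ext hmv)
  have hpow : ∀ (n : ℕ) (z : fixR F e),
      ((((vV - rho x) ^ n) z : fixR F e) : MonoidAlgebra F G)
        = ((LinearMap.mulRight F v - LinearMap.mulLeft F (single x (1 : F))) ^ n :
          Module.End F (MonoidAlgebra F G)) z := by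
    intro n
    induction n with
    | zero => intro z; simp
    | succ n ih =>
      intro z
      rw [pow_succ, pow_succ, Module.End.mul_apply, Module.End.mul_apply, ih]
      congr 1
  refine ⟨single (x ^ (p - 1)) (1 : F) * c, ?_, ?_⟩
  · rw [mul_assoc, mem_fixR.1 c.2]
  · have h1 := congrArg (Subtype.val) hc
    rw [hpow, op_pow] at h1
    exact h1

theorem trace_ti {F : Type*} [Field F] [Fintype F] {p : ℕ} [Fact p.Prime] [CharP F p]
    {G : Type*} [Group G] [Fintype G]
    (φ : Multiplicative F →* G) (hφ : Function.Injective φ)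
    (hSyl : ¬ p ∣ φ.range.index)
    (hC : ∀ a : F, a ≠ 0 → ∀ g, Commute g (φ (Multiplicative.ofAdd a)) → g ∈ φ.range)
    (s : F) (hs : s ≠ 0) (σ : G)
    (hσ : ∀ a : F, σ * φ (Multiplicative.ofAdd a) * σ⁻¹ = φ (Multiplicative.ofAdd (s * a)))
    (hN : ∀ g, (∀ a, g * φ a * g⁻¹ ∈ φ.range) → ∃ (j : ℕ) (b : Multiplicative F), g = σ ^ j * φ b)
    (e v : MonoidAlgebra ℤ_[p] G) (he : e * e = e) (hev : Commute e v)
    (haug : MonoidAlgebra.lift ℤ_[p] ℤ_[p] G (1 : G →* ℤ_[p]) e = 0)
    (hvp : v ^ p = 1) (a : F) (ha : a ≠ 0) :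
    LinearMap.trace ℤ_[p] (MonoidAlgebra ℤ_[p] G)
      (LinearMap.mulLeft ℤ_[p] (MonoidAlgebra.single (φ (Multiplicative.ofAdd a))⁻¹ (1 : ℤ_[p])) ∘ₗ
        LinearMap.mulRight ℤ_[p] (v * e)) = 0 := by
  classical
  set x := φ (Multiplicative.ofAdd a) with hx
  have hp := (Fact.out : p.Prime)
  have hxp : x ^ p = 1 := by
    rw [hx, ← map_pow, ← ofAdd_nsmul, nsmul_eq_mul, CharP.cast_eq_zero, zero_mul, ofAdd_zero,
      map_one]
  -- the trace on the submodule
  have hmem : ∀ m : MonoidAlgebra ℤ_[p] G,
      (LinearMap.mulLeft ℤ_[p] (MonoidAlgebra.single x⁻¹ (1 : ℤ_[p])) ∘ₗ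
        LinearMap.mulRight ℤ_[p] (v * e)) m ∈ TraceTi256.fixR ℤ_[p] e := by
    intro m
    rw [TraceTi256.mem_fixR, LinearMap.comp_apply, LinearMap.mulRight_apply,
      LinearMap.mulLeft_apply, mul_assoc, mul_assoc, mul_assoc, he]
  rw [← LinearMap.trace_restrict_eq_of_forall_mem (TraceTi256.fixR ℤ_[p] e) _ hmem]
  have hres : LinearMap.restrict (LinearMap.mulLeft ℤ_[p] (MonoidAlgebra.single x⁻¹ (1 : ℤ_[p])) ∘ₗ
        LinearMap.mulRight ℤ_[p] (v * e)) (fun m _ => hmem m) = TraceTi256.dk x hev := by
    refine LinearMap.ext fun m => Subtype.ext ?_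
    rw [TraceTi256.coe_dk, TraceTi256.Dk_apply, LinearMap.coe_restrict_apply,
      LinearMap.comp_apply, LinearMap.mulRight_apply, LinearMap.mulLeft_apply, ← hev.eq,
      ← mul_assoc (m : MonoidAlgebra ℤ_[p] G) e v, TraceTi256.mem_fixR.1 m.2]
  rw [hres]
  -- reduction modulo p
  set red : MonoidAlgebra ℤ_[p] G →+* MonoidAlgebra (ZMod p) G :=
    MonoidAlgebra.mapRingHom G PadicInt.toZMod with hred
  set eb := red e with heb
  set vb := red v with hvb
  have hevb : Commute eb vb := by
    rw [commute_iff_eq, heb, hvb, ← map_mul, ← map_mul, hev.eq]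
  have hredmem : ∀ m : TraceTi256.fixR ℤ_[p] e, red m ∈ TraceTi256.fixR (ZMod p) eb := by
    intro m
    rw [TraceTi256.mem_fixR, heb, ← map_mul, TraceTi256.mem_fixR.1 m.2]
  let rr : TraceTi256.fixR ℤ_[p] e →+ TraceTi256.fixR (ZMod p) eb :=
    { toFun := fun m => ⟨red m, hredmem m⟩
      map_zero' := Subtype.ext (by simp)
      map_add' := fun m n => Subtype.ext (by simp) }
  have rr_coe : ∀ m, ((rr m : TraceTi256.fixR (ZMod p) eb) : MonoidAlgebra (ZMod p) G)
      = red m := fun _ => rfl
  apply trace_zero rr ?_ ?_ ?_ p hp.two_le (TraceTi256.dk x hev) (TraceTi256.dk x hevb)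
    (TraceTi256.dk_pow_eq_one hev hxp hvp) ?_ ?_ ?_
  · -- surjectivity
    intro m
    obtain ⟨m', hm'⟩ := MonoidAlgebra.map_surjective (M := G)
      ((PadicInt.toZMod : ℤ_[p] →+* ZMod p) : ℤ_[p] →+ ZMod p)
      (ZMod.ringHom_surjective (PadicInt.toZMod : ℤ_[p] →+* ZMod p)) (m : MonoidAlgebra (ZMod p) G)
    have hm'' : red m' = m := hm'
    refine ⟨⟨m' * e, ?_⟩, Subtype.ext ?_⟩
    · rw [TraceTi256.mem_fixR, mul_assoc, he]
    · rw [rr_coe]
      change red (m' * e) = m
      rw [map_mul, hm'']
      exact m.2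
  · -- semilinearity
    intro c m
    refine Subtype.ext ?_
    rw [rr_coe]
    change red (c • (m : MonoidAlgebra ℤ_[p] G)) = PadicInt.toZMod c • red (m : MonoidAlgebra ℤ_[p] G)
    ext g
    rw [hred, MonoidAlgebra.coeff_mapRingHom, MonoidAlgebra.coeff_smul_apply,
      MonoidAlgebra.coeff_smul_apply, MonoidAlgebra.coeff_mapRingHom, smul_eq_mul, smul_eq_mul,
      map_mul]
  · -- kernel
    intro m hm
    have h1 : red (m : MonoidAlgebra ℤ_[p] G) = 0 := by
      rw [← rr_coe, hm]
      rfl
    have h2 : ∀ g : G, ∃ c : ℤ_[p], (m : MonoidAlgebra ℤ_[p] G).coeff g = p * c := by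
      intro g
      have h3 := congrArg (fun z => z.coeff g) h1
      simp only [hred, MonoidAlgebra.coeff_mapRingHom, MonoidAlgebra.coeff_zero,
        Finsupp.coe_zero, Pi.zero_apply] at h3
      have h4 : (m : MonoidAlgebra ℤ_[p] G).coeff g ∈
          RingHom.ker (PadicInt.toZMod : ℤ_[p] →+* ZMod p) := h3
      rw [PadicInt.ker_toZMod, PadicInt.maximalIdeal_eq_span_p, Ideal.mem_span_singleton] at h4
      exact h4
    choose c hc using h2
    let m' : MonoidAlgebra ℤ_[p] G := MonoidAlgebra.ofCoeff (Finsupp.equivFunOnFinite.symm c)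
    have hm' : (m : MonoidAlgebra ℤ_[p] G) = (p : ℤ_[p]) • m' := by
      ext g
      rw [hc g, MonoidAlgebra.coeff_smul_apply, smul_eq_mul]
      rfl
    refine ⟨⟨m' * e, ?_⟩, Subtype.ext ?_⟩
    · rw [TraceTi256.mem_fixR, mul_assoc, he]
    · change (m : MonoidAlgebra ℤ_[p] G) = (p : ℤ_[p]) • (m' * e)
      rw [← smul_mul_assoc, ← hm']
      exact m.2.symm
  · -- compatibility
    intro m
    refine Subtype.ext ?_
    rw [rr_coe, TraceTi256.coe_dk, TraceTi256.coe_dk, TraceTi256.Dk_apply, TraceTi256.Dk_apply,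
      map_mul, map_mul, rr_coe]
    congr 1
    rw [hred, MonoidAlgebra.mapRingHom_single, map_one]
  · -- nilpotency
    have h1 : (TraceTi256.dk x hevb) ^ p = 1 := by
      apply TraceTi256.dk_pow_eq_one hevb hxp
      rw [hvb, ← map_pow, hvp, map_one]
    have h2 : ((X : (ZMod p)[X]) - 1) ^ p = X ^ p - 1 := by
      rw [sub_pow_char, one_pow]
    have h3 := congrArg (Polynomial.aeval (TraceTi256.dk x hevb)) h2
    rw [map_pow, map_sub, map_sub, map_pow, Polynomial.aeval_X, map_one, h1, sub_self] at h3
    exact h3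
  · -- freeness
    intro m hm
    let _ : Algebra (ZMod p) F := ZMod.algebra F p
    have hker : LinearMap.ker (Algebra.linearMap (ZMod p) F) = ⊥ :=
      LinearMap.ker_eq_bot.2 (algebraMap (ZMod p) F).injective
    obtain ⟨τ, hτ⟩ := LinearMap.exists_leftInverse_of_injective (Algebra.linearMap (ZMod p) F) hker
    set i : ZMod p →+* F := algebraMap (ZMod p) F with hi
    have hτi : ∀ r, τ (i r) = r := fun r => LinearMap.congr_fun hτ r
    have hτm : ∀ r s, τ.toAddMonoidHom (r * i s) = τ.toAddMonoidHom r * s := by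
      intro r s
      change τ (r * i s) = τ r * s
      rw [mul_comm r, ← Algebra.smul_def, map_smul, smul_eq_mul, mul_comm]
    set J : MonoidAlgebra (ZMod p) G →+* MonoidAlgebra F G := MonoidAlgebra.mapRingHom G i with hJ
    have hmv : red v = vb := rfl
    have hm1 : (m : MonoidAlgebra (ZMod p) G) * eb = m := m.2
    have hm2 : (m : MonoidAlgebra (ZMod p) G) * vb
        = MonoidAlgebra.single x (1 : ZMod p) * (m : MonoidAlgebra (ZMod p) G) := by
      have h1 := congrArg Subtype.val hm
      rw [TraceTi256.coe_dk, TraceTi256.Dk_apply] at h1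
      calc (m : MonoidAlgebra (ZMod p) G) * vb
          = MonoidAlgebra.single x (1 : ZMod p) * (MonoidAlgebra.single x⁻¹ (1 : ZMod p) *
              ((m : MonoidAlgebra (ZMod p) G) * vb)) := by
            rw [← mul_assoc (MonoidAlgebra.single x (1 : ZMod p)),
              MonoidAlgebra.single_mul_single, mul_inv_cancel, one_mul,
              ← MonoidAlgebra.one_def, one_mul]
        _ = MonoidAlgebra.single x (1 : ZMod p) * (m : MonoidAlgebra (ZMod p) G) := by rw [h1]
    obtain ⟨c, hc, hmc⟩ := TraceTi256.freeF φ hφ hSyl hC s hs σ hσ hN (J eb) (J vb)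
      (by rw [← map_mul, heb, ← map_mul, he])
      (hevb.map J)
      (by rw [hJ, TraceTi256.aug_map, heb, hred, TraceTi256.aug_map, haug, map_zero, map_zero])
      (by rw [← map_pow, hvb, ← map_pow, hvp, map_one, map_one]) a ha (J m)
      (by rw [← map_mul, hm1])
      (by rw [← map_mul, hm2, map_mul, hJ, MonoidAlgebra.mapRingHom_single, map_one])
    refine ⟨⟨MonoidAlgebra.map τ.toAddMonoidHom c, ?_⟩, Subtype.ext ?_⟩
    · rw [TraceTi256.mem_fixR, ← TraceTi256.map_mul_right i τ.toAddMonoidHom hτm, ← hJ, hc]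
    · rw [TraceTi256.coe_dk_sub_pow]
      change (m : MonoidAlgebra (ZMod p) G) = _
      rw [← TraceTi256.map_iter i τ.toAddMonoidHom hτm, ← hJ, ← hmc]
      ext g
      rw [MonoidAlgebra.coeff_map, Finsupp.mapRange_apply, hJ, MonoidAlgebra.coeff_mapRingHom]
      exact (hτi _).symm

end Pool.Agent.Helper495_SP
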