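import Mathlib
set_option autoImplicit false
namespace Pool.Agent.Helper495_SP
open scoped Classical
open Polynomial
open scoped Pointwise

theorem order_ti {F : Type*} [Field F] [Fintype F] {p : ℕ} [Fact p.Prime] [CharP F p]
    {G : Type*} [Group G] [Fintype G]
    (φ : Multiplicative F →* G) (hφ : Function.Injective φ)
    (hSyl : ¬ p ∣ φ.range.index)
    (hC : ∀ a : F, a ≠ 0 → ∀ g, Commute g (φ (Multiplicative.ofAdd a)) → g ∈ φ.range)
    (g : G) (hg : p ∣ orderOf g) : orderOf g = p := by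
  have hp : p.Prime := Fact.out
  have hpow : ∀ x : Multiplicative F, x ^ p = 1 := by
    intro x
    apply Multiplicative.toAdd.injective
    rw [toAdd_pow, toAdd_one, nsmul_eq_mul, CharP.cast_eq_zero, zero_mul]
  have hP : IsPGroup p φ.range := by
    rintro ⟨_, x, rfl⟩
    refine ⟨1, ?_⟩
    rw [pow_one]
    apply Subtype.ext
    show (φ x) ^ p = 1
    rw [← map_pow, hpow, map_one]
  -- an element of order `p` in `⟨g⟩`
  have hg0 : 0 < orderOf g := orderOf_pos g
  set w : G := g ^ (orderOf g / p) with hw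
  have hwo : orderOf w = p := by
    rw [hw, orderOf_pow_of_dvd (Nat.div_pos (Nat.le_of_dvd hg0 hg) hp.pos).ne' (Nat.div_dvd_of_dvd hg),
      Nat.div_div_self hg hg0.ne']
  have hwP : IsPGroup p (Subgroup.zpowers w) :=
    IsPGroup.of_card (n := 1) (by rw [Nat.card_zpowers, hwo, pow_one])
  obtain ⟨Q, hQ⟩ := hwP.exists_le_sylow
  obtain ⟨m, hm⟩ := MulAction.exists_smul_eq G Q (hP.toSylow hSyl)
  have h1 : MulAut.conj m • w ∈ MulAut.conj m • (Q : Subgroup G) :=
    Subgroup.smul_mem_pointwise_smul _ _ _ (hQ (Subgroup.mem_zpowers w))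
  rw [← Sylow.coe_subgroup_smul, hm] at h1
  have h2 : m * w * m⁻¹ ∈ φ.range := h1
  obtain ⟨x, hx⟩ := h2
  have hx1 : Multiplicative.toAdd x ≠ 0 := by
    intro h0
    have h3 : x = 1 := h0
    rw [h3, map_one] at hx
    have h4 : w = 1 := by
      have := congrArg (fun t => m⁻¹ * t * m) hx
      simp only [mul_one, inv_mul_cancel] at this
      have e : m⁻¹ * (m * w * m⁻¹) * m = w := by group
      rw [e] at this
      exact this.symm
    rw [h4, orderOf_one] at hwo
    exact hp.one_lt.ne hwo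
  have hcomm : Commute (m * g * m⁻¹) (φ (Multiplicative.ofAdd (Multiplicative.toAdd x))) := by
    rw [ofAdd_toAdd, hx]
    have h3 : Commute g w := by
      rw [hw]
      exact (Commute.refl g).pow_right _
    have h4 : g * w = w * g := h3
    show m * g * m⁻¹ * (m * w * m⁻¹) = m * w * m⁻¹ * (m * g * m⁻¹)
    calc m * g * m⁻¹ * (m * w * m⁻¹) = m * (g * w) * m⁻¹ := by group
      _ = m * (w * g) * m⁻¹ := by rw [h4]
      _ = _ := by group
  obtain ⟨b, hb⟩ := hC _ hx1 _ hcomm
  have h5 : (m * g * m⁻¹) ^ p = 1 := by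
    rw [← hb, ← map_pow, hpow, map_one]
  rw [conj_pow] at h5
  have h6 : g ^ p = 1 := by
    have := congrArg (fun t => m⁻¹ * t * m) h5
    simp only [mul_one, inv_mul_cancel] at this
    have e : m⁻¹ * (m * g ^ p * m⁻¹) * m = g ^ p := by group
    rw [e] at this
    exact this
  exact Nat.dvd_antisymm (orderOf_dvd_of_pow_eq_one h6) hg

end Pool.Agent.Helper495_SP
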