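import Mathlib
import Pool.Agent.Helper495_SP.T09
set_option autoImplicit false
namespace Pool.Agent.Helper495_SP
open scoped Classical
open Polynomial

section helpers

set_option linter.unusedSectionVars false

variable {F : Type*} [Field F] [Fintype F] {p : ℕ} [Fact p.Prime] [CharP F p]
    {G : Type*} [Group G] [Fintype G]

theorem aux_pow (φ : Multiplicative F →* G) (x : G) (hx : x ∈ φ.range) : x ^ p = 1 := by
  obtain ⟨a, rfl⟩ := hx
  rw [← map_pow]
  have : a ^ p = 1 := by
    apply Multiplicative.toAdd.injective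
    rw [toAdd_pow, toAdd_one, nsmul_eq_mul, CharP.cast_eq_zero, zero_mul]
  rw [this, map_one]

theorem aux_order (φ : Multiplicative F →* G) (x : G) (hx : x ∈ φ.range) (h1 : x ≠ 1) :
    orderOf x = p :=
  orderOf_eq_prime (aux_pow (p := p) φ x hx) h1

theorem aux_comm (φ : Multiplicative F →* G) (x y : G) (hx : x ∈ φ.range) (hy : y ∈ φ.range) :
    Commute x y := by
  obtain ⟨a, rfl⟩ := hx
  obtain ⟨b, rfl⟩ := hy
  exact (Commute.all a b).map φ

theorem aux_cent (φ : Multiplicative F →* G)
    (hC : ∀ a : F, a ≠ 0 → ∀ g, Commute g (φ (Multiplicative.ofAdd a)) → g ∈ φ.range)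
    (x g : G) (hx : x ∈ φ.range) (h1 : x ≠ 1) : Commute g x ↔ g ∈ φ.range := by
  constructor
  · intro h
    obtain ⟨a, rfl⟩ := hx
    refine hC (Multiplicative.toAdd a) ?_ g h
    intro h0
    apply h1
    have : a = 1 := by
      apply Multiplicative.toAdd.injective
      rw [h0, toAdd_one]
    rw [this, map_one]
  · intro h
    exact aux_comm φ g x h hx

theorem aux_conj (φ : Multiplicative F →* G) (hSyl : ¬ p ∣ φ.range.index)
    (g : G) (hg : orderOf g = p) : ∃ m : G, m * g * m⁻¹ ∈ φ.range := by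
  have hP : IsPGroup p φ.range := by
    rintro ⟨x, hx⟩
    refine ⟨1, ?_⟩
    apply Subtype.ext
    simpa using aux_pow (p := p) φ x hx
  let P : Sylow p G := hP.toSylow hSyl
  have hPc : (P : Subgroup G) = φ.range := rfl
  have hz : IsPGroup p (Subgroup.zpowers g) := by
    apply IsPGroup.of_card (n := 1)
    rw [Nat.card_zpowers, hg, pow_one]
  obtain ⟨Q, hQ⟩ := hz.exists_le_sylow
  obtain ⟨m, hm⟩ := MulAction.exists_smul_eq G Q P
  refine ⟨m, ?_⟩
  have hgQ : g ∈ (Q : Subgroup G) := hQ (Subgroup.mem_zpowers g)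
  have : (MulAut.conj m) g ∈ ((m • Q : Sylow p G) : Subgroup G) := by
    rw [Sylow.coe_subgroup_smul]
    exact Subgroup.smul_mem_pointwise_smul g (MulAut.conj m) _ hgQ
  rw [hm, hPc] at this
  simpa using this

theorem aux_count (φ : Multiplicative F →* G) (hSyl : ¬ p ∣ φ.range.index)
    (hC : ∀ a : F, a ≠ 0 → ∀ g, Commute g (φ (Multiplicative.ofAdd a)) → g ∈ φ.range)
    (g : G) (hg : orderOf g = p) :
    (Finset.univ.filter fun m : G => m * g * m⁻¹ ∈ φ.range).card =
      (Finset.univ.filter fun n : G => ∀ x, x ∈ φ.range ↔ n * x * n⁻¹ ∈ φ.range).card := by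
  obtain ⟨m0, hm0⟩ := aux_conj (p := p) φ hSyl g hg
  have hg1 : g ≠ 1 := by
    rintro rfl
    rw [orderOf_one] at hg
    exact (Fact.out : p.Prime).one_lt.ne hg
  have hne : ∀ m : G, m * g * m⁻¹ ≠ 1 := by
    intro m h
    apply hg1
    have : g = m⁻¹ * (m * g * m⁻¹) * m := by group
    rw [this, h]
    group
  apply Finset.card_bij (fun m _ => m * m0⁻¹)
  · intro m hm
    simp only [Finset.mem_filter, Finset.mem_univ, true_and] at hm ⊢
    intro x
    have e1 := aux_cent φ hC _ x hm0 (hne m0)
    have e2 := aux_cent φ hC _ (m * m0⁻¹ * x * (m * m0⁻¹)⁻¹) hm (hne m)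
    rw [← e1, ← e2]
    have e3 : m * g * m⁻¹ = (MulAut.conj (m * m0⁻¹)) (m0 * g * m0⁻¹) := by
      rw [MulAut.conj_apply]; group
    have e4 : m * m0⁻¹ * x * (m * m0⁻¹)⁻¹ = (MulAut.conj (m * m0⁻¹)) x := by
      rw [MulAut.conj_apply]
    rw [e3, e4]
    constructor
    · intro h
      exact h.map (MulAut.conj (m * m0⁻¹))
    · intro h
      have h2 : (MulAut.conj (m * m0⁻¹)) (x * (m0 * g * m0⁻¹)) =
          (MulAut.conj (m * m0⁻¹)) ((m0 * g * m0⁻¹) * x) := by
        rw [map_mul (MulAut.conj (m * m0⁻¹)) x, map_mul (MulAut.conj (m * m0⁻¹)) _ x]; exact h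
      exact (MulAut.conj (m * m0⁻¹)).injective h2
  · intro a _ b _ h
    exact mul_right_cancel h
  · intro n hn
    simp only [Finset.mem_filter, Finset.mem_univ, true_and] at hn
    refine ⟨n * m0, ?_, by group⟩
    simp only [Finset.mem_filter, Finset.mem_univ, true_and]
    have := (hn (m0 * g * m0⁻¹)).1 hm0
    have e : n * m0 * g * (n * m0)⁻¹ = n * (m0 * g * m0⁻¹) * n⁻¹ := by group
    rw [e]
    exact this

theorem aux_inner (φ : Multiplicative F →* G) (hφ : Function.Injective φ)
    (f : G → ℤ_[p]) (m : G) :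
    (∑ a ∈ Finset.univ.filter (fun a : F => a ≠ 0), f (m⁻¹ * φ (Multiplicative.ofAdd a) * m)) =
      ∑ g : G, if (m * g * m⁻¹ ∈ φ.range ∧ g ≠ 1) then f g else 0 := by
  rw [← Finset.sum_filter]
  apply Finset.sum_bij (fun a _ => m⁻¹ * φ (Multiplicative.ofAdd a) * m)
  · intro a ha
    simp only [Finset.mem_filter, Finset.mem_univ, true_and] at ha ⊢
    constructor
    · have : m * (m⁻¹ * φ (Multiplicative.ofAdd a) * m) * m⁻¹ = φ (Multiplicative.ofAdd a) := by
        group
      rw [this]
      exact ⟨_, rfl⟩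
    · intro h
      apply ha
      have h2 : φ (Multiplicative.ofAdd a) = 1 := by
        have : φ (Multiplicative.ofAdd a) = m * (m⁻¹ * φ (Multiplicative.ofAdd a) * m) * m⁻¹ := by
          group
        rw [this, h]; group
      have h3 : Multiplicative.ofAdd a = 1 := hφ (by rw [h2, map_one])
      simpa using h3
  · intro a _ b _ h
    have h2 : φ (Multiplicative.ofAdd a) = φ (Multiplicative.ofAdd b) :=
      mul_left_cancel (mul_right_cancel h)
    exact Multiplicative.ofAdd.injective (hφ h2)
  · intro g hg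
    simp only [Finset.mem_filter, Finset.mem_univ, true_and] at hg
    obtain ⟨⟨a, ha⟩, hg1⟩ := hg
    have e : m⁻¹ * φ a * m = g := by rw [ha]; group
    refine ⟨Multiplicative.toAdd a, ?_, ?_⟩
    · simp only [Finset.mem_filter, Finset.mem_univ, true_and]
      intro h0
      apply hg1
      have : a = 1 := by
        apply Multiplicative.toAdd.injective
        rw [h0, toAdd_one]
      rw [← e, this, map_one]
      group
    · rw [ofAdd_toAdd]; exact e
  · intro a _
    rfl

end helpers

theorem sum_zero_ti {F : Type*} [Field F] [Fintype F] {p : ℕ} [Fact p.Prime] [CharP F p]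
    {G : Type*} [Group G] [Fintype G]
    (φ : Multiplicative F →* G) (hφ : Function.Injective φ)
    (hSyl : ¬ p ∣ φ.range.index)
    (hC : ∀ a : F, a ≠ 0 → ∀ g, Commute g (φ (Multiplicative.ofAdd a)) → g ∈ φ.range)
    (z : MonoidAlgebra ℤ_[p] G)
    (hz : ∀ a : F, a ≠ 0 →
      ∑ m : G, z.coeff (m⁻¹ * φ (Multiplicative.ofAdd a) * m) = 0) :
    (∑ g : G, if (orderOf g).factorization p = 1 then z.coeff g else 0) = 0 := by
  have hp : p.Prime := Fact.out
  set K : ℕ := (Finset.univ.filter fun n : G => ∀ x, x ∈ φ.range ↔ n * x * n⁻¹ ∈ φ.range).card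
    with hK
  have hK0 : (K : ℤ_[p]) ≠ 0 := by
    rw [Nat.cast_ne_zero]
    have : (Finset.univ.filter fun n : G =>
        ∀ x, x ∈ φ.range ↔ n * x * n⁻¹ ∈ φ.range).Nonempty :=
      ⟨1, by simp⟩
    exact this.card_pos.ne'
  have h1 : (∑ a ∈ Finset.univ.filter (fun a : F => a ≠ 0), ∑ m : G,
      z.coeff (m⁻¹ * φ (Multiplicative.ofAdd a) * m)) = 0 := by
    apply Finset.sum_eq_zero
    intro a ha
    simp only [Finset.mem_filter, Finset.mem_univ, true_and] at ha
    exact hz a ha
  rw [Finset.sum_comm] at h1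
  have h2 : (∑ m : G, ∑ g : G, if (m * g * m⁻¹ ∈ φ.range ∧ g ≠ 1) then z.coeff g else 0) = 0 := by
    refine Eq.trans ?_ h1
    apply Finset.sum_congr rfl
    intro m _
    exact (aux_inner φ hφ (fun g => z.coeff g) m).symm
  rw [Finset.sum_comm] at h2
  have h3 : (K : ℤ_[p]) * (∑ g : G, if (orderOf g).factorization p = 1 then z.coeff g else 0) = 0 := by
    refine Eq.trans ?_ h2
    rw [Finset.mul_sum]
    apply Finset.sum_congr rfl
    intro g _
    by_cases hg : (orderOf g).factorization p = 1
    · rw [if_pos hg]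
      have hdvd : p ∣ orderOf g := by
        by_contra hnd
        rw [Nat.factorization_eq_zero_of_not_dvd hnd] at hg
        exact zero_ne_one hg
      have ho : orderOf g = p := order_ti φ hφ hSyl hC g hdvd
      have hg1 : g ≠ 1 := by
        rintro rfl
        rw [orderOf_one] at ho
        exact hp.one_lt.ne ho
      have hc := aux_count (p := p) φ hSyl hC g ho
      rw [hK, ← hc]
      rw [← Finset.sum_filter, Finset.sum_const, nsmul_eq_mul]
      congr 2
      congr 1
      ext m
      simp [hg1]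
    · rw [if_neg hg, mul_zero]
      symm
      apply Finset.sum_eq_zero
      intro m _
      rw [if_neg]
      rintro ⟨hm, hg1⟩
      apply hg
      have hne : m * g * m⁻¹ ≠ 1 := by
        intro h
        apply hg1
        have : g = m⁻¹ * (m * g * m⁻¹) * m := by group
        rw [this, h]
        group
      have ho := aux_order (p := p) φ _ hm hne
      have ho2 : orderOf (m * g * m⁻¹) = orderOf g := by
        have := MulEquiv.orderOf_eq (MulAut.conj m) g
        rwa [MulAut.conj_apply] at this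
      rw [← ho2, ho]
      exact hp.factorization_self
  exact (mul_eq_zero.1 h3).resolve_left hK0

end Pool.Agent.Helper495_SP
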