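import Mathlib
import Pool.Agent.Helper495_SP.Defs
import Pool.Agent.Helper495_SP.J04d
import Pool.Agent.Helper495_SP.J24
import Pool.Agent.Helper495_SP.J16
import Pool.Agent.Helper495_SP.T07
import Pool.Agent.Helper495_SP.T08
import Pool.Agent.Helper495_SP.T09
import Pool.Agent.Helper495_SP.Cyc
set_option autoImplicit false

/-!
Orders of torsion units for a Sylow subgroup isomorphic to the additive group of a field; from pairs
of primes to the spectrum.
-/

namespace Pool.Agent.Helper495_SP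


open scoped Classical in
/-- **Theorem.** Let the Sylow `p`-subgroup of `G` be the isomorphic image of the additive group of a
finite field, equal to the centraliser of each of its nontrivial elements, with normaliser acting by
multiplications with powers of one element of the field.  Then normalised torsion units of the
integral group ring have no order `p * q` with a prime `q ≠ p`. -/
theorem ti_order {F : Type*} [Field F] [Finite F] {p : ℕ} (hp : p.Prime) [CharP F p]
    {G : Type*} [Group G] [Finite G]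
    (φ : Multiplicative F →* G) (hφ : Function.Injective φ)
    (hSyl : ¬ p ∣ φ.range.index)
    (hC : ∀ a : F, a ≠ 0 → ∀ g, Commute g (φ (Multiplicative.ofAdd a)) → g ∈ φ.range)
    (s : F) (hs : s ≠ 0) (σ : G)
    (hσ : ∀ a : F, σ * φ (Multiplicative.ofAdd a) * σ⁻¹ = φ (Multiplicative.ofAdd (s * a)))
    (hN : ∀ g, (∀ a, g * φ a * g⁻¹ ∈ φ.range) → ∃ (j : ℕ) (b : Multiplicative F), g = σ ^ j * φ b)
    (q : ℕ) (hq : q.Prime) (hpq : p ≠ q) (u : (MonoidAlgebra ℤ G)ˣ)
    (haug : MonoidAlgebra.lift ℤ ℤ G (1 : G →* ℤ) (u : MonoidAlgebra ℤ G) = 1) :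
    orderOf u ≠ p * q := by
  haveI := Fintype.ofFinite G
  haveI := Fintype.ofFinite F
  haveI : Fact p.Prime := ⟨hp⟩
  intro hu
  have hu' : orderOf u = p ^ 1 * q := by rw [pow_one, hu]
  have hz : ∀ e v : MonoidAlgebra ℤ_[p] G, e * e = e → Commute e v →
      MonoidAlgebra.lift ℤ_[p] ℤ_[p] G (1 : G →* ℤ_[p]) e = 0 → v ^ p ^ 1 = 1 →
      (∑ g : G, if (orderOf g).factorization p = 1 then (v * e).coeff g else 0) = 0 := by
    intro e v he hev haug hvp
    rw [pow_one] at hvp
    refine sum_zero_ti φ hφ hSyl hC (v * e) ?_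
    intro a ha
    have h1 := trace_ti φ hφ hSyl hC s hs σ hσ hN e v he hev haug hvp a ha
    rw [trace_formula] at h1
    exact h1
  obtain ⟨g, hg⟩ := finish p q 1 hp hq hpq le_rfl
    (fun v w hvw hv hw _ haugw => key_of_sum_zero 1 q hq hpq hz v w hvw hv hw haugw) u haug hu'
  rw [pow_one] at hg
  have h2 := order_ti φ hφ hSyl hC g (by rw [hg]; exact Dvd.intro _ rfl)
  rw [h2] at hg
  have h3 : q = 1 := by
    have h4 : p * 1 = p * q := by rw [mul_one]; exact hg
    exact (Nat.eq_of_mul_eq_mul_left hp.pos h4).symm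
  exact hq.one_lt.ne' h3

/-- from pairs of primes to the spectrum -/
theorem sp_of_pq {G : Type*} [Group G] [Finite G]
    (hdet : ∀ n, 0 < n → (∀ (r a : ℕ), r.Prime → r ^ a ∣ n → ∃ g : G, orderOf g = r ^ a) →
      (∀ (r s : ℕ), r.Prime → s.Prime → r ≠ s → r * s ∣ n → ∃ g : G, orderOf g = r * s) →
      ∃ g : G, orderOf g = n)
    (hpq : ∀ (r s : ℕ), r.Prime → s.Prime → r ≠ s → ∀ u : (MonoidAlgebra ℤ G)ˣ,
      MonoidAlgebra.lift ℤ ℤ G (1 : G →* ℤ) (u : MonoidAlgebra ℤ G) = 1 → orderOf u = r * s →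
      ∃ g : G, orderOf g = r * s) :
    {n : ℕ | ∃ g : G, orderOf g = n} =
      {n : ℕ | ∃ u : (MonoidAlgebra ℤ G)ˣ,
        MonoidAlgebra.lift ℤ ℤ G (1 : G →* ℤ) (u : MonoidAlgebra ℤ G) = 1 ∧
        IsOfFinOrder u ∧ orderOf u = n} := by
  have haugp : ∀ (u : (MonoidAlgebra ℤ G)ˣ) (k : ℕ),
      MonoidAlgebra.lift ℤ ℤ G (1 : G →* ℤ) (u : MonoidAlgebra ℤ G) = 1 →
      MonoidAlgebra.lift ℤ ℤ G (1 : G →* ℤ)
        ((u ^ k : (MonoidAlgebra ℤ G)ˣ) : MonoidAlgebra ℤ G) = 1 := by
    intro u k haug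
    rw [Units.val_pow_eq_pow_val, map_pow, haug, one_pow]
  ext n
  constructor
  · rintro ⟨g, rfl⟩
    have hinj : Function.Injective (Units.map (MonoidAlgebra.of ℤ G) : Gˣ →* (MonoidAlgebra ℤ G)ˣ) :=
      Units.map_injective MonoidAlgebra.of_injective
    refine ⟨Units.map (MonoidAlgebra.of ℤ G) (toUnits g), ?_, ?_, ?_⟩
    · simp
    · exact (MonoidHom.isOfFinOrder _ (MonoidHom.isOfFinOrder toUnits.toMonoidHom
        (isOfFinOrder_of_finite g)))
    · rw [orderOf_injective _ hinj]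
      exact orderOf_injective toUnits.toMonoidHom toUnits.injective g
  · rintro ⟨u, haug, hfin, rfl⟩
    have hpos : 0 < orderOf u := hfin.orderOf_pos
    refine hdet (orderOf u) hpos ?_ ?_
    · intro r a hr hd
      refine exists_of_prime_pow r a hr (u ^ (orderOf u / r ^ a)) (haugp u _ haug) ?_
      exact orderOf_pow_orderOf_div hpos.ne' hd
    · intro r s hr hs hrs hd
      refine hpq r s hr hs hrs (u ^ (orderOf u / (r * s))) (haugp u _ haug) ?_
      exact orderOf_pow_orderOf_div hpos.ne' hd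

end Pool.Agent.Helper495_SP
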