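import Mathlib
set_option autoImplicit false
namespace Pool.Agent.Helper495_SP
open scoped Classical

/-- A product over `Fin n` all of whose factors except the one with index `0` are prime to `r`
has the `r`-part of that factor. -/
theorem factorization_card_GL {q n r : ℕ} (hn : 1 ≤ n) (hr : r.Prime) (hq : 2 ≤ q)
    (hrq : ¬ r ∣ q) (h : ∀ j, 1 ≤ j → j < n → ¬ r ∣ q ^ j - 1) :
    (∏ i : Fin n, (q ^ n - q ^ (i : ℕ))).factorization r = (q ^ n - 1).factorization r := by
  obtain ⟨m, rfl⟩ : ∃ m, n = m + 1 := ⟨n - 1, by omega⟩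
  have hlt : ∀ i : ℕ, i < m + 1 → q ^ (m + 1) - q ^ i ≠ 0 := by
    intro i hi
    have : q ^ i < q ^ (m + 1) := Nat.pow_lt_pow_right (by omega) hi
    omega
  have hlt' : ∀ i ∈ (Finset.univ : Finset (Fin (m + 1))), q ^ (m + 1) - q ^ (i : ℕ) ≠ 0 :=
    fun i _ => hlt (i : ℕ) i.isLt
  rw [Nat.factorization_prod hlt', Finset.sum_apply', Fin.sum_univ_succ]
  have h0 : ∀ i : Fin m, (q ^ (m + 1) - q ^ ((Fin.succ i : Fin (m+1)) : ℕ)).factorization r = 0 := by
    intro i
    apply Nat.factorization_eq_zero_of_not_dvd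
    intro hd
    have hi : (i : ℕ) < m := i.2
    have e : q ^ (m + 1) - q ^ ((Fin.succ i : Fin (m+1)) : ℕ)
        = q ^ ((i : ℕ) + 1) * (q ^ (m - i) - 1) := by
      rw [Fin.val_succ, Nat.mul_sub, ← pow_add, mul_one]
      congr 2
      omega
    rw [e] at hd
    rcases (Nat.Prime.dvd_mul hr).1 hd with h1 | h1
    · exact hrq (hr.dvd_of_dvd_pow h1)
    · exact h (m - i) (by omega) (by omega) h1
  rw [Finset.sum_eq_zero (fun i _ => h0 i)]
  simp

/-- The unit group of the extension field of degree `n` embeds in `GL n F`. -/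
theorem exists_unit_embedding {F : Type*} [Field F] [Fintype F] (n : ℕ) (hn : 1 ≤ n) :
    ∃ (K : Type) (_ : Field K) (_ : Finite K) (g : Kˣ →* Matrix.GeneralLinearGroup (Fin n) F),
      Function.Injective g ∧ Nat.card Kˣ = Fintype.card F ^ n - 1 := by
  obtain ⟨p, hp⟩ := CharP.exists F
  have : CharP F p := hp
  have : Fact p.Prime := ⟨CharP.char_is_prime F p⟩
  have : NeZero n := ⟨by omega⟩
  let K := FiniteField.Extension F p n
  have hfin : Module.finrank F K = n := FiniteField.finrank_extension F p n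
  let b : Module.Basis (Fin n) F K := Module.finBasisOfFinrankEq F K hfin
  refine ⟨K, inferInstance, inferInstance,
    Units.map ((Algebra.leftMulMatrix b : K →ₐ[F] Matrix (Fin n) (Fin n) F) : K →* _), ?_, ?_⟩
  · intro x y hxy
    apply Units.ext
    apply Algebra.leftMulMatrix_injective b
    have := congrArg Units.val hxy
    simpa using this
  · rw [Nat.card_units, FiniteField.natCard_extension, Nat.card_eq_fintype_card]

theorem cyclic_sylow_GL {F : Type*} [Field F] [Fintype F] (n : ℕ) (hn : 1 ≤ n) {H : Type*}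
    [Group H] [Finite H] (f : H →* Matrix.GeneralLinearGroup (Fin n) F)
    (hf : Function.Injective f) (r : ℕ) [Fact r.Prime] (hrF : ¬ r ∣ Fintype.card F)
    (hr : ∀ j, 1 ≤ j → j < n → ¬ r ∣ Fintype.card F ^ j - 1) (P : Sylow r H) : IsCyclic P := by
  obtain ⟨K, _, _, g, hg, hcard⟩ := exists_unit_embedding (F := F) n hn
  have hrp : r.Prime := Fact.out
  have hGL : (Nat.card (Matrix.GeneralLinearGroup (Fin n) F)).factorization r
      = (Nat.card Kˣ).factorization r := by
    rw [Matrix.card_GL_field, hcard]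
    exact factorization_card_GL hn hrp (Fintype.one_lt_card) hrF hr
  obtain ⟨Q⟩ : Nonempty (Sylow r Kˣ) := inferInstance
  have hQ : Nat.card Q = r ^ (Nat.card Kˣ).factorization r := Sylow.card_eq_multiplicity Q
  have : IsCyclic Q := inferInstance
  have hQm : Nat.card ((Q : Subgroup Kˣ).map g) = r ^ (Nat.card (Matrix.GeneralLinearGroup (Fin n) F)).factorization r := by
    rw [hGL, ← hQ]
    exact Subgroup.card_map_of_injective hg
  let S : Sylow r (Matrix.GeneralLinearGroup (Fin n) F) := Sylow.ofCard _ hQm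
  have hSc : IsCyclic S := by
    have e : Q ≃* ((Q : Subgroup Kˣ).map g) := (Q : Subgroup Kˣ).equivMapOfInjective g hg
    have : IsCyclic ((Q : Subgroup Kˣ).map g) := isCyclic_of_surjective e e.surjective
    exact this
  have hPm : IsPGroup r ((P : Subgroup H).map f) := P.isPGroup'.map f
  obtain ⟨T, hT⟩ := hPm.exists_le_sylow
  have hTc : IsCyclic T := by
    have e : S ≃* T := Sylow.equiv S T
    exact isCyclic_of_surjective e e.surjective
  have e1 : P ≃* ((P : Subgroup H).map f) := (P : Subgroup H).equivMapOfInjective f hf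
  let i : P →* T := (Subgroup.inclusion hT).comp e1.toMonoidHom
  have hi : Function.Injective i := by
    intro x y hxy
    apply e1.injective
    exact Subgroup.inclusion_injective hT hxy
  exact isCyclic_of_injective i hi

end Pool.Agent.Helper495_SP
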