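import Mathlib
set_option autoImplicit false
namespace Pool.Agent.Helper495_SP
open scoped Classical

theorem sz_norm_ne_zero {F : Type*} [Field F] [CharP F 2] (θ : F →+* F)
    (hθ : ∀ x, θ (θ x) = x ^ 2) (a b : F) (hab : a ≠ 0 ∨ b ≠ 0) :
    a ^ 2 * θ a + a * b + θ b ≠ 0 := by
  have hinj : Function.Injective θ := θ.injective
  by_cases ha : a = 0
  · have hb : b ≠ 0 := by
      rcases hab with h | h
      · exact absurd ha h
      · exact h
    subst ha
    simp only [map_zero, mul_zero, zero_mul, zero_add]
    intro h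
    exact hb ((map_eq_zero_iff θ hinj).mp h)
  · have hθa : θ a ≠ 0 := fun h => ha ((map_eq_zero_iff θ hinj).mp h)
    obtain ⟨t, ht⟩ : ∃ t : F, b = t * (a * θ a) := ⟨b / (a * θ a), by field_simp⟩
    have h1 : a ^ 2 * θ a + a * b + θ b = a ^ 2 * θ a * (1 + t + θ t) := by
      rw [ht, map_mul, map_mul, hθ]
      ring
    rw [h1]
    refine mul_ne_zero (mul_ne_zero (pow_ne_zero 2 ha) hθa) ?_
    intro h
    have h2 : (1 : F) + 1 = 0 := CharTwo.add_self_eq_zero 1
    have h3 : θ t = t + 1 := by
      have : θ t = (1 + t + θ t) - (1 + 1) - t + 1 := by ring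
      rw [this, h, h2]
      have h4 : t + t = 0 := CharTwo.add_self_eq_zero t
      have h5 : -t = t := by
        rw [neg_eq_iff_add_eq_zero]; exact h4
      rw [sub_zero, zero_sub, h5]
    have h4 : t ^ 2 = t := by
      rw [← hθ, h3, map_add, map_one, h3]
      have : t + 1 + 1 = t + (1 + 1) := by ring
      rw [this, h2, add_zero]
    have h5 : t = 0 ∨ t = 1 := by
      have : t * (t - 1) = 0 := by
        have : t * (t - 1) = t ^ 2 - t := by ring
        rw [this, h4, sub_self]
      rcases mul_eq_zero.mp this with h | h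
      · exact Or.inl h
      · exact Or.inr (sub_eq_zero.mp h)
    have h6 : (1 : F) ≠ 0 := one_ne_zero
    rcases h5 with h | h
    · rw [h, map_zero, zero_add] at h3
      exact h6 h3.symm
    · rw [h, map_one] at h3
      apply h6
      have : (1 : F) = 1 + 1 - 1 := by ring
      have h7 : (1 : F) + 1 - 1 = 1 - 1 := by rw [← h3]
      rw [this, h7, sub_self]

end Pool.Agent.Helper495_SP
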