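import Mathlib
import Pool.Agent.Helper495_SP.SzDefs
import Pool.Agent.Helper495_SP.Z1
set_option autoImplicit false
namespace Pool.Agent.Helper495_SP
open scoped Classical

theorem sp_diag_T {F : Type*} [Field F] (p q r s : F) :
    Matrix.diagonal ![p, q, r, s] * !![0, 0, 0, 1; 0, 0, 1, 0; 0, 1, 0, 0; 1, 0, 0, 0] =
      !![0, 0, 0, p; 0, 0, q, 0; 0, r, 0, 0; s, 0, 0, 0] := by
  ext i j
  rw [Matrix.diagonal_mul]
  fin_cases i <;> fin_cases j <;> simp

theorem sp_MT_S {F : Type*} [Field F] (p q r s a A b n c : F) :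
    !![0, 0, 0, p; 0, 0, q, 0; 0, r, 0, 0; s, 0, 0, 0] *
      !![1, 0, 0, 0; a, 1, 0, 0; b, A, 1, 0; n, c, a, 1] =
      !![p * n, p * c, p * a, p; q * b, q * A, q, 0; r * a, r, 0, 0; s, 0, 0, 0] := by
  ext i j
  fin_cases i <;> fin_cases j <;> simp [Matrix.mul_apply, Fin.sum_univ_four]

theorem sp_S_X {F : Type*} [Field F] (a A b n c x00 x01 x02 x03 x10 x11 x12 x20 x21 x30 : F) :
    !![1, 0, 0, 0; a, 1, 0, 0; b, A, 1, 0; n, c, a, 1] *
      !![x00, x01, x02, x03; x10, x11, x12, 0; x20, x21, 0, 0; x30, 0, 0, 0] =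
      !![x00, x01, x02, x03;
        a * x00 + x10, a * x01 + x11, a * x02 + x12, a * x03;
        b * x00 + A * x10 + x20, b * x01 + A * x11 + x21, b * x02 + A * x12, b * x03;
        n * x00 + c * x10 + a * x20 + x30, n * x01 + c * x11 + a * x21, n * x02 + c * x12,
          n * x03] := by
  ext i j
  fin_cases i <;> fin_cases j <;> simp [Matrix.mul_apply, Fin.sum_univ_four]

theorem sp_TST {F : Type*} [Field F] (a A b n c : F) :
    !![0, 0, 0, 1; 0, 0, 1, 0; 0, 1, 0, 0; 1, 0, 0, 0] *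
      !![1, 0, 0, 0; a, 1, 0, 0; b, A, 1, 0; n, c, a, 1] *
      !![0, 0, 0, 1; 0, 0, 1, 0; 0, 1, 0, 0; 1, 0, 0, 0] =
      !![1, a, c, n; 0, 1, A, b; 0, 0, 1, a; 0, 0, 0, 1] := by
  have h : (!![0, 0, 0, 1; 0, 0, 1, 0; 0, 1, 0, 0; 1, 0, 0, 0] : Matrix (Fin 4) (Fin 4) F) *
      !![1, 0, 0, 0; a, 1, 0, 0; b, A, 1, 0; n, c, a, 1] =
      !![n, c, a, 1; b, A, 1, 0; a, 1, 0, 0; 1, 0, 0, 0] := by
    ext i j
    fin_cases i <;> fin_cases j <;> simp [Matrix.mul_apply, Fin.sum_univ_four]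
  rw [h]
  ext i j
  fin_cases i <;> fin_cases j <;> simp [Matrix.mul_apply, Fin.sum_univ_four]

theorem sz_TST {F : Type*} [Field F] [CharP F 2] (θ : F →+* F)
    (hθ : ∀ x, θ (θ x) = x ^ 2) (a b : F) (hab : a ≠ 0 ∨ b ≠ 0) :
    ∃ (a' b' a'' b'' : F) (μ : Fˣ),
      szT F * szS θ a b * szT F = szS θ a' b' * szM θ μ * szT F * szS θ a'' b'' := by
  have hN := sz_norm_ne_zero θ hθ a b hab
  obtain ⟨N, hNd⟩ : ∃ N, N = a ^ 2 * θ a + a * b + θ b := ⟨_, rfl⟩
  rw [← hNd] at hN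
  have hm : θ N ≠ 0 := (map_ne_zero θ).mpr hN
  have hθN : θ N = θ a ^ 2 * a ^ 2 + θ a * θ b + b ^ 2 := by
    rw [hNd, map_add, map_add, map_mul, map_mul, map_pow, hθ a, hθ b]
  have hθθN : θ (θ N) = N ^ 2 := hθ N
  have hθa := hθ a
  have hθb := hθ b
  obtain ⟨A, hA⟩ : ∃ A, A = θ a := ⟨_, rfl⟩
  obtain ⟨B, hB⟩ : ∃ B, B = θ b := ⟨_, rfl⟩
  obtain ⟨m, hmd⟩ : ∃ m, m = θ N := ⟨_, rfl⟩
  have h1 : θ (b / N) = B / m := by rw [map_div₀, hB, hmd]
  have h2 : θ (a / N) = A / m := by rw [map_div₀, hA, hmd]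
  have h3 : θ ((a * A + b) / N) = (A * a ^ 2 + B) / m := by
    rw [map_div₀, map_add, map_mul, hA, hθa, hB, hmd]
  have h4 : θ (b / m) = B / N ^ 2 := by rw [map_div₀, hmd, hθθN, hB]
  have h5 : θ (m / N) = N ^ 2 / m := by rw [map_div₀, hmd, hθθN]
  rw [← hA, ← hB] at hNd hθN
  rw [← hmd] at hθN hm
  refine ⟨b / N, a / N, (a * A + b) / N, b / m, Units.mk0 (m / N) (div_ne_zero hm hN), ?_⟩
  have htwo : (2 : F) = 0 := CharTwo.two_eq_zero
  have key : szT F * szS θ a b * szT F = szS θ (b / N) (a / N) *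
      (szM θ (Units.mk0 (m / N) (div_ne_zero hm hN)) * szT F *
        szS θ ((a * A + b) / N) (b / m)) := ?_
  · rw [key]; simp only [Matrix.mul_assoc]
  unfold szS szM szT
  simp only [Units.val_mk0, h1, h2, h3, h4, h5, ← hA, ← hB]
  rw [sp_TST, sp_diag_T, sp_MT_S, sp_S_X]
  ext i j
  have c3 : (3 : F) = 1 := by linear_combination htwo
  have c4 : (4 : F) = 0 := by linear_combination 2 * htwo
  have c6 : (6 : F) = 0 := by linear_combination 3 * htwo
  have c8 : (8 : F) = 0 := by linear_combination 4 * htwo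
  have c10 : (10 : F) = 0 := by linear_combination 5 * htwo
  have c12 : (12 : F) = 0 := by linear_combination 6 * htwo
  have c14 : (14 : F) = 0 := by linear_combination 7 * htwo
  have c16 : (16 : F) = 0 := by linear_combination 8 * htwo
  have c18 : (18 : F) = 0 := by linear_combination 9 * htwo
  have c20 : (20 : F) = 0 := by linear_combination 10 * htwo
  have c24 : (24 : F) = 0 := by linear_combination 12 * htwo
  have c30 : (30 : F) = 0 := by linear_combination 15 * htwo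
  have c36 : (36 : F) = 0 := by linear_combination 18 * htwo
  have c48 : (48 : F) = 0 := by linear_combination 24 * htwo
  fin_cases i <;> fin_cases j <;> simp <;> field_simp <;> (try rw [hθN]) <;> (try rw [hNd]) <;>
    ring_nf <;> (try simp only [htwo, c3, c4, c6, mul_zero, mul_one, add_zero, zero_add]) <;>
    (try ring_nf) <;> (try simp only [c8, c10, c12, c14, c16, c18, c20, c24, c30, c36, c48,
      mul_zero, add_zero])

end Pool.Agent.Helper495_SP
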