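import Mathlib
import Pool.Agent.Helper495_SP.SzDefs
import Pool.Agent.Helper495_SP.Z1
import Pool.Agent.Helper495_SP.Z2
set_option autoImplicit false
namespace Pool.Agent.Helper495_SP
open scoped Classical

section
variable {F : Type*} [Field F] [CharP F 2] (θ : F →+* F) (hθ : ∀ x, θ (θ x) = x ^ 2)

theorem z3_add_self {F : Type*} [Field F] [CharP F 2] (x : F) : x + x = 0 :=
  CharTwo.add_self_eq_zero x

include hθ in
theorem z3_SS (a b c d : F) :
    szS θ a b * szS θ c d = szS θ (a + c) (θ a * c + b + d) := by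
  have h2 : (2 : F) = 0 := CharTwo.two_eq_zero
  ext i j
  fin_cases i <;> fin_cases j <;>
    simp [szS, Matrix.mul_apply, Fin.sum_univ_four, hθ]
  all_goals first
    | ring1
    | linear_combination (-(θ a * c)) * h2
    | linear_combination (-(a * θ a * c + a * c * θ c + a ^ 2 * θ c + θ a * c ^ 2)) * h2

omit [CharP F 2] in
theorem z3_S00 : szS θ 0 0 = (1 : Matrix (Fin 4) (Fin 4) F) := by
  ext i j
  fin_cases i <;> fin_cases j <;> simp [szS]

include hθ in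
theorem z3_Sinv (a b : F) : szS θ a b * szS θ a (θ a * a + b) = 1 := by
  rw [z3_SS θ hθ]
  have h1 : a + a = 0 := z3_add_self a
  have h2 : θ a * a + b + (θ a * a + b) = 0 := z3_add_self _
  rw [h1, h2, z3_S00]

omit [CharP F 2] in
theorem z3_MM (μ ν : Fˣ) : szM θ μ * szM θ ν = szM θ (μ * ν) := by
  unfold szM
  rw [Matrix.diagonal_mul_diagonal]
  congr 1
  ext i : 1
  fin_cases i <;> simp <;> ring

omit [CharP F 2] in
theorem z3_M1 : szM θ 1 = (1 : Matrix (Fin 4) (Fin 4) F) := by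
  unfold szM
  rw [← Matrix.diagonal_one]
  congr 1
  ext i : 1
  fin_cases i <;> simp

omit [CharP F 2] in
theorem z3_TT : szT F * szT F = 1 := by
  ext i j
  fin_cases i <;> fin_cases j <;> simp [szT, Matrix.mul_apply, Fin.sum_univ_four]

omit [CharP F 2] in
include hθ in
theorem z3_MS (μ : Fˣ) (a b : F) :
    szM θ μ * szS θ (a * θ μ) (b * ((μ : F) ^ 2 * θ μ)) = szS θ a b * szM θ μ := by
  have hμ : (μ : F) ≠ 0 := μ.ne_zero
  have hμ' : θ (μ : F) ≠ 0 := (map_ne_zero θ).2 hμ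
  unfold szM
  ext i j
  rw [Matrix.diagonal_mul, Matrix.mul_diagonal]
  fin_cases i <;> fin_cases j <;> simp [szS, hθ] <;> field_simp

omit [CharP F 2] in
theorem z3_TM (μ : Fˣ) : szT F * szM θ μ = szM θ μ⁻¹ * szT F := by
  unfold szM
  ext i j
  rw [Matrix.diagonal_mul, Matrix.mul_diagonal]
  fin_cases i <;> fin_cases j <;> simp [szT]
  all_goals exact mul_comm _ _

omit [CharP F 2] in
include hθ in
theorem z3_MS' (μ : Fˣ) (a b : F) :
    ∃ a' b', szM θ μ * szS θ a b = szS θ a' b' * szM θ μ := by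
  have hμ : (μ : F) ≠ 0 := μ.ne_zero
  have hμ' : θ (μ : F) ≠ 0 := (map_ne_zero θ).2 hμ
  refine ⟨a / θ μ, b / ((μ : F) ^ 2 * θ μ), ?_⟩
  rw [← z3_MS θ hθ, div_mul_cancel₀ _ hμ', div_mul_cancel₀ _ (mul_ne_zero (pow_ne_zero 2 hμ) hμ')]

/-- the set `X` -/
def Z3_X (A : Matrix (Fin 4) (Fin 4) F) : Prop :=
  (∃ (a b : F) (μ : Fˣ), A = szS θ a b * szM θ μ) ∨
    (∃ (a b c d : F) (μ : Fˣ), A = szS θ a b * szM θ μ * szT F * szS θ c d)

include hθ in
theorem z3_XS {A : Matrix (Fin 4) (Fin 4) F} (h : Z3_X θ A) (e f : F) :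
    Z3_X θ (A * szS θ e f) := by
  rcases h with ⟨a, b, μ, rfl⟩ | ⟨a, b, c, d, μ, rfl⟩
  · left
    obtain ⟨a', b', h⟩ := z3_MS' θ hθ μ e f
    exact ⟨_, _, μ, by rw [mul_assoc, h, ← mul_assoc, z3_SS θ hθ]⟩
  · right
    exact ⟨a, b, _, _, μ, by rw [mul_assoc (_ * szT F), z3_SS θ hθ]⟩

omit [CharP F 2] in
include hθ in
theorem z3_XM {A : Matrix (Fin 4) (Fin 4) F} (h : Z3_X θ A) (ν : Fˣ) :
    Z3_X θ (A * szM θ ν) := by
  rcases h with ⟨a, b, μ, rfl⟩ | ⟨a, b, c, d, μ, rfl⟩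
  · left
    exact ⟨a, b, μ * ν, by rw [mul_assoc, z3_MM]⟩
  · right
    refine ⟨a, b, c * θ ν, d * ((ν : F) ^ 2 * θ ν), μ * ν⁻¹, ?_⟩
    calc szS θ a b * szM θ μ * szT F * szS θ c d * szM θ ν
        = szS θ a b * szM θ μ * szT F * (szS θ c d * szM θ ν) := by rw [mul_assoc]
      _ = szS θ a b * szM θ μ * (szT F * szM θ ν) * szS θ (c * θ ν) (d * ((ν : F) ^ 2 * θ ν)) := by
        rw [← z3_MS θ hθ ν c d]
        simp only [mul_assoc]
      _ = szS θ a b * (szM θ μ * szM θ ν⁻¹) * szT F *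
          szS θ (c * θ ν) (d * ((ν : F) ^ 2 * θ ν)) := by
        rw [z3_TM]
        simp only [mul_assoc]
      _ = _ := by rw [z3_MM]

include hθ in
theorem z3_XT {A : Matrix (Fin 4) (Fin 4) F} (h : Z3_X θ A) : Z3_X θ (A * szT F) := by
  rcases h with ⟨a, b, μ, rfl⟩ | ⟨a, b, c, d, μ, rfl⟩
  · right
    exact ⟨a, b, 0, 0, μ, by rw [z3_S00, mul_one]⟩
  · by_cases hcd : c = 0 ∧ d = 0
    · left
      obtain ⟨rfl, rfl⟩ := hcd
      exact ⟨a, b, μ, by rw [z3_S00, mul_one, mul_assoc, z3_TT, mul_one]⟩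
    · right
      have hcd' : c ≠ 0 ∨ d ≠ 0 := by tauto
      obtain ⟨a', b', a'', b'', μ', h⟩ := sz_TST θ hθ c d hcd'
      obtain ⟨a3, b3, h3⟩ := z3_MS' θ hθ μ a' b'
      refine ⟨a + a3, θ a * a3 + b + b3, a'', b'', μ * μ', ?_⟩
      have e : szS θ a b * szM θ μ * szT F * szS θ c d * szT F =
          szS θ a b * szM θ μ * (szT F * szS θ c d * szT F) := by
        simp only [mul_assoc]
      rw [e, h, ← z3_SS θ hθ, ← z3_MM]
      simp only [← mul_assoc]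
      rw [mul_assoc (szS θ a b) (szM θ μ), h3]
      simp only [← mul_assoc]

/-- `S(a, b)` as an element of `GL` -/
def Z3_gS (a b : F) : Matrix.GeneralLinearGroup (Fin 4) F where
  val := szS θ a b
  inv := szS θ a (θ a * a + b)
  val_inv := z3_Sinv θ hθ a b
  inv_val := by
    rw [mul_eq_one_comm]
    exact z3_Sinv θ hθ a b

omit [CharP F 2] in
theorem z3_Minv (μ : Fˣ) : szM θ μ * szM θ μ⁻¹ = 1 := by
  rw [z3_MM, mul_inv_cancel, z3_M1]

/-- `M(μ)` as an element of `GL` -/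
def Z3_gM (μ : Fˣ) : Matrix.GeneralLinearGroup (Fin 4) F where
  val := szM θ μ
  inv := szM θ μ⁻¹
  val_inv := z3_Minv θ μ
  inv_val := by
    rw [mul_eq_one_comm]
    exact z3_Minv θ μ

/-- `T` as an element of `GL` -/
def Z3_gT (F : Type*) [Field F] : Matrix.GeneralLinearGroup (Fin 4) F where
  val := szT F
  inv := szT F
  val_inv := z3_TT
  inv_val := z3_TT

theorem z3_gS_mem (a b : F) : Z3_gS θ hθ a b ∈ Sz F θ :=
  Subgroup.subset_closure (Or.inl ⟨a, b, rfl⟩)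

omit [CharP F 2] in
theorem z3_gM_mem (μ : Fˣ) : Z3_gM θ μ ∈ Sz F θ :=
  Subgroup.subset_closure (Or.inr (Or.inl ⟨μ, rfl⟩))

omit [CharP F 2] in
theorem z3_gT_mem : Z3_gT F ∈ Sz F θ :=
  Subgroup.subset_closure (Or.inr (Or.inr rfl))

end

theorem sz_mem_iff {F : Type*} [Field F] [CharP F 2] (θ : F →+* F)
    (hθ : ∀ x, θ (θ x) = x ^ 2) (g : Matrix.GeneralLinearGroup (Fin 4) F) :
    g ∈ Sz F θ ↔ (∃ (a b : F) (μ : Fˣ), (g : Matrix (Fin 4) (Fin 4) F) = szS θ a b * szM θ μ) ∨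
      (∃ (a b c d : F) (μ : Fˣ),
        (g : Matrix (Fin 4) (Fin 4) F) = szS θ a b * szM θ μ * szT F * szS θ c d) := by
  constructor
  · intro hg
    show Z3_X θ (g : Matrix (Fin 4) (Fin 4) F)
    unfold Sz at hg
    induction hg using Subgroup.closure_induction_right with
    | one =>
      left
      exact ⟨0, 0, 1, by rw [z3_S00, z3_M1, one_mul]; rfl⟩
    | mul_right x hx y hy ih =>
      rw [Matrix.GeneralLinearGroup.coe_mul]
      rcases hy with ⟨a, b, hy⟩ | ⟨μ, hy⟩ | hy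
      · rw [hy]; exact z3_XS θ hθ ih a b
      · rw [hy]; exact z3_XM θ hθ ih μ
      · rw [hy]; exact z3_XT θ hθ ih
    | mul_inv_cancel x hx y hy ih =>
      rw [Matrix.GeneralLinearGroup.coe_mul]
      rcases hy with ⟨a, b, hy⟩ | ⟨μ, hy⟩ | hy
      · have h1 : ((y⁻¹ : Matrix.GeneralLinearGroup (Fin 4) F) : Matrix (Fin 4) (Fin 4) F) =
            szS θ a (θ a * a + b) :=
          Units.inv_eq_of_mul_eq_one_right (by rw [hy]; exact z3_Sinv θ hθ a b)
        rw [h1]; exact z3_XS θ hθ ih _ _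
      · have h1 : ((y⁻¹ : Matrix.GeneralLinearGroup (Fin 4) F) : Matrix (Fin 4) (Fin 4) F) =
            szM θ μ⁻¹ :=
          Units.inv_eq_of_mul_eq_one_right (by rw [hy]; exact z3_Minv θ μ)
        rw [h1]; exact z3_XM θ hθ ih _
      · have h1 : ((y⁻¹ : Matrix.GeneralLinearGroup (Fin 4) F) : Matrix (Fin 4) (Fin 4) F) =
            szT F :=
          Units.inv_eq_of_mul_eq_one_right (by rw [hy]; exact z3_TT)
        rw [h1]; exact z3_XT θ hθ ih
  · rintro (⟨a, b, μ, h⟩ | ⟨a, b, c, d, μ, h⟩)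
    · have e : g = Z3_gS θ hθ a b * Z3_gM θ μ := Units.ext h
      rw [e]
      exact mul_mem (z3_gS_mem θ hθ a b) (z3_gM_mem θ μ)
    · have e : g = Z3_gS θ hθ a b * Z3_gM θ μ * Z3_gT F * Z3_gS θ hθ c d := Units.ext h
      rw [e]
      exact mul_mem (mul_mem (mul_mem (z3_gS_mem θ hθ a b) (z3_gM_mem θ μ)) (z3_gT_mem θ))
        (z3_gS_mem θ hθ c d)

end Pool.Agent.Helper495_SP
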