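import Mathlib
import Pool.Agent.Helper495_SP.SzDefs
import Pool.Agent.Helper495_SP.Z1
import Pool.Agent.Helper495_SP.Z3
set_option autoImplicit false
namespace Pool.Agent.Helper495_SP
open scoped Classical

theorem det_szS {F : Type*} [Field F] (θ : F →+* F) (a b : F) : (szS θ a b).det = 1 := by
  rw [Matrix.det_succ_row_zero]
  simp [szS, Fin.sum_univ_succ, Matrix.det_fin_three, Matrix.submatrix, Fin.succAbove]

theorem det_szM {F : Type*} [Field F] (θ : F →+* F) (μ : Fˣ) : (szM θ μ).det = 1 := by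
  rw [szM, Matrix.det_diagonal, Fin.prod_univ_four]
  have h1 : (μ : F) ≠ 0 := μ.ne_zero
  have h2 : θ (μ : F) ≠ 0 := by
    intro h
    exact h1 ((map_eq_zero θ).mp h)
  simp
  field_simp

theorem det_szT (F : Type*) [Field F] : (szT F).det = 1 := by
  rw [Matrix.det_succ_row_zero]
  simp [szT, Fin.sum_univ_succ, Matrix.det_fin_three, Matrix.submatrix, Fin.succAbove]
  try norm_num

section entries
variable {F : Type*} [Field F] (θ : F →+* F) (a b c d : F) (μ : Fˣ)

/-- first family -/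
def P1 : Matrix (Fin 4) (Fin 4) F := szS θ a b * szM θ μ

/-- second family -/
def P2 : Matrix (Fin 4) (Fin 4) F := szS θ a b * szM θ μ * szT F * szS θ c d

theorem szM_eq : szM θ μ = !![(μ : F) * θ μ, 0, 0, 0; 0, (μ : F), 0, 0; 0, 0, (μ : F)⁻¹, 0;
    0, 0, 0, ((μ : F) * θ μ)⁻¹] := by
  ext i j
  fin_cases i <;> fin_cases j <;> simp [szM, Matrix.diagonal]

theorem P1_11 : P1 θ a b μ 1 1 = μ := by
  simp [P1, szS, szM_eq, Matrix.mul_apply, Fin.sum_univ_four]
theorem P1_10 : P1 θ a b μ 1 0 = a * (μ * θ μ) := by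
  simp [P1, szS, szM_eq, Matrix.mul_apply, Fin.sum_univ_four]
theorem P1_20 : P1 θ a b μ 2 0 = b * (μ * θ μ) := by
  simp [P1, szS, szM_eq, Matrix.mul_apply, Fin.sum_univ_four]
theorem P1_03 : P1 θ a b μ 0 3 = 0 := by
  simp [P1, szS, szM_eq, Matrix.mul_apply, Fin.sum_univ_four]

theorem P2_03 : P2 θ a b c d μ 0 3 = μ * θ μ := by
  simp [P2, szS, szM_eq, szT, Matrix.mul_apply, Fin.sum_univ_four]
theorem P2_02 : P2 θ a b c d μ 0 2 = (μ * θ μ) * c := by
  simp [P2, szS, szM_eq, szT, Matrix.mul_apply, Fin.sum_univ_four]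
theorem P2_01 : P2 θ a b c d μ 0 1 = (μ * θ μ) * (c * θ c + d) := by
  simp [P2, szS, szM_eq, szT, Matrix.mul_apply, Fin.sum_univ_four]
theorem P2_13 : P2 θ a b c d μ 1 3 = a * (μ * θ μ) := by
  simp [P2, szS, szM_eq, szT, Matrix.mul_apply, Fin.sum_univ_four]
theorem P2_23 : P2 θ a b c d μ 2 3 = b * (μ * θ μ) := by
  simp [P2, szS, szM_eq, szT, Matrix.mul_apply, Fin.sum_univ_four]

theorem P1_det : (P1 θ a b μ).det ≠ 0 := by
  rw [P1, Matrix.det_mul, det_szS, det_szM]; simp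

theorem P2_det : (P2 θ a b c d μ).det ≠ 0 := by
  rw [P2, Matrix.det_mul, Matrix.det_mul, Matrix.det_mul, det_szS, det_szM, det_szT, det_szS]
  simp

theorem xx_ne : (μ : F) * θ μ ≠ 0 := by
  have h1 : (μ : F) ≠ 0 := μ.ne_zero
  have h2 : θ (μ : F) ≠ 0 := by
    intro h
    exact h1 ((map_eq_zero θ).mp h)
  exact mul_ne_zero h1 h2

end entries

/-- the parametrisation -/
def PP {F : Type*} [Field F] (θ : F →+* F) :
    (F × F × Fˣ) ⊕ (F × F × F × F × Fˣ) → Matrix (Fin 4) (Fin 4) F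
  | Sum.inl p => P1 θ p.1 p.2.1 p.2.2
  | Sum.inr p => P2 θ p.1 p.2.1 p.2.2.1 p.2.2.2.1 p.2.2.2.2

theorem PP_det {F : Type*} [Field F] (θ : F →+* F)
    (p : (F × F × Fˣ) ⊕ (F × F × F × F × Fˣ)) : (PP θ p).det ≠ 0 := by
  rcases p with p | p
  · exact P1_det _ _ _ _
  · exact P2_det _ _ _ _ _ _

theorem PP_inj {F : Type*} [Field F] (θ : F →+* F) (hθ : ∀ x, θ (θ x) = x ^ 2) :
    Function.Injective (PP θ) := by
  rintro (⟨a, b, μ⟩ | ⟨a, b, c, d, μ⟩) (⟨a', b', μ'⟩ | ⟨a', b', c', d', μ'⟩) h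
  · simp only [PP] at h
    have h1 := congrFun (congrFun h 1) 1
    have h2 := congrFun (congrFun h 1) 0
    have h3 := congrFun (congrFun h 2) 0
    rw [P1_11, P1_11] at h1
    have hμ : μ = μ' := Units.ext h1
    subst hμ
    rw [P1_10, P1_10] at h2
    rw [P1_20, P1_20] at h3
    have h4 := mul_right_cancel₀ (xx_ne θ μ) h2
    have h5 := mul_right_cancel₀ (xx_ne θ μ) h3
    rw [h4, h5]
  · exfalso
    simp only [PP] at h
    have h1 := congrFun (congrFun h 0) 3
    rw [P1_03, P2_03] at h1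
    exact xx_ne θ μ' h1.symm
  · exfalso
    simp only [PP] at h
    have h1 := congrFun (congrFun h 0) 3
    rw [P1_03, P2_03] at h1
    exact xx_ne θ μ h1
  · simp only [PP] at h
    have h1 := congrFun (congrFun h 0) 3
    have h2 := congrFun (congrFun h 0) 2
    have h3 := congrFun (congrFun h 0) 1
    have h4 := congrFun (congrFun h 1) 3
    have h5 := congrFun (congrFun h 2) 3
    rw [P2_03, P2_03] at h1
    rw [P2_02, P2_02, h1] at h2
    rw [P2_01, P2_01, h1] at h3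
    rw [P2_13, P2_13, h1] at h4
    rw [P2_23, P2_23, h1] at h5
    have hc := mul_left_cancel₀ (xx_ne θ μ') h2
    have hd := mul_left_cancel₀ (xx_ne θ μ') h3
    have ha := mul_right_cancel₀ (xx_ne θ μ') h4
    have hb := mul_right_cancel₀ (xx_ne θ μ') h5
    have key : ∀ ν : Fˣ, (ν : F) = θ ((ν : F) * θ ν) / ((ν : F) * θ ν) := by
      intro ν
      rw [map_mul, hθ]
      have h1 : (ν : F) ≠ 0 := ν.ne_zero
      have h2 : θ (ν : F) ≠ 0 := by
        intro h
        exact h1 ((map_eq_zero θ).mp h)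
      field_simp
    have hμ : μ = μ' := by
      apply Units.ext
      rw [key μ, key μ', h1]
    subst hc
    have hd' : d = d' := by simpa using hd
    rw [ha, hb, hd', hμ]

theorem card_Sz (F : Type*) [Field F] [Fintype F] [CharP F 2] (θ : F →+* F)
    (hθ : ∀ x, θ (θ x) = x ^ 2) :
    Nat.card (Sz F θ) = Fintype.card F ^ 2 * (Fintype.card F - 1) * (Fintype.card F ^ 2 + 1) := by
  have hmem : ∀ p, Matrix.GeneralLinearGroup.mkOfDetNeZero (PP θ p) (PP_det θ p) ∈ Sz F θ := by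
    intro p
    rw [sz_mem_iff θ hθ]
    rcases p with ⟨a, b, μ⟩ | ⟨a, b, c, d, μ⟩
    · left
      exact ⟨a, b, μ, rfl⟩
    · right
      exact ⟨a, b, c, d, μ, rfl⟩
  let ψ : (F × F × Fˣ) ⊕ (F × F × F × F × Fˣ) → Sz F θ := fun p => ⟨_, hmem p⟩
  have hψ : Function.Bijective ψ := by
    constructor
    · intro p q hpq
      apply PP_inj θ hθ
      have h1 : Matrix.GeneralLinearGroup.mkOfDetNeZero (PP θ p) (PP_det θ p) =
        Matrix.GeneralLinearGroup.mkOfDetNeZero (PP θ q) (PP_det θ q) := congrArg Subtype.val hpq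
      exact congrArg (fun g : Matrix.GeneralLinearGroup (Fin 4) F =>
        (g : Matrix (Fin 4) (Fin 4) F)) h1
    · rintro ⟨g, hg⟩
      rcases (sz_mem_iff θ hθ g).mp hg with ⟨a, b, μ, h⟩ | ⟨a, b, c, d, μ, h⟩
      · refine ⟨Sum.inl (a, b, μ), ?_⟩
        apply Subtype.ext
        apply Units.ext
        exact h.symm
      · refine ⟨Sum.inr (a, b, c, d, μ), ?_⟩
        apply Subtype.ext
        apply Units.ext
        exact h.symm
  rw [← Nat.card_congr (Equiv.ofBijective ψ hψ), Nat.card_eq_fintype_card, Fintype.card_sum]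
  simp only [Fintype.card_prod, Fintype.card_units]
  ring

end Pool.Agent.Helper495_SP
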