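import Mathlib
import Pool.Agent.Helper495_SP.P6
import Pool.Agent.Helper495_SP.P7
import Pool.Agent.Helper495_SP.SzDefs
import Pool.Agent.Helper495_SP.Z4
set_option autoImplicit false
namespace Pool.Agent.Helper495_SP
open scoped Classical

theorem szM_pow {F : Type*} [Field F] (θ : F →+* F) (μ : Fˣ) (n : ℕ) :
    szM θ μ ^ n = szM θ (μ ^ n) := by
  unfold szM
  rw [Matrix.diagonal_pow]
  congr 1
  ext i
  fin_cases i <;> simp [mul_pow]

theorem szM_eq_one {F : Type*} [Field F] (θ : F →+* F) (μ : Fˣ) (h : szM θ μ = 1) : μ = 1 := by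
  have h1 := congrFun (congrFun h 1) 1
  simp [szM] at h1
  exact h1

theorem exists_szM {F : Type*} [Field F] (θ : F →+* F) (μ : Fˣ) :
    ∃ g : Sz F θ, ((g : Matrix.GeneralLinearGroup (Fin 4) F) : Matrix (Fin 4) (Fin 4) F)
      = szM θ μ := by
  have n1 : (μ : F) ≠ 0 := μ.ne_zero
  have n2 : θ (μ : F) ≠ 0 := by simp
  have e1 : szM θ μ * szM θ μ⁻¹ = 1 := by
    unfold szM
    rw [Matrix.diagonal_mul_diagonal, ← Matrix.diagonal_one]
    congr 1
    ext i
    fin_cases i <;> simp <;> field_simp
  have e2 : szM θ μ⁻¹ * szM θ μ = 1 := by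
    unfold szM
    rw [Matrix.diagonal_mul_diagonal, ← Matrix.diagonal_one]
    congr 1
    ext i
    fin_cases i <;> simp <;> field_simp
  refine ⟨⟨⟨szM θ μ, szM θ μ⁻¹, e1, e2⟩, ?_⟩, rfl⟩
  apply Subgroup.subset_closure
  right
  left
  exact ⟨μ, rfl⟩

theorem sz_cyclic_sylow (F : Type*) [Field F] [Fintype F] [CharP F 2] (θ : F →+* F)
    (hθ : ∀ x, θ (θ x) = x ^ 2) (r : ℕ) [Fact r.Prime] (hr : r ≠ 2)
    (P : Sylow r (Sz F θ)) : IsCyclic P := by
  have hcard := card_Sz F θ hθ
  have hrp : r.Prime := Fact.out
  set q := Fintype.card F with hq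
  have : Fact (Nat.Prime 2) := ⟨Nat.prime_two⟩
  obtain ⟨m, hm2⟩ : ∃ m : ℕ, q = 2 ^ m := by
    obtain ⟨m, hm⟩ := FiniteField.card F 2
    exact ⟨m, hm.2⟩
  have hq1 : 1 ≤ q := Fintype.card_pos
  have h2 : (2 : ZMod r) ≠ 0 := by
    intro h
    have : ((2 : ℕ) : ZMod r) = 0 := by exact_mod_cast h
    rw [ZMod.natCast_eq_zero_iff] at this
    exact hr ((Nat.prime_dvd_prime_iff_eq hrp Nat.prime_two).mp this)
  have hrq : ¬ r ∣ q := by
    intro h
    rw [hm2] at h
    exact hr ((Nat.prime_dvd_prime_iff_eq hrp Nat.prime_two).mp (hrp.dvd_of_dvd_pow h))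
  have hdvd : ∀ j, r ∣ q ^ j - 1 ↔ (q : ZMod r) ^ j = 1 := by
    intro j
    rw [← ZMod.natCast_eq_zero_iff, Nat.cast_sub (Nat.one_le_pow _ _ hq1), sub_eq_zero]
    push_cast
    rfl
  have hdvd2 : r ∣ q ^ 2 + 1 ↔ (q : ZMod r) ^ 2 + 1 = 0 := by
    rw [← ZMod.natCast_eq_zero_iff]
    push_cast
    rfl
  by_cases hrc : r ∣ Nat.card (Sz F θ)
  · rw [hcard] at hrc
    rcases (Nat.Prime.dvd_mul hrp).mp hrc with h | h
    · rcases (Nat.Prime.dvd_mul hrp).mp h with h | h
      · exact absurd (hrp.dvd_of_dvd_pow h) hrq
      · -- r ∣ q - 1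
        have hx : (q : ZMod r) = 1 := by
          have := (hdvd 1).mp (by simpa using h)
          simpa using this
        obtain ⟨c, hc⟩ := IsCyclic.exists_generator (α := Fˣ)
        have hoc : orderOf c = q - 1 := by
          rw [orderOf_eq_card_of_forall_mem_zpowers hc, Nat.card_eq_fintype_card,
            Fintype.card_units]
        obtain ⟨g, hg⟩ := exists_szM θ c
        have hog : orderOf g = q - 1 := by
          rw [← hoc]
          apply Nat.dvd_antisymm
          · rw [orderOf_dvd_iff_pow_eq_one]
            apply Subtype.ext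
            apply Units.ext
            push_cast
            rw [hg, szM_pow, pow_orderOf_eq_one]
            unfold szM
            rw [← Matrix.diagonal_one]
            congr 1
            ext i
            fin_cases i <;> simp
          · rw [orderOf_dvd_iff_pow_eq_one]
            apply szM_eq_one θ
            rw [← szM_pow, ← hg]
            have := pow_orderOf_eq_one g
            rw [← Units.val_pow_eq_pow_val, ← Subgroup.coe_pow, this]
            rfl
        have hq2 : 0 < q - 1 := by
          rw [← hoc]; exact orderOf_pos c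
        have hidx : (Subgroup.zpowers g).index = q ^ 2 * (q ^ 2 + 1) := by
          have h4 := (Subgroup.zpowers g).index_mul_card
          rw [Nat.card_zpowers, hog, hcard] at h4
          have : (Subgroup.zpowers g).index * (q - 1) = (q ^ 2 * (q ^ 2 + 1)) * (q - 1) := by
            rw [h4]; ring
          exact Nat.eq_of_mul_eq_mul_right hq2 this
        have hni : ¬ r ∣ (Subgroup.zpowers g).index := by
          rw [hidx]
          intro h5
          rcases (Nat.Prime.dvd_mul hrp).mp h5 with h6 | h6
          · exact hrq (hrp.dvd_of_dvd_pow h6)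
          · rw [hdvd2, hx] at h6
            apply h2
            linear_combination h6
        obtain ⟨y, k, hy1, hy2⟩ := cyclic_sylow_of_elt r g hni (by rw [hcard]; exact hrc)
        have hpg : IsPGroup r (Subgroup.zpowers y) := by
          apply IsPGroup.of_card (n := k + 1)
          rw [Nat.card_zpowers, hy1]
        let Q : Sylow r (Sz F θ) := hpg.toSylow hy2
        have hQ : IsCyclic Q := by
          change IsCyclic (Subgroup.zpowers y)
          infer_instance
        exact (MulEquiv.isCyclic (Sylow.equiv P Q)).mpr hQ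
    · -- r ∣ q ^ 2 + 1
      rw [hdvd2] at h
      refine cyclic_sylow_GL 4 (by norm_num) (Sz F θ).subtype (Subgroup.subtype_injective _) r
        hrq ?_ P
      intro j hj1 hj4 hj
      rw [← hq, hdvd] at hj
      interval_cases j
      · apply h2
        have hx : (q : ZMod r) = 1 := by simpa using hj
        rw [hx] at h
        linear_combination h
      · apply h2
        linear_combination h - hj
      · apply h2
        have e : (q : ZMod r) = -1 := by
          linear_combination (q : ZMod r) * h - hj
        rw [e] at h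
        linear_combination h
  · have : Nat.card P = 1 := by
      rw [Sylow.card_eq_multiplicity, Nat.factorization_eq_zero_of_not_dvd hrc, pow_zero]
    have : Subsingleton P := (Nat.card_eq_one_iff_unique.mp this).1
    infer_instance

end Pool.Agent.Helper495_SP
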