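import Mathlib
import Pool.Agent.Helper495_SP.SzDefs
import Pool.Agent.Helper495_SP.Z3
import Pool.Agent.Helper495_SP.Z4
set_option autoImplicit false
namespace Pool.Agent.Helper495_SP
open scoped Classical

/-! auxiliary lemmas -/

/-- number of points modulo r for a linear map of order dividing r -/
theorem z6_count {F V : Type*} [Field F] [Fintype F] [AddCommGroup V] [Module F V]
    [Module.Finite F V] (T : V →ₗ[F] V) {r : ℕ} (hr : r.Prime) (hT : T ^ r = 1) :
    Fintype.card F ^ Module.finrank F V ≡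
      Fintype.card F ^ Module.finrank F (LinearMap.ker (T - 1)) [MOD r] := by
  have hfin : Finite V := Module.finite_of_finite F
  have : Fintype V := Fintype.ofFinite V
  have : Fact r.Prime := ⟨hr⟩
  let f : Function.End V := (T : V → V)
  have hf : f ^ r ^ 1 = 1 := by
    rw [pow_one]
    have h1 : ∀ n : ℕ, ∀ v, (f ^ n) v = (T ^ n) v := by
      intro n
      induction n with
      | zero => intro v; rfl
      | succ n ih =>
        intro v
        rw [pow_succ, pow_succ]
        exact ih (T v)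
    funext v
    rw [h1, hT]
    rfl
  have h := Equiv.Perm.card_fixedPoints_modEq hf
  have h2 : Fintype.card V = Fintype.card F ^ Module.finrank F V :=
    Module.card_eq_pow_finrank
  have h3 : Fintype.card (Function.fixedPoints f) =
      Fintype.card F ^ Module.finrank F (LinearMap.ker (T - 1)) := by
    rw [← Nat.card_eq_fintype_card, ← Nat.card_eq_fintype_card (α := F),
      ← Module.natCard_eq_pow_finrank (K := F)]
    refine Nat.card_congr (Equiv.setCongr ?_)
    ext v
    show T v = v ↔ v ∈ LinearMap.ker (T - 1)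
    rw [LinearMap.mem_ker, LinearMap.sub_apply, sub_eq_zero]
    rfl
  rw [h2, h3] at h
  exact h

theorem z6_exp {q r e : ℕ} (hr : r.Prime) (hr2 : r ≠ 2) (hd : r ∣ q ^ 2 + 1) (he : e ≤ 4)
    (h : q ^ e ≡ 1 [MOD r]) : e = 0 ∨ e = 4 := by
  have : Fact r.Prime := ⟨hr⟩
  have h1 : ((q : ZMod r) ^ 2 + 1) = 0 := by
    have := (ZMod.natCast_eq_zero_iff (q ^ 2 + 1) r).2 hd
    push_cast at this
    exact this
  have h2 : (q : ZMod r) ^ e = 1 := by
    have := (ZMod.natCast_eq_natCast_iff _ _ _).2 h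
    push_cast at this
    exact this
  have h20 : (2 : ZMod r) ≠ 0 := by
    intro hcon
    have h3 : r ∣ 2 := (ZMod.natCast_eq_zero_iff 2 r).1 (by exact_mod_cast hcon)
    exact hr2 ((Nat.prime_dvd_prime_iff_eq hr Nat.prime_two).1 h3)
  have h3 : (q : ZMod r) ^ 2 = -1 := by linear_combination h1
  interval_cases e
  · left; rfl
  · exfalso
    rw [pow_one] at h2
    rw [h2] at h3
    apply h20
    linear_combination h3
  · exfalso
    rw [h3] at h2
    apply h20
    linear_combination -h2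
  · exfalso
    have h4 : (q : ZMod r) = -1 := by
      have : (q : ZMod r) ^ 3 = q * q ^ 2 := by ring
      rw [this, h3] at h2
      linear_combination -h2
    rw [h4] at h3
    apply h20
    linear_combination h3
  · right; rfl

/-- irreducibility -/
theorem z6_irred {F V : Type*} [Field F] [Fintype F] [AddCommGroup V] [Module F V]
    [Module.Finite F V] (hV : Module.finrank F V = 4) (T : V →ₗ[F] V) {r : ℕ} (hr : r.Prime)
    (hr2 : r ≠ 2) (hd : r ∣ Fintype.card F ^ 2 + 1) (hT : T ^ r = 1) (hT1 : T ≠ 1)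
    (W : Submodule F V) (hW : ∀ w ∈ W, T w ∈ W) : W = ⊥ ∨ W = ⊤ := by
  have hq4 : Fintype.card F ^ 4 ≡ 1 [MOD r] := by
    have : Fintype.card F ^ 4 = (Fintype.card F ^ 2 + 1) * (Fintype.card F ^ 2 - 1) + 1 := by
      obtain ⟨k, hk⟩ : ∃ k, Fintype.card F ^ 2 = k + 1 :=
        ⟨Fintype.card F ^ 2 - 1, by have := Nat.pos_of_ne_zero (pow_ne_zero 2
          (Fintype.card_ne_zero (α := F))); omega⟩
      have e : Fintype.card F ^ 4 = (Fintype.card F ^ 2) ^ 2 := by ring
      rw [e, hk, Nat.add_sub_cancel]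
      ring
    rw [this]
    have h1 : (Fintype.card F ^ 2 + 1) * (Fintype.card F ^ 2 - 1) ≡ 0 [MOD r] :=
      (Nat.modEq_zero_iff_dvd).2 (Dvd.dvd.mul_right hd _)
    exact h1.add_right 1
  have hker : LinearMap.ker (T - 1) = ⊥ := by
    have h1 := z6_count T hr hT
    rw [hV] at h1
    have h2 : Module.finrank F (LinearMap.ker (T - 1)) ≤ 4 := by
      rw [← hV]
      exact Submodule.finrank_le _
    rcases z6_exp hr hr2 hd h2 (h1.symm.trans hq4) with h3 | h3
    · exact Submodule.finrank_eq_zero.1 h3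
    · exfalso
      apply hT1
      have h4 : LinearMap.ker (T - 1) = ⊤ := Submodule.eq_top_of_finrank_eq (by rw [h3, hV])
      rw [LinearMap.ker_eq_top, sub_eq_zero] at h4
      exact h4
  have hd2 : Module.finrank F W ≤ 4 := by
    rw [← hV]
    exact Submodule.finrank_le _
  set T' : W →ₗ[F] W := T.restrict hW with hT'
  have hT'r : T' ^ r = 1 := by
    have h1 : ∀ n : ℕ, ∀ w : W, (((T' ^ n) w : W) : V) = (T ^ n) (w : V) := by
      intro n
      induction n with
      | zero => intro v; rfl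
      | succ n ih =>
        intro v
        rw [pow_succ, pow_succ, Module.End.mul_apply, Module.End.mul_apply, ih]
        rfl
    ext w
    rw [h1, hT]
    rfl
  have hker' : Module.finrank F (LinearMap.ker (T' - 1)) = 0 := by
    rw [Submodule.finrank_eq_zero, Submodule.eq_bot_iff]
    intro w hw
    rw [LinearMap.mem_ker, LinearMap.sub_apply, sub_eq_zero] at hw
    have h1 : (w : V) ∈ LinearMap.ker (T - 1) := by
      rw [LinearMap.mem_ker, LinearMap.sub_apply, sub_eq_zero]
      exact congrArg Subtype.val hw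
    rw [hker, Submodule.mem_bot] at h1
    exact Subtype.ext h1
  have h5 := z6_count T' hr hT'r
  rw [hker', pow_zero] at h5
  rcases z6_exp hr hr2 hd hd2 h5 with h3 | h3
  · left
    exact Submodule.finrank_eq_zero.1 h3
  · right
    exact Submodule.eq_top_of_finrank_eq (by rw [h3, hV])

/-- the centraliser of an irreducible matrix has no zero divisors -/
theorem z6_dom {F : Type*} [Field F] [Fintype F] {A : Matrix (Fin 4) (Fin 4) F} {r : ℕ}
    (hr : r.Prime) (hr2 : r ≠ 2) (hd : r ∣ Fintype.card F ^ 2 + 1) (hA : A ^ r = 1) (hA1 : A ≠ 1)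
    {B C : Matrix (Fin 4) (Fin 4) F} (hB : B * A = A * B) (hBC : B * C = 0) :
    B = 0 ∨ C = 0 := by
  by_cases hB0 : B = 0
  · left; exact hB0
  right
  set T : (Fin 4 → F) →ₗ[F] (Fin 4 → F) := Matrix.toLin' A with hT
  have hTr : T ^ r = 1 := by
    rw [hT, ← Matrix.toLin'_pow, hA, Matrix.toLin'_one]
    rfl
  have hT1 : T ≠ 1 := by
    intro hcon
    apply hA1
    apply Matrix.toLin'.injective
    rw [Matrix.toLin'_one]
    exact hcon
  have hker := z6_irred (F := F) (V := Fin 4 → F) (by simp) T hr hr2 hd hTr hT1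
    (LinearMap.ker (Matrix.toLin' B)) (by
      intro w hw
      rw [LinearMap.mem_ker, Matrix.toLin'_apply] at hw ⊢
      rw [hT, Matrix.toLin'_apply, Matrix.mulVec_mulVec, hB, ← Matrix.mulVec_mulVec, hw,
        Matrix.mulVec_zero])
  rcases hker with h | h
  · have hinj : Function.Injective (Matrix.toLin' B) := LinearMap.ker_eq_bot.1 h
    apply Matrix.toLin'.injective
    refine LinearMap.ext fun v => hinj ?_
    rw [map_zero, LinearMap.zero_apply, map_zero, Matrix.toLin'_apply, Matrix.toLin'_apply,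
      Matrix.mulVec_mulVec, hBC, Matrix.zero_mulVec]
  · exfalso
    apply hB0
    apply Matrix.toLin'.injective
    rw [map_zero]
    exact LinearMap.ker_eq_top.1 h

theorem z6_comm {F : Type*} [Field F] [Fintype F] {A : Matrix (Fin 4) (Fin 4) F} {r : ℕ}
    (hr : r.Prime) (hr2 : r ≠ 2) (hd : r ∣ Fintype.card F ^ 2 + 1) (hA : A ^ r = 1) (hA1 : A ≠ 1)
    {B C : Matrix (Fin 4) (Fin 4) F} (hB : B * A = A * B) (hC : C * A = A * C) :
    B * C = C * B := by
  have hmem : ∀ D : Matrix (Fin 4) (Fin 4) F, D ∈ Subring.centralizer {A} ↔ D * A = A * D := by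
    intro D
    rw [Subring.mem_centralizer_iff]
    simp only [Set.mem_singleton_iff, forall_eq]
    exact eq_comm
  have hnt : Nontrivial (Subring.centralizer {A}) := inferInstance
  have hnz : NoZeroDivisors (Subring.centralizer {A}) := by
    constructor
    intro D E hDE
    have h1 := z6_dom hr hr2 hd hA hA1 ((hmem D.1).1 D.2) (congrArg Subtype.val hDE)
    rcases h1 with h | h
    · left; exact Subtype.ext h
    · right; exact Subtype.ext h
  have hdom : IsDomain (Subring.centralizer {A}) := NoZeroDivisors.to_isDomain _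
  have hfld := Finite.isDomain_to_isField (Subring.centralizer {A})
  have h2 := hfld.mul_comm ⟨B, (hmem B).2 hB⟩ ⟨C, (hmem C).2 hC⟩
  exact congrArg Subtype.val h2

theorem z6_inv {F : Type*} [Field F] [Fintype F] [CharP F 2] {A : Matrix (Fin 4) (Fin 4) F}
    {r : ℕ} (hr : r.Prime) (hr2 : r ≠ 2) (hd : r ∣ Fintype.card F ^ 2 + 1) (hA : A ^ r = 1)
    (hA1 : A ≠ 1) {B : Matrix (Fin 4) (Fin 4) F} (hB : B * A = A * B) (h2 : B * B = 1) :
    B = 1 := by
  have h3 : (B - 1) * (B - 1) = 0 := by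
    have h4 : (B - 1) * (B - 1) = (1 + 1) - (B + B) := by
      rw [sub_mul, mul_sub, mul_sub, h2]
      simp only [mul_one, one_mul]
      abel
    have h5 : ∀ D : Matrix (Fin 4) (Fin 4) F, D + D = 0 := by
      intro D
      ext i j
      exact CharTwo.add_self_eq_zero _
    rw [h4, h5, h5, sub_zero]
  have h4 : (B - 1) * A = A * (B - 1) := by
    rw [sub_mul, mul_sub, hB, one_mul, mul_one]
  rcases z6_dom hr hr2 hd hA hA1 h4 h3 with h | h
  · exact sub_eq_zero.1 h
  · exact sub_eq_zero.1 h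

/-- matrices commuting with a diagonal matrix with distinct entries -/
theorem z6_diag {F : Type*} [Field F] {d : Fin 4 → F} (hd : Function.Injective d)
    {B : Matrix (Fin 4) (Fin 4) F} (hB : B * Matrix.diagonal d = Matrix.diagonal d * B) :
    B = Matrix.diagonal (fun i => B i i) := by
  ext i j
  rw [Matrix.diagonal_apply]
  split_ifs with h
  · rw [h]
  · have h1 := congrFun (congrFun hB i) j
    rw [Matrix.mul_diagonal, Matrix.diagonal_mul] at h1
    have h2 : B i j * (d j - d i) = 0 := by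
      rw [mul_sub, h1]
      ring
    rcases mul_eq_zero.1 h2 with h3 | h3
    · exact h3
    · exact absurd (hd (sub_eq_zero.1 h3)).symm h

theorem z6_inj {F : Type*} [Field F] [CharP F 2] (θ : F →+* F) (hθ : ∀ x, θ (θ x) = x ^ 2)
    (μ : Fˣ) (hμ : μ ≠ 1) :
    Function.Injective ![(μ : F) * θ μ, (μ : F), (μ : F)⁻¹, ((μ : F) * θ μ)⁻¹] := by
  have h0 : (μ : F) ≠ 0 := μ.ne_zero
  have h0' : θ (μ : F) ≠ 0 := (map_ne_zero θ).2 h0
  have h1 : (μ : F) ≠ 1 := fun h => hμ (Units.ext h)
  have hsq : ∀ x : F, x ^ 2 = 1 → x = 1 := by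
    intro x hx
    have : (x - 1) ^ 2 = 0 := by
      have h2 : (2 : F) = 0 := CharTwo.two_eq_zero
      linear_combination hx + (1 - x) * h2
    exact sub_eq_zero.1 (pow_eq_zero_iff (two_ne_zero) |>.1 this)
  have k1 : θ (μ : F) ≠ 1 := by
    intro h
    have h2 := hθ μ
    rw [h, map_one] at h2
    exact h1 (hsq _ h2.symm)
  have k2 : (μ : F) * θ μ ≠ 1 := by
    intro h
    have h2 := congrArg θ h
    rw [map_mul, hθ, map_one] at h2
    apply h1
    have h3 : θ (μ : F) * (μ : F) ^ 2 = (μ : F) * (μ * θ μ) := by ring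
    rw [h3, h, mul_one] at h2
    exact h2
  have k3 : (μ : F) ^ 2 * θ μ ≠ 1 := by
    intro h
    have h2 := congrArg θ h
    rw [map_mul, map_pow, hθ, map_one] at h2
    apply k2
    apply hsq
    rw [← h2]
    ring
  have k4 : (μ : F) ^ 2 ≠ 1 := fun h => h1 (hsq _ h)
  have k5 : ((μ : F) * θ μ) ^ 2 ≠ 1 := fun h => k2 (hsq _ h)
  have e01 : (μ : F) * θ μ ≠ μ := by
    intro h
    exact k1 (mul_left_cancel₀ h0 (h.trans (mul_one _).symm))
  have e02 : (μ : F) * θ μ ≠ (μ : F)⁻¹ := by
    intro h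
    apply k3
    have : (μ : F) ^ 2 * θ μ = μ * (μ * θ μ) := by ring
    rw [this, h, mul_inv_cancel₀ h0]
  have e03 : (μ : F) * θ μ ≠ ((μ : F) * θ μ)⁻¹ := by
    intro h
    apply k5
    rw [sq]
    nth_rewrite 2 [h]
    exact mul_inv_cancel₀ (mul_ne_zero h0 h0')
  have e12 : (μ : F) ≠ (μ : F)⁻¹ := by
    intro h
    apply k4
    rw [sq]
    nth_rewrite 2 [h]
    exact mul_inv_cancel₀ h0
  have e13 : (μ : F) ≠ ((μ : F) * θ μ)⁻¹ := by
    intro h
    apply k3
    have : (μ : F) ^ 2 * θ μ = (μ * θ μ) * μ := by ring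
    rw [this]
    nth_rewrite 3 [h]
    exact mul_inv_cancel₀ (mul_ne_zero h0 h0')
  have e23 : (μ : F)⁻¹ ≠ ((μ : F) * θ μ)⁻¹ := by
    intro h
    exact e01 (inv_injective h).symm
  intro i j hij
  fin_cases i <;> fin_cases j <;>
    first
      | rfl
      | exact absurd hij e01
      | exact absurd hij e02
      | exact absurd hij e03
      | exact absurd hij e12
      | exact absurd hij e13
      | exact absurd hij e23
      | exact absurd hij.symm e01
      | exact absurd hij.symm e02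
      | exact absurd hij.symm e03
      | exact absurd hij.symm e12
      | exact absurd hij.symm e13
      | exact absurd hij.symm e23

theorem z6_szM_mul {F : Type*} [Field F] (θ : F →+* F) (μ ν : Fˣ) :
    szM θ μ * szM θ ν = szM θ (μ * ν) := by
  unfold szM
  rw [Matrix.diagonal_mul_diagonal]
  congr 1
  funext i
  fin_cases i
  · show (μ : F) * θ μ * ((ν : F) * θ ν) = ((μ * ν : Fˣ) : F) * θ ((μ * ν : Fˣ) : F)
    push_cast
    rw [map_mul]
    ring
  · show (μ : F) * (ν : F) = ((μ * ν : Fˣ) : F)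
    push_cast
    rfl
  · show (μ : F)⁻¹ * (ν : F)⁻¹ = (((μ * ν : Fˣ) : F))⁻¹
    push_cast
    rw [mul_inv]
  · show ((μ : F) * θ μ)⁻¹ * ((ν : F) * θ ν)⁻¹ = (((μ * ν : Fˣ) : F) * θ ((μ * ν : Fˣ) : F))⁻¹
    push_cast
    rw [map_mul, ← mul_inv]
    congr 1
    ring

theorem z6_szM_one {F : Type*} [Field F] (θ : F →+* F) : szM θ 1 = 1 := by
  unfold szM
  rw [← Matrix.diagonal_one]
  congr 1
  funext i
  fin_cases i <;> simp

/-- the diagonal elements as elements of the general linear group -/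
noncomputable def z6_u {F : Type*} [Field F] (θ : F →+* F) (μ : Fˣ) :
    Matrix.GeneralLinearGroup (Fin 4) F :=
  ⟨szM θ μ, szM θ μ⁻¹, by rw [z6_szM_mul, mul_inv_cancel, z6_szM_one],
    by rw [z6_szM_mul, inv_mul_cancel, z6_szM_one]⟩

theorem z6_u_mem {F : Type*} [Field F] (θ : F →+* F) (μ : Fˣ) : z6_u θ μ ∈ Sz F θ :=
  Subgroup.subset_closure (Or.inr (Or.inl ⟨μ, rfl⟩))

/-- the diagonal subgroup -/
noncomputable def z6_hom {F : Type*} [Field F] (θ : F →+* F) : Fˣ →* Sz F θ where
  toFun μ := ⟨z6_u θ μ, z6_u_mem θ μ⟩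
  map_one' := by
    apply Subtype.ext
    apply Units.ext
    exact z6_szM_one θ
  map_mul' μ ν := by
    apply Subtype.ext
    apply Units.ext
    exact (z6_szM_mul θ μ ν).symm

theorem z6_hom_inj {F : Type*} [Field F] (θ : F →+* F) : Function.Injective (z6_hom θ) := by
  intro μ ν h
  have h1 : szM θ μ = szM θ ν := congrArg (fun g : Sz F θ =>
    ((g : Matrix.GeneralLinearGroup (Fin 4) F) : Matrix (Fin 4) (Fin 4) F)) h
  have h2 := congrFun (congrFun h1 1) 1
  unfold szM at h2
  rw [Matrix.diagonal_apply_eq, Matrix.diagonal_apply_eq] at h2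
  exact Units.ext h2

theorem sz_centralizer (F : Type*) [Field F] [Fintype F] [CharP F 2] (θ : F →+* F)
    (hθ : ∀ x, θ (θ x) = x ^ 2) (x : Sz F θ) (r : ℕ) (hr : r.Prime) (hr2 : r ≠ 2)
    (hx : orderOf x = r) :
    (∀ g h : Sz F θ, Commute g x → Commute h x → Commute g h) ∧
      (∀ g : Sz F θ, Commute g x → ¬ 2 ∣ orderOf g) := by
  have hfact : Fact r.Prime := ⟨hr⟩
  have hfinG : Finite (Sz F θ) := inferInstance
  have hcard := card_Sz F θ hθ
  have hdvd : r ∣ Nat.card (Sz F θ) := hx ▸ orderOf_dvd_natCard x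
  rw [hcard] at hdvd
  obtain ⟨n, -, hqn⟩ := FiniteField.card F 2
  have hq2 : 1 < Fintype.card F := Fintype.one_lt_card
  have hrq : ¬ r ∣ Fintype.card F := by
    intro h
    rw [hqn] at h
    exact hr2 ((Nat.prime_dvd_prime_iff_eq hr Nat.prime_two).1 (hr.dvd_of_dvd_pow h))
  have hinj : ∀ g h : Sz F θ, (g.1 : Matrix (Fin 4) (Fin 4) F) = h.1 → g = h :=
    fun g h e => Subtype.ext (Units.ext e)
  have hmul : ∀ g h : Sz F θ, ((g * h).1 : Matrix (Fin 4) (Fin 4) F) = g.1 * h.1 :=
    fun g h => rfl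
  have hpow : ∀ (g : Sz F θ) (k : ℕ), ((g ^ k).1 : Matrix (Fin 4) (Fin 4) F) = (g.1 : Matrix
    (Fin 4) (Fin 4) F) ^ k := fun g k => rfl
  have hone : ((1 : Sz F θ).1 : Matrix (Fin 4) (Fin 4) F) = 1 := rfl
  have hcomm : ∀ g y : Sz F θ, Commute g y →
      (g.1 : Matrix (Fin 4) (Fin 4) F) * y.1 = y.1 * g.1 := by
    intro g y hg
    rw [← hmul, hg.eq, hmul]
  have hx1 : x ≠ 1 := by
    rintro rfl
    rw [orderOf_one] at hx
    exact hr.one_lt.ne hx
  by_cases hA : r ∣ Fintype.card F ^ 2 + 1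
  · have hAr : (x.1 : Matrix (Fin 4) (Fin 4) F) ^ r = 1 := by
      rw [← hpow, ← hx, pow_orderOf_eq_one, hone]
    have hA1 : (x.1 : Matrix (Fin 4) (Fin 4) F) ≠ 1 := by
      intro h
      exact hx1 (hinj x 1 h)
    constructor
    · intro g h hg hh
      apply hinj
      rw [hmul, hmul]
      exact z6_comm hr hr2 hA hAr hA1 (hcomm g x hg) (hcomm h x hh)
    · rintro g hg ⟨k, hk⟩
      have hy : (g ^ k) * (g ^ k) = 1 := by
        rw [← pow_add, ← two_mul, ← hk, pow_orderOf_eq_one]
      have hy1 : g ^ k = 1 := by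
        apply hinj
        refine z6_inv hr hr2 hA hAr hA1 (hcomm _ x (hg.pow_left k)) ?_
        rw [← hmul, hy, hone]
      have h3 : orderOf g ∣ k := orderOf_dvd_of_pow_eq_one hy1
      have h4 := orderOf_pos g
      have h5 := Nat.le_of_dvd (by omega) h3
      omega
  · have hrq1 : r ∣ Fintype.card F - 1 := by
      rcases (Nat.Prime.dvd_mul hr).1 hdvd with h | h
      · rcases (Nat.Prime.dvd_mul hr).1 h with h' | h'
        · exact absurd (hr.dvd_of_dvd_pow h') hrq
        · exact h'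
      · exact absurd h hA
    set D : Subgroup (Sz F θ) := (z6_hom θ).range with hD
    have hDc : Nat.card D = Fintype.card F - 1 := by
      rw [← Nat.card_eq_fintype_card, ← Nat.card_units F]
      exact (Nat.card_congr (MonoidHom.ofInjective (z6_hom_inj θ)).toEquiv).symm
    have hnd : ¬ r ∣ Nat.card (Sz F θ ⧸ D) := by
      intro h
      have h1 := D.index_mul_card
      rw [hDc, hcard, Subgroup.index_eq_card] at h1
      have h2 : Nat.card (Sz F θ ⧸ D) = Fintype.card F ^ 2 * (Fintype.card F ^ 2 + 1) := by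
        refine Nat.eq_of_mul_eq_mul_right (show 0 < Fintype.card F - 1 by omega) ?_
        rw [h1]
        ring
      rw [h2] at h
      rcases (Nat.Prime.dvd_mul hr).1 h with h' | h'
      · exact hrq (hr.dvd_of_dvd_pow h')
      · exact hA h'
    have hp : IsPGroup r (Subgroup.zpowers x) :=
      IsPGroup.of_card (n := 1) (by rw [Nat.card_zpowers, hx, pow_one])
    obtain ⟨y, hy⟩ := hp.nonempty_fixed_point_of_prime_not_dvd_card (Sz F θ ⧸ D) hnd
    obtain ⟨g, rfl⟩ := QuotientGroup.mk_surjective y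
    have h1 : ((x * g : Sz F θ) : Sz F θ ⧸ D) = (g : Sz F θ ⧸ D) :=
      hy ⟨x, Subgroup.mem_zpowers x⟩
    have h2 : g⁻¹ * x * g ∈ D := by
      have h3 := QuotientGroup.eq.1 h1.symm
      rwa [← mul_assoc] at h3
    obtain ⟨μ, hμ⟩ := h2
    have hμ1 : μ ≠ 1 := by
      rintro rfl
      rw [map_one] at hμ
      apply hx1
      calc x = g * (g⁻¹ * x * g) * g⁻¹ := by group
        _ = 1 := by rw [← hμ]; group
    have hxm : ((g⁻¹ * x * g).1 : Matrix (Fin 4) (Fin 4) F) = szM θ μ := by
      rw [← hμ]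
      rfl
    have hdg : ∀ k, Commute k x → ((g⁻¹ * k * g).1 : Matrix (Fin 4) (Fin 4) F) =
        Matrix.diagonal (fun i => ((g⁻¹ * k * g).1 : Matrix (Fin 4) (Fin 4) F) i i) := by
      intro k hk
      refine z6_diag (z6_inj θ hθ μ hμ1) ?_
      have h3 : Commute (g⁻¹ * k * g) (g⁻¹ * x * g) := by
        show g⁻¹ * k * g * (g⁻¹ * x * g) = g⁻¹ * x * g * (g⁻¹ * k * g)
        calc g⁻¹ * k * g * (g⁻¹ * x * g) = g⁻¹ * (k * x) * g := by group
          _ = g⁻¹ * (x * k) * g := by rw [hk.eq]
          _ = g⁻¹ * x * g * (g⁻¹ * k * g) := by group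
      have h4 := hcomm _ _ h3
      rw [hxm] at h4
      exact h4
    constructor
    · intro k l hk hl
      have h3 : (g⁻¹ * k * g) * (g⁻¹ * l * g) = (g⁻¹ * l * g) * (g⁻¹ * k * g) := by
        apply hinj
        rw [hmul _ (g⁻¹ * l * g), hmul _ (g⁻¹ * k * g), hdg k hk, hdg l hl,
          Matrix.diagonal_mul_diagonal, Matrix.diagonal_mul_diagonal]
        congr 1
        funext i
        exact mul_comm _ _
      show k * l = l * k
      calc k * l = g * ((g⁻¹ * k * g) * (g⁻¹ * l * g)) * g⁻¹ := by group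
        _ = g * ((g⁻¹ * l * g) * (g⁻¹ * k * g)) * g⁻¹ := by rw [h3]
        _ = l * k := by group
    · intro k hk h2
      have h3 : (g⁻¹ * k * g) ^ (Fintype.card F - 1) = 1 := by
        apply hinj
        rw [hpow, hdg k hk, Matrix.diagonal_pow, hone, ← Matrix.diagonal_one]
        congr 1
        funext i
        have h4 : ((g⁻¹ * k * g).1 : Matrix (Fin 4) (Fin 4) F) *
            ((g⁻¹ * k * g)⁻¹).1 = 1 := by
          rw [← hmul, mul_inv_cancel, hone]
        have h5 := congrFun (congrFun h4 i) i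
        rw [hdg k hk, Matrix.diagonal_mul, Matrix.one_apply_eq] at h5
        refine FiniteField.pow_card_sub_one_eq_one _ ?_
        intro h6
        have h7 := congrArg (fun z : F => z * ((g⁻¹ * k * g)⁻¹).1 i i) h6
        have h8 : (0 : F) * ((g⁻¹ * k * g)⁻¹).1 i i = 1 := h7.symm.trans h5
        rw [zero_mul] at h8
        exact zero_ne_one h8
      have h4 : k ^ (Fintype.card F - 1) = 1 := by
        have h5 : k = g * (g⁻¹ * k * g) * g⁻¹ := by group
        rw [h5, conj_pow, h3]
        group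
      have h5 : 2 ∣ Fintype.card F - 1 := h2.trans (orderOf_dvd_of_pow_eq_one h4)
      have h6 : 2 ∣ Fintype.card F := by
        rw [hqn]
        exact dvd_pow_self 2 n.ne_zero
      omega

end Pool.Agent.Helper495_SP

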