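import Mathlib
import Pool.Agent.Helper495_SP.SzDefs
import Pool.Agent.Helper495_SP.Cyc
import Pool.Agent.Helper495_SP.TI
import Pool.Agent.Helper495_SP.P4
import Pool.Agent.Helper495_SP.Z5
import Pool.Agent.Helper495_SP.Z6
import Pool.Agent.Helper495_SP.Q1
import Pool.Agent.Helper495_SP.Q2
import Pool.Agent.Helper495_SP.Q3
set_option autoImplicit false

/-!
The prime graph question and the spectrum problem for `PSL(2, q)` and for the Suzuki groups.
-/

namespace Pool.Agent.Helper495_SP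


/-- distinct primes, one with cyclic Sylow subgroups -/
theorem pq_of_cyclic {G : Type*} [Group G] [Finite G] (r s : ℕ) (hr : r.Prime) (hs : s.Prime)
    (hrs : r ≠ s) (hcyc : (∀ P : Sylow r G, IsCyclic P) ∨ (∀ P : Sylow s G, IsCyclic P))
    (u : (MonoidAlgebra ℤ G)ˣ)
    (haug : MonoidAlgebra.lift ℤ ℤ G (1 : G →* ℤ) (u : MonoidAlgebra ℤ G) = 1)
    (hu : orderOf u = r * s) : ∃ g : G, orderOf g = r * s := by
  rcases hcyc with h | h
  · have := cyc_order r s 1 hr hs hrs le_rfl h u haug (by rw [pow_one, hu])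
    simpa using this
  · have := cyc_order s r 1 hs hr hrs.symm le_rfl h u haug (by rw [pow_one, hu, mul_comm])
    simpa [mul_comm] using this

/-- **Theorem.** The prime graph question for `PSL(2, q)`. -/
theorem pq_PSL2 (F : Type*) [Field F] [Finite F] (r s : ℕ) (hr : r.Prime) (hs : s.Prime)
    (hrs : r ≠ s) (u : (MonoidAlgebra ℤ (Matrix.ProjectiveSpecialLinearGroup (Fin 2) F))ˣ)
    (haug : MonoidAlgebra.lift ℤ ℤ (Matrix.ProjectiveSpecialLinearGroup (Fin 2) F)
      (1 : Matrix.ProjectiveSpecialLinearGroup (Fin 2) F →* ℤ)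
      (u : MonoidAlgebra ℤ (Matrix.ProjectiveSpecialLinearGroup (Fin 2) F)) = 1)
    (hu : orderOf u = r * s) :
    ∃ g : Matrix.ProjectiveSpecialLinearGroup (Fin 2) F, orderOf g = r * s := by
  haveI := Fintype.ofFinite F
  obtain ⟨t, ht⟩ := CharP.exists F
  have htp : t.Prime := CharP.char_prime_of_ne_zero F (CharP.char_ne_zero_of_finite F t)
  haveI : Fact t.Prime := ⟨htp⟩
  obtain ⟨φ, hφ, hSyl, hC, a, σ, ha, hσ, hN⟩ := unipotent_PSL2 F t
  by_cases h1 : r = t
  · subst h1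
    exact absurd hu (ti_order hr φ hφ hSyl hC a ha σ hσ hN s hs hrs u haug)
  by_cases h2 : s = t
  · subst h2
    rw [mul_comm] at hu
    exact absurd hu (ti_order hs φ hφ hSyl hC a ha σ hσ hN r hr (Ne.symm hrs) u haug)
  refine pq_of_cyclic r s hr hs hrs ?_ u haug hu
  by_cases h3 : r = 2
  · right
    intro P
    haveI : Fact s.Prime := ⟨hs⟩
    exact odd_cyclic_PSL2 F t s (fun h => hrs (h3.trans h.symm)) h2 P
  · left
    intro P
    haveI : Fact r.Prime := ⟨hr⟩
    exact odd_cyclic_PSL2 F t r h3 h1 P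

/-- **Theorem.** The spectrum problem for `PSL(2, q)`. -/
theorem sp_PSL2 (F : Type*) [Field F] [Finite F] :
    {n : ℕ | ∃ g : Matrix.ProjectiveSpecialLinearGroup (Fin 2) F, orderOf g = n} =
      {n : ℕ | ∃ u : (MonoidAlgebra ℤ (Matrix.ProjectiveSpecialLinearGroup (Fin 2) F))ˣ,
        MonoidAlgebra.lift ℤ ℤ (Matrix.ProjectiveSpecialLinearGroup (Fin 2) F)
          (1 : Matrix.ProjectiveSpecialLinearGroup (Fin 2) F →* ℤ)
          (u : MonoidAlgebra ℤ (Matrix.ProjectiveSpecialLinearGroup (Fin 2) F)) = 1 ∧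
        IsOfFinOrder u ∧ orderOf u = n} := by
  haveI := Fintype.ofFinite F
  obtain ⟨t, ht⟩ := CharP.exists F
  haveI : Fact t.Prime :=
    ⟨CharP.char_prime_of_ne_zero F (CharP.char_ne_zero_of_finite F t)⟩
  exact sp_of_pq (fun n hn hA hB => spec_PSL2 F t n hn hA hB)
    (fun r s hr hs hrs u haug hu => pq_PSL2 F r s hr hs hrs u haug hu)

/-- **Theorem.** The prime graph question for the Suzuki groups. -/
theorem pq_Sz (F : Type*) [Field F] [Finite F] [CharP F 2] (θ : F →+* F)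
    (hθ : ∀ x, θ (θ x) = x ^ 2) (r s : ℕ) (hr : r.Prime) (hs : s.Prime)
    (hrs : r ≠ s) (u : (MonoidAlgebra ℤ (Sz F θ))ˣ)
    (haug : MonoidAlgebra.lift ℤ ℤ (Sz F θ) (1 : Sz F θ →* ℤ)
      (u : MonoidAlgebra ℤ (Sz F θ)) = 1)
    (hu : orderOf u = r * s) : ∃ g : Sz F θ, orderOf g = r * s := by
  haveI := Fintype.ofFinite F
  refine pq_of_cyclic r s hr hs hrs ?_ u haug hu
  by_cases h3 : r = 2
  · right
    intro P
    haveI : Fact s.Prime := ⟨hs⟩
    exact sz_cyclic_sylow F θ hθ s (fun h => hrs (h3.trans h.symm)) P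
  · left
    intro P
    haveI : Fact r.Prime := ⟨hr⟩
    exact sz_cyclic_sylow F θ hθ r h3 P

/-- **Theorem.** The spectrum problem for the Suzuki groups. -/
theorem sp_Sz (F : Type*) [Field F] [Finite F] [CharP F 2] (θ : F →+* F)
    (hθ : ∀ x, θ (θ x) = x ^ 2) :
    {n : ℕ | ∃ g : Sz F θ, orderOf g = n} =
      {n : ℕ | ∃ u : (MonoidAlgebra ℤ (Sz F θ))ˣ,
        MonoidAlgebra.lift ℤ ℤ (Sz F θ) (1 : Sz F θ →* ℤ) (u : MonoidAlgebra ℤ (Sz F θ)) = 1 ∧
        IsOfFinOrder u ∧ orderOf u = n} := by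
  haveI := Fintype.ofFinite F
  refine sp_of_pq (fun n hn hA hB => spec_of_centralizers ?_ ?_ n hn hA hB)
    (fun r s hr hs hrs u haug hu => pq_Sz F θ hθ r s hr hs hrs u haug hu)
  · intro x r hr hr2 hx
    exact sz_centralizer F θ hθ x r hr hr2 hx
  · intro r hr hr2 P
    haveI : Fact r.Prime := ⟨hr⟩
    exact sz_cyclic_sylow F θ hθ r hr2 P

end Pool.Agent.Helper495_SP
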